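import Mathlib

/-!
Non-vanishing of some binomial expressions modulo `p = 4 m + 3`.
-/

namespace Pool.Agent.PRank

set_option linter.unusedSectionVars false
set_option linter.unusedSimpArgs false
set_option linter.unusedVariables false

variable {k : Type*} [Field k] {p : ℕ} [Fact p.Prime] [CharP k p]

theorem cast_ne_zero_of_lt {n : ℕ} (h0 : n ≠ 0) (hn : n < p) : (n : k) ≠ 0 := by
  intro h
  rw [CharP.cast_eq_zero_iff k p] at h
  exact absurd (Nat.le_of_dvd (Nat.pos_of_ne_zero h0) h) (not_le.2 hn)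

theorem choose_cast_ne_zero {n i : ℕ} (hn : n < p) (hi : i ≤ n) : (n.choose i : k) ≠ 0 := by
  intro h
  rw [CharP.cast_eq_zero_iff k p] at h
  have h1 : n.choose i ∣ n.factorial := by
    rw [← Nat.choose_mul_factorial_mul_factorial hi, mul_assoc]
    exact dvd_mul_right _ _
  have h2 := (Nat.Prime.dvd_factorial (Fact.out : p.Prime)).1 (h.trans h1)
  omega

theorem neg_one_pow_ne_zero (n : ℕ) : ((-1 : k)) ^ n ≠ 0 :=
  pow_ne_zero _ (neg_ne_zero.2 one_ne_zero)

theorem five_cast_ne_zero {m : ℕ} (hp : p = 4 * m + 3) : (5 : k) ≠ 0 := by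
  intro h
  have h' : ((5 : ℕ) : k) = 0 := by exact_mod_cast h
  rw [CharP.cast_eq_zero_iff k p] at h'
  have := (Nat.prime_dvd_prime_iff_eq (Fact.out : p.Prime) (by norm_num)).1 h'
  omega

theorem four_m (m : ℕ) (hp : p = 4 * m + 3) : 4 * (m : k) + 3 = 0 := by
  have : ((4 * m + 3 : ℕ) : k) = 0 := by rw [← hp]; exact CharP.cast_eq_zero k p
  exact_mod_cast this

/-- `(a + 1) (n + 1 - a) C(n + 2, a + 1) = (n + 2) (n + 1) C(n, a)`. -/
theorem choose_step (n a : ℕ) (ha : a ≤ n) :
    (a + 1) * (n + 1 - a) * (n + 2).choose (a + 1) = (n + 2) * (n + 1) * n.choose a := by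
  have h1 : (n + 2).choose (a + 1) * (a + 1) = (n + 2) * (n + 1).choose a := by
    rw [← Nat.add_one_mul_choose_eq]
  have h2 : (n + 1).choose a * (n + 1 - a) = (n + 1) * n.choose a := by
    have := Nat.choose_mul_succ_eq n a
    rw [mul_comm (n + 1), this]
  calc (a + 1) * (n + 1 - a) * (n + 2).choose (a + 1)
      = ((n + 2).choose (a + 1) * (a + 1)) * (n + 1 - a) := by ring
    _ = (n + 2) * ((n + 1).choose a * (n + 1 - a)) := by rw [h1]; ring
    _ = (n + 2) * (n + 1) * n.choose a := by rw [h2]; ring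

theorem two_mul_choose_two (n : ℕ) : 2 * ((n + 1).choose 2 : k) = (n + 1) * n := by
  have h : 2 * (n + 1).choose 2 = (n + 1) * n := by
    rw [Nat.choose_two_right, Nat.add_sub_cancel, Nat.mul_div_cancel']
    rcases Nat.even_or_odd n with h | h
    · exact (h.two_dvd).mul_left _
    · exact (h.add_one.two_dvd).mul_right _
  have h' : ((2 * (n + 1).choose 2 : ℕ) : k) = (((n + 1) * n : ℕ) : k) := by rw [h]
  push_cast at h'
  exact h'

theorem det_ne_zero {m q : ℕ} (hp : p = 4 * m + 3) (hq : q ≤ 2 * m)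
    (hm : m = 3 * q + 1 ∨ m = 3 * q + 2) :
    ((3 * m + 2).choose 2 : k) * ((2 * m + 2).choose (q + 1) : k) * ((2 * m).choose m : k)
      - ((m + 1).choose 2 : k) * ((2 * m + 2).choose (m + 1) : k) * ((2 * m).choose q : k) ≠ 0 := by
  intro h0
  have h4 := four_m (k := k) m hp
  have e1 : ((q : k) + 1) * (2 * m + 1 - q) * ((2 * m + 2).choose (q + 1) : k)
      = (2 * m + 2) * (2 * m + 1) * ((2 * m).choose q : k) := by
    have h := choose_step (2 * m) q hq
    have h' : (((q + 1) * (2 * m + 1 - q) * (2 * m + 2).choose (q + 1) : ℕ) : k)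
        = (((2 * m + 2) * (2 * m + 1) * (2 * m).choose q : ℕ) : k) := by rw [h]
    rw [Nat.cast_mul, Nat.cast_mul, Nat.cast_sub (by omega)] at h'
    push_cast at h'
    exact h'
  have e2 : ((m : k) + 1) * (m + 1) * ((2 * m + 2).choose (m + 1) : k)
      = (2 * m + 2) * (2 * m + 1) * ((2 * m).choose m : k) := by
    have h := choose_step (2 * m) m (by omega)
    have h' : (((m + 1) * (2 * m + 1 - m) * (2 * m + 2).choose (m + 1) : ℕ) : k)
        = (((2 * m + 2) * (2 * m + 1) * (2 * m).choose m : ℕ) : k) := by rw [h]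
    rw [Nat.cast_mul, Nat.cast_mul, Nat.cast_sub (by omega)] at h'
    push_cast at h'
    rw [show (2 * (m : k) + 1 - m) = m + 1 by ring] at h'
    exact h'
  have e3 := two_mul_choose_two (k := k) (3 * m + 1)
  have e4 := two_mul_choose_two (k := k) m
  push_cast at e3
  have e3' : 2 * ((3 * m + 2).choose 2 : k) = (3 * m + 2) * (3 * m + 1) := by
    rw [show 3 * m + 2 = 3 * m + 1 + 1 by ring, e3]; ring
  -- the bracket
  set c := ((3 * m + 2).choose 2 : k)
  set d := ((m + 1).choose 2 : k)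
  set a1 := ((2 * m + 2).choose (q + 1) : k)
  set a2 := ((2 * m + 2).choose (m + 1) : k)
  set b1 := ((2 * m).choose q : k) with hb1
  set b2 := ((2 * m).choose m : k) with hb2
  have hmain : (2 * (m : k) + 2) * (2 * m + 1) * b1 * b2
      * ((3 * m + 2) * (3 * m + 1) * (m + 1) ^ 2 - (m + 1) * m * ((q + 1) * (2 * m + 1 - q)))
      = 0 := by
    linear_combination (2 * ((q : k) + 1) * (2 * m + 1 - q) * (m + 1) ^ 2) * h0
      - (2 * c * b2 * ((m : k) + 1) ^ 2) * e1 + (2 * d * b1 * ((q : k) + 1) * (2 * m + 1 - q)) * e2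
      - ((2 * (m : k) + 2) * (2 * m + 1) * b1 * b2 * (m + 1) ^ 2) * e3'
      + ((2 * (m : k) + 2) * (2 * m + 1) * b1 * b2 * ((q : k) + 1) * (2 * m + 1 - q)) * e4
  have hb1' : b1 ≠ 0 := choose_cast_ne_zero (p := p) (by omega) hq
  have hb2' : b2 ≠ 0 := choose_cast_ne_zero (p := p) (by omega) (by omega)
  have hm1 : (2 * (m : k) + 2) ≠ 0 := by
    have := cast_ne_zero_of_lt (k := k) (p := p) (n := 2 * m + 2) (by omega) (by omega)
    exact_mod_cast this
  have hm2 : (2 * (m : k) + 1) ≠ 0 := by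
    have := cast_ne_zero_of_lt (k := k) (p := p) (n := 2 * m + 1) (by omega) (by omega)
    exact_mod_cast this
  have hbr : ((3 * (m : k) + 2) * (3 * m + 1) * (m + 1) ^ 2
      - (m + 1) * m * ((q + 1) * (2 * m + 1 - q))) = 0 := by
    rcases mul_eq_zero.1 hmain with h | h
    · exact absurd h (mul_ne_zero (mul_ne_zero (mul_ne_zero hm1 hm2) hb1') hb2')
    · exact h
  have h5 : (5 : k) = 0 := by
    rcases hm with hm | hm
    · have hmk : (m : k) = 3 * q + 1 := by rw [hm]; push_cast; ring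
      rw [hmk] at hbr h4
      linear_combination 192 * hbr - (10944 * (q : k) ^ 3 + 18960 * q ^ 2 + 10812 * q + 2029) * h4
    · have hmk : (m : k) = 3 * q + 2 := by rw [hm]; push_cast; ring
      rw [hmk] at hbr h4
      linear_combination 192 * hbr - (10944 * (q : k) ^ 3 + 30096 * q ^ 2 + 27420 * q + 8273) * h4
  exact five_cast_ne_zero (k := k) hp h5

end Pool.Agent.PRank
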