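import Mathlib

/-!
The chart computation: on the affine chart of the `p`-rank zero cone the three functions
`η₀, a η₀, b η₀` belong to the subring generated by the matrix entries.
-/

namespace Pool.Agent.PRank

namespace Chart

variable {C : Type*} [CommRing C]

/-- The module spanned over a subring by the monomials in `α, β` of degree at most `n`. -/
def L (S : Subring C) (α β : C) (n : ℕ) : Submodule S C :=
  Submodule.span S {x | ∃ i j, i + j ≤ n ∧ x = α ^ i * β ^ j}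

variable {S : Subring C} {α β : C}

theorem mem_L {i j n : ℕ} (h : i + j ≤ n) : α ^ i * β ^ j ∈ L S α β n :=
  Submodule.subset_span ⟨i, j, h, rfl⟩

theorem L_mono {m n : ℕ} (h : m ≤ n) : L S α β m ≤ L S α β n :=
  Submodule.span_mono fun _ ⟨i, j, hij, hx⟩ => ⟨i, j, hij.trans h, hx⟩

theorem smul_mem_L {s x : C} (hs : s ∈ S) {n : ℕ} (hx : x ∈ L S α β n) : s * x ∈ L S α β n :=
  (L S α β n).smul_mem ⟨s, hs⟩ hx

theorem mem_L_of_mem {s : C} (hs : s ∈ S) (n : ℕ) : s ∈ L S α β n := by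
  have := smul_mem_L hs (mem_L (S := S) (α := α) (β := β) (i := 0) (j := 0) (n := n) (by omega))
  simpa using this

theorem mul_mem_L {x y : C} {m n : ℕ} (hx : x ∈ L S α β m) (hy : y ∈ L S α β n) :
    x * y ∈ L S α β (m + n) := by
  have h : x * y ∈ L S α β m * L S α β n := Submodule.mul_mem_mul hx hy
  rw [L, L, Submodule.span_mul_span] at h
  refine Submodule.span_mono ?_ h
  rintro z ⟨u, ⟨i, j, hij, rfl⟩, v, ⟨i', j', hij', rfl⟩, rfl⟩
  exact ⟨i + i', j + j', by omega, by dsimp only; ring⟩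

theorem left_mem_L : α ∈ L S α β 1 := by
  have h := mem_L (S := S) (α := α) (β := β) (i := 1) (j := 0) (n := 1) (by omega)
  simpa using h

theorem right_mem_L : β ∈ L S α β 1 := by
  have h := mem_L (S := S) (α := α) (β := β) (i := 0) (j := 1) (n := 1) (by omega)
  simpa using h

/-- Membership in the union of the modules `L n`. -/
def InL (S : Subring C) (α β : C) (x : C) : Prop := ∃ n, x ∈ L S α β n

theorem InL.add {x y : C} (hx : InL S α β x) (hy : InL S α β y) : InL S α β (x + y) := by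
  obtain ⟨m, hm⟩ := hx
  obtain ⟨n, hn⟩ := hy
  exact ⟨m + n, Submodule.add_mem _ (L_mono (by omega) hm) (L_mono (by omega) hn)⟩

theorem InL.mul {x y : C} (hx : InL S α β x) (hy : InL S α β y) : InL S α β (x * y) := by
  obtain ⟨m, hm⟩ := hx
  obtain ⟨n, hn⟩ := hy
  exact ⟨m + n, mul_mem_L hm hn⟩

theorem InL.of_mem {s : C} (hs : s ∈ S) : InL S α β s := ⟨0, mem_L_of_mem hs 0⟩

theorem InL.pow {x : C} (hx : InL S α β x) (n : ℕ) : InL S α β (x ^ n) := by
  induction n with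
  | zero => exact InL.of_mem (by rw [pow_zero]; exact S.one_mem)
  | succ n ih => rw [pow_succ]; exact ih.mul hx

theorem InL.sum {ι : Type*} (s : Finset ι) {f : ι → C} (h : ∀ i ∈ s, InL S α β (f i)) :
    InL S α β (∑ i ∈ s, f i) := by
  classical
  induction s using Finset.induction_on with
  | empty => simpa using InL.of_mem (S := S) (α := α) (β := β) S.zero_mem
  | insert a s ha ih =>
    rw [Finset.sum_insert ha]
    exact (h a (Finset.mem_insert_self _ _)).add
      (ih fun i hi => h i (Finset.mem_insert_of_mem hi))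

section Main

variable {p r : ℕ} {A B W : C}

theorem W_mem (hlin : 1 + A * α + B * β = 0) (hA : A ∈ S) (hB : B ∈ S)
    (h20 : W * α ^ 2 ∈ S) (h11 : W * (α * β) ∈ S) (h02 : W * β ^ 2 ∈ S) : W ∈ S := by
  have h : W = A * A * (W * α ^ 2) + 2 * (A * B) * (W * (α * β)) + B * B * (W * β ^ 2) := by
    linear_combination (W * (1 - (A * α + B * β))) * hlin
  rw [h]
  refine S.add_mem (S.add_mem (S.mul_mem (S.mul_mem hA hA) h20) (S.mul_mem (S.mul_mem ?_
    (S.mul_mem hA hB)) h11)) (S.mul_mem (S.mul_mem hB hB) h02)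
  exact_mod_cast natCast_mem S 2

theorem Wα_mem (hlin : 1 + A * α + B * β = 0) (hA : A ∈ S) (hB : B ∈ S)
    (h20 : W * α ^ 2 ∈ S) (h11 : W * (α * β) ∈ S) : W * α ∈ S := by
  have h : W * α = -(A * (W * α ^ 2) + B * (W * (α * β))) := by
    linear_combination (W * α) * hlin
  rw [h]
  exact S.neg_mem (S.add_mem (S.mul_mem hA h20) (S.mul_mem hB h11))

theorem Wβ_mem (hlin : 1 + A * α + B * β = 0) (hA : A ∈ S) (hB : B ∈ S)
    (h11 : W * (α * β) ∈ S) (h02 : W * β ^ 2 ∈ S) : W * β ∈ S := by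
  have h : W * β = -(A * (W * (α * β)) + B * (W * β ^ 2)) := by
    linear_combination (W * β) * hlin
  rw [h]
  exact S.neg_mem (S.add_mem (S.mul_mem hA h11) (S.mul_mem hB h02))

theorem W_mul_low (hlin : 1 + A * α + B * β = 0) (hA : A ∈ S) (hB : B ∈ S)
    (h20 : W * α ^ 2 ∈ S) (h11 : W * (α * β) ∈ S) (h02 : W * β ^ 2 ∈ S)
    {i j : ℕ} (hij : i + j ≤ 2) : W * (α ^ i * β ^ j) ∈ S := by
  have h : (i = 0 ∧ j = 0) ∨ (i = 1 ∧ j = 0) ∨ (i = 0 ∧ j = 1) ∨ (i = 2 ∧ j = 0) ∨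
      (i = 1 ∧ j = 1) ∨ (i = 0 ∧ j = 2) := by omega
  rcases h with ⟨rfl, rfl⟩ | ⟨rfl, rfl⟩ | ⟨rfl, rfl⟩ | ⟨rfl, rfl⟩ | ⟨rfl, rfl⟩ | ⟨rfl, rfl⟩
  · simpa using W_mem hlin hA hB h20 h11 h02
  · simpa using Wα_mem hlin hA hB h20 h11
  · simpa using Wβ_mem hlin hA hB h11 h02
  · simpa using h20
  · simpa using h11
  · simpa using h02

theorem W_pow_mul (hW : ∀ i j, i + j ≤ 2 → W * (α ^ i * β ^ j) ∈ S) (n : ℕ) :
    ∀ i j, i + j ≤ 2 * n → W ^ n * (α ^ i * β ^ j) ∈ S := by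
  induction n with
  | zero =>
    intro i j hij
    have hi : i = 0 := by omega
    have hj : j = 0 := by omega
    subst hi hj
    simp
  | succ n ih =>
    intro i j hij
    obtain ⟨i₁, j₁, i₂, j₂, hi, hj, h1, h2⟩ : ∃ i₁ j₁ i₂ j₂, i = i₁ + i₂ ∧ j = j₁ + j₂ ∧
        i₁ + j₁ ≤ 2 * n ∧ i₂ + j₂ ≤ 2 := by
      by_cases h : 2 ≤ i
      · exact ⟨i - 2, j, 2, 0, by omega, by omega, by omega, by omega⟩
      · by_cases h' : i = 1
        · by_cases h'' : 1 ≤ j
          · exact ⟨0, j - 1, 1, 1, by omega, by omega, by omega, by omega⟩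
          · exact ⟨0, 0, 1, 0, by omega, by omega, by omega, by omega⟩
        · by_cases h'' : 2 ≤ j
          · exact ⟨0, j - 2, 0, 2, by omega, by omega, by omega, by omega⟩
          · exact ⟨0, 0, 0, j, by omega, by omega, by omega, by omega⟩
    subst hi hj
    have h := S.mul_mem (ih _ _ h1) (hW _ _ h2)
    have e : W ^ (n + 1) * (α ^ (i₁ + i₂) * β ^ (j₁ + j₂))
        = W ^ n * (α ^ i₁ * β ^ j₁) * (W * (α ^ i₂ * β ^ j₂)) := by ring
    rw [e]
    exact h

theorem W_pow_mul_L (hW : ∀ i j, i + j ≤ 2 → W * (α ^ i * β ^ j) ∈ S) {n m : ℕ}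
    (hm : m ≤ 2 * n) {x : C} (hx : x ∈ L S α β m) : W ^ n * x ∈ S := by
  refine Submodule.span_induction (p := fun x _ => W ^ n * x ∈ S) ?_ ?_ ?_ ?_ hx
  · rintro y ⟨i, j, hij, rfl⟩
    exact W_pow_mul hW n i j (hij.trans hm)
  · simp
  · intro y z _ _ hy hz
    rw [mul_add]
    exact S.add_mem hy hz
  · intro s y _ hy
    have e : W ^ n * (s • y) = (s : C) * (W ^ n * y) := by
      rw [Subring.smul_def, smul_eq_mul]; ring
    rw [e]
    exact S.mul_mem s.2 hy

theorem step_left (hlin : 1 + A * α + B * β = 0) (hA : A ∈ S) (hB : B ∈ S) (N : ℕ) :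
    ∀ i, i ≤ N + 1 → A ^ i * (α ^ i * β ^ (N + 1 - i)) - (-B) ^ i * β ^ (N + 1) ∈ L S α β N := by
  intro i
  induction i with
  | zero => intro _; simp
  | succ i ih =>
    intro hi
    have h1 := ih (by omega)
    have e1 : N + 1 - i = (N - i) + 1 := by omega
    have e2 : N + 1 - (i + 1) = N - i := by omega
    rw [e1] at h1
    rw [e2]
    have key : A ^ (i + 1) * (α ^ (i + 1) * β ^ (N - i)) - (-B) ^ (i + 1) * β ^ (N + 1)
        = (-B) * (A ^ i * (α ^ i * β ^ (N - i + 1)) - (-B) ^ i * β ^ (N + 1))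
          + (-(A ^ i)) * (α ^ i * β ^ (N - i)) := by
      rw [pow_succ A i, pow_succ α i, pow_succ β (N - i), pow_succ (-B) i]
      linear_combination (A ^ i * (α ^ i * β ^ (N - i))) * hlin
    rw [key]
    exact Submodule.add_mem _ (smul_mem_L (S.neg_mem hB) h1)
      (smul_mem_L (S.neg_mem (S.pow_mem hA i)) (mem_L (by omega)))

theorem step_right (hlin : 1 + A * α + B * β = 0) (hA : A ∈ S) (hB : B ∈ S) (N : ℕ) :
    ∀ j, j ≤ N + 1 → B ^ j * (α ^ (N + 1 - j) * β ^ j) - (-A) ^ j * α ^ (N + 1) ∈ L S α β N := by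
  intro j
  induction j with
  | zero => intro _; simp
  | succ i ih =>
    intro hi
    have h1 := ih (by omega)
    have e1 : N + 1 - i = (N - i) + 1 := by omega
    have e2 : N + 1 - (i + 1) = N - i := by omega
    rw [e1] at h1
    rw [e2]
    have key : B ^ (i + 1) * (α ^ (N - i) * β ^ (i + 1)) - (-A) ^ (i + 1) * α ^ (N + 1)
        = (-A) * (B ^ i * (α ^ (N - i + 1) * β ^ i) - (-A) ^ i * α ^ (N + 1))
          + (-(B ^ i)) * (α ^ (N - i) * β ^ i) := by
      rw [pow_succ B i, pow_succ β i, pow_succ α (N - i), pow_succ (-A) i]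
      linear_combination (B ^ i * (α ^ (N - i) * β ^ i)) * hlin
    rw [key]
    exact Submodule.add_mem _ (smul_mem_L (S.neg_mem hA) h1)
      (smul_mem_L (S.neg_mem (S.pow_mem hB i)) (mem_L (by omega)))

/-- One step of degree reduction after multiplying by `A^(p+1) + B^(p+1)`. -/
theorem reduce_top (hp : Odd p) (hlin : 1 + A * α + B * β = 0) (hA : A ∈ S) (hB : B ∈ S)
    (hαβ : 1 + α ^ (p + 1) + β ^ (p + 1) = 0) {i j : ℕ} (hij : i + j = p + 1) :
    (A ^ (p + 1) + B ^ (p + 1)) * (α ^ i * β ^ j) ∈ L S α β p := by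
  have h1 := step_left hlin hA hB p i (by omega)
  have h2 := step_right hlin hA hB p j (by omega)
  have e1 : p + 1 - i = j := by omega
  have e2 : p + 1 - j = i := by omega
  rw [e1] at h1
  rw [e2] at h2
  have h3 : (1 : C) ∈ L S α β p := mem_L_of_mem S.one_mem p
  have hsign : (-1 : C) ^ i = (-1) ^ j := by
    rcases Nat.even_or_odd i with hi | hi
    · have hj : Even j := by
        rcases hp with ⟨m, hm⟩
        rcases hi with ⟨n, hn⟩
        exact ⟨m + 1 - n, by omega⟩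
      rw [hi.neg_one_pow, hj.neg_one_pow]
    · have hj : Odd j := by
        rcases hp with ⟨m, hm⟩
        rcases hi with ⟨n, hn⟩
        exact ⟨m - n, by omega⟩
      rw [hi.neg_one_pow, hj.neg_one_pow]
  have key : (A ^ (p + 1) + B ^ (p + 1)) * (α ^ i * β ^ j)
      = A ^ j * (A ^ i * (α ^ i * β ^ j) - (-B) ^ i * β ^ (p + 1))
        + B ^ i * (B ^ j * (α ^ i * β ^ j) - (-A) ^ j * α ^ (p + 1))
        + (-(B ^ i * (-A) ^ j)) * 1 := by
    have e3 : A ^ (p + 1) = A ^ j * A ^ i := by rw [← pow_add]; congr 1; omega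
    have e4 : B ^ (p + 1) = B ^ i * B ^ j := by rw [← pow_add]; congr 1; omega
    rw [e3, e4, neg_pow B i, neg_pow A j, hsign]
    linear_combination (B ^ i * ((-1) ^ j * A ^ j)) * hαβ
  rw [key]
  refine Submodule.add_mem _ (Submodule.add_mem _ (smul_mem_L (S.pow_mem hA j) h1)
    (smul_mem_L (S.pow_mem hB i) h2)) (smul_mem_L ?_ h3)
  exact S.neg_mem (S.mul_mem (S.pow_mem hB i) (S.pow_mem (S.neg_mem hA) j))

theorem reduce_step (hp : Odd p) (hlin : 1 + A * α + B * β = 0) (hA : A ∈ S) (hB : B ∈ S)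
    (hαβ : 1 + α ^ (p + 1) + β ^ (p + 1) = 0) (s : ℕ) {x : C}
    (hx : x ∈ L S α β (p + s + 1)) :
    (A ^ (p + 1) + B ^ (p + 1)) * x ∈ L S α β (p + s) := by
  have hAB : A ^ (p + 1) + B ^ (p + 1) ∈ S := S.add_mem (S.pow_mem hA _) (S.pow_mem hB _)
  refine Submodule.span_induction
    (p := fun x _ => (A ^ (p + 1) + B ^ (p + 1)) * x ∈ L S α β (p + s)) ?_ ?_ ?_ ?_ hx
  · rintro y ⟨i, j, hij, rfl⟩
    by_cases h : i + j ≤ p + s
    · exact smul_mem_L hAB (mem_L h)
    · obtain ⟨i₁, j₁, i₂, j₂, hi, hj, h1, h2⟩ : ∃ i₁ j₁ i₂ j₂, i = i₁ + i₂ ∧ j = j₁ + j₂ ∧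
          i₁ + j₁ = p + 1 ∧ i₂ + j₂ = s := by
        by_cases h' : p + 1 ≤ i
        · exact ⟨p + 1, 0, i - (p + 1), j, by omega, by omega, by omega, by omega⟩
        · exact ⟨i, p + 1 - i, 0, j - (p + 1 - i), by omega, by omega, by omega, by omega⟩
      subst hi hj
      have h3 := mul_mem_L (reduce_top hp hlin hA hB hαβ h1)
        (mem_L (S := S) (α := α) (β := β) h2.le)
      have e : (A ^ (p + 1) + B ^ (p + 1)) * (α ^ (i₁ + i₂) * β ^ (j₁ + j₂))
          = (A ^ (p + 1) + B ^ (p + 1)) * (α ^ i₁ * β ^ j₁) * (α ^ i₂ * β ^ j₂) := by ring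
      rw [e]
      exact h3
  · simp
  · intro y z _ _ hy hz
    rw [mul_add]
    exact Submodule.add_mem _ hy hz
  · intro c y _ hy
    rw [mul_smul_comm]
    exact Submodule.smul_mem _ _ hy

theorem reduce_pow (hp : Odd p) (hlin : 1 + A * α + B * β = 0) (hA : A ∈ S) (hB : B ∈ S)
    (hαβ : 1 + α ^ (p + 1) + β ^ (p + 1) = 0) (s : ℕ) :
    ∀ x ∈ L S α β (p + s), (A ^ (p + 1) + B ^ (p + 1)) ^ s * x ∈ L S α β p := by
  induction s with
  | zero => intro x hx; simpa using hx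
  | succ s ih =>
    intro x hx
    rw [pow_succ, mul_assoc]
    exact ih _ (reduce_step hp hlin hA hB hαβ s hx)

end Main

section Final

variable {p : ℕ} [Fact p.Prime] [CharP C p] {r : ℕ} {a b Z : C}

/-- All data of the chart computation. -/
theorem chart_main (hr : p = 2 * r + 1) (hrel : 1 + a ^ (p + 1) + b ^ (p + 1) = 0)
    (S : Subring C)
    (hA : a + Z * b ^ p ∈ S) (hB : b - Z * a ^ p ∈ S)
    {Δ : C} (hΔ : Δ = a * (b ^ p) ^ p - (a ^ p) ^ p * b)
    (h20 : Z * (Δ - Z) * (a ^ p) ^ 2 ∈ S)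
    (h11 : Z * (Δ - Z) * (a ^ p * b ^ p) ∈ S)
    (h02 : Z * (Δ - Z) * (b ^ p) ^ 2 ∈ S) :
    (Δ - Z) ^ p * Z ^ (r * p + r) * Δ ^ (r * p + r) ∈ S ∧
    a * ((Δ - Z) ^ p * Z ^ (r * p + r) * Δ ^ (r * p + r)) ∈ S ∧
    b * ((Δ - Z) ^ p * Z ^ (r * p + r) * Δ ^ (r * p + r)) ∈ S := by
  have hpodd : Odd p := ⟨r, hr⟩
  have hp2 : 2 ≤ p := (Fact.out : p.Prime).two_le
  have hr1 : 1 ≤ r := by omega
  set α := a ^ p with hα
  set β := b ^ p with hβ
  set A := a + Z * β with hAdef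
  set B := b - Z * α with hBdef
  set X := Δ - Z with hX
  set W := Z * X with hW
  have hab : 1 + a * α + b * β = 0 := by
    rw [hα, hβ, ← pow_succ', ← pow_succ']; exact hrel
  have hαβ : 1 + α ^ (p + 1) + β ^ (p + 1) = 0 := by
    have h : (1 + a ^ (p + 1) + b ^ (p + 1)) ^ p = 0 ^ p := by rw [hrel]
    rw [add_pow_char, add_pow_char, one_pow, zero_pow (by omega), ← pow_mul, ← pow_mul,
      mul_comm (p + 1) p, pow_mul, pow_mul] at h
    exact h
  have hlin : 1 + A * α + B * β = 0 := by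
    rw [hAdef, hBdef]
    linear_combination hab
  have hApow : A ^ p = α + Z ^ p * β ^ p := by
    rw [hAdef, add_pow_char, mul_pow]
  have hBpow : B ^ p = β - Z ^ p * α ^ p := by
    rw [hBdef, sub_pow_char, mul_pow]
  have hXeq : X = A * β ^ p - B * α ^ p := by
    rw [hX, hΔ, hAdef, hBdef]
    linear_combination (-Z) * hαβ
  have hZp : Z ^ p = B ^ p * α - A ^ p * β := by
    rw [hApow, hBpow]
    linear_combination (Z ^ p) * hαβ
  have hP1 : 1 + A ^ (p + 1) + B ^ (p + 1) = Z ^ p * X := by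
    rw [pow_succ, pow_succ, hXeq]
    linear_combination hlin + A * hApow + B * hBpow
  have hWS := W_mem hlin hA hB h20 h11 h02
  have hWlow : ∀ i j, i + j ≤ 2 → W * (α ^ i * β ^ j) ∈ S := fun i j hij =>
    W_mul_low hlin hA hB h20 h11 h02 hij
  have hαL : InL S α β α := ⟨1, left_mem_L⟩
  have hβL : InL S α β β := ⟨1, right_mem_L⟩
  have hZpL : Z ^ p ∈ L S α β 1 := by
    rw [hZp, sub_eq_add_neg, neg_mul_eq_neg_mul]
    exact Submodule.add_mem _ (smul_mem_L (S.pow_mem hB p) left_mem_L)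
      (smul_mem_L (S.neg_mem (S.pow_mem hA p)) right_mem_L)
  have hZpI : InL S α β (Z ^ p) := ⟨1, hZpL⟩
  have hXI : InL S α β X := by
    rw [hXeq, sub_eq_add_neg, neg_mul_eq_neg_mul]
    exact ((InL.of_mem hA).mul (hβL.pow p)).add ((InL.of_mem (S.neg_mem hB)).mul (hαL.pow p))
  -- the key claim
  have hZpn : ∀ n, (Z ^ p) ^ n ∈ L S α β n := by
    intro n
    induction n with
    | zero => rw [pow_zero]; exact mem_L_of_mem S.one_mem 0
    | succ n ih => rw [pow_succ]; exact mul_mem_L ih hZpL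
  have hP1S : Z ^ p * X ∈ S := by
    rw [← hP1]
    exact S.add_mem (S.add_mem S.one_mem (S.pow_mem hA _)) (S.pow_mem hB _)
  have key : ∀ y, InL S α β y → W ^ (r + 1) * y ∈ S := by
    rintro y ⟨d, hd⟩
    have h1 : (A ^ (p + 1) + B ^ (p + 1)) ^ d * (W ^ (r + 1) * y) ∈ S := by
      have h := reduce_pow hpodd hlin hA hB hαβ d y (L_mono (by omega) hd)
      have h' := W_pow_mul_L hWlow (n := r + 1) (by omega) h
      have e : (A ^ (p + 1) + B ^ (p + 1)) ^ d * (W ^ (r + 1) * y)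
          = W ^ (r + 1) * ((A ^ (p + 1) + B ^ (p + 1)) ^ d * y) := by ring
      rw [e]
      exact h'
    have h2 : (Z ^ p * X) ^ (p * d) * (W ^ (r + 1) * y) ∈ S := by
      have hmem : (Z ^ p) ^ ((p - 1) * d) * y ∈ L S α β ((p - 1) * d + d) :=
        mul_mem_L (hZpn _) hd
      have hle : (p - 1) * d + d ≤ 2 * (p * d + (r + 1)) := by
        have : (p - 1) * d ≤ p * d := Nat.mul_le_mul_right _ (by omega)
        have : d ≤ p * d := Nat.le_mul_of_pos_left _ (by omega)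
        omega
      have h := W_pow_mul_L hWlow (n := p * d + (r + 1)) hle hmem
      have e : (Z ^ p * X) ^ (p * d) * (W ^ (r + 1) * y)
          = W ^ (p * d + (r + 1)) * ((Z ^ p) ^ ((p - 1) * d) * y) := by
        have e1 : (Z ^ p) ^ (p * d) = Z ^ (p * d) * (Z ^ p) ^ ((p - 1) * d) := by
          rw [← pow_mul, ← pow_mul, ← pow_add]
          congr 1
          have : p * (p * d) = p * d + p * ((p - 1) * d) := by
            have hp' : p = (p - 1) + 1 := by omega
            calc p * (p * d) = p * (((p - 1) + 1) * d) := by rw [← hp']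
              _ = p * d + p * ((p - 1) * d) := by ring
          exact this
        rw [mul_pow, e1, hW, pow_add (Z * X) (p * d), mul_pow Z X (p * d)]
        ring_nf
      rw [e]
      exact h
    -- coprimality
    set P : S := ⟨Z ^ p * X, hP1S⟩ with hP
    set Q : S := ⟨A ^ (p + 1) + B ^ (p + 1), S.add_mem (S.pow_mem hA _) (S.pow_mem hB _)⟩
      with hQ
    have hco : IsCoprime Q P := by
      refine ⟨-1, 1, ?_⟩
      apply Subtype.ext
      push_cast
      rw [hP, hQ]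
      simp only
      rw [← hP1]
      ring
    obtain ⟨u, v, huv⟩ := (hco.pow : IsCoprime (Q ^ d) (P ^ (p * d)))
    have huv' : (u : C) * (A ^ (p + 1) + B ^ (p + 1)) ^ d + v * (Z ^ p * X) ^ (p * d) = 1 := by
      have := congrArg (Subtype.val : S → C) huv
      push_cast at this
      simpa [hP, hQ] using this
    have e : W ^ (r + 1) * y = u * ((A ^ (p + 1) + B ^ (p + 1)) ^ d * (W ^ (r + 1) * y))
        + v * ((Z ^ p * X) ^ (p * d) * (W ^ (r + 1) * y)) := by
      linear_combination (-(W ^ (r + 1) * y)) * huv'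
    rw [e]
    exact S.add_mem (S.mul_mem u.2 h1) (S.mul_mem v.2 h2)
  have hΔXZ : Δ = X + Z := by rw [hX]; ring
  have hΔp : InL S α β (Δ ^ p) := by
    rw [hΔXZ, add_pow_char]
    exact (hXI.pow p).add hZpI
  have hWI : InL S α β W := InL.of_mem hWS
  -- the two special products
  have hs1 : InL S α β (X ^ r * Z ^ (2 * r) * Δ ^ r) := by
    rw [hΔXZ, add_pow, Finset.mul_sum]
    refine InL.sum _ fun i hi => ?_
    rw [Finset.mem_range] at hi
    have hch : InL S α β ((r.choose i : ℕ) : C) := InL.of_mem (natCast_mem S _)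
    by_cases h : i < r
    · have e : X ^ r * Z ^ (2 * r) * (X ^ i * Z ^ (r - i) * (r.choose i : C))
          = Z ^ p * W ^ (r - i - 1) * X ^ (2 * i + 1) * (r.choose i : C) := by
        obtain ⟨m, rfl⟩ : ∃ m, r = i + 1 + m := ⟨r - i - 1, by omega⟩
        have e1 : i + 1 + m - i = m + 1 := by omega
        rw [e1, Nat.add_sub_cancel, hW, hr]
        ring_nf
      rw [e]
      exact ((hZpI.mul (hWI.pow _)).mul (hXI.pow _)).mul hch
    · have hir : i = r := by omega
      subst hir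
      have e : X ^ i * Z ^ (2 * i) * (X ^ i * Z ^ (i - i) * (i.choose i : C)) = W ^ (2 * i) := by
        rw [Nat.sub_self, Nat.choose_self, hW]
        push_cast
        ring_nf
      rw [e]
      exact hWI.pow _
  have hs2 : InL S α β (X ^ r * Z ^ (2 * r + 1) * Δ ^ r) := by
    rw [hΔXZ, add_pow, Finset.mul_sum]
    refine InL.sum _ fun i hi => ?_
    rw [Finset.mem_range] at hi
    have hch : InL S α β ((r.choose i : ℕ) : C) := InL.of_mem (natCast_mem S _)
    have e : X ^ r * Z ^ (2 * r + 1) * (X ^ i * Z ^ (r - i) * (r.choose i : C))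
        = Z ^ p * W ^ (r - i) * X ^ (2 * i) * (r.choose i : C) := by
      obtain ⟨m, rfl⟩ : ∃ m, r = i + m := ⟨r - i, by omega⟩
      have e1 : i + m - i = m := by omega
      rw [e1, hW, hr]
      ring_nf
    rw [e]
    exact ((hZpI.mul (hWI.pow _)).mul (hXI.pow _)).mul hch
  have hη : X ^ p * Z ^ (r * p + r) * Δ ^ (r * p + r)
      = W ^ (r + 1) * ((Z ^ p) ^ (r - 1) * (Δ ^ p) ^ r * (X ^ r * Z ^ (2 * r) * Δ ^ r)) := by
    obtain ⟨m, rfl⟩ : ∃ m, r = m + 1 := ⟨r - 1, by omega⟩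
    rw [Nat.add_sub_cancel, hW, hr]
    ring_nf
  have hZη : Z * (X ^ p * Z ^ (r * p + r) * Δ ^ (r * p + r))
      = W ^ (r + 1) * ((Z ^ p) ^ (r - 1) * (Δ ^ p) ^ r * (X ^ r * Z ^ (2 * r + 1) * Δ ^ r)) := by
    obtain ⟨m, rfl⟩ : ∃ m, r = m + 1 := ⟨r - 1, by omega⟩
    rw [Nat.add_sub_cancel, hW, hr]
    ring_nf
  have hη0 : X ^ p * Z ^ (r * p + r) * Δ ^ (r * p + r) ∈ S := by
    rw [hη]
    exact key _ (((hZpI.pow _).mul (hΔp.pow _)).mul hs1)
  have hZηα : Z * (X ^ p * Z ^ (r * p + r) * Δ ^ (r * p + r)) * α ∈ S := by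
    rw [hZη, mul_assoc]
    exact key _ ((((hZpI.pow _).mul (hΔp.pow _)).mul hs2).mul hαL)
  have hZηβ : Z * (X ^ p * Z ^ (r * p + r) * Δ ^ (r * p + r)) * β ∈ S := by
    rw [hZη, mul_assoc]
    exact key _ ((((hZpI.pow _).mul (hΔp.pow _)).mul hs2).mul hβL)
  refine ⟨hη0, ?_, ?_⟩
  · have e : a * (X ^ p * Z ^ (r * p + r) * Δ ^ (r * p + r))
        = A * (X ^ p * Z ^ (r * p + r) * Δ ^ (r * p + r))
          - Z * (X ^ p * Z ^ (r * p + r) * Δ ^ (r * p + r)) * β := by
      rw [hAdef]; ring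
    rw [e]
    exact S.sub_mem (S.mul_mem hA hη0) hZηβ
  · have e : b * (X ^ p * Z ^ (r * p + r) * Δ ^ (r * p + r))
        = B * (X ^ p * Z ^ (r * p + r) * Δ ^ (r * p + r))
          + Z * (X ^ p * Z ^ (r * p + r) * Δ ^ (r * p + r)) * α := by
      rw [hBdef]; ring
    rw [e]
    exact S.add_mem (S.mul_mem hB hη0) hZηα

end Final

end Chart

end Pool.Agent.PRank
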