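import Pool.Agent.PRank.OverIso

/-!
The charts in normal form, and the first cohomology of the structure sheaf.
-/

namespace Pool.Agent.PRank

open LaurentPolynomial Q4

section

variable {R : Type*} [CommRing R] (c : Fin 6 → R)

theorem pos_of (f : LaurentPolynomial R) (hf : Ge 0 f) : Pos (of f : QF c) :=
  ⟨hf, ge_zero 0, ge_zero 0, ge_zero 0⟩

theorem pos_Y : Pos (Y _ _ _ _ : QF c) :=
  ⟨ge_zero 0, (ge_T 0), ge_zero 0, ge_zero 0⟩

theorem pos_W : Pos (W _ _ _ _ : QF c) :=
  ⟨ge_zero 0, ge_zero 0, (ge_T 0), ge_zero 0⟩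

theorem pos_of_mem_chart1 {a : Overlap c} (ha : a ∈ chart1 c) : Pos (psi c a) := by
  refine Algebra.adjoin_induction ?_ ?_ ?_ ?_ ha
  · rintro x (rfl | rfl | rfl)
    · rw [psi_fn0]; exact pos_of c _ ((ge_T 1).mono (by norm_num))
    · rw [psi_fn2]; exact pos_Y c
    · rw [psi_fn3]; exact pos_W c
  · intro r
    rw [psi_algebraMap]; exact pos_of c _ (ge_C r)
  · intro x y _ _ hx hy
    rw [map_add]; exact hx.add hy
  · intro x y _ _ hx hy
    rw [map_mul]; exact hx.mul (hyp_fam c) hy

theorem low_of_mem_chart2 {a : Overlap c} (ha : a ∈ chart2 c) : Low (psi c a) := by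
  refine Algebra.adjoin_induction ?_ ?_ ?_ ?_ ha
  · rintro x (rfl | rfl | rfl)
    · rw [psi_fn1]
      exact ⟨(le_T (-1)).mono (by norm_num), le_zero _, le_zero _, le_zero _⟩
    · rw [map_mul, psi_fn1, psi_fn2]
      refine ⟨?_, ?_, ?_, ?_⟩
      · rw [of_mul_c0, Y_c0, mul_zero]; exact le_zero _
      · rw [of_mul_c1, Y_c1, mul_one]; exact le_T _
      · rw [of_mul_c2, Y_c2, mul_zero]; exact le_zero _
      · rw [of_mul_c3, Y_c3, mul_zero]; exact le_zero _
    · rw [map_mul, map_pow, psi_fn1, psi_fn3, ← map_pow, T_pow]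
      refine ⟨?_, ?_, ?_, ?_⟩
      · rw [of_mul_c0, W_c0, mul_zero]; exact le_zero _
      · rw [of_mul_c1, W_c1, mul_zero]; exact le_zero _
      · rw [of_mul_c2, W_c2, mul_one]; exact (le_T _).mono (by norm_num)
      · rw [of_mul_c3, W_c3, mul_zero]; exact le_zero _
  · intro r
    rw [psi_algebraMap]
    exact ⟨le_C r, le_zero _, le_zero _, le_zero _⟩
  · intro x y _ _ hx hy
    rw [map_add]; exact hx.add hy
  · intro x y _ _ hx hy
    rw [map_mul]; exact hx.mul (hyp_fam c) hy

/-- Decomposition of a Laurent polynomial into monomials. -/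
theorem laurent_sum (f : LaurentPolynomial R) :
    f = ∑ n ∈ f.coeff.support, C (f.coeff n) * T n := by
  classical
  ext m
  rw [AddMonoidAlgebra.coeff_sum, Finset.sum_apply']
  simp only [coeff_C_mul_T]
  rw [Finset.sum_ite_eq']
  split_ifs with h
  · rfl
  · exact Finsupp.notMem_support_iff.1 h

theorem fn_mem_chart1_0 : fn c 0 ∈ chart1 c := Algebra.subset_adjoin (Or.inl rfl)
theorem fn_mem_chart1_2 : fn c 2 ∈ chart1 c := Algebra.subset_adjoin (Or.inr (Or.inl rfl))
theorem fn_mem_chart1_3 : fn c 3 ∈ chart1 c := Algebra.subset_adjoin (Or.inr (Or.inr rfl))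
theorem fn_mem_chart2_1 : fn c 1 ∈ chart2 c := Algebra.subset_adjoin (Or.inl rfl)
theorem fn_mem_chart2_2 : fn c 1 * fn c 2 ∈ chart2 c :=
  Algebra.subset_adjoin (Or.inr (Or.inl rfl))
theorem fn_mem_chart2_3 : fn c 1 ^ 2 * fn c 3 ∈ chart2 c :=
  Algebra.subset_adjoin (Or.inr (Or.inr rfl))

theorem lam_mem_chart1 {f : LaurentPolynomial R} (hf : Ge 0 f) : lam c f ∈ chart1 c := by
  rw [laurent_sum f, map_sum]
  refine Subalgebra.sum_mem _ fun n hn => ?_
  have h0 : 0 ≤ n := by
    by_contra h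
    exact (Finsupp.mem_support_iff.1 hn) (hf n (not_le.1 h))
  obtain ⟨m, rfl⟩ := Int.eq_ofNat_of_zero_le h0
  rw [map_mul, lam_C, lam_T_nat]
  exact Subalgebra.mul_mem _ (Subalgebra.algebraMap_mem _ _)
    (Subalgebra.pow_mem _ (fn_mem_chart1_0 c) _)

theorem lam_mem_chart2 {f : LaurentPolynomial R} (hf : Le 0 f) : lam c f ∈ chart2 c := by
  rw [laurent_sum f, map_sum]
  refine Subalgebra.sum_mem _ fun n hn => ?_
  have h0 : n ≤ 0 := by
    by_contra h
    exact (Finsupp.mem_support_iff.1 hn) (hf n (not_le.1 h))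
  obtain ⟨m, hm⟩ := Int.eq_ofNat_of_zero_le (show 0 ≤ -n by omega)
  obtain rfl : n = -(m : ℤ) := by omega
  rw [map_mul, lam_C, lam_T_neg]
  exact Subalgebra.mul_mem _ (Subalgebra.algebraMap_mem _ _)
    (Subalgebra.pow_mem _ (fn_mem_chart2_1 c) _)

theorem Lam_mem_chart1 {u : QF c} (hu : Pos u) : Lam c u ∈ chart1 c := by
  obtain ⟨u0, u1, u2, u3⟩ := hu
  rw [Lam_apply]
  refine Subalgebra.add_mem _ (Subalgebra.add_mem _ (Subalgebra.add_mem _ ?_ ?_) ?_) ?_
  · exact lam_mem_chart1 c u0
  · exact Subalgebra.mul_mem _ (lam_mem_chart1 c u1) (fn_mem_chart1_2 c)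
  · exact Subalgebra.mul_mem _ (lam_mem_chart1 c u2) (fn_mem_chart1_3 c)
  · exact Subalgebra.mul_mem _ (lam_mem_chart1 c u3)
      (Subalgebra.mul_mem _ (fn_mem_chart1_2 c) (fn_mem_chart1_3 c))

/-- Shifting a Laurent polynomial. -/
theorem lam_shift {f : LaurentPolynomial R} {m : ℕ} (hf : Le (-(m : ℤ)) f) :
    ∃ g, Le 0 g ∧ lam c f = lam c g * fn c 1 ^ m := by
  refine ⟨f * T (m : ℤ), (hf.mul (le_T _)).mono (by omega), ?_⟩
  rw [map_mul, mul_assoc, ← lam_T_neg, ← map_mul, ← T_add, add_neg_cancel, T_zero, map_one,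
    mul_one]

theorem Lam_mem_chart2 {u : QF c} (hu : Low u) : Lam c u ∈ chart2 c := by
  obtain ⟨u0, u1, u2, u3⟩ := hu
  rw [Lam_apply]
  obtain ⟨g1, h1, e1⟩ := lam_shift c (f := u.c1) (m := 1) (by simpa using u1)
  obtain ⟨g2, h2, e2⟩ := lam_shift c (f := u.c2) (m := 2) (by simpa using u2)
  obtain ⟨g3, h3, e3⟩ := lam_shift c (f := u.c3) (m := 3) (by simpa using u3)
  have t1 : lam c u.c1 * fn c 2 = lam c g1 * (fn c 1 * fn c 2) := by rw [e1]; ring
  have t2 : lam c u.c2 * fn c 3 = lam c g2 * (fn c 1 ^ 2 * fn c 3) := by rw [e2]; ring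
  have t3 : lam c u.c3 * (fn c 2 * fn c 3)
      = lam c g3 * ((fn c 1 * fn c 2) * (fn c 1 ^ 2 * fn c 3)) := by rw [e3]; ring
  rw [t1, t2, t3]
  refine Subalgebra.add_mem _ (Subalgebra.add_mem _ (Subalgebra.add_mem _ ?_ ?_) ?_) ?_
  · exact lam_mem_chart2 c u0
  · exact Subalgebra.mul_mem _ (lam_mem_chart2 c h1) (fn_mem_chart2_2 c)
  · exact Subalgebra.mul_mem _ (lam_mem_chart2 c h2) (fn_mem_chart2_3 c)
  · exact Subalgebra.mul_mem _ (lam_mem_chart2 c h3)
      (Subalgebra.mul_mem _ (fn_mem_chart2_2 c) (fn_mem_chart2_3 c))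

/-- The coordinates of a class in `H¹`. -/
noncomputable def rho : Overlap c →ₗ[R] (Fin 3 → R) where
  toFun h := fun i => tau i (psi c h)
  map_add' h h' := by
    funext i
    rw [map_add, tau_add]; rfl
  map_smul' r h := by
    funext i
    rw [show r • h = algebraMap R (Overlap c) r * h from Algebra.smul_def r h, map_mul,
      psi_algebraMap, tau_C_mul]
    rfl

theorem rho_apply (h : Overlap c) (i : Fin 3) : rho c h i = tau i (psi c h) := rfl

theorem coboundaries_eq : coboundaries c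
    = Subalgebra.toSubmodule (chart1 c) ⊔ Subalgebra.toSubmodule (chart2 c) := by
  rw [coboundaries, Submodule.span_union]
  congr 1
  · exact Submodule.span_eq (Subalgebra.toSubmodule (chart1 c))
  · exact Submodule.span_eq (Subalgebra.toSubmodule (chart2 c))

theorem mem_coboundaries_iff (h : Overlap c) : h ∈ coboundaries c ↔ rho c h = 0 := by
  rw [coboundaries_eq]
  constructor
  · intro hh
    obtain ⟨a, ha, b, hb, rfl⟩ := Submodule.mem_sup.1 hh
    funext i
    rw [map_add, Pi.add_apply, rho_apply, rho_apply, tau_pos i (pos_of_mem_chart1 c ha),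
      tau_low i (low_of_mem_chart2 c hb), add_zero]
    rfl
  · intro hh
    have h1 : classPart (psi c h) = 0 := by
      rw [classPart]
      refine Finset.sum_eq_zero fun i _ => ?_
      have : tau i (psi c h) = 0 := congrFun hh i
      rw [this, map_zero, map_zero, zero_mul]
    have h2 : h = Lam c (alphaPart (psi c h))
        + Lam c (psi c h - alphaPart (psi c h) - classPart (psi c h)) := by
      rw [← map_add, h1, sub_zero, add_sub_cancel, Lam_psi]
    rw [h2]
    exact Submodule.add_mem_sup (Lam_mem_chart1 c (pos_alphaPart _))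
      (Lam_mem_chart2 c (low_rest _))

/-- The basis elements. -/
noncomputable def BB (j : Fin 3) : Overlap c := Lam c (bb _ _ _ j)

theorem psi_BB (j : Fin 3) : psi c (BB c j) = bb _ _ _ j := psi_Lam c _

theorem rho_BB (i j : Fin 3) : rho c (BB c j) i = if i = j then 1 else 0 := by
  rw [rho_apply, psi_BB, tau_bb]

theorem tau_sum {ι : Type*} (t : Finset ι) (i : Fin 3) (f : ι → QF c) :
    tau i (∑ j ∈ t, f j) = ∑ j ∈ t, tau i (f j) := by
  classical
  induction t using Finset.induction_on with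
  | empty =>
    rw [Finset.sum_empty, Finset.sum_empty]
    fin_cases i <;> rfl
  | insert a t ha ih => rw [Finset.sum_insert ha, tau_add, ih, Finset.sum_insert ha]

theorem Pos.pow {u : QF c} (hu : Pos u) (n : ℕ) : Pos (u ^ (n + 1)) := by
  induction n with
  | zero => simpa using hu
  | succ n ih => rw [pow_succ]; exact ih.mul (hyp_fam c) hu

theorem Low.pow {u : QF c} (hu : Low u) (n : ℕ) : Low (u ^ (n + 1)) := by
  induction n with
  | zero => simpa using hu
  | succ n ih => rw [pow_succ]; exact ih.mul (hyp_fam c) hu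

/-- Frobenius in coordinates. -/
theorem rho_pow (p : ℕ) [Fact p.Prime] [CharP R p] (h : Overlap c) :
    rho c (h ^ p) = (HW p c).mulVec (fun i => rho c h i ^ p) := by
  obtain ⟨n, hn⟩ := Nat.exists_eq_succ_of_ne_zero (Fact.out : p.Prime).ne_zero
  funext i
  have hL : CharP (LaurentPolynomial R) p :=
    charP_of_injective_ringHom (f := (C : R →+* LaurentPolynomial R)) (fun a b hab => by
      have := congrArg (fun f => AddMonoidAlgebra.coeff f 0) hab
      simpa using this) p
  have hQ : CharP (QF c) p := charP_of_injective_ringHom of_injective p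
  set u := psi c h with hu
  have hdec : u = alphaPart u + (u - alphaPart u - classPart u) + classPart u := by ring
  have hpow : u ^ p = (alphaPart u) ^ p + (u - alphaPart u - classPart u) ^ p
      + (classPart u) ^ p := by
    conv_lhs => rw [hdec]
    rw [add_pow_char, add_pow_char]
  have hc : (classPart u) ^ p = ∑ j, (of (C (tau j u ^ p)) : QF c) * bb _ _ _ j ^ p := by
    rw [classPart, sum_pow_char]
    refine Finset.sum_congr rfl fun j _ => ?_
    rw [mul_pow, map_pow, map_pow]
  rw [rho_apply, map_pow, ← hu, hpow, tau_add, tau_add, hc, tau_sum]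
  have z1 : tau i ((alphaPart u) ^ p) = 0 := by
    rw [hn]; exact tau_pos i ((pos_alphaPart u).pow c n)
  have z2 : tau i ((u - alphaPart u - classPart u) ^ p) = 0 := by
    rw [hn]; exact tau_low i ((low_rest u).pow c n)
  rw [z1, z2, zero_add, zero_add, Matrix.mulVec, dotProduct]
  refine Finset.sum_congr rfl fun j _ => ?_
  rw [tau_C_mul, mul_comm]
  rfl

end

end Pool.Agent.PRank
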