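import Pool.Agent.PRank.Cond

/-!
The closed parametrisation `θ_e` of the `p`-rank zero cone (with `e` the first basis vector) and
the vanishing of `η₀` along the rational lines.
-/

namespace Pool.Agent.PRank

set_option linter.unusedSectionVars false

open MvPolynomial

variable {k : Type*} [Field k]

/-- The closed parametrisation, for the first basis vector. -/
def thE (p : ℕ) (m : Fin 3 → k) (x z : k) : Fin 6 → k :=
  ![x * (m 0 * m 0),
    x * (m 0 * m 1) + z * (m 0 * m 0 ^ (p ^ 2) * m 2 ^ p),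
    x * (m 0 * m 2) - z * (m 0 * m 0 ^ (p ^ 2) * m 1 ^ p),
    x * (m 1 * m 1) + z * (m 2 ^ p * (m 0 ^ (p ^ 2) * m 1 + m 0 * m 1 ^ (p ^ 2))),
    x * (m 1 * m 2) + z * (m 0 ^ (p ^ 2) * m 2 ^ p * m 2 - m 0 * m 1 ^ (p ^ 2) * m 1 ^ p),
    x * (m 2 * m 2) - z * (m 1 ^ p * (m 0 ^ (p ^ 2) * m 2 + m 0 * m 2 ^ (p ^ 2)))]

theorem polyFun_thE (p : ℕ) (i : Fin 6) :
    PolyFun (fun v : Fin 5 → k => thE p (mv v) (v 3) (v 4) i) := by
  fin_cases i
  · exact (PolyFun.proj 3).mul ((PolyFun.proj 0).mul (PolyFun.proj 0))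
  · exact ((PolyFun.proj 3).mul ((PolyFun.proj 0).mul (PolyFun.proj 1))).add
      ((PolyFun.proj 4).mul (((PolyFun.proj 0).mul ((PolyFun.proj 0).pow _)).mul
        ((PolyFun.proj 2).pow _)))
  · exact ((PolyFun.proj 3).mul ((PolyFun.proj 0).mul (PolyFun.proj 2))).sub
      ((PolyFun.proj 4).mul (((PolyFun.proj 0).mul ((PolyFun.proj 0).pow _)).mul
        ((PolyFun.proj 1).pow _)))
  · exact ((PolyFun.proj 3).mul ((PolyFun.proj 1).mul (PolyFun.proj 1))).add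
      ((PolyFun.proj 4).mul (((PolyFun.proj 2).pow _).mul
        ((((PolyFun.proj 0).pow _).mul (PolyFun.proj 1)).add
          ((PolyFun.proj 0).mul ((PolyFun.proj 1).pow _)))))
  · exact ((PolyFun.proj 3).mul ((PolyFun.proj 1).mul (PolyFun.proj 2))).add
      ((PolyFun.proj 4).mul (((((PolyFun.proj 0).pow _).mul ((PolyFun.proj 2).pow _)).mul
        (PolyFun.proj 2)).sub (((PolyFun.proj 0).mul ((PolyFun.proj 1).pow _)).mul
          ((PolyFun.proj 1).pow _))))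
  · exact ((PolyFun.proj 3).mul ((PolyFun.proj 2).mul (PolyFun.proj 2))).sub
      ((PolyFun.proj 4).mul (((PolyFun.proj 1).pow _).mul
        ((((PolyFun.proj 0).pow _).mul (PolyFun.proj 2)).add
          ((PolyFun.proj 0).mul ((PolyFun.proj 2).pow _)))))

/-- Off the rational points the closed parametrisation is `θ`. -/
theorem thE_eq_th {p : ℕ} {m : Fin 3 → k} {δ x z : k} (hδ : IsDelta p m δ) (hδ0 : δ ≠ 0) :
    thE p m x z = th p m (x - z * (m 0 ^ (p ^ 2)) ^ 2 / δ) (z * m 0 ^ 2 / δ) := by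
  obtain ⟨d0, d1, d2⟩ := hδ
  funext i
  fin_cases i
  · change x * (m 0 * m 0) = (x - z * (m 0 ^ (p ^ 2)) ^ 2 / δ) * (m 0 * m 0)
      + (z * m 0 ^ 2 / δ) * (m 0 ^ (p ^ 2) * m 0 ^ (p ^ 2))
    field_simp
    ring
  · change x * (m 0 * m 1) + z * (m 0 * m 0 ^ (p ^ 2) * m 2 ^ p)
      = (x - z * (m 0 ^ (p ^ 2)) ^ 2 / δ) * (m 0 * m 1)
      + (z * m 0 ^ 2 / δ) * (m 0 ^ (p ^ 2) * m 1 ^ (p ^ 2))
    field_simp
    linear_combination (-(z * m 0 * m 0 ^ (p ^ 2))) * d2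
  · change x * (m 0 * m 2) - z * (m 0 * m 0 ^ (p ^ 2) * m 1 ^ p)
      = (x - z * (m 0 ^ (p ^ 2)) ^ 2 / δ) * (m 0 * m 2)
      + (z * m 0 ^ 2 / δ) * (m 0 ^ (p ^ 2) * m 2 ^ (p ^ 2))
    field_simp
    linear_combination (z * m 0 * m 0 ^ (p ^ 2)) * d1
  · change x * (m 1 * m 1) + z * (m 2 ^ p * (m 0 ^ (p ^ 2) * m 1 + m 0 * m 1 ^ (p ^ 2)))
      = (x - z * (m 0 ^ (p ^ 2)) ^ 2 / δ) * (m 1 * m 1)
      + (z * m 0 ^ 2 / δ) * (m 1 ^ (p ^ 2) * m 1 ^ (p ^ 2))
    field_simp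
    linear_combination (-(z * (m 0 ^ (p ^ 2) * m 1 + m 0 * m 1 ^ (p ^ 2)))) * d2
  · change x * (m 1 * m 2) + z * (m 0 ^ (p ^ 2) * m 2 ^ p * m 2 - m 0 * m 1 ^ (p ^ 2) * m 1 ^ p)
      = (x - z * (m 0 ^ (p ^ 2)) ^ 2 / δ) * (m 1 * m 2)
      + (z * m 0 ^ 2 / δ) * (m 1 ^ (p ^ 2) * m 2 ^ (p ^ 2))
    field_simp
    linear_combination (-(z * m 0 ^ (p ^ 2) * m 2)) * d2 + (z * m 0 * m 1 ^ (p ^ 2)) * d1
  · change x * (m 2 * m 2) - z * (m 1 ^ p * (m 0 ^ (p ^ 2) * m 2 + m 0 * m 2 ^ (p ^ 2)))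
      = (x - z * (m 0 ^ (p ^ 2)) ^ 2 / δ) * (m 2 * m 2)
      + (z * m 0 ^ 2 / δ) * (m 2 ^ (p ^ 2) * m 2 ^ (p ^ 2))
    field_simp
    linear_combination (z * (m 0 ^ (p ^ 2) * m 2 + m 0 * m 2 ^ (p ^ 2))) * d1

section

variable {p r : ℕ} [Fact p.Prime] [CharP k p] [IsAlgClosed k]

/-- A point of the Hermitian curve which is not rational over the field with `p²` elements. -/
theorem exists_nonrational (hr : p = 2 * r + 1) :
    ∃ m0 c1 : k, c1 ≠ 0 ∧ m0 ≠ 0 ∧ c1 ^ (p ^ 2) = -c1 ∧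
      m0 ^ (p + 1) = -(1 + c1 ^ (p + 1)) := by
  have hp2 : 2 ≤ p := (Fact.out : p.Prime).two_le
  have hq : 0 < p ^ 2 - 1 := by nlinarith [Nat.sub_add_cancel (show 1 ≤ p ^ 2 by nlinarith)]
  obtain ⟨c, hc⟩ := IsAlgClosed.exists_pow_nat_eq (-1 : k) hq
  have hc0 : c ≠ 0 := by
    rintro rfl
    rw [zero_pow hq.ne'] at hc
    exact one_ne_zero (neg_eq_zero.1 hc.symm)
  have hcq : c ^ (p ^ 2) = -c := by
    have : p ^ 2 = (p ^ 2 - 1) + 1 := by omega
    rw [this, pow_succ, hc]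
    ring
  obtain ⟨m0, hm0⟩ := IsAlgClosed.exists_pow_nat_eq (-(1 + c ^ (p + 1)) : k) (Nat.succ_pos p)
  refine ⟨m0, c, hc0, ?_, hcq, hm0⟩
  rintro rfl
  rw [zero_pow (by omega)] at hm0
  have h1 : c ^ (p + 1) = -1 := by linear_combination hm0
  have h2 : (c ^ (p + 1)) ^ p = -(c ^ (p + 1)) := by
    have : (c ^ (p + 1)) ^ p = c ^ (p ^ 2) * c ^ p := by ring
    rw [this, hcq]
    ring
  have hodd : Odd p := ⟨r, hr⟩
  rw [h1, hodd.neg_one_pow] at h2
  have h3 : (2 : k) = 0 := by linear_combination -h2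
  have h4 : ((2 : ℕ) : k) = 0 := by exact_mod_cast h3
  rw [CharP.cast_eq_zero_iff k p] at h4
  have := Nat.le_of_dvd (by norm_num) h4
  omega

theorem two_ne (hr : p = 2 * r + 1) : (2 : k) ≠ 0 := by
  intro h3
  have hp2 : 2 ≤ p := (Fact.out : p.Prime).two_le
  have h4 : ((2 : ℕ) : k) = 0 := by exact_mod_cast h3
  rw [CharP.cast_eq_zero_iff k p] at h4
  have := Nat.le_of_dvd (by norm_num) h4
  omega

theorem exists_cr_ne (hr : p = 2 * r + 1) :
    ∃ v : Fin 5 → k, H5 p v ∧ cr p (mv v) 0 ≠ 0 := by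
  obtain ⟨m0, c1, hc, hm, hcq, hm0⟩ := exists_nonrational (k := k) hr
  refine ⟨![m0, 1, c1, 0, 0], ?_, ?_⟩
  · change m0 ^ (p + 1) + 1 ^ (p + 1) + c1 ^ (p + 1) = 0
    rw [hm0]
    ring
  · change (1 : k) * c1 ^ (p ^ 2) - c1 * 1 ^ (p ^ 2) ≠ 0
    rw [hcq, one_pow]
    intro h
    have h2 : (2 : k) * c1 = 0 := by linear_combination -h
    exact mul_ne_zero (two_ne hr) hc h2

/-- A polynomial vanishing on the image of `θ` vanishes on the closed parametrisation. -/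
theorem closed_zero (hr : p = 2 * r + 1) (f : MvPolynomial (Fin 6) k)
    (hf : ∀ (m : Fin 3 → k) (x y : k), Herm p m → m ≠ 0 → eval (th p m x y) f = 0)
    (m : Fin 3 → k) (x z : k) (hm : Herm p m) : eval (thE p m x z) f = 0 := by
  have key : ∀ v, H5 p v → eval (thE p (mv v) (v 3) (v 4)) f = 0 := by
    refine dens (polyFun_cr p 0) (PolyFun.comp f (polyFun_thE p)) ?_ (exists_cr_ne hr)
    intro v hv
    by_cases h0 : cr p (mv v) 0 = 0
    · rw [h0, zero_mul]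
    · have hm0 : mv v ≠ 0 := by
        intro h
        apply h0
        rw [h]
        simp [cr]
      obtain ⟨δ, hδ⟩ := exists_delta (p := p) (m := mv v) hv hm0
      have hδ0 : δ ≠ 0 := by
        rintro rfl
        apply h0
        rw [isDelta_iff.1 hδ 0, zero_mul]
      have e : eval (fun i => thE p (mv v) (v 3) (v 4) i) f = 0 := by
        have := hf (mv v) (v 3 - v 4 * (mv v 0 ^ (p ^ 2)) ^ 2 / δ) (v 4 * mv v 0 ^ 2 / δ) hv hm0
        rw [← thE_eq_th hδ hδ0] at this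
        exact this
      rw [e, mul_zero]
  have := key (vm m x z) (by rw [← herm_mv, mv_vm]; exact hm)
  rw [mv_vm, vm_three, vm_four] at this
  exact this

/-- If `G ∘ θ = η₀` then `G` vanishes at the rational tangent lines. -/
theorem closed_eta (hr : p = 2 * r + 1) (G : MvPolynomial (Fin 6) k)
    (hG : ∀ (m : Fin 3 → k) (δ x y : k), Herm p m → m ≠ 0 → IsDelta p m δ →
      eval (th p m x y) G = eta p r 0 m δ x y)
    (m : Fin 3 → k) (x z : k) (hm : Herm p m) (hm0 : m 0 ≠ 0) (hcr : cr p m 0 = 0) :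
    eval (thE p m x z) G = 0 := by
  have hp2 : 2 ≤ p := (Fact.out : p.Prime).two_le
  have hr1 : 1 ≤ r := by omega
  have hn : r * p + r ≠ 0 := by positivity
  have key : ∀ v, H5 p v →
      (mv v 0 ^ p) ^ (p + (r * p + r)) * eval (thE p (mv v) (v 3) (v 4)) G
        - (v 3 * cr p (mv v) 0 - v 4 * (mv v 0 ^ (p ^ 2)) ^ 2 * mv v 0 ^ p) ^ p
          * (v 4 * mv v 0 ^ 2) ^ (r * p + r) * cr p (mv v) 0 ^ (r * p + r) * mv v 0 = 0 := by
    refine dens (polyFun_cr p 0) ?_ ?_ (exists_cr_ne hr)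
    · exact ((((PolyFun.proj 0).pow _).pow _).mul (PolyFun.comp G (polyFun_thE p))).sub
        ((((((((PolyFun.proj 3).mul (polyFun_cr p 0)).sub (((PolyFun.proj 4).mul
          (((PolyFun.proj 0).pow _).pow _)).mul ((PolyFun.proj 0).pow _))).pow _).mul
          (((PolyFun.proj 4).mul ((PolyFun.proj 0).pow _)).pow _)).mul
          ((polyFun_cr p 0).pow _))).mul (PolyFun.proj 0))
    · intro v hv
      by_cases h0 : cr p (mv v) 0 = 0
      · rw [h0, zero_mul]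
      · rw [mul_eq_zero]
        right
        have hmv0 : mv v ≠ 0 := by
          intro h
          apply h0
          rw [h]
          simp [cr]
        obtain ⟨δ, hδ⟩ := exists_delta (p := p) (m := mv v) hv hmv0
        have hδ0 : δ ≠ 0 := by
          rintro rfl
          apply h0
          rw [isDelta_iff.1 hδ 0, zero_mul]
        have e := hG (mv v) δ (v 3 - v 4 * (mv v 0 ^ (p ^ 2)) ^ 2 / δ) (v 4 * mv v 0 ^ 2 / δ)
          hv hmv0 hδ
        rw [← thE_eq_th hδ hδ0] at e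
        rw [e, isDelta_iff.1 hδ 0, eta]
        have e2 : p ^ 2 + 2 * r = p + (r * p + r) + (r * p + r) := by
          rw [hr]; ring
        have e3 : (v 3 * (δ * mv v 0 ^ p) - v 4 * (mv v 0 ^ (p ^ 2)) ^ 2 * mv v 0 ^ p)
            = mv v 0 ^ p * δ * (v 3 - v 4 * (mv v 0 ^ (p ^ 2)) ^ 2 / δ) := by
          field_simp
        have e4 : v 4 * mv v 0 ^ 2 = δ * (v 4 * mv v 0 ^ 2 / δ) := by
          field_simp
        set U := v 3 - v 4 * (mv v 0 ^ (p ^ 2)) ^ 2 / δ with hU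
        set Y := v 4 * mv v 0 ^ 2 / δ with hY
        rw [e3, e4, e2]
        simp only [mul_pow, pow_add]
        ring
  have h1 := key (vm m x z) (by rw [← herm_mv, mv_vm]; exact hm)
  rw [mv_vm, vm_three, vm_four, hcr, zero_pow hn, mul_zero, zero_mul, sub_zero] at h1
  exact (mul_eq_zero.1 h1).resolve_left (pow_ne_zero _ (pow_ne_zero _ hm0))

end

end Pool.Agent.PRank
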