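import Pool.Agent.PRank.Ext

/-!
A power of every variable belongs to the ideal `K`.
-/

namespace Pool.Agent.PRank

set_option linter.unusedSectionVars false

open MvPolynomial

variable {k : Type*} [Field k]

/-- Entries of the chart matrix with upper left entry one. -/
def th1 (p : ℕ) (a b Z : k) : Fin 6 → k :=
  ![1, a + Z * b ^ p, b - Z * a ^ p,
    (a + Z * b ^ p) ^ 2 + Z * ((a * (b ^ p) ^ p - (a ^ p) ^ p * b) - Z) * (b ^ p) ^ 2,
    (a + Z * b ^ p) * (b - Z * a ^ p)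
      - Z * ((a * (b ^ p) ^ p - (a ^ p) ^ p * b) - Z) * (a ^ p * b ^ p),
    (b - Z * a ^ p) ^ 2 + Z * ((a * (b ^ p) ^ p - (a ^ p) ^ p * b) - Z) * (a ^ p) ^ 2]

/-- The chart version of `η_i`. -/
def eta1 (p r : ℕ) (i : Fin 3) (a b Z : k) : k :=
  ![1, a, b] i * (((a * (b ^ p) ^ p - (a ^ p) ^ p * b) - Z) ^ p * Z ^ (r * p + r) *
    (a * (b ^ p) ^ p - (a ^ p) ^ p * b) ^ (r * p + r))

section

variable {p r : ℕ} [Fact p.Prime] [CharP k p]

theorem chart_poly (hr : p = 2 * r + 1) (i : Fin 3) :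
    ∃ g : MvPolynomial (Fin 6) k, ∀ a b Z : k, 1 + a ^ (p + 1) + b ^ (p + 1) = 0 →
      eval (th1 p a b Z) g = eta1 p r i a b Z := by
  classical
  let Sp : Type _ := {v : Fin 3 → k // 1 + v 0 ^ (p + 1) + v 1 ^ (p + 1) = 0}
  by_cases hne : Nonempty Sp
  swap
  · refine ⟨0, fun a b Z h => ?_⟩
    exact absurd ⟨⟨![a, b, Z], h⟩⟩ hne
  let Cc : Type _ := Sp → k
  have : Nonempty Sp := hne
  have : CharP (Sp → k) p := by
    obtain ⟨s⟩ := hne
    exact charP_of_injective_algebraMap (R := k) (A := Sp → k)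
      (fun x y h => congrFun h s) p
  let a : Sp → k := fun s => s.1 0
  let b : Sp → k := fun s => s.1 1
  let Z : Sp → k := fun s => s.1 2
  let gens : Fin 6 → (Sp → k) := fun j s => th1 p (s.1 0) (s.1 1) (s.1 2) j
  let S : Subring (Sp → k) := (aeval (R := k) gens).toRingHom.range
  have hmem : ∀ j, gens j ∈ S := fun j => ⟨X j, by simp⟩
  have hS : ∀ c : k, (fun _ : Sp => c) ∈ S := fun c => ⟨C c, by simp; rfl⟩
  have hrel : (1 : Sp → k) + a ^ (p + 1) + b ^ (p + 1) = 0 := by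
    funext s
    exact s.2
  have hA : a + Z * b ^ p ∈ S := hmem 1
  have hB : b - Z * a ^ p ∈ S := hmem 2
  have h02 : Z * ((a * (b ^ p) ^ p - (a ^ p) ^ p * b) - Z) * (b ^ p) ^ 2 ∈ S := by
    have e : Z * ((a * (b ^ p) ^ p - (a ^ p) ^ p * b) - Z) * (b ^ p) ^ 2
        = gens 3 - gens 1 ^ 2 := by
      funext s
      simp [gens, th1, a, b, Z]
    rw [e]
    exact S.sub_mem (hmem 3) (S.pow_mem (hmem 1) 2)
  have h11 : Z * ((a * (b ^ p) ^ p - (a ^ p) ^ p * b) - Z) * (a ^ p * b ^ p) ∈ S := by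
    have e : Z * ((a * (b ^ p) ^ p - (a ^ p) ^ p * b) - Z) * (a ^ p * b ^ p)
        = gens 1 * gens 2 - gens 4 := by
      funext s
      simp [gens, th1, a, b, Z]
    rw [e]
    exact S.sub_mem (S.mul_mem (hmem 1) (hmem 2)) (hmem 4)
  have h20 : Z * ((a * (b ^ p) ^ p - (a ^ p) ^ p * b) - Z) * (a ^ p) ^ 2 ∈ S := by
    have e : Z * ((a * (b ^ p) ^ p - (a ^ p) ^ p * b) - Z) * (a ^ p) ^ 2
        = gens 5 - gens 2 ^ 2 := by
      funext s
      simp [gens, th1, a, b, Z]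
    rw [e]
    exact S.sub_mem (hmem 5) (S.pow_mem (hmem 2) 2)
  have hmain := Chart.chart_main (C := Sp → k) hr hrel S hA hB rfl h20 h11 h02
  have hfin : (fun s : Sp => eta1 p r i (s.1 0) (s.1 1) (s.1 2)) ∈ S := by
    fin_cases i
    · have e : (fun s : Sp => eta1 p r 0 (s.1 0) (s.1 1) (s.1 2)) =
          ((a * (b ^ p) ^ p - (a ^ p) ^ p * b) - Z) ^ p * Z ^ (r * p + r) *
            (a * (b ^ p) ^ p - (a ^ p) ^ p * b) ^ (r * p + r) := by
        funext s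
        simp [eta1, a, b, Z]
      exact e ▸ hmain.1
    · have e : (fun s : Sp => eta1 p r 1 (s.1 0) (s.1 1) (s.1 2)) =
          a * (((a * (b ^ p) ^ p - (a ^ p) ^ p * b) - Z) ^ p * Z ^ (r * p + r) *
            (a * (b ^ p) ^ p - (a ^ p) ^ p * b) ^ (r * p + r)) := by
        funext s
        simp [eta1, a, b, Z]
      exact e ▸ hmain.2.1
    · have e : (fun s : Sp => eta1 p r 2 (s.1 0) (s.1 1) (s.1 2)) =
          b * (((a * (b ^ p) ^ p - (a ^ p) ^ p * b) - Z) ^ p * Z ^ (r * p + r) *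
            (a * (b ^ p) ^ p - (a ^ p) ^ p * b) ^ (r * p + r)) := by
        funext s
        simp [eta1, a, b, Z]
      exact e ▸ hmain.2.2
  obtain ⟨g, hg⟩ := hfin
  refine ⟨g, fun a' b' Z' h => ?_⟩
  have h1 := congrFun hg ⟨![a', b', Z'], h⟩
  simp only at h1
  have h2 : ((aeval (R := k) gens).toRingHom g) ⟨![a', b', Z'], h⟩
      = eval (th1 p a' b' Z') g := by
    have h3 : ∀ (s : Sp) (Q : MvPolynomial (Fin 6) k),
        (aeval (R := k) gens Q) s = eval (fun j => gens j s) Q := by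
      intro s Q
      induction Q using MvPolynomial.induction_on with
      | C c => simp
      | add P Q hP hQ => simp only [map_add, Pi.add_apply, hP, hQ]
      | mul_X P j hP => simp only [map_mul, Pi.mul_apply, hP, aeval_X, eval_X]
    exact h3 _ g
  rw [h2] at h1
  exact h1

/-- Clearing the first coordinate. -/
theorem homog_exists (g : MvPolynomial (Fin 6) k) :
    ∃ D : ℕ, ∀ N, D ≤ N → ∃ G : MvPolynomial (Fin 6) k, ∀ t : Fin 6 → k, t 0 ≠ 0 →
      eval t G = t 0 ^ N * eval (fun i => t i / t 0) g := by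
  induction g using MvPolynomial.induction_on with
  | C c => exact ⟨0, fun N _ => ⟨C c * X 0 ^ N, fun t _ => by simp [mul_comm]⟩⟩
  | add P Q hP hQ =>
    obtain ⟨D, hD⟩ := hP
    obtain ⟨E, hE⟩ := hQ
    refine ⟨max D E, fun N hN => ?_⟩
    obtain ⟨G, hG⟩ := hD N (le_trans (le_max_left _ _) hN)
    obtain ⟨G', hG'⟩ := hE N (le_trans (le_max_right _ _) hN)
    refine ⟨G + G', fun t ht => ?_⟩
    rw [map_add, map_add, hG t ht, hG' t ht]
    ring
  | mul_X P j hP =>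
    obtain ⟨D, hD⟩ := hP
    refine ⟨D + 1, fun N hN => ?_⟩
    obtain ⟨M, rfl⟩ : ∃ M, N = M + 1 := ⟨N - 1, by omega⟩
    obtain ⟨G, hG⟩ := hD M (by omega)
    refine ⟨G * X j, fun t ht => ?_⟩
    rw [map_mul, map_mul, hG t ht, eval_X, eval_X]
    field_simp
    ring

/-- Rescaling of the parametrisation to the chart. -/
theorem th_chart {m : Fin 3 → k} {δ x y : k} (hr : p = 2 * r + 1)
    (hm : Herm p m) (hm0 : m 0 ≠ 0) (hδ : IsDelta p m δ) (ht : th p m x y 0 ≠ 0) :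
    ∃ a b Z : k, 1 + a ^ (p + 1) + b ^ (p + 1) = 0 ∧
      (∀ i, th p m x y i / th p m x y 0 = th1 p a b Z i) ∧
      ∀ i, eta p r i m δ x y = (th p m x y 0) ^ (p + (r * p + r)) * eta1 p r i a b Z := by
  have hm' : m 0 ^ (p + 1) + m 1 ^ (p + 1) + m 2 ^ (p + 1) = 0 := hm
  obtain ⟨d0, d1, d2⟩ := hδ
  set a := m 1 / m 0 with ha
  set b := m 2 / m 0 with hb
  have hm1 : m 1 = m 0 * a := by rw [ha]; field_simp
  have hm2 : m 2 = m 0 * b := by rw [hb]; field_simp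
  have hab : 1 + a ^ (p + 1) + b ^ (p + 1) = 0 := by
    rw [hm1, hm2, mul_pow, mul_pow] at hm'
    have h : m 0 ^ (p + 1) * (1 + a ^ (p + 1) + b ^ (p + 1)) = 0 := by
      rw [← hm']; ring
    exact (mul_eq_zero.1 h).resolve_left (pow_ne_zero _ hm0)
  have hab' : 1 + (a ^ p) ^ (p + 1) + (b ^ p) ^ (p + 1) = 0 := by
    have h : (1 + a ^ (p + 1) + b ^ (p + 1)) ^ p = 0 ^ p := by rw [hab]
    rw [add_pow_char, add_pow_char, one_pow, zero_pow (Fact.out : p.Prime).ne_zero, ← pow_mul,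
      ← pow_mul, mul_comm (p + 1) p, pow_mul, pow_mul] at h
    exact h
  set D := a * (b ^ p) ^ p - (a ^ p) ^ p * b with hD
  -- the Frobenius identities
  have hαp : (a ^ p) ^ p = a + D * b ^ p := by
    rw [hD]
    linear_combination (-a) * hab' + (a ^ p) ^ p * hab
  have hβp : (b ^ p) ^ p = b - D * a ^ p := by
    rw [hD]
    linear_combination (-b) * hab' + (b ^ p) ^ p * hab
  have hq : ∀ z : k, z ^ (p ^ 2) = (z ^ p) ^ p := fun z => by rw [← pow_mul, pow_two]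
  have hδ1 : D * m 0 ^ (p ^ 2 + 1) = δ * m 0 ^ p := by
    rw [← d0, hm1, hm2, mul_pow, mul_pow, hq a, hq b, hD]
    ring
  obtain ⟨s, hs⟩ : ∃ s, p ^ 2 + 1 = p + s := ⟨p ^ 2 + 1 - p, by
    have : p ≤ p ^ 2 := Nat.le_self_pow (by norm_num) p
    omega⟩
  have hδ2 : δ = D * m 0 ^ s := by
    have h : m 0 ^ p * (D * m 0 ^ s - δ) = 0 := by
      rw [hs, pow_add] at hδ1
      linear_combination hδ1
    exact (sub_eq_zero.1 ((mul_eq_zero.1 h).resolve_left (pow_ne_zero _ hm0))).symm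
  set t0 := th p m x y 0 with ht0
  have ht0' : t0 = x * m 0 ^ 2 + y * (m 0 ^ (p ^ 2)) ^ 2 := by
    rw [ht0]; simp [th]; ring
  set Z := y * (m 0 ^ (p ^ 2)) ^ 2 * D / t0 with hZ
  have hZ' : t0 * Z = y * (m 0 ^ (p ^ 2)) ^ 2 * D := by rw [hZ]; field_simp
  have hm1q : m 1 ^ (p ^ 2) = m 0 ^ (p ^ 2) * (a + D * b ^ p) := by
    rw [hm1, mul_pow, hq a, hαp]
  have hm2q : m 2 ^ (p ^ 2) = m 0 ^ (p ^ 2) * (b - D * a ^ p) := by
    rw [hm2, mul_pow, hq b, hβp]
  refine ⟨a, b, Z, hab, ?_, ?_⟩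
  · intro i
    rw [div_eq_iff ht]
    fin_cases i
    · change t0 = 1 * t0
      rw [one_mul]
    · change x * (m 0 * m 1) + y * (m 0 ^ (p ^ 2) * m 1 ^ (p ^ 2)) = (a + Z * b ^ p) * t0
      rw [hm1q, hm1]
      linear_combination (-(b ^ p)) * hZ' - a * ht0'
    · change x * (m 0 * m 2) + y * (m 0 ^ (p ^ 2) * m 2 ^ (p ^ 2)) = (b - Z * a ^ p) * t0
      rw [hm2q, hm2]
      linear_combination (a ^ p) * hZ' - b * ht0'
    · change x * (m 1 * m 1) + y * (m 1 ^ (p ^ 2) * m 1 ^ (p ^ 2))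
        = ((a + Z * b ^ p) ^ 2 + Z * (D - Z) * (b ^ p) ^ 2) * t0
      rw [hm1q, hm1]
      linear_combination (-(2 * a * b ^ p + D * (b ^ p) ^ 2)) * hZ' - a ^ 2 * ht0'
    · change x * (m 1 * m 2) + y * (m 1 ^ (p ^ 2) * m 2 ^ (p ^ 2))
        = ((a + Z * b ^ p) * (b - Z * a ^ p) - Z * (D - Z) * (a ^ p * b ^ p)) * t0
      rw [hm1q, hm2q, hm1, hm2]
      linear_combination (-(b * b ^ p - a * a ^ p - D * a ^ p * b ^ p)) * hZ' - a * b * ht0'
    · change x * (m 2 * m 2) + y * (m 2 ^ (p ^ 2) * m 2 ^ (p ^ 2))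
        = ((b - Z * a ^ p) ^ 2 + Z * (D - Z) * (a ^ p) ^ 2) * t0
      rw [hm2q, hm2]
      linear_combination (2 * b * a ^ p - D * (a ^ p) ^ 2) * hZ' - b ^ 2 * ht0'
  · intro i
    have hX : t0 * (D - Z) = x * m 0 ^ 2 * D := by
      linear_combination D * ht0' - hZ'
    have hmi : m i = m 0 * ![1, a, b] i := by
      fin_cases i
      · simp
      · exact hm1
      · exact hm2
    have e1 : t0 ^ (p + (r * p + r)) * eta1 p r i a b Z
        = ![1, a, b] i * ((t0 * (D - Z)) ^ p * (t0 * Z) ^ (r * p + r) * D ^ (r * p + r)) := by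
      rw [eta1, ← hD, mul_pow, mul_pow, pow_add]
      ring
    have e2 : p ^ 2 + 2 * r = p + (r * p + r) + (r * p + r) := by
      rw [hr]; ring
    have e3 : s * (p ^ 2 + 2 * r) + 1 = 2 * p + 2 * p ^ 2 * (r * p + r) := by
      have hs' : (s : ℤ) = p ^ 2 + 1 - p := by
        have : ((p ^ 2 + 1 : ℕ) : ℤ) = ((p + s : ℕ) : ℤ) := by rw [hs]
        push_cast at this
        linarith
      have hr' : (p : ℤ) = 2 * r + 1 := by exact_mod_cast hr
      have : ((s * (p ^ 2 + 2 * r) + 1 : ℕ) : ℤ) = ((2 * p + 2 * p ^ 2 * (r * p + r) : ℕ) : ℤ) := by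
        push_cast
        rw [hs', hr']
        ring
      exact_mod_cast this
    rw [e1, hX, hZ', eta, hδ2, hmi]
    have e4 : x ^ p * y ^ (r * p + r) * (D * m 0 ^ s) ^ (p ^ 2 + 2 * r) * (m 0 * ![1, a, b] i)
        = x ^ p * y ^ (r * p + r) * D ^ (p ^ 2 + 2 * r) * m 0 ^ (s * (p ^ 2 + 2 * r) + 1)
          * ![1, a, b] i := by
      rw [mul_pow, ← pow_mul, pow_succ (m 0)]
      ring
    rw [e4, e3, e2, pow_add, pow_add, pow_add, mul_pow, mul_pow, mul_pow, mul_pow,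
      ← pow_mul (m 0) 2 p, ← pow_mul (m 0 ^ (p ^ 2)) 2, ← pow_mul (m 0) (p ^ 2),
      show p ^ 2 * (2 * (r * p + r)) = 2 * p ^ 2 * (r * p + r) by ring]
    ring

/-- A power of the first variable belongs to `K`. -/
theorem X0_pow_mem [IsAlgClosed k] (hr : p = 2 * r + 1) :
    ∃ N, (X 0 : MvPolynomial (Fin 6) k) ^ N ∈ KIdeal k p r := by
  have hp : p ≠ 0 := (Fact.out : p.Prime).ne_zero
  choose g hg using fun i => chart_poly (k := k) hr i
  choose D hD using fun i => homog_exists (g i)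
  set N := D 0 + D 1 + D 2 with hN
  have hDN : ∀ i, D i ≤ N + (p + (r * p + r)) := by
    intro i
    fin_cases i
    · change D 0 ≤ _; omega
    · change D 1 ≤ _; omega
    · change D 2 ≤ _; omega
  refine ⟨N, mem_KIdeal.2 fun i => ?_⟩
  obtain ⟨G, hG⟩ := hD i _ (hDN i)
  refine ⟨G, ?_⟩
  refine ext_eta (r := r) G (X 0 ^ N) i
    (F := fun v => mv v 0 * th p (mv v) (v 3) (v 4) 0)
    ((polyFun_mv 0).mul (polyFun_th p 0)) ?_ ?_
  · obtain ⟨z, hz⟩ := IsAlgClosed.exists_pow_nat_eq (-1 : k) (Nat.succ_pos p)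
    refine ⟨![1, z, 0, 1, 0], ?_, ?_⟩
    · change (1 : k) ^ (p + 1) + z ^ (p + 1) + 0 ^ (p + 1) = 0
      rw [show z ^ (p + 1) = -1 from hz]
      simp
    · simp [mv, th]
  · intro m δ x y h1 h2 h3 h4
    rw [mv_vm, vm_three, vm_four] at h4
    have h5 : m 0 ≠ 0 := left_ne_zero_of_mul h4
    have h6 : th p m x y 0 ≠ 0 := right_ne_zero_of_mul h4
    obtain ⟨a, b, Z, hab, hth, heta⟩ := th_chart hr h1 h5 h3 h6
    rw [hG _ h6, heta i, ← hg i a b Z hab, map_pow, eval_X, pow_add]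
    have : (fun i => th p m x y i / th p m x y 0) = th1 p a b Z := funext hth
    rw [this]
    ring

end

end Pool.Agent.PRank
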