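import Pool.Agent.PRank.Series

/-!
The core theorem: every hypersurface section of the `p`-rank zero cone is non-reduced.
-/

namespace Pool.Agent.PRank

set_option linter.unusedSectionVars false

open Finset

/-- The symmetric matrix with given entries. -/
def symMat {R : Type*} (t : Fin 6 → R) : Matrix (Fin 3) (Fin 3) R :=
  !![t 0, t 1, t 2; t 1, t 3, t 4; t 2, t 4, t 5]

/-- The product `T T^(p) T^(p²)`. -/
def triple {R : Type*} [CommRing R] (p : ℕ) (T : Matrix (Fin 3) (Fin 3) R) :
    Matrix (Fin 3) (Fin 3) R := T * T.map (· ^ p) * T.map (· ^ (p ^ 2))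

/-- The ideal generated by the entries of `T T^(p) T^(p²)`. -/
def entIdeal {R : Type*} [CommRing R] (p : ℕ) (T : Matrix (Fin 3) (Fin 3) R) : Ideal R :=
  Ideal.span (Set.range fun ij : Fin 3 × Fin 3 => triple p T ij.1 ij.2)

theorem triple_map {R S : Type*} [CommRing R] [CommRing S] (f : R →+* S) (p : ℕ)
    (T : Matrix (Fin 3) (Fin 3) R) : (triple p T).map f = triple p (T.map f) := by
  have h1 : ∀ n : ℕ, (T.map (· ^ n)).map f = (T.map f).map (· ^ n) := by
    intro n
    ext i j
    simp
  rw [triple, triple, Matrix.map_mul, Matrix.map_mul, h1, h1]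

theorem entIdeal_map {R S : Type*} [CommRing R] [CommRing S] (f : R →+* S) (p : ℕ)
    (T : Matrix (Fin 3) (Fin 3) R) : (entIdeal p T).map f = entIdeal p (T.map f) := by
  rw [entIdeal, entIdeal, Ideal.map_span, ← Set.range_comp, ← triple_map]
  rfl

theorem symMat_map {R S : Type*} (f : R → S) (t : Fin 6 → R) :
    (symMat t).map f = symMat (fun i => f (t i)) := by
  ext i j
  fin_cases i <;> fin_cases j <;> rfl

theorem symMat_smul {R : Type*} [CommRing R] (c : R) (t : Fin 6 → R) :
    symMat (fun i => c * t i) = c • symMat t := by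
  ext i j
  fin_cases i <;> fin_cases j <;> rfl

theorem triple_smul {R : Type*} [CommRing R] (p : ℕ) (c : R) (T : Matrix (Fin 3) (Fin 3) R) :
    triple p (c • T) = c ^ (1 + p + p ^ 2) • triple p T := by
  have h1 : ∀ n : ℕ, (c • T).map (· ^ n) = c ^ n • T.map (· ^ n) := by
    intro n
    ext i j
    simp [mul_pow]
  rw [triple, triple, h1, h1]
  simp only [Matrix.smul_mul, Matrix.mul_smul, smul_smul]
  congr 1
  ring

section

variable {k : Type*} [Field k] {p r : ℕ} [Fact p.Prime] [CharP k p]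

theorem mulVec_symMat (t : Fin 6 → k) (v : Fin 3 → k) : (symMat t).mulVec v = Tv t v := by
  refine vec3_ext ?_ ?_ ?_ <;>
    simp [symMat, Tv, Matrix.mulVec, dotProduct, Fin.sum_univ_three]

theorem mulVec_triple (t : Fin 6 → k) (v : Fin 3 → k) :
    (triple p (symMat t)).mulVec v = Tv t (Tv (fr p t) (Tv (fr p (fr p t)) v)) := by
  rw [triple, ← Matrix.mulVec_mulVec, ← Matrix.mulVec_mulVec, symMat_map, symMat_map,
    mulVec_symMat, mulVec_symMat, mulVec_symMat]
  congr 3
  have : fr p (fr p t) = fun i => t i ^ (p ^ 2) := by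
    funext i
    simp only [fr]
    rw [← pow_mul, pow_two]
  rw [this]

/-- The parametrised matrices have `p`-rank zero. -/
theorem triple_th {m : Fin 3 → k} (hm : Herm p m) (x y : k) :
    triple p (symMat (th p m x y)) = 0 := by
  have hp0 : p ≠ 0 := (Fact.out : p.Prime).ne_zero
  set l := fr p m with hl
  set m' := fr p l with hm'
  set l3 := fr p m' with hl3
  have hm'a : ∀ i, m' i = m i ^ (p ^ 2) := fun i => by
    simp only [hm', hl, fr]
    rw [← pow_mul, pow_two]
  have hml : dp m l = 0 := by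
    have h : m 0 ^ (p + 1) + m 1 ^ (p + 1) + m 2 ^ (p + 1) = 0 := hm
    simp only [dp, hl, fr]
    rw [← h]
    ring
  have hcomm : ∀ a b : Fin 3 → k, dp a b = dp b a := fun a b => by simp only [dp]; ring
  have hlm' : dp l m' = 0 := by rw [hl, hm', hl, dp_fr, hml, zero_pow hp0]
  have hm'l3 : dp m' l3 = 0 := by
    have : dp m' l3 = (dp l m') ^ p := by rw [← dp_fr]
    rw [this, hlm', zero_pow hp0]
  have ht : th p m x y = ![x * (m 0 * m 0) + 0 * (m 0 * m' 0 + m' 0 * m 0) + y * (m' 0 * m' 0),
      x * (m 0 * m 1) + 0 * (m 0 * m' 1 + m' 0 * m 1) + y * (m' 0 * m' 1),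
      x * (m 0 * m 2) + 0 * (m 0 * m' 2 + m' 0 * m 2) + y * (m' 0 * m' 2),
      x * (m 1 * m 1) + 0 * (m 1 * m' 1 + m' 1 * m 1) + y * (m' 1 * m' 1),
      x * (m 1 * m 2) + 0 * (m 1 * m' 2 + m' 1 * m 2) + y * (m' 1 * m' 2),
      x * (m 2 * m 2) + 0 * (m 2 * m' 2 + m' 2 * m 2) + y * (m' 2 * m' 2)] := by
    simp only [hm'a]
    funext i
    fin_cases i <;> simp [th]
  set t := th p m x y with htdef
  have hTv : ∀ w, Tv t w = (x * dp m w) • m + (y * dp m' w) • m' := by
    intro w
    conv_lhs => rw [ht]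
    rw [Tv_decomp, zero_mul, add_zero, zero_mul, zero_add]
  have hTl : Tv t l = 0 := by
    rw [hTv, hml, hcomm m' l, hlm']
    simp
  have frT : ∀ w, Tv (fr p t) (fr p w) = fr p (Tv t w) := fun w => fr_Tv t w
  have hTm' : Tv (fr p t) m' = 0 := by rw [hm', frT, hTl, fr_zero]
  have hTl3 : Tv t l3 = (x * dp m l3) • m := by
    rw [hTv, hm'l3]
    simp
  have hTm'' : Tv (fr p t) (fr p l3) = (x * dp m l3) ^ p • l := by
    rw [frT, hTl3, fr_smul]
  -- columns of the last factor
  have hcol : ∀ v, ∃ a b : k, Tv (fr p (fr p t)) v = a • m' + b • fr p l3 := by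
    intro v
    have h : Tv (fr p (fr p t)) v = ((x ^ p) ^ p * dp m' v) • m'
        + ((y ^ p) ^ p * dp (fr p l3) v) • fr p l3 := by
      have e : ∀ i, fr p (fr p t) i = ![(x ^ p) ^ p * (m' 0 * m' 0) + (y ^ p) ^ p *
            (fr p l3 0 * fr p l3 0), (x ^ p) ^ p * (m' 0 * m' 1) + (y ^ p) ^ p *
            (fr p l3 0 * fr p l3 1), (x ^ p) ^ p * (m' 0 * m' 2) + (y ^ p) ^ p *
            (fr p l3 0 * fr p l3 2), (x ^ p) ^ p * (m' 1 * m' 1) + (y ^ p) ^ p *
            (fr p l3 1 * fr p l3 1), (x ^ p) ^ p * (m' 1 * m' 2) + (y ^ p) ^ p *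
            (fr p l3 1 * fr p l3 2), (x ^ p) ^ p * (m' 2 * m' 2) + (y ^ p) ^ p *
            (fr p l3 2 * fr p l3 2)] i := by
        intro i
        have key : ∀ a b : Fin 3, ((x * (m a * m b) + y * (m' a * m' b)) ^ p) ^ p
            = (x ^ p) ^ p * (m' a * m' b) + (y ^ p) ^ p * (fr p l3 a * fr p l3 b) := by
          intro a b
          rw [add_pow_char, add_pow_char]
          simp only [hl3, hm', hl, fr]
          ring
        have ht' : t = ![x * (m 0 * m 0) + y * (m' 0 * m' 0), x * (m 0 * m 1) + y * (m' 0 * m' 1),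
            x * (m 0 * m 2) + y * (m' 0 * m' 2), x * (m 1 * m 1) + y * (m' 1 * m' 1),
            x * (m 1 * m 2) + y * (m' 1 * m' 2), x * (m 2 * m 2) + y * (m' 2 * m' 2)] := by
          rw [ht]
          funext i
          fin_cases i <;> simp
        rw [fr, fr, ht']
        fin_cases i
        · exact key 0 0
        · exact key 0 1
        · exact key 0 2
        · exact key 1 1
        · exact key 1 2
        · exact key 2 2
      rw [show fr p (fr p t) = _ from funext e]
      refine vec3_ext ?_ ?_ ?_ <;> simp [Tv, dp] <;> ring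
    exact ⟨_, _, h⟩
  have hall : ∀ v, (triple p (symMat t)).mulVec v = 0 := by
    intro v
    rw [mulVec_triple]
    obtain ⟨a, b, hab⟩ := hcol v
    rw [hab, Tv_add, Tv_smul, Tv_smul, hTm', hTm'', smul_zero, zero_add, Tv_smul, Tv_smul, hTl,
      smul_zero, smul_zero]
  ext i j
  have := congrFun (hall (Pi.single j 1)) i
  rw [Matrix.mulVec_single_one] at this
  simpa using this

variable [IsAlgClosed k]

/-- A polynomial vanishing on the image of `θ` belongs to the radical of the ideal of entries. -/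
theorem mem_radical_of_vanish (hr : p = 2 * r + 1) (f : MvPolynomial (Fin 6) k)
    (hf : ∀ (m : Fin 3 → k) (x y : k), Herm p m → m ≠ 0 →
      MvPolynomial.eval (th p m x y) f = 0) :
    f ∈ (entIdeal p (symMat (MvPolynomial.X : Fin 6 → MvPolynomial (Fin 6) k))).radical := by
  rw [← MvPolynomial.vanishingIdeal_zeroLocus_eq_radical (K := k),
    MvPolynomial.mem_vanishingIdeal_iff]
  intro t ht
  rw [entIdeal, MvPolynomial.zeroLocus_span] at ht
  have hz : triple p (symMat t) = 0 := by
    ext i j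
    have h := ht _ ⟨(i, j), rfl⟩
    have e : MvPolynomial.aeval t (triple p (symMat (MvPolynomial.X :
        Fin 6 → MvPolynomial (Fin 6) k)) i j) = triple p (symMat t) i j := by
      have h1 := triple_map ((MvPolynomial.aeval t : MvPolynomial (Fin 6) k →ₐ[k] k) :
        MvPolynomial (Fin 6) k →+* k) p (symMat MvPolynomial.X)
      rw [symMat_map] at h1
      have h2 := congrFun (congrFun h1 i) j
      simpa using h2
    rw [← e]
    exact h
  have hT : ∀ v, Tv t (Tv (fr p t) (Tv (fr p (fr p t)) v)) = 0 := by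
    intro v
    rw [← mulVec_triple, hz, Matrix.zero_mulVec]
  have hker : ∃ l : Fin 3 → k, l ≠ 0 ∧ Tv t l = 0 := by
    have hdet : (symMat t).det = 0 := by
      have h1 := congrArg Matrix.det hz
      rw [triple, Matrix.det_mul, Matrix.det_mul, Matrix.det_zero] at h1
      have h2 : ∀ n : ℕ, ((symMat t).map (· ^ p ^ n)).det = (symMat t).det ^ (p ^ n) := by
        intro n
        have h3 := (RingHom.map_det (iterateFrobenius k p n) (symMat t))
        rw [iterateFrobenius_def] at h3
        rw [h3]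
        congr 1
      have h4 := h2 1
      rw [pow_one] at h4
      rw [h4, h2 2] at h1
      rcases mul_eq_zero.1 h1 with h5 | h5
      · rcases mul_eq_zero.1 h5 with h6 | h6
        · exact h6
        · exact pow_eq_zero_iff (Fact.out : p.Prime).ne_zero |>.1 h6
      · exact pow_eq_zero_iff (pow_ne_zero 2 (Fact.out : p.Prime).ne_zero) |>.1 h5
    obtain ⟨v, hv, hv'⟩ := Matrix.exists_mulVec_eq_zero_iff.2 hdet
    exact ⟨v, hv, by rw [← mulVec_symMat]; exact hv'⟩
  rw [MvPolynomial.aeval_eq_eval]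
  exact vanish_on_V hr f hf hT hker

/-- The generic symmetric matrix over the power series ring. -/
noncomputable def genT (k : Type*) [Field k] : Matrix (Fin 3) (Fin 3) (MvPowerSeries (Fin 6) k) :=
  symMat (fun i => MvPowerSeries.X i)

/-- The ideal of the reduced `p`-rank zero locus in the power series ring. -/
noncomputable def VI (k : Type*) [Field k] (p : ℕ) : Ideal (MvPowerSeries (Fin 6) k) :=
  (entIdeal p (genT k)).radical

theorem coe_mem_VI (hr : p = 2 * r + 1) (f : MvPolynomial (Fin 6) k)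
    (hf : ∀ (m : Fin 3 → k) (x y : k), Herm p m → m ≠ 0 →
      MvPolynomial.eval (th p m x y) f = 0) :
    (f : MvPowerSeries (Fin 6) k) ∈ VI k p := by
  obtain ⟨n, hn⟩ := mem_radical_of_vanish hr f hf
  refine ⟨n, ?_⟩
  have h := Ideal.mem_map_of_mem
    (MvPolynomial.coeToMvPowerSeries.ringHom (R := k) (σ := Fin 6)) hn
  rw [entIdeal_map, symMat_map] at h
  have e : (fun i => MvPolynomial.coeToMvPowerSeries.ringHom (R := k) (σ := Fin 6)
      (MvPolynomial.X i)) = fun i => MvPowerSeries.X i := by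
    funext i
    simp
  rw [e] at h
  simpa [genT] using h

theorem ev_VI {m : Fin 3 → k} (hm : Herm p m) (x y : k) {f : MvPowerSeries (Fin 6) k}
    (hf : f ∈ VI k p) : ev (th p m x y) f = 0 := by
  obtain ⟨n, hn⟩ := hf
  have h : ev (th p m x y) (f ^ n) = 0 := by
    have h1 := Ideal.mem_map_of_mem (ev (th p m x y)).toRingHom hn
    rw [entIdeal_map] at h1
    have e : (genT k).map (ev (th p m x y)).toRingHom
        = (MvPowerSeries.X () : MvPowerSeries Unit k) •
          (symMat (th p m x y)).map (MvPowerSeries.C (σ := Unit)) := by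
      rw [genT, symMat_map, symMat_map, ← symMat_smul]
      congr 1
      funext i
      change ev (th p m x y) (MvPowerSeries.X i) = _
      rw [ev_X, mul_comm]
    rw [e, entIdeal, triple_smul, ← triple_map, triple_th hm] at h1
    have h2 : (Ideal.span (Set.range fun ij : Fin 3 × Fin 3 =>
        ((MvPowerSeries.X () : MvPowerSeries Unit k) ^ (1 + p + p ^ 2) •
          (0 : Matrix (Fin 3) (Fin 3) k).map (MvPowerSeries.C (σ := Unit))) ij.1 ij.2)) = ⊥ := by
      rw [Ideal.span_eq_bot]
      rintro _ ⟨ij, rfl⟩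
      simp
    rw [h2, Ideal.mem_bot] at h1
    exact h1
  rw [map_pow] at h
  exact IsReduced.eq_zero _ ⟨n, h⟩

/-- A power series vanishing along all lines of the cone belongs to the ideal. -/
theorem mem_VI_of_ev (hr : p = 2 * r + 1) {f : MvPowerSeries (Fin 6) k}
    (hf : ∀ (m : Fin 3 → k) (x y : k), Herm p m → m ≠ 0 → ev (th p m x y) f = 0) :
    f ∈ VI k p := by
  have hpart_mem : ∀ n, (hpart n f : MvPowerSeries (Fin 6) k) ∈ VI k p := by
    intro n
    refine coe_mem_VI hr _ fun m x y h1 h2 => ?_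
    rw [← coeff_ev, hf m x y h1 h2, map_zero]
  set 𝔪 := IsLocalRing.maximalIdeal (MvPowerSeries (Fin 6) k) with h𝔪
  have hX : ∀ i, (MvPowerSeries.X i : MvPowerSeries (Fin 6) k) ∈ 𝔪 := by
    intro i
    rw [h𝔪, IsLocalRing.mem_maximalIdeal, mem_nonunits_iff, MvPowerSeries.isUnit_iff_constantCoeff]
    simp
  -- Krull intersection in the quotient
  have hmem : ∀ N : ℕ, Ideal.Quotient.mk (VI k p) f ∈ (𝔪 ^ N •
      (⊤ : Submodule (MvPowerSeries (Fin 6) k) (MvPowerSeries (Fin 6) k ⧸ VI k p))) := by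
    intro N
    have h1 : f - ∑ n ∈ range N, (hpart n f : MvPowerSeries (Fin 6) k) ∈ 𝔪 ^ N :=
      mem_pow_of_vanTo 𝔪 hX N _ (vanTo_sub N f)
    have h2 : Ideal.Quotient.mk (VI k p) f
        = (f - ∑ n ∈ range N, (hpart n f : MvPowerSeries (Fin 6) k)) •
          (1 : MvPowerSeries (Fin 6) k ⧸ VI k p) := by
      change Ideal.Quotient.mk (VI k p) f = Ideal.Quotient.mk (VI k p)
        ((f - ∑ n ∈ range N, (hpart n f : MvPowerSeries (Fin 6) k)) • 1)
      rw [smul_eq_mul, mul_one, map_sub, map_sum]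
      rw [Finset.sum_eq_zero fun n _ => Ideal.Quotient.eq_zero_iff_mem.2 (hpart_mem n), sub_zero]
    rw [h2]
    exact Submodule.smul_mem_smul h1 trivial
  have hinf := Ideal.iInf_pow_smul_eq_bot_of_isLocalRing (M := MvPowerSeries (Fin 6) k ⧸ VI k p) 𝔪
    (IsLocalRing.maximalIdeal.isMaximal _).ne_top
  have h3 : Ideal.Quotient.mk (VI k p) f ∈ (⨅ i : ℕ, 𝔪 ^ i •
      (⊤ : Submodule (MvPowerSeries (Fin 6) k) (MvPowerSeries (Fin 6) k ⧸ VI k p))) :=
    Submodule.mem_iInf _ |>.2 hmem
  rw [hinf, Submodule.mem_bot] at h3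
  exact Ideal.Quotient.eq_zero_iff_mem.1 h3

/-- Core theorem: hypersurface sections of the reduced `p`-rank zero locus are non-reduced. -/
theorem core (hr : p = 2 * r + 1) {u : MvPowerSeries (Fin 6) k}
    (hu0 : MvPowerSeries.constantCoeff u = 0) (hu : u ∉ VI k p) :
    ∃ z, z ^ 2 ∈ VI k p ⊔ Ideal.span {u} ∧ z ∉ VI k p ⊔ Ideal.span {u} := by
  obtain ⟨e, M, i₀, hM, hno, hG⟩ := exists_socle (k := k) hr
  choose G hGhom hG using hG
  obtain ⟨c, hc⟩ := exists_div_of_constantCoeff hu0
  set J := VI k p ⊔ Ideal.span {u} with hJ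
  have hVJ : VI k p ≤ J := le_sup_left
  have huJ : u ∈ J := Ideal.mem_sup_right (Ideal.mem_span_singleton_self u)
  set z : MvPowerSeries (Fin 6) k := ∑ j, c j * (G j : MvPowerSeries (Fin 6) k) with hz
  -- relations
  have hrel : ∀ a b : Fin 6, ((G a * MvPolynomial.X b - MvPolynomial.X a * G b :
      MvPolynomial (Fin 6) k) : MvPowerSeries (Fin 6) k) ∈ VI k p := by
    intro a b
    refine coe_mem_VI hr _ fun m x y h1 h2 => ?_
    obtain ⟨δ, hδ⟩ := exists_delta (p := p) h1 h2
    rw [map_sub, map_mul, map_mul, MvPolynomial.eval_X, MvPolynomial.eval_X,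
      hG a m δ x y h1 h2 hδ, hG b m δ x y h1 h2 hδ]
    ring
  have hzX : ∀ b : Fin 6, z * MvPowerSeries.X b ∈ J := by
    intro b
    have e1 : z * MvPowerSeries.X b = u * (G b : MvPowerSeries (Fin 6) k)
        + ∑ a, c a * ((G a * MvPolynomial.X b - MvPolynomial.X a * G b :
          MvPolynomial (Fin 6) k) : MvPowerSeries (Fin 6) k) := by
      rw [hz, hc, Finset.sum_mul, Finset.sum_mul, ← Finset.sum_add_distrib]
      refine Finset.sum_congr rfl fun a _ => ?_
      have e2 : ((G a * MvPolynomial.X b - MvPolynomial.X a * G b :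
          MvPolynomial (Fin 6) k) : MvPowerSeries (Fin 6) k)
          = (G a : MvPowerSeries (Fin 6) k) * MvPowerSeries.X b
            - MvPowerSeries.X a * (G b : MvPowerSeries (Fin 6) k) := by
        have h := map_sub (MvPolynomial.coeToMvPowerSeries.ringHom (R := k) (σ := Fin 6))
          (G a * MvPolynomial.X b) (MvPolynomial.X a * G b)
        simpa using h
      rw [e2]
      ring
    rw [e1]
    exact J.add_mem (J.mul_mem_right _ huJ)
      (Ideal.sum_mem _ fun a _ => J.mul_mem_left _ (hVJ (hrel a b)))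
  have hN : e + 1 + (p + (r * p + r)) ≠ 0 := by omega
  have hzG : ∀ j, z * (G j : MvPowerSeries (Fin 6) k) ∈ J := by
    intro j
    have h0 : MvPowerSeries.constantCoeff (G j : MvPowerSeries (Fin 6) k) = 0 := by
      rw [← MvPowerSeries.coeff_zero_eq_constantCoeff_apply, MvPolynomial.coeff_coe]
      exact (hGhom j).coeff_eq_zero (by simpa using hN.symm)
    obtain ⟨g, hg⟩ := exists_div_of_constantCoeff h0
    rw [hg, Finset.mul_sum]
    refine Ideal.sum_mem _ fun b _ => ?_
    rw [← mul_assoc]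
    exact J.mul_mem_right _ (hzX b)
  refine ⟨z, ?_, ?_⟩
  · rw [pow_two]
    nth_rw 2 [hz]
    rw [Finset.mul_sum]
    refine Ideal.sum_mem _ fun j _ => ?_
    have e1 : z * (c j * (G j : MvPowerSeries (Fin 6) k))
        = c j * (z * (G j : MvPowerSeries (Fin 6) k)) := by ring
    rw [e1]
    exact J.mul_mem_left _ (hzG j)
  · intro hzJ
    obtain ⟨i, hi, w', hw', hiw⟩ := Submodule.mem_sup.1 hzJ
    obtain ⟨w, hw⟩ := Ideal.mem_span_singleton'.1 hw'
    -- w * u = w'
    have hzw : z = i + w * u := by rw [hw, hiw]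
    -- evaluation along lines
    have hev : ∀ (m : Fin 3 → k) (δ x y : k), Herm p m → m ≠ 0 → IsDelta p m δ →
        ev (th p m x y) u = 0 ∨
        MvPolynomial.eval (th p m x y) (hpart (e + (p + (r * p + r))) w)
          = MvPolynomial.eval (th p m x y) M * eta p r i₀ m δ x y := by
      intro m δ x y h1 h2 h3
      set t := th p m x y with ht
      set η' := MvPolynomial.eval t M * eta p r i₀ m δ x y with hη'
      have hcu : ev t u = ∑ j, ev t (c j) * (MvPowerSeries.C (t j) * MvPowerSeries.X ()) := by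
        conv_lhs => rw [hc]
        rw [map_sum]
        refine Finset.sum_congr rfl fun j _ => ?_
        rw [map_mul, ev_X, mul_comm]
      have hzt : ev t z = ev t u * (MvPowerSeries.C η' *
          MvPowerSeries.X () ^ (e + (p + (r * p + r)))) := by
        rw [hcu, hz, map_sum, Finset.sum_mul]
        refine Finset.sum_congr rfl fun j _ => ?_
        rw [map_mul, ev_homog t (hGhom j), hG j m δ x y h1 h2 h3, map_mul,
          show e + 1 + (p + (r * p + r)) = (e + (p + (r * p + r))) + 1 by ring, pow_succ]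
        ring
      have hzt2 : ev t z = ev t w * ev t u := by
        rw [hzw, map_add, ev_VI h1 x y hi, zero_add, map_mul]
      have hprod : ev t u * (MvPowerSeries.C η' *
          MvPowerSeries.X () ^ (e + (p + (r * p + r))) - ev t w) = 0 := by
        rw [mul_sub, ← hzt, hzt2]
        ring
      rcases mul_eq_zero.1 hprod with h4 | h4
      · exact Or.inl h4
      · right
        rw [← coeff_ev, ← sub_eq_zero.1 h4, MvPowerSeries.coeff_C_mul, MvPowerSeries.X_pow_eq,
          MvPowerSeries.coeff_monomial_same, mul_one]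
    -- a point where `u` does not vanish
    have hne : ∃ (m : Fin 3 → k) (x y : k), Herm p m ∧ m ≠ 0 ∧ ev (th p m x y) u ≠ 0 := by
      by_contra hcon
      push Not at hcon
      exact hu (mem_VI_of_ev hr hcon)
    obtain ⟨m₀, x₀, y₀, hm₀, hm₀0, hev₀⟩ := hne
    obtain ⟨n₀, hn₀⟩ : ∃ n, MvPowerSeries.coeff (Finsupp.single () n) (ev (th p m₀ x₀ y₀) u) ≠ 0 := by
      by_contra hcon
      push Not at hcon
      apply hev₀
      refine MvPowerSeries.ext fun d => ?_
      have : d = Finsupp.single () (d ()) := by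
        ext
        simp
      rw [this, hcon, map_zero]
    apply hno
    refine ⟨hpart (e + (p + (r * p + r))) w, ?_⟩
    refine ext_eta (r := r) _ M i₀
      (F := fun v => MvPolynomial.eval (th p (mv v) (v 3) (v 4)) (hpart n₀ u))
      (polyFun_eval_th p _) ⟨vm m₀ x₀ y₀, ?_, ?_⟩ ?_
    · rw [← herm_mv, mv_vm]; exact hm₀
    · rw [mv_vm, vm_three, vm_four, ← coeff_ev]; exact hn₀
    · intro m δ x y h1 h2 h3 h4
      rw [mv_vm, vm_three, vm_four, ← coeff_ev] at h4
      rcases hev m δ x y h1 h2 h3 with h5 | h5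
      · rw [h5, map_zero] at h4
        exact absurd rfl h4
      · exact h5

end

end Pool.Agent.PRank
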