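import Mathlib

/-!
# An explicit family of curves of genus three

For `c = (a₂, a₃, a₄, a₅, a₆, s)` in `R⁶` the curve `C_c` in the weighted projective space
`P(1,1,1,2)` over `R` is given by
`X Z = Y² + s W` and
`W² = X³Y + a₆ X³Z + a₅ X²YZ + a₄ X²Z² + a₃ XYZ² + a₂ XZ³ - YZ³`.
It is covered by the affine charts `Z ≠ 0`, with coordinates `x = X/Z`, `y = Y/Z`, `w = W/Z²`,
and `X ≠ 0`, with coordinates `x⁻¹ = Z/X`, `x⁻¹ y = Y/X`, `x⁻² w = W/X²`.
For `s = 0` it is the hyperelliptic curve
`w² = y⁷ + a₆ y⁶ + a₅ y⁵ + a₄ y⁴ + a₃ y³ + a₂ y² - y` (with `x = y²`);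
for `s` invertible it is the plane quartic `(XZ - Y²)² = s² (X³Y + ⋯ - YZ³)`.
-/

namespace Pool.Agent.PRank

open MvPolynomial

set_option warn.classDefReducibility false

section

variable {R : Type*} [CommRing R]

/-- The polynomial `x³y + a₆ x³ + a₅ x²y + a₄ x² + a₃ xy + a₂ x - y`. -/
def quartic (c : Fin 6 → R) (x y : R) : R :=
  x ^ 3 * y + c 4 * x ^ 3 + c 3 * x ^ 2 * y + c 2 * x ^ 2 + c 1 * x * y + c 0 * x - y

/-- The equations `x x' = 1`, `y² + s w = x` and
`w² = x³y + a₆ x³ + a₅ x²y + a₄ x² + a₃ xy + a₂ x - y`. -/
def equations (c : Fin 6 → R) (x x' y w : R) : Set R :=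
  {x * x' - 1, y ^ 2 + c 5 * w - x, w ^ 2 - quartic c x y}

/-- The ideal of the equations of the curve `C_c` on the overlap of the two charts; the variables
`0, 1, 2, 3` are `x, x⁻¹, y, w`. -/
noncomputable def relations (c : Fin 6 → R) : Ideal (MvPolynomial (Fin 4) R) :=
  Ideal.span (equations (fun i => C (c i)) (X 0) (X 1) (X 2) (X 3))

/-- The ring of functions on the overlap of the two charts. -/
def Overlap (c : Fin 6 → R) : Type _ := MvPolynomial (Fin 4) R ⧸ relations c

/-- The quotient ring structure. -/
noncomputable def overlapCommRing (c : Fin 6 → R) : CommRing (Overlap c) :=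
  Ideal.Quotient.commRing (relations c)

attribute [instance] overlapCommRing

/-- The quotient algebra structure. -/
noncomputable def overlapAlgebra (c : Fin 6 → R) : Algebra R (Overlap c) :=
  Ideal.instAlgebraQuotient R (relations c)

attribute [instance] overlapAlgebra

/-- The functions `x, x⁻¹, y, w` on the overlap. -/
noncomputable def fn (c : Fin 6 → R) (i : Fin 4) : Overlap c :=
  Ideal.Quotient.mk (relations c) (X i)

/-- The functions regular on the chart `Z ≠ 0`. -/
noncomputable def chart1 (c : Fin 6 → R) : Subalgebra R (Overlap c) :=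
  Algebra.adjoin R {fn c 0, fn c 2, fn c 3}

/-- The functions regular on the chart `X ≠ 0`. -/
noncomputable def chart2 (c : Fin 6 → R) : Subalgebra R (Overlap c) :=
  Algebra.adjoin R {fn c 1, fn c 1 * fn c 2, fn c 1 ^ 2 * fn c 3}

/-- The sums of functions regular on the two charts. -/
noncomputable def coboundaries (c : Fin 6 → R) : Submodule R (Overlap c) :=
  Submodule.span R ((chart1 c : Set (Overlap c)) ∪ (chart2 c : Set (Overlap c)))

/-- The first cohomology `H¹(C_c, O)` of the structure sheaf (Čech cohomology of the covering by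
the two charts). -/
def H1 (c : Fin 6 → R) : Type _ := Overlap c ⧸ coboundaries c

/-- The quotient group structure. -/
noncomputable def H1AddCommGroup (c : Fin 6 → R) : AddCommGroup (H1 c) :=
  Submodule.Quotient.addCommGroup (coboundaries c)

attribute [instance] H1AddCommGroup

/-- The quotient module structure. -/
noncomputable def H1Module (c : Fin 6 → R) : Module R (H1 c) :=
  Submodule.Quotient.module (coboundaries c)

attribute [instance] H1Module

/-- The class in `H¹(C_c, O)` of a function on the overlap. -/
noncomputable def cls (c : Fin 6 → R) : Overlap c →ₗ[R] H1 c := (coboundaries c).mkQ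

/-- The curves `C_c` and `C_c'` over `R` are isomorphic by an isomorphism that respects the charts
and is the identity modulo `e` (on the functions `x, x⁻¹, y, w`). -/
def IsoModulo (e : R) (c c' : Fin 6 → R) : Prop :=
  ∃ φ : Overlap c ≃ₐ[R] Overlap c',
    (chart1 c).map (φ : Overlap c →ₐ[R] Overlap c') = chart1 c' ∧
    (chart2 c).map (φ : Overlap c →ₐ[R] Overlap c') = chart2 c' ∧
    ∀ i, ∃ g, φ (fn c i) = fn c' i + e • g

end

/-- The `p`-rank of the curve `C_c` of genus three over a field `k` of characteristic `p`: the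
rank of the third iterate of the Frobenius map `h ↦ h ^ p` on `H¹(C_c, O)`. -/
noncomputable def pRank {k : Type*} [Field k] (p : ℕ) (c : Fin 6 → k) : ℕ :=
  Module.finrank k (Submodule.span k (Set.range fun h : Overlap c => cls c (h ^ (p ^ 3))))

open scoped DualNumber in
/-- The first order deformation of the curve `C_0` in the family in direction `t`, that is the
curve over the dual numbers `k[ε]` with parameters `ε t`, is trivial: there is an isomorphism to
`C_0 ⊗ k[ε]` that is the identity modulo `ε`. -/
def TrivialDeformation {k : Type*} [Field k] (t : Fin 6 → k) : Prop :=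
  IsoModulo (ε : k[ε]) (fun i => t i • (ε : k[ε])) 0

/-- The closed subscheme of affine space given by the ideal `J` is reduced at the origin: if
`f²` is in `J` then `f` is in `J` locally at the origin. -/
def ReducedAtOrigin {k : Type*} [Field k] {n : ℕ} (J : Ideal (MvPolynomial (Fin n) k)) : Prop :=
  ∀ f, f ^ 2 ∈ J → ∃ h, eval 0 h ≠ 0 ∧ h * f ∈ J

end Pool.Agent.PRank
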