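import Mathlib

/-!
The ring homomorphism of power series rings `X_5 ↦ X_5 ^ 2`.
-/

namespace Pool.Agent.PRank

open Finsupp Finset

/-- Doubling the last exponent. -/
noncomputable def dbl (d : Fin 6 →₀ ℕ) : Fin 6 →₀ ℕ := d + single 5 (d 5)

/-- Halving the last exponent. -/
noncomputable def halve (d : Fin 6 →₀ ℕ) : Fin 6 →₀ ℕ := d - single 5 (d 5 / 2)

theorem dbl_add (a b : Fin 6 →₀ ℕ) : dbl (a + b) = dbl a + dbl b := by
  rw [dbl, dbl, dbl, Finsupp.add_apply, single_add]; abel

theorem dbl_apply_five (d : Fin 6 →₀ ℕ) : dbl d 5 = 2 * d 5 := by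
  simp [dbl, two_mul]

theorem dbl_apply_ne (d : Fin 6 →₀ ℕ) {i : Fin 6} (hi : i ≠ 5) : dbl d i = d i := by
  simp [dbl, single_eq_of_ne hi]

theorem halve_dbl (d : Fin 6 →₀ ℕ) : halve (dbl d) = d := by
  ext i
  by_cases hi : i = 5
  · subst hi
    simp only [halve, Finsupp.tsub_apply, dbl_apply_five, single_eq_same]
    omega
  · simp [halve, dbl_apply_ne d hi, single_eq_of_ne hi]

theorem dbl_halve {d : Fin 6 →₀ ℕ} (hd : d 5 % 2 = 0) : dbl (halve d) = d := by
  ext i
  by_cases hi : i = 5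
  · subst hi
    simp only [halve, dbl_apply_five, Finsupp.tsub_apply, single_eq_same]
    omega
  · simp [dbl_apply_ne _ hi, halve, single_eq_of_ne hi]

theorem dbl_injective : Function.Injective dbl := fun a b h => by
  rw [← halve_dbl a, h, halve_dbl]

theorem dbl_zero : dbl 0 = 0 := by simp [dbl]

theorem dbl_single {l : Fin 6} (hl : l ≠ 5) (n : ℕ) : dbl (single l n) = single l n := by
  simp [dbl, single_eq_of_ne (Ne.symm hl)]

theorem dbl_single_five (n : ℕ) : dbl (single 5 n) = single 5 (2 * n) := by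
  simp [dbl, two_mul, ← single_add]

variable {k : Type*} [CommRing k]

/-- The underlying function of the ring homomorphism. -/
noncomputable def dblFun (f : MvPowerSeries (Fin 6) k) : MvPowerSeries (Fin 6) k :=
  fun d => if d 5 % 2 = 0 then MvPowerSeries.coeff (halve d) f else 0

theorem coeff_dblFun (f : MvPowerSeries (Fin 6) k) (d : Fin 6 →₀ ℕ) :
    MvPowerSeries.coeff d (dblFun f) = if d 5 % 2 = 0 then MvPowerSeries.coeff (halve d) f
      else 0 := rfl

theorem coeff_dbl_dblFun (f : MvPowerSeries (Fin 6) k) (d : Fin 6 →₀ ℕ) :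
    MvPowerSeries.coeff (dbl d) (dblFun f) = MvPowerSeries.coeff d f := by
  rw [coeff_dblFun, dbl_apply_five, if_pos (by omega), halve_dbl]

theorem coeff_odd_dblFun (f : MvPowerSeries (Fin 6) k) {d : Fin 6 →₀ ℕ} (hd : d 5 % 2 ≠ 0) :
    MvPowerSeries.coeff d (dblFun f) = 0 := by
  rw [coeff_dblFun, if_neg hd]

theorem dblFun_mul (f g : MvPowerSeries (Fin 6) k) :
    dblFun (f * g) = dblFun f * dblFun g := by
  classical
  ext d
  by_cases hd : d 5 % 2 = 0
  · obtain ⟨e, rfl⟩ : ∃ e, dbl e = d := ⟨_, dbl_halve hd⟩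
    rw [coeff_dbl_dblFun, MvPowerSeries.coeff_mul, MvPowerSeries.coeff_mul]
    have h1 : ∑ x ∈ antidiagonal e, MvPowerSeries.coeff x.1 f * MvPowerSeries.coeff x.2 g
        = ∑ y ∈ (antidiagonal e).image (fun x => (dbl x.1, dbl x.2)),
          MvPowerSeries.coeff y.1 (dblFun f) * MvPowerSeries.coeff y.2 (dblFun g) := by
      rw [Finset.sum_image]
      · refine Finset.sum_congr rfl fun x _ => ?_
        rw [coeff_dbl_dblFun, coeff_dbl_dblFun]
      · rintro ⟨a, b⟩ - ⟨a', b'⟩ - hab
        simp only [Prod.mk.injEq] at hab ⊢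
        exact ⟨dbl_injective hab.1, dbl_injective hab.2⟩
    rw [h1]
    apply Finset.sum_subset
    · intro y hy
      obtain ⟨x, hx, rfl⟩ := Finset.mem_image.1 hy
      rw [Finset.HasAntidiagonal.mem_antidiagonal] at hx ⊢
      rw [← dbl_add, hx]
    · intro y hy hy'
      rw [Finset.HasAntidiagonal.mem_antidiagonal] at hy
      by_cases hy1 : y.1 5 % 2 = 0
      · exfalso
        apply hy'
        have h5 : y.1 5 + y.2 5 = 2 * e 5 := by
          rw [← Finsupp.add_apply, hy, dbl_apply_five]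
        have hy2 : y.2 5 % 2 = 0 := by omega
        refine Finset.mem_image.2 ⟨(halve y.1, halve y.2), ?_, ?_⟩
        · rw [Finset.HasAntidiagonal.mem_antidiagonal]
          apply dbl_injective
          rw [dbl_add, dbl_halve hy1, dbl_halve hy2, hy]
        · rw [dbl_halve hy1, dbl_halve hy2]
      · rw [coeff_odd_dblFun f hy1, zero_mul]
  · rw [coeff_odd_dblFun _ hd, MvPowerSeries.coeff_mul]
    symm
    refine Finset.sum_eq_zero fun y hy => ?_
    rw [Finset.HasAntidiagonal.mem_antidiagonal] at hy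
    have h5 : y.1 5 + y.2 5 = d 5 := by rw [← Finsupp.add_apply, hy]
    by_cases hy1 : y.1 5 % 2 = 0
    · rw [coeff_odd_dblFun g (by omega), mul_zero]
    · rw [coeff_odd_dblFun f hy1, zero_mul]

theorem dblFun_monomial (d : Fin 6 →₀ ℕ) (r : k) :
    dblFun (MvPowerSeries.monomial d r) = MvPowerSeries.monomial (dbl d) r := by
  classical
  ext e
  by_cases he : e 5 % 2 = 0
  · obtain ⟨e', rfl⟩ : ∃ e', dbl e' = e := ⟨_, dbl_halve he⟩
    rw [coeff_dbl_dblFun, MvPowerSeries.coeff_monomial, MvPowerSeries.coeff_monomial]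
    by_cases h : e' = d
    · rw [if_pos h, if_pos (by rw [h])]
    · rw [if_neg h, if_neg fun h' => h (dbl_injective h')]
  · rw [coeff_odd_dblFun _ he, MvPowerSeries.coeff_monomial, if_neg]
    rintro rfl
    rw [dbl_apply_five] at he
    omega

/-- The ring homomorphism `X_5 ↦ X_5 ^ 2`. -/
noncomputable def phi (k : Type*) [CommRing k] :
    MvPowerSeries (Fin 6) k →+* MvPowerSeries (Fin 6) k where
  toFun := dblFun
  map_one' := by
    have := dblFun_monomial (k := k) 0 1
    rw [dbl_zero] at this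
    exact this
  map_mul' := dblFun_mul
  map_zero' := by
    ext d
    rw [coeff_dblFun]; simp
  map_add' f g := by
    ext d
    rw [map_add, coeff_dblFun, coeff_dblFun, coeff_dblFun, map_add]
    split_ifs <;> simp

theorem coeff_phi_dbl (f : MvPowerSeries (Fin 6) k) (d : Fin 6 →₀ ℕ) :
    MvPowerSeries.coeff (dbl d) (phi k f) = MvPowerSeries.coeff d f := coeff_dbl_dblFun f d

theorem coeff_phi_odd (f : MvPowerSeries (Fin 6) k) {d : Fin 6 →₀ ℕ} (hd : d 5 % 2 ≠ 0) :
    MvPowerSeries.coeff d (phi k f) = 0 := coeff_odd_dblFun f hd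

theorem phi_monomial (d : Fin 6 →₀ ℕ) (r : k) :
    phi k (MvPowerSeries.monomial d r) = MvPowerSeries.monomial (dbl d) r := dblFun_monomial d r

theorem phi_C (r : k) : phi k (MvPowerSeries.C r) = MvPowerSeries.C r := by
  rw [← MvPowerSeries.monomial_zero_eq_C_apply, phi_monomial, dbl_zero]

theorem phi_X {l : Fin 6} (hl : l ≠ 5) : phi k (MvPowerSeries.X l) = MvPowerSeries.X l := by
  rw [MvPowerSeries.X_def, phi_monomial, dbl_single hl]

theorem phi_X_five : phi k (MvPowerSeries.X 5) = (MvPowerSeries.X 5) ^ 2 := by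
  rw [MvPowerSeries.X_pow_eq, MvPowerSeries.X_def, phi_monomial, dbl_single_five]

theorem coeff_phi_mul_X (b : MvPowerSeries (Fin 6) k) (d : Fin 6 →₀ ℕ) :
    MvPowerSeries.coeff (dbl d + single 5 1) (phi k b * MvPowerSeries.X 5)
      = MvPowerSeries.coeff d b := by
  rw [mul_comm, MvPowerSeries.X_def, MvPowerSeries.coeff_monomial_mul, if_pos (by simp),
    add_tsub_cancel_right, one_mul, coeff_phi_dbl]

theorem coeff_phi_mul_X_even (b : MvPowerSeries (Fin 6) k) (d : Fin 6 →₀ ℕ) :
    MvPowerSeries.coeff (dbl d) (phi k b * MvPowerSeries.X 5) = 0 := by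
  rw [mul_comm, MvPowerSeries.X_def, MvPowerSeries.coeff_monomial_mul]
  split_ifs with h
  · rw [one_mul, coeff_phi_odd]
    rw [Finsupp.tsub_apply, dbl_apply_five, single_eq_same]
    have h5 := h 5
    rw [single_eq_same, dbl_apply_five] at h5
    omega
  · rfl

theorem phi_gen (x : MvPowerSeries (Fin 6) k) :
    ∃ a b : MvPowerSeries (Fin 6) k, x = phi k a + phi k b * MvPowerSeries.X 5 := by
  refine ⟨fun d => MvPowerSeries.coeff (dbl d) x,
    fun d => MvPowerSeries.coeff (dbl d + single 5 1) x, ?_⟩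
  ext d
  rw [map_add]
  by_cases hd : d 5 % 2 = 0
  · obtain ⟨e, rfl⟩ : ∃ e, dbl e = d := ⟨_, dbl_halve hd⟩
    rw [coeff_phi_dbl, coeff_phi_mul_X_even, add_zero]
    rfl
  · obtain ⟨e, rfl⟩ : ∃ e, dbl e + single 5 1 = d := by
      have h5 : single 5 1 ≤ d := by
        rw [Finsupp.single_le_iff]; omega
      refine ⟨halve (d - single 5 1), ?_⟩
      rw [dbl_halve, tsub_add_cancel_of_le h5]
      rw [Finsupp.tsub_apply, single_eq_same]
      omega
    rw [coeff_phi_odd _ hd, coeff_phi_mul_X, zero_add]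
    rfl

theorem phi_ind (a b : MvPowerSeries (Fin 6) k)
    (h : phi k a + phi k b * MvPowerSeries.X 5 = 0) : a = 0 ∧ b = 0 := by
  constructor
  · ext d
    have := congrArg (MvPowerSeries.coeff (dbl d)) h
    rw [map_add, coeff_phi_dbl, coeff_phi_mul_X_even, add_zero, map_zero] at this
    rw [this, map_zero]
  · ext d
    have := congrArg (MvPowerSeries.coeff (dbl d + single 5 1)) h
    rw [map_add, coeff_phi_mul_X, map_zero, coeff_phi_odd, zero_add] at this
    · rw [this, map_zero]
    · rw [Finsupp.add_apply, dbl_apply_five, single_eq_same]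
      omega

theorem phi_injective : Function.Injective (phi k) := by
  rw [injective_iff_map_eq_zero]
  intro a ha
  exact (phi_ind a 0 (by rw [ha, map_zero, zero_mul, add_zero])).1

end Pool.Agent.PRank
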