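import Mathlib

/-!
# Hasse-Witt matrices, `p`-rank and reduced `p`-rank strata

`T` is a `g × g` matrix over a commutative ring `R` of characteristic `p`: the matrix of a
Frobenius-semilinear endomorphism `F` of `R^g`, that is `F e_j = ∑ i, T i j • e_i`
(for a family of curves: the Hasse-Witt matrix of `F` on `H¹(X, O_X)`).
-/

namespace Pool.Agent.PRank

variable {R : Type*} [CommRing R] {g : ℕ}

/-- The matrix of the `n`-th iterate of the semilinear map with matrix `T`:
`T · T^(p) · ⋯ · T^(p^(n-1))`, where `T^(p)` has the `p`-th powers of the entries of `T`. -/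
def iterHW (p : ℕ) (T : Matrix (Fin g) (Fin g) R) : ℕ → Matrix (Fin g) (Fin g) R
  | 0 => 1
  | n + 1 => T * (iterHW p T n).map (· ^ p)

/-- The `p`-rank at a point `x` of `Spec R`: the rank over the residue field of `x` of the
`g`-th iterate of the semilinear map. -/
noncomputable def pRankAt (p : ℕ) (T : Matrix (Fin g) (Fin g) R) (x : PrimeSpectrum R) : ℕ :=
  ((iterHW p T g).map (algebraMap R x.asIdeal.ResidueField)).rank

/-- The ideal of the closed locus of `p`-rank at most `f` with its reduced structure: the
functions vanishing at all points of `p`-rank at most `f`. -/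
noncomputable def pRankIdeal (p : ℕ) (T : Matrix (Fin g) (Fin g) R) (f : ℕ) : Ideal R :=
  PrimeSpectrum.vanishingIdeal {x | pRankAt p T x ≤ f}

end Pool.Agent.PRank
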