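import Pool.Agent.PRank.Defs
import Pool.Agent.PRank.Core

/-!
Comparison of the reduced `p`-rank zero ideal with the radical of the ideal of entries, and
passage to double covers.
-/

namespace Pool.Agent.PRank

set_option linter.unusedSectionVars false

section

variable {R : Type*} [CommRing R] {p : ℕ} [Fact p.Prime]

theorem map_pow_mul (hR : (p : R) = 0) {n : Type*} [Fintype n] (A B : Matrix n n R) :
    (A * B).map (· ^ p) = A.map (· ^ p) * B.map (· ^ p) := by
  rcases subsingleton_or_nontrivial R with h | h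
  · exact Subsingleton.elim _ _
  · have : CharP R p := (CharP.charP_iff_prime_eq_zero (Fact.out : p.Prime)).2 hR
    exact Matrix.map_mul (L := A) (M := B) (f := frobenius R p)

theorem iterHW_three (hR : (p : R) = 0) (T : Matrix (Fin 3) (Fin 3) R) :
    iterHW p T 3 = triple p T := by
  have hp0 : p ≠ 0 := (Fact.out : p.Prime).ne_zero
  have h0 : (iterHW p T 0).map (· ^ p) = 1 := by
    ext i j
    simp only [iterHW, Matrix.map_apply, Matrix.one_apply]
    split_ifs
    · rw [one_pow]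
    · rw [zero_pow hp0]
  have h1 : iterHW p T 1 = T := by
    change T * (iterHW p T 0).map (· ^ p) = T
    rw [h0, mul_one]
  have h2 : iterHW p T 2 = T * T.map (· ^ p) := by
    change T * (iterHW p T 1).map (· ^ p) = _
    rw [h1]
  change T * (iterHW p T 2).map (· ^ p) = _
  rw [h2, map_pow_mul hR, triple, mul_assoc]
  congr 2
  ext i j
  simp only [Matrix.map_apply]
  rw [← pow_mul, pow_two]

theorem matrix_rank_eq_zero {K : Type*} [Field K] {n : ℕ} (A : Matrix (Fin n) (Fin n) K) :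
    A.rank = 0 ↔ A = 0 := by
  constructor
  · intro h
    rw [Matrix.rank, Submodule.finrank_eq_zero, LinearMap.range_eq_bot] at h
    ext i j
    have h1 := congrArg (fun f => f (Pi.single j 1) i) h
    simpa using h1
  · rintro rfl
    exact Matrix.rank_zero

theorem pRankAt_le_zero_iff (hR : (p : R) = 0) (T : Matrix (Fin 3) (Fin 3) R)
    (x : PrimeSpectrum R) : pRankAt p T x ≤ 0 ↔ entIdeal p T ≤ x.asIdeal := by
  rw [pRankAt, Nat.le_zero, iterHW_three hR, matrix_rank_eq_zero, entIdeal, Ideal.span_le]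
  constructor
  · rintro h _ ⟨ij, rfl⟩
    have h1 := congrFun (congrFun h ij.1) ij.2
    rw [Matrix.map_apply, Matrix.zero_apply, Ideal.algebraMap_residueField_eq_zero] at h1
    exact h1
  · intro h
    ext i j
    rw [Matrix.map_apply, Matrix.zero_apply, Ideal.algebraMap_residueField_eq_zero]
    exact h ⟨(i, j), rfl⟩

/-- For `g = 3` and `f = 0` the reduced ideal is the radical of the ideal of entries. -/
theorem pRankIdeal_zero (hR : (p : R) = 0) (T : Matrix (Fin 3) (Fin 3) R) :
    pRankIdeal p T 0 = (entIdeal p T).radical := by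
  rw [pRankIdeal, ← PrimeSpectrum.vanishingIdeal_zeroLocus_eq_radical]
  congr 1
  ext x
  change pRankAt p T x ≤ 0 ↔ _
  rw [pRankAt_le_zero_iff hR, PrimeSpectrum.mem_zeroLocus]
  rfl

end

section Double

variable {A B : Type*} [CommRing A] [CommRing B]

/-- Passage to a double cover `s² = u`. -/
theorem double_cover (φ : A →+* B) (s : B) (u : A) (hs : s ^ 2 = φ u)
    (hgen : ∀ x : B, ∃ a b : A, x = φ a + φ b * s)
    (hind : ∀ a b : A, φ a + φ b * s = 0 → a = 0 ∧ b = 0)
    {t : A} (ht : 2 * t = 1) {J : Ideal A} (hJ : J.radical = J)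
    {z : A} (hz2 : z ^ 2 ∈ J ⊔ Ideal.span {u}) (hz : z ∉ J ⊔ Ideal.span {u}) :
    ¬ ((J.map φ).radical ⊔ Ideal.span {s}).IsRadical := by
  intro hrad
  have hinj : ∀ a a' b b' : A, φ a + φ b * s = φ a' + φ b' * s → a = a' ∧ b = b' := by
    intro a a' b b' h
    have h1 := hind (a - a') (b - b') (by rw [map_sub, map_sub]; linear_combination h)
    exact ⟨sub_eq_zero.1 h1.1, sub_eq_zero.1 h1.2⟩
  -- elements of `J.map φ`
  have hJmem : ∀ a b : A, φ a + φ b * s ∈ J.map φ ↔ a ∈ J ∧ b ∈ J := by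
    intro a b
    constructor
    · intro h
      have key : ∀ x ∈ J.map φ, ∃ a b, a ∈ J ∧ b ∈ J ∧ x = φ a + φ b * s := by
        intro x hx
        refine Submodule.span_induction ?_ ?_ ?_ ?_ hx
        · rintro _ ⟨a, ha, rfl⟩
          exact ⟨a, 0, ha, J.zero_mem, by rw [map_zero, zero_mul, add_zero]⟩
        · exact ⟨0, 0, J.zero_mem, J.zero_mem, by simp⟩
        · rintro x y - - ⟨a, b, ha, hb, rfl⟩ ⟨a', b', ha', hb', rfl⟩
          exact ⟨a + a', b + b', J.add_mem ha ha', J.add_mem hb hb', by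
            rw [map_add, map_add]; ring⟩
        · rintro c x - ⟨a, b, ha, hb, rfl⟩
          obtain ⟨c1, c2, rfl⟩ := hgen c
          refine ⟨c1 * a + c2 * b * u, c1 * b + c2 * a, ?_, ?_, ?_⟩
          · exact J.add_mem (J.mul_mem_left _ ha) (J.mul_mem_right _ (J.mul_mem_left _ hb))
          · exact J.add_mem (J.mul_mem_left _ hb) (J.mul_mem_left _ ha)
          · rw [smul_eq_mul]
            simp only [map_add, map_mul]
            linear_combination (φ c2 * φ b) * hs
      obtain ⟨a', b', ha', hb', he⟩ := key _ h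
      obtain ⟨e1, e2⟩ := hinj _ _ _ _ he
      exact ⟨e1 ▸ ha', e2 ▸ hb'⟩
    · rintro ⟨ha, hb⟩
      exact Ideal.add_mem _ (Ideal.mem_map_of_mem φ ha)
        (Ideal.mul_mem_right _ _ (Ideal.mem_map_of_mem φ hb))
  -- conjugation
  have hconj_pow : ∀ (n : ℕ) (a b : A), ∃ a' b' : A, (φ a + φ b * s) ^ n = φ a' + φ b' * s ∧
      (φ a - φ b * s) ^ n = φ a' - φ b' * s := by
    intro n
    induction n with
    | zero => intro a b; exact ⟨1, 0, by simp, by simp⟩
    | succ n ih =>
      intro a b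
      obtain ⟨a', b', h1, h2⟩ := ih a b
      refine ⟨a' * a + b' * b * u, a' * b + b' * a, ?_, ?_⟩
      · rw [pow_succ, h1]
        simp only [map_add, map_mul]
        linear_combination (φ b' * φ b) * hs
      · rw [pow_succ, h2]
        simp only [map_add, map_mul]
        linear_combination (φ b' * φ b) * hs
  have hconj : ∀ a b : A, φ a + φ b * s ∈ (J.map φ).radical →
      φ a - φ b * s ∈ (J.map φ).radical := by
    rintro a b ⟨n, hn⟩
    obtain ⟨a', b', h1, h2⟩ := hconj_pow n a b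
    refine ⟨n, ?_⟩
    rw [h1, hJmem] at hn
    rw [h2]
    have : φ a' - φ b' * s = φ a' + φ (-b') * s := by rw [map_neg]; ring
    rw [this, hJmem]
    exact ⟨hn.1, J.neg_mem hn.2⟩
  have hproj : ∀ a b : A, φ a + φ b * s ∈ (J.map φ).radical → a ∈ J := by
    intro a b h
    have h1 := Ideal.add_mem _ h (hconj a b h)
    have e : φ a + φ b * s + (φ a - φ b * s) = φ (2 * a) := by
      rw [map_mul, map_ofNat]; ring
    rw [e] at h1
    obtain ⟨n, hn⟩ := h1
    rw [← map_pow] at hn
    have h2 : φ ((2 * a) ^ n) + φ 0 * s ∈ J.map φ := by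
      rw [map_zero, zero_mul, add_zero]; exact hn
    have h3 : 2 * a ∈ J := by
      rw [← hJ]
      exact ⟨n, ((hJmem _ _).1 h2).1⟩
    have h4 : a = t * (2 * a) := by linear_combination (-a) * ht
    rw [h4]
    exact J.mul_mem_left _ h3
  have hsmem : s ∈ (J.map φ).radical ⊔ Ideal.span {s} :=
    Ideal.mem_sup_right (Ideal.mem_span_singleton_self s)
  have h1 : φ z ∈ (J.map φ).radical ⊔ Ideal.span {s} := by
    apply hrad
    refine ⟨2, ?_⟩
    rw [← map_pow]
    obtain ⟨i, hi, w', hw', hiw⟩ := Submodule.mem_sup.1 hz2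
    obtain ⟨w, hw⟩ := Ideal.mem_span_singleton'.1 hw'
    rw [← hiw, ← hw, map_add, map_mul, ← hs, pow_two]
    refine Ideal.add_mem _ (Ideal.mem_sup_left (Ideal.le_radical (Ideal.mem_map_of_mem φ hi))) ?_
    exact Ideal.mul_mem_left _ _ (Ideal.mul_mem_left _ _ hsmem)
  obtain ⟨i, hi, w', hw', hiw⟩ := Submodule.mem_sup.1 h1
  obtain ⟨w, hw⟩ := Ideal.mem_span_singleton'.1 hw'
  obtain ⟨i0, i1, rfl⟩ := hgen i
  obtain ⟨w0, w1, rfl⟩ := hgen w
  have h2 : φ z + φ 0 * s = φ (i0 + w1 * u) + φ (i1 + w0) * s := by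
    rw [map_zero, zero_mul, add_zero, ← hiw, ← hw]
    simp only [map_add, map_mul]
    linear_combination (φ w1) * hs
  obtain ⟨e1, -⟩ := hinj _ _ _ _ h2
  apply hz
  rw [e1]
  exact Ideal.add_mem _ (Ideal.mem_sup_left (hproj _ _ hi))
    (Ideal.mem_sup_right (Ideal.mul_mem_left _ _ (Ideal.mem_span_singleton_self u)))

end Double

section Adjoin

variable {A : Type*} [CommRing A] [Nontrivial A]

open Polynomial in
theorem adjoin_sq_gen (u : A) (x : AdjoinRoot (X ^ 2 - C u : A[X])) :
    ∃ a b : A, x = AdjoinRoot.of _ a + AdjoinRoot.of _ b * AdjoinRoot.root _ := by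
  have hm : (X ^ 2 - C u : A[X]).Monic := monic_X_pow_sub_C u two_ne_zero
  have hd : (X ^ 2 - C u : A[X]).natDegree = 2 := natDegree_X_pow_sub_C
  obtain ⟨g, rfl⟩ := AdjoinRoot.mk_surjective x
  have h1 : AdjoinRoot.mk (X ^ 2 - C u : A[X]) g
      = AdjoinRoot.mk (X ^ 2 - C u : A[X]) (g %ₘ (X ^ 2 - C u)) := by
    rw [AdjoinRoot.mk_eq_mk]
    exact ⟨g /ₘ (X ^ 2 - C u), by
      have := modByMonic_add_div g (X ^ 2 - C u : A[X])
      linear_combination -this⟩
  have h2 : (g %ₘ (X ^ 2 - C u)).natDegree < 2 := by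
    have := natDegree_modByMonic_lt g hm (by
      intro h
      have h3 := congrArg natDegree h
      rw [hd, natDegree_one] at h3
      omega)
    rwa [hd] at this
  refine ⟨(g %ₘ (X ^ 2 - C u)).coeff 0, (g %ₘ (X ^ 2 - C u)).coeff 1, ?_⟩
  rw [h1]
  conv_lhs => rw [as_sum_range' (g %ₘ (X ^ 2 - C u)) 2 h2]
  rw [Finset.sum_range_succ, Finset.sum_range_one, map_add, ← C_mul_X_pow_eq_monomial,
    ← C_mul_X_pow_eq_monomial, map_mul, map_mul, pow_zero, pow_one, map_one, mul_one,
    AdjoinRoot.mk_C, AdjoinRoot.mk_C, AdjoinRoot.mk_X]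

open Polynomial in
theorem adjoin_sq_ind (u a b : A)
    (h : AdjoinRoot.of (X ^ 2 - C u : A[X]) a + AdjoinRoot.of _ b * AdjoinRoot.root _ = 0) :
    a = 0 ∧ b = 0 := by
  have hm : (X ^ 2 - C u : A[X]).Monic := monic_X_pow_sub_C u two_ne_zero
  have hd : (X ^ 2 - C u : A[X]).natDegree = 2 := natDegree_X_pow_sub_C
  have h1 : AdjoinRoot.mk (X ^ 2 - C u : A[X]) (C a + C b * X) = 0 := by
    rw [map_add, map_mul, AdjoinRoot.mk_C, AdjoinRoot.mk_C, AdjoinRoot.mk_X]
    exact h
  have h2 : (C a + C b * X : A[X]) = 0 := by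
    by_contra hne
    refine AdjoinRoot.mk_ne_zero_of_natDegree_lt hm hne ?_ h1
    rw [hd]
    have : (C a + C b * X : A[X]).natDegree ≤ 1 := by
      rw [add_comm]
      exact natDegree_linear_le
    omega
  constructor
  · have := congrArg (fun q => coeff q 0) h2
    simpa using this
  · have := congrArg (fun q => coeff q 1) h2
    simpa [coeff_C] using this

open Polynomial in
theorem adjoin_sq_sq (u : A) :
    (AdjoinRoot.root (X ^ 2 - C u : A[X])) ^ 2 = AdjoinRoot.of _ u := by
  have h := AdjoinRoot.eval₂_root (X ^ 2 - C u : A[X])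
  rw [eval₂_sub, eval₂_pow, eval₂_X, eval₂_C] at h
  exact sub_eq_zero.1 h

end Adjoin

end Pool.Agent.PRank
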