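import Pool.Agent.PRank.VanIdeal

/-!
Radical ideals of a polynomial ring over a perfect field of characteristic `p` extend to radical
ideals of the power series ring (analytic unramifiedness, through the Frobenius and Artin-Rees).
-/

namespace Pool.Agent.PRank

set_option linter.unusedSectionVars false

open MvPolynomial

variable {k : Type*} [Field k] {n : ℕ}

/-- The quotient `k[x]/I`, to be regarded as a module through the Frobenius. -/
def FQ (_p : ℕ) (I : Ideal (MvPolynomial (Fin n) k)) : Type _ := MvPolynomial (Fin n) k ⧸ I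

section

variable (p : ℕ) [Fact p.Prime] [CharP k p] (I : Ideal (MvPolynomial (Fin n) k))

noncomputable instance : AddCommGroup (FQ p I) := inferInstanceAs (AddCommGroup (MvPolynomial (Fin n) k ⧸ I))

noncomputable instance : Module (MvPolynomial (Fin n) k) (FQ p I) :=
  Module.compHom (MvPolynomial (Fin n) k ⧸ I)
    ((Ideal.Quotient.mk I).comp (frobenius (MvPolynomial (Fin n) k) p))

/-- The quotient map. -/
noncomputable def fq : MvPolynomial (Fin n) k →+ FQ p I := (Ideal.Quotient.mk I).toAddMonoidHom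

variable {p I}

theorem smul_fq (a f : MvPolynomial (Fin n) k) : a • fq p I f = fq p I (a ^ p * f) := by
  change (Ideal.Quotient.mk I) (frobenius _ p a) * (Ideal.Quotient.mk I) f
    = (Ideal.Quotient.mk I) (a ^ p * f)
  rw [map_mul]
  rfl

theorem fq_eq_zero {f : MvPolynomial (Fin n) k} : fq p I f = 0 ↔ f ∈ I :=
  Ideal.Quotient.eq_zero_iff_mem

theorem fq_surjective : Function.Surjective (fq p I) := Ideal.Quotient.mk_surjective

/-- Quotient of the exponents by `p`. -/
noncomputable def dq (p : ℕ) (d : Fin n →₀ ℕ) : Fin n →₀ ℕ :=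
  Finsupp.equivFunOnFinite.symm fun i => d i / p

/-- Remainder of the exponents by `p`. -/
noncomputable def dr (p : ℕ) (d : Fin n →₀ ℕ) : Fin n →₀ ℕ :=
  Finsupp.equivFunOnFinite.symm fun i => d i % p

theorem dq_add_dr (p : ℕ) (d : Fin n →₀ ℕ) : p • dq p d + dr p d = d := by
  ext i
  simp [dq, dr, Nat.div_add_mod]

theorem monomial_decomp [IsAlgClosed k] (p : ℕ) [Fact p.Prime] (d : Fin n →₀ ℕ) (a : k) :
    ∃ b : k, monomial d a = (monomial (dq p d) b) ^ p * monomial (dr p d) 1 := by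
  obtain ⟨b, hb⟩ := IsAlgClosed.exists_pow_nat_eq a (Fact.out : p.Prime).pos
  refine ⟨b, ?_⟩
  rw [monomial_pow, monomial_mul, hb, mul_one, dq_add_dr]

theorem dq_degree (p : ℕ) [Fact p.Prime] (d : Fin n →₀ ℕ) :
    d.degree ≤ p * (dq p d).degree + n * p := by
  have hp : 0 < p := (Fact.out : p.Prime).pos
  rw [Finsupp.degree_eq_sum, Finsupp.degree_eq_sum, Finset.mul_sum]
  have : n * p = ∑ _i : Fin n, p := by simp
  rw [this, ← Finset.sum_add_distrib]
  refine Finset.sum_le_sum fun i _ => ?_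
  have h1 := Nat.div_add_mod (d i) p
  have h2 := Nat.mod_lt (d i) hp
  change d i ≤ p * (d i / p) + p
  omega

instance finite_FQ [IsAlgClosed k] : Module.Finite (MvPolynomial (Fin n) k) (FQ p I) := by
  let v : (Fin n → Fin p) → FQ p I := fun α =>
    fq p I (monomial (Finsupp.equivFunOnFinite.symm fun i => (α i : ℕ)) 1)
  have htop : Submodule.span (MvPolynomial (Fin n) k) (Set.range v) = ⊤ := by
    rw [eq_top_iff]
    rintro x -
    obtain ⟨f, rfl⟩ := fq_surjective x
    induction f using MvPolynomial.induction_on' with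
    | monomial d a =>
      obtain ⟨b, hb⟩ := monomial_decomp p d a
      rw [hb, ← smul_fq]
      refine Submodule.smul_mem _ _ (Submodule.subset_span ⟨fun i => ⟨d i % p,
        Nat.mod_lt _ (Fact.out : p.Prime).pos⟩, rfl⟩)
    | add f g hf hg =>
      rw [map_add]
      exact Submodule.add_mem _ hf hg
  refine ⟨?_⟩
  rw [← htop]
  exact Submodule.fg_span (Set.finite_range v)

variable (p I) in
/-- The submodule of `p`-th powers. -/
def powSub : Submodule (MvPolynomial (Fin n) k) (FQ p I) where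
  carrier := {x | ∃ g, x = fq p I (g ^ p)}
  zero_mem' := ⟨0, by rw [zero_pow (Fact.out : p.Prime).ne_zero, map_zero]⟩
  add_mem' := by
    rintro _ _ ⟨g, rfl⟩ ⟨h, rfl⟩
    exact ⟨g + h, by rw [add_pow_char, map_add]⟩
  smul_mem' := by
    rintro a _ ⟨g, rfl⟩
    exact ⟨a * g, by rw [smul_fq, mul_pow]⟩

/-- Elements of `𝔪^N • powSub` are `p`-th powers of elements of `𝔪^N`. -/
theorem mem_pow_smul {N : ℕ} {x : FQ p I}
    (hx : x ∈ (idealOfVars (Fin n) k) ^ N • powSub p I) :
    ∃ h ∈ (idealOfVars (Fin n) k) ^ N, x = fq p I (h ^ p) := by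
  refine Submodule.smul_induction_on hx ?_ ?_
  · rintro a ha _ ⟨g, rfl⟩
    exact ⟨a * g, Ideal.mul_mem_right _ _ ha, by rw [smul_fq, mul_pow]⟩
  · rintro _ _ ⟨g, hg, rfl⟩ ⟨h, hh, rfl⟩
    exact ⟨g + h, Ideal.add_mem _ hg hh, by rw [add_pow_char, map_add]⟩

/-- High powers of the maximal ideal map into `𝔪^N • ⊤`. -/
theorem fq_mem_smul_top [IsAlgClosed k] {N : ℕ} {f : MvPolynomial (Fin n) k}
    (hf : f ∈ (idealOfVars (Fin n) k) ^ (p * N + n * p)) :
    fq p I f ∈ (idealOfVars (Fin n) k) ^ N • (⊤ : Submodule (MvPolynomial (Fin n) k) (FQ p I)) := by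
  rw [mem_pow_idealOfVars_iff] at hf
  rw [f.as_sum, map_sum]
  refine Submodule.sum_mem _ fun d hd => ?_
  obtain ⟨b, hb⟩ := monomial_decomp p d (f.coeff d)
  rw [hb, ← smul_fq]
  refine Submodule.smul_mem_smul ?_ trivial
  by_cases hb0 : b = 0
  · rw [hb0, map_zero]; exact Ideal.zero_mem _
  · rw [monomial_mem_pow_idealOfVars_iff _ _ hb0]
    have h1 := dq_degree p d
    have h2 := hf d hd
    have h3 : p * N ≤ p * (dq p d).degree := by omega
    exact Nat.le_of_mul_le_mul_left h3 (Fact.out : p.Prime).pos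

/-- Chevalley type statement: if `g^p` is close to `I` then `g` is close to `I`. -/
theorem exists_bound [IsAlgClosed k] (hI : ∀ g, g ^ p ∈ I → g ∈ I) (N : ℕ) :
    ∃ M, ∀ g i : MvPolynomial (Fin n) k, i ∈ I → g ^ p - i ∈ (idealOfVars (Fin n) k) ^ M →
      ∃ h ∈ (idealOfVars (Fin n) k) ^ N, g - h ∈ I := by
  obtain ⟨c, hc⟩ := Ideal.exists_pow_inf_eq_pow_smul (idealOfVars (Fin n) k) (powSub p I)
  refine ⟨p * (N + c) + n * p, fun g i hi hg => ?_⟩
  have h1 : fq p I (g ^ p) ∈ (idealOfVars (Fin n) k) ^ (N + c) •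
      (⊤ : Submodule (MvPolynomial (Fin n) k) (FQ p I)) := by
    have h2 := fq_mem_smul_top (I := I) hg
    rwa [map_sub, fq_eq_zero.2 hi, sub_zero] at h2
  have h3 : fq p I (g ^ p) ∈ (idealOfVars (Fin n) k) ^ (N + c) •
      (⊤ : Submodule (MvPolynomial (Fin n) k) (FQ p I)) ⊓ powSub p I := ⟨h1, ⟨g, rfl⟩⟩
  rw [hc (N + c) (by omega), Nat.add_sub_cancel] at h3
  have h4 : fq p I (g ^ p) ∈ (idealOfVars (Fin n) k) ^ N • powSub p I :=
    Submodule.smul_mono le_rfl inf_le_right h3
  obtain ⟨h, hh, e⟩ := mem_pow_smul h4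
  refine ⟨h, hh, hI _ ?_⟩
  rw [sub_pow_char, ← fq_eq_zero (p := p), map_sub, e, sub_self]

end

section Series

variable {p : ℕ} [Fact p.Prime] [CharP k p] {I : Ideal (MvPolynomial (Fin n) k)}

theorem vanTo_coe_iff {N : ℕ} {f : MvPolynomial (Fin n) k} :
    VanTo N (f : MvPowerSeries (Fin n) k) ↔ f ∈ (idealOfVars (Fin n) k) ^ N := by
  rw [mem_pow_idealOfVars_iff']
  simp only [VanTo, MvPolynomial.coeff_coe]

/-- Approximation of power series by polynomials. -/
theorem exists_approx (N : ℕ) (f : MvPowerSeries (Fin n) k) :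
    ∃ g : MvPolynomial (Fin n) k, VanTo N (f - (g : MvPowerSeries (Fin n) k)) := by
  classical
  refine ⟨∑ m ∈ Finset.range N, ∑ d ∈ Finset.univ.finsuppAntidiag m,
    monomial d (MvPowerSeries.coeff d f), fun d hd => ?_⟩
  rw [map_sub, MvPolynomial.coeff_coe, MvPolynomial.coeff_sum]
  simp only [MvPolynomial.coeff_sum, MvPolynomial.coeff_monomial, Finset.sum_ite_eq',
    Finset.mem_finsuppAntidiag, Finset.subset_univ, and_true]
  rw [Finset.sum_eq_single d.degree]
  · rw [if_pos (by rw [Finsupp.degree_eq_sum]), sub_self]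
  · intro m _ hm
    rw [if_neg]
    intro h
    exact hm (by rw [← h, Finsupp.degree_eq_sum])
  · intro h
    exact absurd (Finset.mem_range.2 hd) h

/-- The extension of an ideal to the power series ring. -/
noncomputable def extI (I : Ideal (MvPolynomial (Fin n) k)) : Ideal (MvPowerSeries (Fin n) k) :=
  I.map (MvPolynomial.coeToMvPowerSeries.ringHom (R := k) (σ := Fin n))

theorem coe_mem_extI {f : MvPolynomial (Fin n) k} (hf : f ∈ I) :
    (f : MvPowerSeries (Fin n) k) ∈ extI I :=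
  Ideal.mem_map_of_mem (MvPolynomial.coeToMvPowerSeries.ringHom (R := k) (σ := Fin n)) hf

/-- Elements of the extended ideal are approximated by elements of the ideal. -/
theorem approx_extI (N : ℕ) {f : MvPowerSeries (Fin n) k} (hf : f ∈ extI I) :
    ∃ i ∈ I, VanTo N (f - (i : MvPowerSeries (Fin n) k)) := by
  refine Submodule.span_induction ?_ ?_ ?_ ?_ hf
  · rintro _ ⟨i, hi, rfl⟩
    refine ⟨i, hi, ?_⟩
    have : (coeToMvPowerSeries.ringHom (R := k) (σ := Fin n)) i = (i : MvPowerSeries (Fin n) k) :=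
      rfl
    rw [this, sub_self]
    exact vanTo_of_zero N
  · exact ⟨0, I.zero_mem, by simpa using vanTo_of_zero N⟩
  · rintro x y - - ⟨i, hi, h1⟩ ⟨j, hj, h2⟩
    refine ⟨i + j, I.add_mem hi hj, ?_⟩
    have : x + y - ((i + j : MvPolynomial (Fin n) k) : MvPowerSeries (Fin n) k)
        = (x - (i : MvPowerSeries (Fin n) k)) + (y - (j : MvPowerSeries (Fin n) k)) := by
      rw [MvPolynomial.coe_add]; ring
    rw [this]
    exact h1.add h2
  · rintro a x - ⟨i, hi, h1⟩
    obtain ⟨b, hb⟩ := exists_approx N a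
    refine ⟨b * i, I.mul_mem_left _ hi, ?_⟩
    have : a • x - ((b * i : MvPolynomial (Fin n) k) : MvPowerSeries (Fin n) k)
        = a * (x - (i : MvPowerSeries (Fin n) k))
          + (a - (b : MvPowerSeries (Fin n) k)) * (i : MvPowerSeries (Fin n) k) := by
      rw [MvPolynomial.coe_mul, smul_eq_mul]; ring
    rw [this]
    exact (h1.mul_left _).add (hb.mul_right _)

theorem coe_sub' (f g : MvPolynomial (Fin n) k) :
    ((f - g : MvPolynomial (Fin n) k) : MvPowerSeries (Fin n) k)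
      = (f : MvPowerSeries (Fin n) k) - (g : MvPowerSeries (Fin n) k) :=
  map_sub (coeToMvPowerSeries.ringHom (R := k) (σ := Fin n)) f g

/-- Ideals of the power series ring are closed. -/
theorem mem_of_approx (J : Ideal (MvPowerSeries (Fin n) k)) {f : MvPowerSeries (Fin n) k}
    (hf : ∀ N, ∃ g ∈ J, VanTo N (f - g)) : f ∈ J := by
  set 𝔪 := IsLocalRing.maximalIdeal (MvPowerSeries (Fin n) k) with h𝔪
  have hX : ∀ i, (MvPowerSeries.X i : MvPowerSeries (Fin n) k) ∈ 𝔪 := by
    intro i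
    rw [h𝔪, IsLocalRing.mem_maximalIdeal, mem_nonunits_iff, MvPowerSeries.isUnit_iff_constantCoeff]
    simp
  have hmem : ∀ N : ℕ, Ideal.Quotient.mk J f ∈ (𝔪 ^ N •
      (⊤ : Submodule (MvPowerSeries (Fin n) k) (MvPowerSeries (Fin n) k ⧸ J))) := by
    intro N
    obtain ⟨g, hg, hfg⟩ := hf N
    have h1 : f - g ∈ 𝔪 ^ N := mem_pow_of_vanTo 𝔪 hX N _ hfg
    have h2 : Ideal.Quotient.mk J f = (f - g) • (1 : MvPowerSeries (Fin n) k ⧸ J) := by
      change Ideal.Quotient.mk J f = Ideal.Quotient.mk J ((f - g) • 1)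
      rw [smul_eq_mul, mul_one, map_sub, Ideal.Quotient.eq_zero_iff_mem.2 hg, sub_zero]
    rw [h2]
    exact Submodule.smul_mem_smul h1 trivial
  have hinf := Ideal.iInf_pow_smul_eq_bot_of_isLocalRing (M := MvPowerSeries (Fin n) k ⧸ J) 𝔪
    (IsLocalRing.maximalIdeal.isMaximal _).ne_top
  have h3 : Ideal.Quotient.mk J f ∈ (⨅ i : ℕ, 𝔪 ^ i •
      (⊤ : Submodule (MvPowerSeries (Fin n) k) (MvPowerSeries (Fin n) k ⧸ J))) :=
    Submodule.mem_iInf _ |>.2 hmem
  rw [hinf, Submodule.mem_bot] at h3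
  exact Ideal.Quotient.eq_zero_iff_mem.1 h3

theorem mem_extI_of_pow [IsAlgClosed k] (hI : ∀ g, g ^ p ∈ I → g ∈ I)
    {f : MvPowerSeries (Fin n) k} (hf : f ^ p ∈ extI I) : f ∈ extI I := by
  have hch : CharP (MvPowerSeries (Fin n) k) p :=
    charP_of_injective_ringHom (MvPowerSeries.C_injective (σ := Fin n) (R := k)) p
  have hp0 : p ≠ 0 := (Fact.out : p.Prime).ne_zero
  apply mem_of_approx
  intro N
  obtain ⟨M, hM⟩ := exists_bound hI N
  obtain ⟨i, hi, hfi⟩ := approx_extI M hf
  obtain ⟨g, hg⟩ := exists_approx (max M N) f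
  have h1 : g ^ p - i ∈ (idealOfVars (Fin n) k) ^ M := by
    rw [← vanTo_coe_iff]
    have e : ((g ^ p - i : MvPolynomial (Fin n) k) : MvPowerSeries (Fin n) k)
        = (f ^ p - (i : MvPowerSeries (Fin n) k)) - (f - (g : MvPowerSeries (Fin n) k)) ^ p := by
      rw [sub_pow_char, coe_sub', MvPolynomial.coe_pow]; ring
    rw [e]
    refine hfi.sub (((hg.pow p).mono ?_))
    calc M ≤ max M N := le_max_left _ _
      _ ≤ p * max M N := Nat.le_mul_of_pos_left _ (Nat.pos_of_ne_zero hp0)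
  obtain ⟨h, hh, hgh⟩ := hM g i hi h1
  refine ⟨((g - h : MvPolynomial (Fin n) k) : MvPowerSeries (Fin n) k), coe_mem_extI hgh, ?_⟩
  have e : f - ((g - h : MvPolynomial (Fin n) k) : MvPowerSeries (Fin n) k)
      = (f - (g : MvPowerSeries (Fin n) k)) + (h : MvPowerSeries (Fin n) k) := by
    rw [coe_sub']; ring
  rw [e]
  exact (hg.mono (le_max_right _ _)).add (vanTo_coe_iff.2 hh)

/-- Radical ideals extend to radical ideals. -/
theorem isRadical_extI [IsAlgClosed k] (p : ℕ) [Fact p.Prime] [CharP k p] (hI : I.IsRadical) :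
    (extI I).IsRadical := by
  have hp2 : 2 ≤ p := (Fact.out : p.Prime).two_le
  have hIp : ∀ g, g ^ p ∈ I → g ∈ I := fun g hg => hI ⟨p, hg⟩
  intro f hf
  obtain ⟨m, hm⟩ := hf
  have key : ∀ j : ℕ, f ^ (p ^ j) ∈ extI I → f ∈ extI I := by
    intro j
    induction j with
    | zero => intro h; simpa using h
    | succ j ih =>
      intro h
      apply ih
      apply mem_extI_of_pow hIp
      rwa [← pow_mul, ← pow_succ]
  apply key m
  have hle : m ≤ p ^ m := (Nat.lt_pow_self (by omega)).le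
  rw [← Nat.sub_add_cancel hle, pow_add]
  exact Ideal.mul_mem_left _ _ hm

end Series

end Pool.Agent.PRank
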