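import Pool.Agent.PRank.Theta

/-!
Extension of identities from dense subsets, and the symmetries of the ideal `K`.
-/

namespace Pool.Agent.PRank

set_option linter.unusedSectionVars false

open MvPolynomial

variable {k : Type*} [Field k]

/-- The point of the Hermitian curve attached to a vector of five coordinates. -/
def mv (v : Fin 5 → k) : Fin 3 → k := ![v 0, v 1, v 2]

@[simp] theorem mv_zero (v : Fin 5 → k) : mv v 0 = v 0 := rfl
@[simp] theorem mv_one (v : Fin 5 → k) : mv v 1 = v 1 := rfl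
@[simp] theorem mv_two (v : Fin 5 → k) : mv v 2 = v 2 := rfl

theorem herm_mv {p : ℕ} {v : Fin 5 → k} : Herm p (mv v) ↔ H5 p v := Iff.rfl

/-- Vector of five coordinates attached to a point. -/
def vm (m : Fin 3 → k) (x y : k) : Fin 5 → k := ![m 0, m 1, m 2, x, y]

theorem mv_vm (m : Fin 3 → k) (x y : k) : mv (vm m x y) = m := by
  funext i
  fin_cases i <;> rfl

theorem vm_three (m : Fin 3 → k) (x y : k) : vm m x y 3 = x := rfl
theorem vm_four (m : Fin 3 → k) (x y : k) : vm m x y 4 = y := rfl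

theorem polyFun_th (p : ℕ) (i : Fin 6) :
    PolyFun (fun v : Fin 5 → k => th p (mv v) (v 3) (v 4) i) := by
  have key : ∀ a b : Fin 5, PolyFun (fun v : Fin 5 → k =>
      v 3 * (v a * v b) + v 4 * (v a ^ (p ^ 2) * v b ^ (p ^ 2))) := fun a b =>
    ((PolyFun.proj 3).mul ((PolyFun.proj a).mul (PolyFun.proj b))).add
      ((PolyFun.proj 4).mul (((PolyFun.proj a).pow _).mul ((PolyFun.proj b).pow _)))
  fin_cases i
  · exact key 0 0
  · exact key 0 1
  · exact key 0 2
  · exact key 1 1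
  · exact key 1 2
  · exact key 2 2

theorem polyFun_eval_th (p : ℕ) (G : MvPolynomial (Fin 6) k) :
    PolyFun (fun v : Fin 5 → k => eval (th p (mv v) (v 3) (v 4)) G) :=
  PolyFun.comp G (polyFun_th p)

/-- The cross product of `m` and `m'` as a vector. -/
def cr (p : ℕ) (m : Fin 3 → k) : Fin 3 → k :=
  ![m 1 * m 2 ^ (p ^ 2) - m 2 * m 1 ^ (p ^ 2), m 2 * m 0 ^ (p ^ 2) - m 0 * m 2 ^ (p ^ 2),
    m 0 * m 1 ^ (p ^ 2) - m 1 * m 0 ^ (p ^ 2)]

theorem isDelta_iff {p : ℕ} {m : Fin 3 → k} {δ : k} :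
    IsDelta p m δ ↔ ∀ j, cr p m j = δ * m j ^ p := by
  constructor
  · rintro ⟨h0, h1, h2⟩ j
    fin_cases j
    · exact h0
    · exact h1
    · exact h2
  · intro h
    exact ⟨h 0, h 1, h 2⟩

theorem polyFun_cr (p : ℕ) (j : Fin 3) : PolyFun (fun v : Fin 5 → k => cr p (mv v) j) := by
  have key : ∀ a b : Fin 5, PolyFun (fun v : Fin 5 → k =>
      v a * v b ^ (p ^ 2) - v b * v a ^ (p ^ 2)) := fun a b =>
    ((PolyFun.proj a).mul ((PolyFun.proj b).pow _)).sub
      ((PolyFun.proj b).mul ((PolyFun.proj a).pow _))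
  fin_cases j
  · exact key 1 2
  · exact key 2 0
  · exact key 0 1

theorem polyFun_mv (j : Fin 3) : PolyFun (fun v : Fin 5 → k => mv v j) := by
  fin_cases j
  · exact PolyFun.proj 0
  · exact PolyFun.proj 1
  · exact PolyFun.proj 2

/-- If `G ∘ θ = (M ∘ θ) η_i` on a nonempty open subset then it holds everywhere. -/
theorem ext_eta [IsAlgClosed k] {p r : ℕ} [Fact p.Prime] [CharP k p]
    (G M : MvPolynomial (Fin 6) k) (i : Fin 3)
    {F : (Fin 5 → k) → k} (hF : PolyFun F) (hne : ∃ v, H5 p v ∧ F v ≠ 0)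
    (h : ∀ (m : Fin 3 → k) (δ x y : k), Herm p m → m ≠ 0 → IsDelta p m δ → F (vm m x y) ≠ 0 →
      eval (th p m x y) G = eval (th p m x y) M * eta p r i m δ x y) :
    ∀ (m : Fin 3 → k) (δ x y : k), Herm p m → m ≠ 0 → IsDelta p m δ →
      eval (th p m x y) G = eval (th p m x y) M * eta p r i m δ x y := by
  have hp : p ≠ 0 := (Fact.out : p.Prime).ne_zero
  have hpp : p ^ 2 + 2 * r ≠ 0 := by positivity
  have key : ∀ j : Fin 3, ∀ v, H5 p v →
      (mv v j) ^ (p * (p ^ 2 + 2 * r)) * eval (th p (mv v) (v 3) (v 4)) G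
        - eval (th p (mv v) (v 3) (v 4)) M *
          (v 3 ^ p * v 4 ^ (r * p + r) * cr p (mv v) j ^ (p ^ 2 + 2 * r) * mv v i) = 0 := by
    intro j
    refine dens (F := F) hF ?_ ?_ hne
    · exact (((polyFun_mv j).pow _).mul (polyFun_eval_th p G)).sub
        ((polyFun_eval_th p M).mul ((((((PolyFun.proj 3).pow _).mul
          ((PolyFun.proj 4).pow _))).mul ((polyFun_cr p j).pow _)).mul (polyFun_mv i)))
    · intro v hv
      by_cases hFv : F v = 0
      · rw [hFv, zero_mul]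
      · rw [mul_eq_zero]
        right
        have hvm : vm (mv v) (v 3) (v 4) = v := by
          funext i
          fin_cases i <;> rfl
        by_cases hm0 : mv v = 0
        · have e1 : mv v j = 0 := by rw [hm0]; rfl
          have e2 : cr p (mv v) j = 0 := by
            rw [hm0]
            fin_cases j <;> simp [cr]
          rw [e1, e2, zero_pow hpp, zero_pow (Nat.mul_ne_zero hp hpp)]
          ring
        · obtain ⟨δ, hδ⟩ := exists_delta (p := p) (m := mv v) hv hm0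
          have h1 := h (mv v) δ (v 3) (v 4) hv hm0 hδ (by rw [hvm]; exact hFv)
          rw [h1, isDelta_iff.1 hδ j, eta]
          ring
  intro m δ x y hm hm0 hδ
  obtain ⟨j, hj⟩ : ∃ j, m j ≠ 0 := by
    by_contra hcon
    push Not at hcon
    exact hm0 (funext hcon)
  have h1 := key j (vm m x y) (by rw [← herm_mv, mv_vm]; exact hm)
  rw [mv_vm, vm_three, vm_four, isDelta_iff.1 hδ j] at h1
  have h2 : m j ^ (p * (p ^ 2 + 2 * r)) *
      (eval (th p m x y) G - eval (th p m x y) M * eta p r i m δ x y) = 0 := by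
    rw [← h1, eta]
    ring
  rcases mul_eq_zero.1 h2 with h3 | h3
  · exact absurd h3 (pow_ne_zero _ hj)
  · exact sub_eq_zero.1 h3

/-- Stability of `K` under a symmetry. -/
theorem KIdeal_stable {p r : ℕ} (f : (Fin 3 → k) → (Fin 3 → k))
    (τ : MvPolynomial (Fin 6) k →ₐ[k] MvPolynomial (Fin 6) k)
    (hτ : ∀ m x y G, eval (th p m x y) (τ G) = eval (th p (f m) x y) G)
    (hf : ∀ m δ, Herm p m → m ≠ 0 → IsDelta p m δ →
      Herm p (f m) ∧ f m ≠ 0 ∧ IsDelta p (f m) δ)
    (c : Fin 3 → Fin 3 → k) (hc : ∀ m i, m i = ∑ j, c i j * f m j)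
    {M : MvPolynomial (Fin 6) k} (hM : M ∈ KIdeal k p r) : τ M ∈ KIdeal k p r := by
  rw [mem_KIdeal] at hM ⊢
  choose G hG using hM
  intro i
  refine ⟨∑ j, C (c i j) * τ (G j), fun m δ x y h1 h2 h3 => ?_⟩
  obtain ⟨h1', h2', h3'⟩ := hf m δ h1 h2 h3
  rw [map_sum, hτ]
  have e : ∀ j, eval (th p m x y) (C (c i j) * τ (G j))
      = eval (th p (f m) x y) M * (x ^ p * y ^ (r * p + r) * δ ^ (p ^ 2 + 2 * r))
        * (c i j * f m j) := by
    intro j
    rw [map_mul, eval_C, hτ, hG j (f m) δ x y h1' h2' h3', eta]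
    ring
  rw [Finset.sum_congr rfl fun j _ => e j, ← Finset.mul_sum, ← hc m i, eta]
  ring

/-- Cyclic permutation of the coordinates. -/
def cyc (m : Fin 3 → k) : Fin 3 → k := ![m 1, m 2, m 0]

/-- The induced substitution on matrix entries. -/
noncomputable def cycT : MvPolynomial (Fin 6) k →ₐ[k] MvPolynomial (Fin 6) k :=
  aeval ![X 3, X 4, X 1, X 5, X 2, X 0]

theorem eval_aeval_eq {σ τ : Type*} (t : σ → k) (f : τ → MvPolynomial σ k)
    (G : MvPolynomial τ k) : eval t (aeval f G) = eval (fun i => eval t (f i)) G := by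
  have h1 : ∀ Q : MvPolynomial σ k, eval t Q = aeval t Q := fun Q => by
    rw [MvPolynomial.aeval_eq_eval]
  rw [← MvPolynomial.bind₁, h1, aeval_bind₁]
  simp only [← h1]
  rw [MvPolynomial.aeval_eq_eval]

theorem cycT_eval (p : ℕ) (m : Fin 3 → k) (x y : k) (G : MvPolynomial (Fin 6) k) :
    eval (th p m x y) (cycT G) = eval (th p (cyc m) x y) G := by
  rw [cycT, eval_aeval_eq]
  congr 2
  funext i
  fin_cases i <;> simp [th, cyc] <;> ring

theorem KIdeal_cyc {p r : ℕ} {M : MvPolynomial (Fin 6) k} (hM : M ∈ KIdeal k p r) :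
    cycT M ∈ KIdeal k p r := by
  refine KIdeal_stable cyc cycT (cycT_eval p) ?_
    ![![0, 0, 1], ![1, 0, 0], ![0, 1, 0]] ?_ hM
  · intro m δ h1 h2 h3
    refine ⟨?_, ?_, ?_⟩
    · have h1' : m 0 ^ (p + 1) + m 1 ^ (p + 1) + m 2 ^ (p + 1) = 0 := h1
      change m 1 ^ (p + 1) + m 2 ^ (p + 1) + m 0 ^ (p + 1) = 0
      rw [← h1']
      ring
    · intro h
      apply h2
      have e0 := congrFun h 0
      have e1 := congrFun h 1
      have e2 := congrFun h 2
      funext i
      fin_cases i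
      · exact e2
      · exact e0
      · exact e1
    · obtain ⟨d0, d1, d2⟩ := h3
      exact ⟨d1, d2, d0⟩
  · intro m i
    fin_cases i <;> simp [Fin.sum_univ_three, cyc]

/-- Unitary rotation in the first two coordinates. -/
def rot (p : ℕ) (c s : k) (m : Fin 3 → k) : Fin 3 → k :=
  ![c * m 0 + s * m 1, -(s ^ p) * m 0 + c ^ p * m 1, m 2]

/-- The induced substitution on matrix entries. -/
noncomputable def rotT (p : ℕ) (c s : k) :
    MvPolynomial (Fin 6) k →ₐ[k] MvPolynomial (Fin 6) k :=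
  aeval ![C (c ^ 2) * X 0 + C (2 * c * s) * X 1 + C (s ^ 2) * X 3,
    C (-(c * s ^ p)) * X 0 + C (c * c ^ p - s * s ^ p) * X 1 + C (s * c ^ p) * X 3,
    C c * X 2 + C s * X 4,
    C (s ^ p * s ^ p) * X 0 + C (-(2 * s ^ p * c ^ p)) * X 1 + C (c ^ p * c ^ p) * X 3,
    C (-(s ^ p)) * X 2 + C (c ^ p) * X 4,
    X 5]

section Rot

variable {p : ℕ} [Fact p.Prime] [CharP k p] {c s : k}

theorem add_pow_sq (x y : k) : (x + y) ^ (p ^ 2) = x ^ (p ^ 2) + y ^ (p ^ 2) :=
  add_pow_char_pow x y p 2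

theorem rot_zero (m : Fin 3 → k) : rot p c s m 0 = c * m 0 + s * m 1 := rfl
theorem rot_one (m : Fin 3 → k) : rot p c s m 1 = -(s ^ p) * m 0 + c ^ p * m 1 := rfl
theorem rot_two (m : Fin 3 → k) : rot p c s m 2 = m 2 := rfl

theorem rot_zero_q (hc : c ^ (p ^ 2) = c) (hs : s ^ (p ^ 2) = s) (m : Fin 3 → k) :
    (rot p c s m 0) ^ (p ^ 2) = c * m 0 ^ (p ^ 2) + s * m 1 ^ (p ^ 2) := by
  rw [rot_zero, add_pow_sq, mul_pow, mul_pow, hc, hs]

theorem rot_one_q (hc : c ^ (p ^ 2) = c) (hs : s ^ (p ^ 2) = s) (m : Fin 3 → k) :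
    (rot p c s m 1) ^ (p ^ 2) = -(s ^ p) * m 0 ^ (p ^ 2) + c ^ p * m 1 ^ (p ^ 2) := by
  have e1 : (s ^ p) ^ (p ^ 2) = s ^ p := by rw [← pow_mul, mul_comm, pow_mul, hs]
  have e2 : (c ^ p) ^ (p ^ 2) = c ^ p := by rw [← pow_mul, mul_comm, pow_mul, hc]
  have e3 : (-(s ^ p) * m 0) ^ (p ^ 2) = -(s ^ p) * m 0 ^ (p ^ 2) := by
    rw [neg_mul, neg_mul]
    have h : (-(s ^ p * m 0) + s ^ p * m 0) ^ (p ^ 2)
        = (-(s ^ p * m 0)) ^ (p ^ 2) + (s ^ p * m 0) ^ (p ^ 2) := add_pow_sq _ _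
    rw [neg_add_cancel, zero_pow (by have := (Fact.out : p.Prime).ne_zero; positivity),
      mul_pow, e1] at h
    exact eq_neg_of_add_eq_zero_left h.symm
  rw [rot_one, add_pow_sq, e3, mul_pow, e2]

theorem rotT_eval (hc : c ^ (p ^ 2) = c) (hs : s ^ (p ^ 2) = s)
    (m : Fin 3 → k) (x y : k) (G : MvPolynomial (Fin 6) k) :
    eval (th p m x y) (rotT p c s G) = eval (th p (rot p c s m) x y) G := by
  rw [rotT, eval_aeval_eq]
  congr 2
  funext i
  fin_cases i
  · simp only [th, rot_zero_q hc hs]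
    simp
    rw [rot_zero]
    ring
  · simp only [th, rot_zero_q hc hs, rot_one_q hc hs]
    simp
    rw [rot_zero, rot_one]
    ring
  · simp only [th, rot_zero_q hc hs]
    simp
    rw [rot_zero, rot_two]
    ring
  · simp only [th, rot_one_q hc hs]
    simp
    rw [rot_one]
    ring
  · simp only [th, rot_one_q hc hs]
    simp
    rw [rot_one, rot_two]
    ring
  · simp [th, rot_two]

theorem KIdeal_rot {r : ℕ} (hc : c ^ (p ^ 2) = c) (hs : s ^ (p ^ 2) = s)
    (hcs : c ^ (p + 1) + s ^ (p + 1) = 1)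
    {M : MvPolynomial (Fin 6) k} (hM : M ∈ KIdeal k p r) :
    rotT p c s M ∈ KIdeal k p r := by
  have hcs' : c * c ^ p + s * s ^ p = 1 := by rw [← pow_succ', ← pow_succ']; exact hcs
  refine KIdeal_stable (rot p c s) (rotT p c s) (rotT_eval hc hs) ?_
    ![![c ^ p, -s, 0], ![s ^ p, c, 0], ![0, 0, 1]] ?_ hM
  · intro m δ h1 h2 h3
    have r0p : (rot p c s m 0) ^ p = c ^ p * m 0 ^ p + s ^ p * m 1 ^ p := by
      rw [rot_zero, add_pow_char, mul_pow, mul_pow]
    have r1p : (rot p c s m 1) ^ p = -s * m 0 ^ p + c * m 1 ^ p := by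
      have h : -(s ^ p) * m 0 + c ^ p * m 1 = c ^ p * m 1 - s ^ p * m 0 := by ring
      rw [rot_one, h, sub_pow_char, mul_pow, mul_pow, ← pow_mul, ← pow_mul, ← pow_two, hc, hs]
      ring
    refine ⟨?_, ?_, ?_⟩
    · have h1' : m 0 ^ (p + 1) + m 1 ^ (p + 1) + m 2 ^ (p + 1) = 0 := h1
      change (rot p c s m 0) ^ (p + 1) + (rot p c s m 1) ^ (p + 1) + (rot p c s m 2) ^ (p + 1) = 0
      rw [pow_succ, pow_succ, r0p, r1p, rot_zero, rot_one, rot_two]
      linear_combination h1' + (m 0 ^ (p + 1) + m 1 ^ (p + 1)) * hcs'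
    · intro h
      apply h2
      have e0 : c * m 0 + s * m 1 = 0 := congrFun h 0
      have e1 : -(s ^ p) * m 0 + c ^ p * m 1 = 0 := congrFun h 1
      have e2 : m 2 = 0 := congrFun h 2
      funext i
      fin_cases i
      · change m 0 = 0
        linear_combination c ^ p * e0 - s * e1 - m 0 * hcs'
      · change m 1 = 0
        linear_combination s ^ p * e0 + c * e1 - m 1 * hcs'
      · exact e2
    · obtain ⟨d0, d1, d2⟩ := h3
      refine ⟨?_, ?_, ?_⟩
      · rw [rot_one_q hc hs, rot_one, rot_two, r0p]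
        linear_combination c ^ p * d0 + s ^ p * d1
      · rw [rot_zero_q hc hs, rot_zero, rot_two, r1p]
        linear_combination c * d1 - s * d0
      · rw [rot_zero_q hc hs, rot_one_q hc hs, rot_zero, rot_one, rot_two]
        linear_combination d2 + (m 0 * m 1 ^ (p ^ 2) - m 1 * m 0 ^ (p ^ 2)) * hcs'
  · intro m i
    fin_cases i
    · simp only [Fin.sum_univ_three, rot_zero, rot_one, rot_two]
      simp
      linear_combination -(m 0) * hcs'
    · simp only [Fin.sum_univ_three, rot_zero, rot_one, rot_two]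
      simp
      linear_combination -(m 1) * hcs'
    · simp only [Fin.sum_univ_three, rot_zero, rot_one, rot_two]
      simp

end Rot

end Pool.Agent.PRank
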