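import Pool.Agent.PRank.Pair2

/-!
The six parameter family and its Hasse-Witt matrix: base change and evenness in `s`.
-/

namespace Pool.Agent.PRank

open LaurentPolynomial Q4

section BaseChange

variable {R R' : Type*} [CommRing R] [CommRing R']

/-- Base change of Laurent polynomials. -/
noncomputable def lmap (f : R →+* R') : LaurentPolynomial R →+* LaurentPolynomial R' :=
  AddMonoidAlgebra.mapRingHom ℤ f

theorem coeff_lmap (f : R →+* R') (x : LaurentPolynomial R) (n : ℤ) :
    (lmap f x).coeff n = f (x.coeff n) := by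
  simp [lmap]

theorem lmap_T (f : R →+* R') (n : ℤ) : lmap f (T n) = T n := by
  ext m
  rw [coeff_lmap, T_apply, T_apply]
  split_ifs <;> simp

theorem lmap_C (f : R →+* R') (r : R) : lmap f (C r) = C (f r) := by
  ext m
  rw [coeff_lmap, C_apply, C_apply]
  split_ifs <;> simp

variable {s : R} {A B : LaurentPolynomial R} {s' : R'} {A' B' : LaurentPolynomial R'}

/-- Base change of the overlap ring. -/
noncomputable def qmap (f : R →+* R') (hs : f s = s') (hA : lmap f A = A')
    (hB : lmap f B = B') : QQ s A B →+* QQ s' A' B' :=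
  Q4.map (lmap f) (lmap_T f 1) (by rw [lmap_C, hs]) hA hB

theorem tau_qmap (f : R →+* R') (hs : f s = s') (hA : lmap f A = A')
    (hB : lmap f B = B') (i : Fin 3) (u : QQ s A B) :
    tau i (qmap f hs hA hB u) = f (tau i u) := by
  fin_cases i <;> simp [tau, qmap, coeff_lmap]

theorem qmap_bb (f : R →+* R') (hs : f s = s') (hA : lmap f A = A')
    (hB : lmap f B = B') (j : Fin 3) :
    qmap f hs hA hB (bb s A B j) = bb s' A' B' j := by
  fin_cases j <;> ext1 <;> simp [bb, qmap, lmap_T]

theorem hw_map (f : R →+* R') (hs : f s = s') (hA : lmap f A = A')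
    (hB : lmap f B = B') (p : ℕ) :
    (hw s A B p).map f = hw s' A' B' p := by
  ext i j
  simp only [hw, Matrix.map_apply, Matrix.of_apply]
  rw [← tau_qmap f hs hA hB, map_pow, qmap_bb]

end BaseChange

section Even

variable {R : Type*} [CommRing R]

/-- The isomorphism `w ↦ -w` between the algebras for `s` and `-s`. -/
def flipS {L : Type*} [CommRing L] {X S S' A B : L} (h : S' = -S) :
    Q4 X S A B →+* Q4 X S' A B where
  toFun u := ⟨u.c0, u.c1, -u.c2, -u.c3⟩
  map_one' := by ext <;> simp
  map_zero' := by ext <;> simp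
  map_mul' u v := by
    subst h
    ext <;> simp only [mul_c0, mul_c1, mul_c2, mul_c3] <;> ring
  map_add' u v := by ext <;> simp <;> ring

theorem hw_neg (s : R) (A B : LaurentPolynomial R) {p : ℕ} (hp : Odd p) :
    hw (-s) A B p = hw s A B p := by
  have hS : (C (-s) : LaurentPolynomial R) = -C s := by rw [map_neg]
  have h1 : ∀ j, flipS hS (bb s A B j) = -bb (-s) A B j := by
    intro j
    fin_cases j <;> ext1 <;> simp [bb, flipS]
  have h2 : ∀ (i : Fin 3) (u : QQ s A B), tau i (flipS hS u : QQ (-s) A B) = -tau i u := by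
    intro i u
    fin_cases i <;> simp [tau, flipS]
  have h3 : ∀ (i : Fin 3) (u : QQ (-s) A B), tau i (-u) = -tau i u := by
    intro i u
    fin_cases i <;> simp [tau]
  ext i j
  simp only [hw, Matrix.of_apply]
  have := h2 i (bb s A B j ^ p)
  rw [map_pow, h1, hp.neg_pow, h3, neg_inj] at this
  exact this

end Even

section Family

variable {R R' : Type*} [CommRing R] [CommRing R']

/-- `a6 x^3 + a4 x^2 + a2 x`. -/
noncomputable def famA (c : Fin 6 → R) : LaurentPolynomial R :=
  C (c 4) * T 3 + C (c 2) * T 2 + C (c 0) * T 1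

/-- `x^3 + a5 x^2 + a3 x - 1`. -/
noncomputable def famB (c : Fin 6 → R) : LaurentPolynomial R :=
  T 3 + C (c 3) * T 2 + C (c 1) * T 1 - 1

theorem hyp_fam (c : Fin 6 → R) : Hyp (famA c) (famB c) where
  geA := (((ge_T 3).mono (by norm_num)).smulC _ |>.add (((ge_T 2).mono (by norm_num)).smulC _)).add
    (((ge_T 1).mono (by norm_num)).smulC _)
  leA := (((le_T 3).mono (by norm_num)).smulC _ |>.add (((le_T 2).mono (by norm_num)).smulC _)).add
    (((le_T 1).mono (by norm_num)).smulC _)
  geB := (((ge_T 3).mono (by norm_num)).add (((ge_T 2).mono (by norm_num)).smulC _)).add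
    (((ge_T 1).mono (by norm_num)).smulC _) |>.sub ((ge_T 0).mono (by norm_num))
  leB := (((le_T 3).mono (by norm_num)).add (((le_T 2).mono (by norm_num)).smulC _)).add
    (((le_T 1).mono (by norm_num)).smulC _) |>.sub ((le_T 0).mono (by norm_num))

theorem lmap_famA (f : R →+* R') (c : Fin 6 → R) :
    lmap f (famA c) = famA (fun i => f (c i)) := by
  simp [famA, lmap_C, lmap_T]

theorem lmap_famB (f : R →+* R') (c : Fin 6 → R) :
    lmap f (famB c) = famB (fun i => f (c i)) := by
  simp [famB, lmap_C, lmap_T]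

/-- The Hasse-Witt matrix of the member of the family with parameters `c`. -/
noncomputable def HW (p : ℕ) (c : Fin 6 → R) : Matrix (Fin 3) (Fin 3) R :=
  hw (c 5) (famA c) (famB c) p

/-- The matrix making the Hasse-Witt matrix symmetric. -/
noncomputable def HM (p : ℕ) (c : Fin 6 → R) : Matrix (Fin 3) (Fin 3) R :=
  hm (c 5) (famA c) (famB c) p

theorem HW_map (f : R →+* R') (p : ℕ) (c : Fin 6 → R) :
    (HW p c).map f = HW p (fun i => f (c i)) :=
  hw_map f rfl (lmap_famA f c) (lmap_famB f c) p

theorem HW_even (p : ℕ) (hp : Odd p) (c : Fin 6 → R) :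
    HW p (Function.update c 5 (-c 5)) = HW p c := by
  have hA : famA (Function.update c 5 (-c 5)) = famA c := by
    simp [famA, Function.update]
  have hB : famB (Function.update c 5 (-c 5)) = famB c := by
    simp [famB, Function.update]
  rw [HW, HW, hA, hB, Function.update_self, hw_neg _ _ _ hp]

theorem HM_HW_symm (p : ℕ) [CharP R p] (hp : p ≠ 0) (c : Fin 6 → R) :
    ((HM p c).transpose * HW p c).transpose = (HM p c).transpose * HW p c :=
  hm_hw_symm (hyp_fam c) p hp

end Family

end Pool.Agent.PRank
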