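import Pool.Agent.PRank.Lin2

/-!
Base change of the pairing matrix and its value at the origin.
-/

namespace Pool.Agent.PRank

open LaurentPolynomial Q4

section BaseChange

variable {R R' : Type*} [CommRing R] [CommRing R']
variable {s : R} {A B : LaurentPolynomial R} {s' : R'} {A' B' : LaurentPolynomial R'}

theorem lmap_theta (f : R →+* R') (x : LaurentPolynomial R) :
    lmap f (theta x) = theta (lmap f x) := by
  ext n
  rw [coeff_lmap, coeff_theta, coeff_theta, coeff_lmap, map_mul, map_intCast]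

theorem qmap_E (f : R →+* R') (hs : f s = s') (hA : lmap f A = A')
    (hB : lmap f B = B') (u : QQ s A B) :
    qmap f hs hA hB (E theta u) = E theta (qmap f hs hA hB u) := by
  have h4 : lmap f 4 = 4 := map_ofNat _ 4
  have h2 : lmap f 2 = 2 := map_ofNat _ 2
  subst hs hA hB
  ext1 <;> simp [E, qmap, lmap_theta, lmap_T, lmap_C, h4, h2]

theorem om_qmap (f : R →+* R') (hs : f s = s') (hA : lmap f A = A')
    (hB : lmap f B = B') (u v : QQ s A B) :
    om (qmap f hs hA hB u) (qmap f hs hA hB v) = f (om u v) := by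
  rw [om, ← qmap_E, ← map_mul, om, ← coeff_lmap]
  rfl

theorem posPart_lmap (f : R →+* R') (x : LaurentPolynomial R) :
    posPart (lmap f x) = lmap f (posPart x) := by
  ext n
  rw [coeff_posPart, coeff_lmap, coeff_lmap, coeff_posPart]
  split_ifs <;> simp

theorem alphaPart_qmap (f : R →+* R') (hs : f s = s') (hA : lmap f A = A')
    (hB : lmap f B = B') (u : QQ s A B) :
    alphaPart (qmap f hs hA hB u) = qmap f hs hA hB (alphaPart u) := by
  ext1 <;> simp [alphaPart, qmap, posPart_lmap]

theorem qmap_of (f : R →+* R') (hs : f s = s') (hA : lmap f A = A')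
    (hB : lmap f B = B') (x : LaurentPolynomial R) :
    qmap f hs hA hB (of x) = of (lmap f x) := by
  ext1 <;> simp [qmap]

theorem classPart_qmap (f : R →+* R') (hs : f s = s') (hA : lmap f A = A')
    (hB : lmap f B = B') (u : QQ s A B) :
    classPart (qmap f hs hA hB u) = qmap f hs hA hB (classPart u) := by
  rw [classPart, classPart, map_sum]
  refine Finset.sum_congr rfl fun i _ => ?_
  rw [map_mul, qmap_of, lmap_C, tau_qmap, qmap_bb]

theorem hm_map (f : R →+* R') (hs : f s = s') (hA : lmap f A = A')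
    (hB : lmap f B = B') (p : ℕ) :
    (hm s A B p).map f = hm s' A' B' p := by
  ext i j
  simp only [hm, Matrix.map_apply, Matrix.of_apply]
  rw [← om_qmap f hs hA hB, map_add, map_add, ← alphaPart_qmap, ← classPart_qmap, map_pow,
    qmap_bb, qmap_bb]

theorem HM_map (f : R →+* R') (p : ℕ) (c : Fin 6 → R) :
    (HM p c).map f = HM p (fun i => f (c i)) :=
  hm_map f rfl (lmap_famA f c) (lmap_famB f c) p

end BaseChange

section Zero

variable {R : Type*} [CommRing R]

/-- A coefficient computation for the pairing. -/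
theorem coeff_aux (g : LaurentPolynomial R) (hg : Ge 0 g) (a : R) (n : ℤ) (hn : n < 3) :
    (4 * ((T 3 - 1) * theta g) + C a * ((T 3 - 1) * g) + 2 * (g * theta (T 3 - 1))).coeff n
      = -(4 * (n : R) * g.coeff n) - a * g.coeff n := by
  have h3 : theta (T 3 - 1 : LaurentPolynomial R) = C 3 * T 3 := by
    ext j
    rw [coeff_theta, coeff_C_mul, AddMonoidAlgebra.coeff_sub, Finsupp.sub_apply, T_apply,
      ← T_zero, T_apply]
    by_cases h1 : (3 : ℤ) = j
    · subst h1; simp
    · by_cases h2 : (0 : ℤ) = j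
      · subst h2; simp
      · simp [h1, h2]
  have hg3 : g.coeff (n - 3) = 0 := hg _ (by omega)
  rw [h3, show (4 * ((T 3 - 1) * theta g) + C a * ((T 3 - 1) * g) + 2 * (g * (C 3 * T 3))
      : LaurentPolynomial R) = C 4 * (theta g * T 3) - C 4 * theta g + C a * (g * T 3) - C a * g
        + C 6 * (g * T 3) by
    have e4 : (C (4 : R) : LaurentPolynomial R) = 4 := map_ofNat _ 4
    have e6 : (C (6 : R) : LaurentPolynomial R) = 6 := map_ofNat _ 6
    have e3 : (C (3 : R) : LaurentPolynomial R) = 3 := map_ofNat _ 3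
    rw [e4, e6, e3]; ring]
  simp only [AddMonoidAlgebra.coeff_add, AddMonoidAlgebra.coeff_sub, Finsupp.add_apply,
    Finsupp.sub_apply, coeff_C_mul, coeff_mul_T, coeff_theta, hg3]
  ring

variable (B : LaurentPolynomial R)

theorem om_zero_3 (i : Fin 3) (g : LaurentPolynomial R) :
    om (bb 0 0 B i) (⟨0, 0, 0, g⟩ : QQ (0 : R) 0 B)
      = if i = 0 then -(4 * (B * theta g) + C 3 * (B * g) + 2 * (g * theta B)).coeff 0 else 0 := by
  have e3 : (C (3 : R) : LaurentPolynomial R) = 3 := map_ofNat _ 3
  fin_cases i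
  · have : (bb (0 : R) 0 B 0 * E theta (⟨0, 0, 0, g⟩ : QQ (0 : R) 0 B)).c3
        = T (-1) * T 1 * -(4 * (B * theta g) + C 3 * (B * g) + 2 * (g * theta B)) := by
      rw [e3]
      simp only [bb, E, mul_c3, Matrix.cons_val_zero, map_zero, mul_zero, zero_mul,
        add_zero, zero_add, sub_zero]
      ring
    simp only [Fin.zero_eta, if_true, om, this]
    rw [← T_add, neg_add_cancel, T_zero, one_mul, AddMonoidAlgebra.coeff_neg, Finsupp.neg_apply]
  · simp [om, bb, E, mul_c3]
  · simp [om, bb, E, mul_c3]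

theorem om_zero_2 (i : Fin 3) (g : LaurentPolynomial R) :
    om (bb 0 0 B i) (⟨0, 0, g, 0⟩ : QQ (0 : R) 0 B)
      = if i = 0 then 0 else if i = 1 then
          -(4 * (B * theta g) + C 1 * (B * g) + 2 * (g * theta B)).coeff 0
        else -(4 * (B * theta g) + C 1 * (B * g) + 2 * (g * theta B)).coeff 1 := by
  fin_cases i
  · simp [om, bb, E, mul_c3]
  · have : (bb (0 : R) 0 B 1 * E theta (⟨0, 0, g, 0⟩ : QQ (0 : R) 0 B)).c3
        = T (-1) * T 1 * -(4 * (B * theta g) + C 1 * (B * g) + 2 * (g * theta B)) := by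
      rw [map_one]
      simp only [bb, E, mul_c3, Matrix.cons_val_one, Matrix.cons_val_zero, map_zero,
        mul_zero, zero_mul, add_zero, zero_add, sub_zero]
      ring
    simp only [Fin.mk_one, om, this]
    rw [← T_add, neg_add_cancel, T_zero, one_mul, AddMonoidAlgebra.coeff_neg, Finsupp.neg_apply]
    simp
  · have : (bb (0 : R) 0 B 2 * E theta (⟨0, 0, g, 0⟩ : QQ (0 : R) 0 B)).c3
        = -(4 * (B * theta g) + C 1 * (B * g) + 2 * (g * theta B)) * (T (-2) * T 1) := by
      rw [map_one]
      simp only [bb, E, mul_c3, Matrix.cons_val, map_zero,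
        mul_zero, zero_mul, add_zero, zero_add, sub_zero]
      ring
    simp only [Fin.reduceFinMk, om, this]
    rw [← T_add, coeff_mul_T, AddMonoidAlgebra.coeff_neg, Finsupp.neg_apply]
    simp

end Zero

end Pool.Agent.PRank
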