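import Pool.Agent.PRank.HZero

/-!
The pairing matrix at the origin is monomial and invertible.
-/

namespace Pool.Agent.PRank

set_option linter.unusedSectionVars false
set_option linter.unusedSimpArgs false
set_option linter.unusedVariables false

open LaurentPolynomial Q4

variable {R : Type*} [CommRing R]

/-- Signed binomial coefficients. -/
def sb (R : Type*) [CommRing R] (n i : ℕ) : R := (-1) ^ (n + i) * (n.choose i : R)

theorem of_C_zero {s : R} {A B : LaurentPolynomial R} : (of (C (0 : R)) : QQ s A B) = 0 := by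
  rw [map_zero, map_zero]

theorem famA_zero : famA (0 : Fin 6 → R) = 0 := by simp [famA]

theorem famB_zero : famB (0 : Fin 6 → R) = T 3 - 1 := by simp [famB]

theorem bb0_pow (B : LaurentPolynomial R) (m : ℕ) :
    bb (0 : R) 0 B 0 ^ (4 * m + 3)
      = ⟨0, 0, 0, B ^ (2 * m + 1) * T (m : ℤ) * T (-((4 * m + 3 : ℕ) : ℤ))⟩ := by
  rw [bb_zero_pow, W_pow (by simp) (by simp) (by simp)]
  ext1
  · simp only [of_mul_c0, add_c0, sub_c0, of_c0, Y_mul_W_c0, W_c0, map_zero, mul_zero, zero_mul,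
      sub_zero, add_zero]
  · simp only [of_mul_c1, add_c1, sub_c1, of_c1, Y_mul_W_c1, W_c1, mul_zero, sub_zero, add_zero]
  · simp only [of_mul_c2, add_c2, sub_c2, of_c2, Y_mul_W_c2, W_c2, map_zero, mul_zero, zero_mul,
      sub_zero, add_zero, ne_eq, OfNat.ofNat_ne_zero, not_false_eq_true, zero_pow]
  · simp only [of_mul_c3, add_c3, sub_c3, of_c3, Y_mul_W_c3, W_c3, mul_zero, sub_zero, add_zero,
      mul_one]
    ring

theorem bb1_pow (B : LaurentPolynomial R) (m : ℕ) :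
    bb (0 : R) 0 B 1 ^ (4 * m + 3)
      = ⟨0, 0, B ^ (2 * m + 1) * T ((3 * m + 2 : ℕ) : ℤ) * T (-((4 * m + 3 : ℕ) : ℤ)), 0⟩ := by
  rw [bb_one_pow, YW_pow (by simp) (by simp) (by simp)]
  ext1
  · simp only [of_mul_c0, add_c0, sub_c0, Y_mul_W_c0, W_c0, Y_c0, mul_zero,
      sub_zero, add_zero]
  · simp only [of_mul_c1, add_c1, sub_c1, Y_mul_W_c1, W_c1, Y_c1, map_zero, mul_zero, zero_mul,
      sub_zero, add_zero]
  · simp only [of_mul_c2, add_c2, sub_c2, Y_mul_W_c2, W_c2, Y_c2, mul_zero,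
      sub_zero, add_zero, mul_one]
    ring
  · simp only [of_mul_c3, add_c3, sub_c3, Y_mul_W_c3, W_c3, Y_c3, map_zero, mul_zero, zero_mul,
      sub_zero, add_zero, ne_eq, OfNat.ofNat_ne_zero, not_false_eq_true, zero_pow]

theorem bb2_pow (B : LaurentPolynomial R) (m : ℕ) :
    bb (0 : R) 0 B 2 ^ (4 * m + 3)
      = ⟨0, 0, B ^ (2 * m + 1) * T ((3 * m + 2 : ℕ) : ℤ) * T (-(2 * (4 * m + 3 : ℕ) : ℤ)), 0⟩ := by
  rw [bb_two_pow, YW_pow (by simp) (by simp) (by simp)]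
  ext1
  · simp only [of_mul_c0, add_c0, sub_c0, Y_mul_W_c0, W_c0, Y_c0, mul_zero,
      sub_zero, add_zero]
  · simp only [of_mul_c1, add_c1, sub_c1, Y_mul_W_c1, W_c1, Y_c1, map_zero, mul_zero, zero_mul,
      sub_zero, add_zero]
  · simp only [of_mul_c2, add_c2, sub_c2, Y_mul_W_c2, W_c2, Y_c2, mul_zero,
      sub_zero, add_zero, mul_one]
    ring
  · simp only [of_mul_c3, add_c3, sub_c3, Y_mul_W_c3, W_c3, Y_c3, map_zero, mul_zero, zero_mul,
      sub_zero, add_zero, ne_eq, OfNat.ofNat_ne_zero, not_false_eq_true, zero_pow]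

theorem HW_zero' {m : ℕ} (hm : m % 3 ≠ 0) (i j : Fin 3) :
    tau i (bb (0 : R) 0 (T 3 - 1) j ^ (4 * m + 3)) = 0 := by
  have h := congrFun (congrFun (HW_zero (R := R) hm) i) j
  rw [HW, famA_zero, famB_zero] at h
  exact h

theorem HM_zero_apply {m : ℕ} (hm : m % 3 ≠ 0) (i k : Fin 3) :
    HM (4 * m + 3) (0 : Fin 6 → R) i k
      = 2 * om (bb (0 : R) 0 (T 3 - 1) i)
          (alphaPart (bb (0 : R) 0 (T 3 - 1) k ^ (4 * m + 3))) := by
  rw [HM, famA_zero, famB_zero]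
  change om (bb (0 : R) 0 (T 3 - 1) i) ((alphaPart (bb (0 : R) 0 (T 3 - 1) k ^ (4 * m + 3))
    + alphaPart (bb (0 : R) 0 (T 3 - 1) k ^ (4 * m + 3)))
    + classPart (bb (0 : R) 0 (T 3 - 1) k ^ (4 * m + 3))) = _
  have h : classPart (bb (0 : R) 0 (T 3 - 1) k ^ (4 * m + 3)) = 0 := by
    rw [classPart]
    refine Finset.sum_eq_zero fun l _ => ?_
    rw [HW_zero' hm, of_C_zero, zero_mul]
  rw [h, add_zero, om_add_right, two_mul]

theorem posPart_zero : posPart (0 : LaurentPolynomial R) = 0 := by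
  ext n
  rw [coeff_posPart]; simp

/-- Column zero at the origin. -/
theorem HM_zero_col0 {m : ℕ} (hm : m % 3 ≠ 0) (i : Fin 3) :
    HM (4 * m + 3) (0 : Fin 6 → R) i 0
      = if i = 0 then 6 * sb R (2 * m + 1) (m + 1)
        else 0 := by
  rw [HM_zero_apply hm, bb0_pow, alphaPart, posPart_zero, om_zero_3]
  split_ifs with h
  · rw [coeff_aux _ (ge_posPart _) _ _ (by norm_num), coeff_posPart, if_pos le_rfl, coeff_mul_T,
      coeff_mul_T, coeff_B0_three (2 * m + 1) (m + 1) (by push_cast; ring), sb]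
    push_cast
    ring
  · rw [mul_zero]

/-- Columns one and two at the origin. -/
theorem HM_zero_aux {m : ℕ} (i : Fin 3) (N : ℤ) :
    2 * om (bb (0 : R) 0 (T 3 - 1) i) (⟨0, 0, posPart ((T 3 - 1) ^ (2 * m + 1)
        * T ((3 * m + 2 : ℕ) : ℤ) * T (-N)), 0⟩ : QQ (0 : R) 0 (T 3 - 1))
      = if i = 0 then 0 else if i = 1 then
          2 * ((T 3 - 1 : LaurentPolynomial R) ^ (2 * m + 1)).coeff (N - (3 * m + 2))
        else 10 * ((T 3 - 1 : LaurentPolynomial R) ^ (2 * m + 1)).coeff (N - (3 * m + 2) + 1) := by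
  rw [om_zero_2]
  split_ifs with h1 h2
  · rw [mul_zero]
  · rw [coeff_aux _ (ge_posPart _) _ _ (by norm_num), coeff_posPart, if_pos le_rfl, coeff_mul_T,
      coeff_mul_T]
    have : (0 : ℤ) - -N - ((3 * m + 2 : ℕ) : ℤ) = N - (3 * m + 2) := by push_cast; ring
    rw [this]
    push_cast
    ring
  · rw [coeff_aux _ (ge_posPart _) _ _ (by norm_num), coeff_posPart, if_pos zero_le_one,
      coeff_mul_T, coeff_mul_T]
    have : (1 : ℤ) - -N - ((3 * m + 2 : ℕ) : ℤ) = N - (3 * m + 2) + 1 := by push_cast; ring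
    rw [this]
    push_cast
    ring

theorem HM_zero_col1 {m : ℕ} (hm : m % 3 ≠ 0) (i : Fin 3) :
    HM (4 * m + 3) (0 : Fin 6 → R) i 1
      = if i = 0 then 0 else if i = 1 then
          2 * ((T 3 - 1 : LaurentPolynomial R) ^ (2 * m + 1)).coeff (m + 1)
        else 10 * ((T 3 - 1 : LaurentPolynomial R) ^ (2 * m + 1)).coeff (m + 2) := by
  rw [HM_zero_apply hm, bb1_pow, alphaPart, posPart_zero, HM_zero_aux]
  have e1 : ((4 * m + 3 : ℕ) : ℤ) - (3 * m + 2) = m + 1 := by push_cast; ring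
  rw [e1, show (m : ℤ) + 1 + 1 = m + 2 by ring]

theorem HM_zero_col2 {m : ℕ} (hm : m % 3 ≠ 0) (i : Fin 3) :
    HM (4 * m + 3) (0 : Fin 6 → R) i 2
      = if i = 0 then 0 else if i = 1 then
          2 * ((T 3 - 1 : LaurentPolynomial R) ^ (2 * m + 1)).coeff (5 * m + 4)
        else 10 * ((T 3 - 1 : LaurentPolynomial R) ^ (2 * m + 1)).coeff (5 * m + 5) := by
  rw [HM_zero_apply hm, bb2_pow, alphaPart, posPart_zero, HM_zero_aux]
  have e1 : (2 * ((4 * m + 3 : ℕ) : ℤ)) - (3 * m + 2) = 5 * m + 4 := by push_cast; ring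
  rw [e1, show 5 * (m : ℤ) + 4 + 1 = 5 * m + 5 by ring]

/-- Shape of the matrix at the origin when `m = 3 q + 1`. -/
theorem HM_zero_one (q : ℕ) {m : ℕ} (hm : m = 3 * q + 1) :
    HM (4 * m + 3) (0 : Fin 6 → R) =
      !![6 * sb R (2 * m + 1) (m + 1), 0, 0;
        0, 0, 2 * sb R (2 * m + 1) (5 * q + 3);
        0, 10 * sb R (2 * m + 1) (q + 1), 0] := by
  have hm3 : m % 3 ≠ 0 := by omega
  have e1 : ((T 3 - 1 : LaurentPolynomial R) ^ (2 * m + 1)).coeff (m + 1) = 0 :=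
    coeff_B0_other _ (by omega)
  have e2 := coeff_B0_three (R := R) (2 * m + 1) (q + 1) (j := m + 2) (by subst hm; push_cast; ring)
  have e3 := coeff_B0_three (R := R) (2 * m + 1) (5 * q + 3) (j := 5 * m + 4)
    (by subst hm; push_cast; ring)
  have e4 : ((T 3 - 1 : LaurentPolynomial R) ^ (2 * m + 1)).coeff (5 * m + 5) = 0 :=
    coeff_B0_other _ (by omega)
  ext i j
  fin_cases j
  · rw [show (⟨0, by decide⟩ : Fin 3) = 0 from rfl, HM_zero_col0 hm3]
    fin_cases i <;> simp [sb]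
  · rw [show (⟨1, by decide⟩ : Fin 3) = 1 from rfl, HM_zero_col1 hm3, e1, e2]
    fin_cases i <;> simp [sb]
  · rw [show (⟨2, by decide⟩ : Fin 3) = 2 from rfl, HM_zero_col2 hm3, e3, e4]
    fin_cases i <;> simp [sb]

/-- Shape of the matrix at the origin when `m = 3 q + 2`. -/
theorem HM_zero_two (q : ℕ) {m : ℕ} (hm : m = 3 * q + 2) :
    HM (4 * m + 3) (0 : Fin 6 → R) =
      !![6 * sb R (2 * m + 1) (m + 1), 0, 0;
        0, 2 * sb R (2 * m + 1) (q + 1), 0;
        0, 0, 10 * sb R (2 * m + 1) (5 * q + 5)] := by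
  have hm3 : m % 3 ≠ 0 := by omega
  have e1 := coeff_B0_three (R := R) (2 * m + 1) (q + 1) (j := m + 1) (by subst hm; push_cast; ring)
  have e2 : ((T 3 - 1 : LaurentPolynomial R) ^ (2 * m + 1)).coeff (m + 2) = 0 :=
    coeff_B0_other _ (by omega)
  have e3 : ((T 3 - 1 : LaurentPolynomial R) ^ (2 * m + 1)).coeff (5 * m + 4) = 0 :=
    coeff_B0_other _ (by omega)
  have e4 := coeff_B0_three (R := R) (2 * m + 1) (5 * q + 5) (j := 5 * m + 5)
    (by subst hm; push_cast; ring)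
  ext i j
  fin_cases j
  · rw [show (⟨0, by decide⟩ : Fin 3) = 0 from rfl, HM_zero_col0 hm3]
    fin_cases i <;> simp [sb]
  · rw [show (⟨1, by decide⟩ : Fin 3) = 1 from rfl, HM_zero_col1 hm3, e1, e2]
    fin_cases i <;> simp [sb]
  · rw [show (⟨2, by decide⟩ : Fin 3) = 2 from rfl, HM_zero_col2 hm3, e3, e4]
    fin_cases i <;> simp [sb]

end Pool.Agent.PRank
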