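import Mathlib

/-!
Irreducibility of the Hermitian form `x₀^(p+1) + x₁^(p+1) + x₂^(p+1)` and the resulting
density principle for polynomial functions on the Hermitian cone times an affine plane.
-/

namespace Pool.Agent.PRank

open MvPolynomial

section Irr

variable (k : Type*) [Field k] (p : ℕ)

/-- The Hermitian form in the first three of five variables. -/
noncomputable def hPoly : MvPolynomial (Fin 5) k :=
  X 0 ^ (p + 1) + X 1 ^ (p + 1) + X 2 ^ (p + 1)

/-- The substitution `x₀ ↦ ζ x₁`. -/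
noncomputable def subZeta (ζ : k) : MvPolynomial (Fin 4) k →ₐ[k] MvPolynomial (Fin 4) k :=
  aeval (Function.update X 0 (C ζ * X 1))

theorem hPoly_irreducible [IsAlgClosed k] [Fact p.Prime] [CharP k p] :
    Irreducible (hPoly k p) := by
  obtain ⟨ζ, hζ⟩ := IsAlgClosed.exists_pow_nat_eq (-1 : k) (Nat.succ_pos p)
  have hζ' : ζ ^ (p + 1) = -1 := hζ
  have hζ0 : ζ ≠ 0 := by
    rintro rfl
    simp at hζ'
  rw [← MulEquiv.irreducible_iff (finSuccEquiv k 4).toMulEquiv]
  set c : MvPolynomial (Fin 4) k := X 0 ^ (p + 1) + X 1 ^ (p + 1) with hc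
  have himg : (finSuccEquiv k 4).toMulEquiv (hPoly k p)
      = Polynomial.X ^ (p + 1) + Polynomial.C c := by
    have h1 : (1 : Fin 5) = Fin.succ 0 := rfl
    have h2 : (2 : Fin 5) = Fin.succ 1 := rfl
    change finSuccEquiv k 4 (hPoly k p) = _
    simp only [hPoly, map_add, map_pow]
    rw [finSuccEquiv_X_zero, h1, h2, finSuccEquiv_X_succ, finSuccEquiv_X_succ, hc, map_add,
      map_pow, map_pow, add_assoc]
  rw [himg]
  set P : Ideal (MvPolynomial (Fin 4) k) := RingHom.ker (subZeta k ζ).toRingHom with hP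
  have hPp : P.IsPrime := RingHom.ker_isPrime _
  have hmem : ∀ f, f ∈ P ↔ subZeta k ζ f = 0 := fun f => by
    rw [hP, RingHom.mem_ker]; rfl
  have hcP : c ∈ P := by
    rw [hmem, hc]
    simp only [subZeta, map_add, map_pow, aeval_X, Function.update_self]
    rw [Function.update_of_ne (by decide), mul_pow, ← map_pow, hζ']
    simp
  have hdeg : (Polynomial.X ^ (p + 1) + Polynomial.C c).natDegree = p + 1 := by
    rw [Polynomial.natDegree_add_C, Polynomial.natDegree_X_pow]
  have hmonic : (Polynomial.X ^ (p + 1) + Polynomial.C c : Polynomial _).Monic :=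
    Polynomial.monic_X_pow_add_C c (Nat.succ_ne_zero p)
  have hder : ∀ f ∈ P ^ 2, pderiv 0 f ∈ P := by
    intro f hf
    rw [pow_two] at hf
    refine Submodule.mul_induction_on hf ?_ ?_
    · intro a ha b hb
      rw [Derivation.leibniz]
      exact P.add_mem (P.mul_mem_right _ ha) (P.mul_mem_right _ hb)
    · intro a b ha hb
      rw [map_add]
      exact P.add_mem ha hb
  refine Polynomial.irreducible_of_eisenstein_criterion hPp ?_ ?_ ?_ ?_ hmonic.isPrimitive
  · rw [hmonic.leadingCoeff]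
    exact fun h => hPp.ne_top ((Ideal.eq_top_iff_one _).2 h)
  · intro n hn
    rw [Polynomial.degree_eq_natDegree hmonic.ne_zero, hdeg] at hn
    have hn' : n < p + 1 := by exact_mod_cast hn
    rw [Polynomial.coeff_add, Polynomial.coeff_X_pow, if_neg (by omega), Polynomial.coeff_C]
    split_ifs
    · simpa using hcP
    · simp
  · rw [Polynomial.degree_eq_natDegree hmonic.ne_zero, hdeg]
    exact_mod_cast Nat.succ_pos p
  · rw [Polynomial.coeff_add, Polynomial.coeff_X_pow, if_neg (by omega), Polynomial.coeff_C,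
      if_pos rfl, zero_add]
    intro h
    have h2 := hder _ h
    rw [hmem, hc, map_add, Derivation.leibniz_pow, Derivation.leibniz_pow, pderiv_X_self,
      pderiv_X_of_ne (by decide)] at h2
    simp only [Nat.add_sub_cancel, smul_eq_mul, mul_one, mul_zero, smul_zero, add_zero] at h2
    rw [nsmul_eq_mul] at h2
    have hp1 : ((p + 1 : ℕ) : MvPolynomial (Fin 4) k) = 1 := by
      push_cast
      rw [CharP.cast_eq_zero, zero_add]
    rw [hp1, one_mul, map_pow] at h2
    have h3 := pow_eq_zero_iff (Fact.out : p.Prime).ne_zero |>.1 h2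
    simp only [subZeta, aeval_X, Function.update_self] at h3
    rcases mul_eq_zero.1 h3 with h4 | h4
    · exact hζ0 (by simpa using h4)
    · exact X_ne_zero _ h4

theorem hPoly_prime [IsAlgClosed k] [Fact p.Prime] [CharP k p] : Prime (hPoly k p) :=
  (hPoly_irreducible k p).prime

end Irr

section Dens

variable {k : Type*} [Field k]

/-- Polynomial functions of five variables. -/
def PolyFun (F : (Fin 5 → k) → k) : Prop := ∃ P : MvPolynomial (Fin 5) k, ∀ v, eval v P = F v

theorem PolyFun.const (c : k) : PolyFun (fun _ : Fin 5 → k => c) := ⟨C c, fun v => by simp⟩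

theorem PolyFun.proj (i : Fin 5) : PolyFun (fun v : Fin 5 → k => v i) := ⟨X i, fun v => by simp⟩

theorem PolyFun.add {F G : (Fin 5 → k) → k} (hF : PolyFun F) (hG : PolyFun G) :
    PolyFun (fun v => F v + G v) := by
  obtain ⟨P, hP⟩ := hF
  obtain ⟨Q, hQ⟩ := hG
  exact ⟨P + Q, fun v => by simp [hP, hQ]⟩

theorem PolyFun.mul {F G : (Fin 5 → k) → k} (hF : PolyFun F) (hG : PolyFun G) :
    PolyFun (fun v => F v * G v) := by
  obtain ⟨P, hP⟩ := hF
  obtain ⟨Q, hQ⟩ := hG
  exact ⟨P * Q, fun v => by simp [hP, hQ]⟩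

theorem PolyFun.sub {F G : (Fin 5 → k) → k} (hF : PolyFun F) (hG : PolyFun G) :
    PolyFun (fun v => F v - G v) := by
  obtain ⟨P, hP⟩ := hF
  obtain ⟨Q, hQ⟩ := hG
  exact ⟨P - Q, fun v => by simp [hP, hQ]⟩

theorem PolyFun.neg {F : (Fin 5 → k) → k} (hF : PolyFun F) :
    PolyFun (fun v => -F v) := by
  obtain ⟨P, hP⟩ := hF
  exact ⟨-P, fun v => by simp [hP]⟩

theorem PolyFun.pow {F : (Fin 5 → k) → k} (hF : PolyFun F) (n : ℕ) :
    PolyFun (fun v => F v ^ n) := by
  obtain ⟨P, hP⟩ := hF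
  exact ⟨P ^ n, fun v => by simp [hP]⟩

/-- Composition of a polynomial with polynomial functions. -/
theorem PolyFun.comp {σ : Type*} (G : MvPolynomial σ k) {θ : σ → (Fin 5 → k) → k}
    (hθ : ∀ i, PolyFun (θ i)) : PolyFun (fun v => eval (fun i => θ i v) G) := by
  choose P hP using hθ
  refine ⟨bind₁ P G, fun v => ?_⟩
  have h1 : ∀ Q : MvPolynomial (Fin 5) k, eval v Q = aeval v Q := fun Q => by
    rw [MvPolynomial.aeval_eq_eval]
  rw [h1, aeval_bind₁]
  simp only [← h1, hP]
  rw [MvPolynomial.aeval_eq_eval]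

/-- The Hermitian cone times an affine plane. -/
def H5 (p : ℕ) (v : Fin 5 → k) : Prop := v 0 ^ (p + 1) + v 1 ^ (p + 1) + v 2 ^ (p + 1) = 0

/-- Density principle: the Hermitian cone times an affine plane is irreducible. -/
theorem dens [IsAlgClosed k] {p : ℕ} [Fact p.Prime] [CharP k p] {F G : (Fin 5 → k) → k}
    (hF : PolyFun F) (hG : PolyFun G)
    (hFG : ∀ v, H5 p v → F v * G v = 0) (hne : ∃ v, H5 p v ∧ F v ≠ 0) :
    ∀ v, H5 p v → G v = 0 := by
  obtain ⟨P, hP⟩ := hF
  obtain ⟨Q, hQ⟩ := hG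
  have hprime : (Ideal.span {hPoly k p}).IsPrime :=
    (Ideal.span_singleton_prime (hPoly_prime k p).ne_zero).2 (hPoly_prime k p)
  have hzl : ∀ v : Fin 5 → k, v ∈ zeroLocus k (Ideal.span {hPoly k p}) ↔ H5 p v := by
    intro v
    rw [zeroLocus_span]
    simp [hPoly, H5]
  have hmem : ∀ f : MvPolynomial (Fin 5) k,
      f ∈ Ideal.span {hPoly k p} ↔ ∀ v, H5 p v → eval v f = 0 := by
    intro f
    rw [← IsPrime.vanishingIdeal_zeroLocus (K := k) (Ideal.span {hPoly k p}),
      mem_vanishingIdeal_iff]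
    simp only [hzl, MvPolynomial.aeval_eq_eval]
  have h1 : P * Q ∈ Ideal.span {hPoly k p} := by
    rw [hmem]
    intro v hv
    rw [map_mul, hP, hQ]
    exact hFG v hv
  rcases hprime.mem_or_mem h1 with h | h
  · obtain ⟨v, hv, hv'⟩ := hne
    rw [hmem] at h
    exact absurd ((hP v).symm.trans (h v hv)) hv'
  · rw [hmem] at h
    intro v hv
    rw [← hQ]
    exact h v hv

end Dens

end Pool.Agent.PRank
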