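import Pool.Agent.PRank.NotOne3

/-!
The ideal `K` contains a power of every variable but not `1`; socle monomials.
-/

namespace Pool.Agent.PRank

set_option linter.unusedSectionVars false

open MvPolynomial Finset

variable {k : Type*} [Field k]

section

variable {p r : ℕ} [Fact p.Prime] [CharP k p] [IsAlgClosed k]

theorem cyc_rad {f : MvPolynomial (Fin 6) k} (hf : f ∈ (KIdeal k p r).radical) :
    cycT f ∈ (KIdeal k p r).radical := by
  obtain ⟨n, hn⟩ := hf
  exact ⟨n, by rw [← map_pow]; exact KIdeal_cyc hn⟩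

theorem X_mem_radical (hr : p = 2 * r + 1) (j : Fin 6) :
    (X j : MvPolynomial (Fin 6) k) ∈ (KIdeal k p r).radical := by
  have hodd : Odd p := ⟨r, hr⟩
  have h2 : (2 : k) ≠ 0 := two_ne hr
  have hp0 : p ≠ 0 := (Fact.out : p.Prime).ne_zero
  have h0 : (X 0 : MvPolynomial (Fin 6) k) ∈ (KIdeal k p r).radical := X0_pow_mem hr
  have h3 : (X 3 : MvPolynomial (Fin 6) k) ∈ (KIdeal k p r).radical := by
    have := cyc_rad h0
    rwa [cycT, aeval_X] at this
  have h5 : (X 5 : MvPolynomial (Fin 6) k) ∈ (KIdeal k p r).radical := by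
    have := cyc_rad h3
    rwa [cycT, aeval_X] at this
  obtain ⟨c, hc⟩ := IsAlgClosed.exists_pow_nat_eq (2 : k) (Nat.succ_pos p)
  obtain ⟨s, hs⟩ := IsAlgClosed.exists_pow_nat_eq (-1 : k) (Nat.succ_pos p)
  have hc' : c ^ (p + 1) = 2 := hc
  have hs' : s ^ (p + 1) = -1 := hs
  have hc0 : c ≠ 0 := by
    rintro rfl
    rw [zero_pow (by omega)] at hc'
    exact h2 hc'.symm
  have hs0 : s ≠ 0 := by
    rintro rfl
    rw [zero_pow (by omega)] at hs'
    exact one_ne_zero (neg_eq_zero.1 hs'.symm)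
  have hcq : c ^ (p ^ 2) = c := by
    have e : c ^ (p ^ 2) * c ^ p = (c ^ (p + 1)) ^ p := by ring
    rw [hc', two_pow_p, ← hc', pow_succ' c p] at e
    exact mul_right_cancel₀ (pow_ne_zero p hc0) e
  have hsq : s ^ (p ^ 2) = s := by
    have e : s ^ (p ^ 2) * s ^ p = (s ^ (p + 1)) ^ p := by ring
    rw [hs', hodd.neg_one_pow, ← hs', pow_succ' s p] at e
    exact mul_right_cancel₀ (pow_ne_zero p hs0) e
  have hrot : rotT p c s (X 0) ∈ (KIdeal k p r).radical := by
    obtain ⟨n, hn⟩ := h0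
    exact ⟨n, by rw [← map_pow]; exact KIdeal_rot hcq hsq (by rw [hc', hs']; norm_num) hn⟩
  have h1 : (X 1 : MvPolynomial (Fin 6) k) ∈ (KIdeal k p r).radical := by
    rw [rotT, aeval_X] at hrot
    have e1 : (X 1 : MvPolynomial (Fin 6) k) = C ((2 * c * s)⁻¹) *
        ((C (c ^ 2) * X 0 + C (2 * c * s) * X 1 + C (s ^ 2) * X 3)
          - C (c ^ 2) * X 0 - C (s ^ 2) * X 3) := by
      have h4 : (C ((2 * c * s)⁻¹) : MvPolynomial (Fin 6) k) * C (2 * c * s) = 1 := by
        rw [← C_mul, inv_mul_cancel₀ (mul_ne_zero (mul_ne_zero h2 hc0) hs0), C_1]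
      linear_combination (-(X 1 : MvPolynomial (Fin 6) k)) * h4
    rw [e1]
    refine Ideal.mul_mem_left _ _ (Ideal.sub_mem _ (Ideal.sub_mem _ hrot ?_) ?_)
    · exact Ideal.mul_mem_left _ _ h0
    · exact Ideal.mul_mem_left _ _ h3
  have h4 : (X 4 : MvPolynomial (Fin 6) k) ∈ (KIdeal k p r).radical := by
    have := cyc_rad h1
    rwa [cycT, aeval_X] at this
  have h2' : (X 2 : MvPolynomial (Fin 6) k) ∈ (KIdeal k p r).radical := by
    have := cyc_rad h4
    rwa [cycT, aeval_X] at this
  fin_cases j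
  · exact h0
  · exact h1
  · exact h2'
  · exact h3
  · exact h4
  · exact h5

theorem one_notMem (hr : p = 2 * r + 1) : (1 : MvPolynomial (Fin 6) k) ∉ KIdeal k p r := by
  intro h
  obtain ⟨G, hG⟩ := mem_KIdeal.1 h 0
  refine eta_not_poly (k := k) hr ⟨G, fun m δ x y h1 h2 h3 => ?_⟩
  rw [hG m δ x y h1 h2 h3, map_one, one_mul]

/-- A monomial outside an ideal containing powers of all variables, all of whose multiples by
variables are in the ideal. -/
theorem exists_socle_monomial {K : Ideal (MvPolynomial (Fin 6) k)} (h1 : 1 ∉ K)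
    (hX : ∀ j, (X j : MvPolynomial (Fin 6) k) ∈ K.radical) :
    ∃ d : Fin 6 →₀ ℕ, monomial d (1 : k) ∉ K ∧ ∀ j, monomial d (1 : k) * X j ∈ K := by
  by_contra hcon
  push Not at hcon
  choose N hN using hX
  -- monomials of every degree outside `K`
  have hall : ∀ n : ℕ, ∃ d : Fin 6 →₀ ℕ, ∑ i, d i = n ∧ monomial d (1 : k) ∉ K := by
    intro n
    induction n with
    | zero => exact ⟨0, by simp, by simpa using h1⟩
    | succ n ih =>
      obtain ⟨d, hd, hdK⟩ := ih
      obtain ⟨j, hj⟩ := hcon d hdK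
      refine ⟨d + Finsupp.single j 1, ?_, ?_⟩
      · simp only [Finsupp.add_apply, Finset.sum_add_distrib, hd]
        rw [add_right_inj, Finset.sum_eq_single j]
        · simp
        · intro b _ hb
          simp [hb.symm]
        · intro h
          exact absurd (Finset.mem_univ j) h
      · have : monomial (d + Finsupp.single j 1) (1 : k) = monomial d 1 * X j := by
          rw [X, monomial_mul, mul_one]
        rw [this]
        exact hj
  obtain ⟨d, hd, hdK⟩ := hall (∑ i, N i)
  apply hdK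
  obtain ⟨j, hj⟩ : ∃ j, N j ≤ d j := by
    by_contra hcon2
    push Not at hcon2
    have : ∑ i, d i < ∑ i, N i := Finset.sum_lt_sum_of_nonempty ⟨0, Finset.mem_univ _⟩
      fun i _ => hcon2 i
    omega
  have e : monomial d (1 : k) = monomial (d - Finsupp.single j (N j)) 1 * X j ^ N j := by
    rw [X_pow_eq_monomial, monomial_mul, mul_one]
    have hle : Finsupp.single j (N j) ≤ d := by
      rw [Finsupp.single_le_iff]
      exact hj
    rw [tsub_add_cancel_of_le hle]
  rw [e]
  exact K.mul_mem_left _ (hN j)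

/-- The socle monomial together with the polynomials representing its multiples. -/
theorem exists_socle (hr : p = 2 * r + 1) :
    ∃ (e : ℕ) (M : MvPolynomial (Fin 6) k) (i : Fin 3), M.IsHomogeneous e ∧
      (¬ ∃ G : MvPolynomial (Fin 6) k, ∀ (m : Fin 3 → k) (δ x y : k), Herm p m → m ≠ 0 →
        IsDelta p m δ → eval (th p m x y) G = eval (th p m x y) M * eta p r i m δ x y) ∧
      ∀ j : Fin 6, ∃ G : MvPolynomial (Fin 6) k,
        G.IsHomogeneous (e + 1 + (p + (r * p + r))) ∧
        ∀ (m : Fin 3 → k) (δ x y : k), Herm p m → m ≠ 0 → IsDelta p m δ →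
          eval (th p m x y) G = th p m x y j * (eval (th p m x y) M * eta p r i m δ x y) := by
  obtain ⟨d, hd, hdX⟩ := exists_socle_monomial (K := KIdeal k p r) (one_notMem hr)
    (X_mem_radical hr)
  have h1 : ∃ i : Fin 3, ¬ ∃ G : MvPolynomial (Fin 6) k, ∀ (m : Fin 3 → k) (δ x y : k),
      Herm p m → m ≠ 0 → IsDelta p m δ →
      eval (th p m x y) G = eval (th p m x y) (monomial d 1) * eta p r i m δ x y := by
    by_contra hcon
    push Not at hcon
    exact hd (mem_KIdeal.2 hcon)
  obtain ⟨i, hi⟩ := h1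
  have hhom : (monomial d (1 : k)).IsHomogeneous d.degree := isHomogeneous_monomial 1 rfl
  refine ⟨d.degree, monomial d 1, i, hhom, hi, fun j => ?_⟩
  obtain ⟨G, hG⟩ := mem_KIdeal.1 (hdX j) i
  have hhom2 : (monomial d (1 : k) * X j).IsHomogeneous (d.degree + 1) :=
    hhom.mul (isHomogeneous_X k j)
  refine ⟨homogeneousComponent (d.degree + 1 + (p + (r * p + r))) G,
    homogeneousComponent_isHomogeneous _ _, fun m δ x y h1 h2 h3 => ?_⟩
  rw [homog_rep hhom2 hG m δ x y h1 h2 h3, map_mul, eval_X]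
  ring

end

end Pool.Agent.PRank
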