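import Pool.Agent.PRank.Q4Der

/-!
Laurent polynomials: exponent bounds, the derivation `T d/dT`.
-/

namespace Pool.Agent.PRank

open LaurentPolynomial

variable {R : Type*} [CommRing R]

/-- All exponents are at least `m`. -/
def Ge (m : ℤ) (f : LaurentPolynomial R) : Prop := ∀ n, n < m → f.coeff n = 0

/-- All exponents are at most `m`. -/
def Le (m : ℤ) (f : LaurentPolynomial R) : Prop := ∀ n, m < n → f.coeff n = 0

theorem Ge.mul {a b : ℤ} {f g : LaurentPolynomial R} (hf : Ge a f) (hg : Ge b g) :
    Ge (a + b) (f * g) := by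
  classical
  intro n hn
  rw [AddMonoidAlgebra.coeff_mul]
  refine Finset.sum_eq_zero fun i hi => Finset.sum_eq_zero fun j hj => ?_
  dsimp only
  rw [if_neg]
  intro hij
  have h1 : a ≤ i := by
    by_contra h
    exact (Finsupp.mem_support_iff.1 hi) (hf i (not_le.1 h))
  have h2 : b ≤ j := by
    by_contra h
    exact (Finsupp.mem_support_iff.1 hj) (hg j (not_le.1 h))
  omega

theorem Le.mul {a b : ℤ} {f g : LaurentPolynomial R} (hf : Le a f) (hg : Le b g) :
    Le (a + b) (f * g) := by
  classical
  intro n hn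
  rw [AddMonoidAlgebra.coeff_mul]
  refine Finset.sum_eq_zero fun i hi => Finset.sum_eq_zero fun j hj => ?_
  dsimp only
  rw [if_neg]
  intro hij
  have h1 : i ≤ a := by
    by_contra h
    exact (Finsupp.mem_support_iff.1 hi) (hf i (not_le.1 h))
  have h2 : j ≤ b := by
    by_contra h
    exact (Finsupp.mem_support_iff.1 hj) (hg j (not_le.1 h))
  omega

theorem Ge.mono {a b : ℤ} {f : LaurentPolynomial R} (hf : Ge a f) (h : b ≤ a) : Ge b f :=
  fun n hn => hf n (lt_of_lt_of_le hn h)

theorem Le.mono {a b : ℤ} {f : LaurentPolynomial R} (hf : Le a f) (h : a ≤ b) : Le b f :=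
  fun n hn => hf n (lt_of_le_of_lt h hn)

theorem Ge.add {a : ℤ} {f g : LaurentPolynomial R} (hf : Ge a f) (hg : Ge a g) :
    Ge a (f + g) := by
  intro n hn
  rw [AddMonoidAlgebra.coeff_add, Finsupp.add_apply, hf n hn, hg n hn, add_zero]

theorem Le.add {a : ℤ} {f g : LaurentPolynomial R} (hf : Le a f) (hg : Le a g) :
    Le a (f + g) := by
  intro n hn
  rw [AddMonoidAlgebra.coeff_add, Finsupp.add_apply, hf n hn, hg n hn, add_zero]

theorem Ge.neg {a : ℤ} {f : LaurentPolynomial R} (hf : Ge a f) : Ge a (-f) := by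
  intro n hn
  rw [AddMonoidAlgebra.coeff_neg, Finsupp.neg_apply, hf n hn, neg_zero]

theorem Le.neg {a : ℤ} {f : LaurentPolynomial R} (hf : Le a f) : Le a (-f) := by
  intro n hn
  rw [AddMonoidAlgebra.coeff_neg, Finsupp.neg_apply, hf n hn, neg_zero]

theorem Ge.sub {a : ℤ} {f g : LaurentPolynomial R} (hf : Ge a f) (hg : Ge a g) :
    Ge a (f - g) := by
  rw [sub_eq_add_neg]; exact hf.add hg.neg

theorem Le.sub {a : ℤ} {f g : LaurentPolynomial R} (hf : Le a f) (hg : Le a g) :
    Le a (f - g) := by
  rw [sub_eq_add_neg]; exact hf.add hg.neg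

theorem ge_zero (a : ℤ) : Ge a (0 : LaurentPolynomial R) := fun _ _ => rfl
theorem le_zero (a : ℤ) : Le a (0 : LaurentPolynomial R) := fun _ _ => rfl

theorem ge_T (n : ℤ) : Ge n (T n : LaurentPolynomial R) := by
  intro m hm
  rw [T_apply, if_neg (by omega)]

theorem le_T (n : ℤ) : Le n (T n : LaurentPolynomial R) := by
  intro m hm
  rw [T_apply, if_neg (by omega)]

theorem ge_C (r : R) : Ge 0 (C r : LaurentPolynomial R) := by
  intro m hm
  rw [C_apply, if_neg (by omega)]

theorem le_C (r : R) : Le 0 (C r : LaurentPolynomial R) := by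
  intro m hm
  rw [C_apply, if_neg (by omega)]

theorem coeff_C_mul (r : R) (f : LaurentPolynomial R) (n : ℤ) :
    (C r * f).coeff n = r * f.coeff n := by
  rw [← smul_eq_C_mul, AddMonoidAlgebra.coeff_smul_apply, smul_eq_mul]

theorem coeff_C_mul_T (r : R) (m n : ℤ) :
    (C r * T m : LaurentPolynomial R).coeff n = if m = n then r else 0 := by
  rw [coeff_C_mul, T_apply]; split_ifs <;> simp

theorem Ge.smulC {a : ℤ} {f : LaurentPolynomial R} (hf : Ge a f) (r : R) : Ge a (C r * f) := by
  intro n hn
  rw [coeff_C_mul, hf n hn, mul_zero]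

theorem Le.smulC {a : ℤ} {f : LaurentPolynomial R} (hf : Le a f) (r : R) : Le a (C r * f) := by
  intro n hn
  rw [coeff_C_mul, hf n hn, mul_zero]

/-- The underlying function of `T d/dT`. -/
noncomputable def thetaFun (f : LaurentPolynomial R) : LaurentPolynomial R :=
  AddMonoidAlgebra.ofCoeff (Finsupp.onFinset f.coeff.support (fun n => (n : R) * f.coeff n) (by
    intro n hn
    rw [Finsupp.mem_support_iff]
    intro h
    exact hn (by rw [h, mul_zero])))

theorem coeff_thetaFun (f : LaurentPolynomial R) (n : ℤ) :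
    (thetaFun f).coeff n = (n : R) * f.coeff n := rfl

theorem thetaFun_add (f g : LaurentPolynomial R) :
    thetaFun (f + g) = thetaFun f + thetaFun g := by
  ext n
  rw [coeff_thetaFun, AddMonoidAlgebra.coeff_add, AddMonoidAlgebra.coeff_add, Finsupp.add_apply,
    Finsupp.add_apply, coeff_thetaFun, coeff_thetaFun, mul_add]

theorem thetaFun_mul (f g : LaurentPolynomial R) :
    thetaFun (f * g) = f * thetaFun g + g * thetaFun f := by
  induction f using LaurentPolynomial.induction_on' with
  | add f₁ f₂ h₁ h₂ => rw [add_mul, thetaFun_add, h₁, h₂, thetaFun_add]; ring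
  | C_mul_T m a =>
    induction g using LaurentPolynomial.induction_on' with
    | add g₁ g₂ h₁ h₂ => rw [mul_add, thetaFun_add, h₁, h₂, thetaFun_add]; ring
    | C_mul_T n b =>
      have key : ∀ (c : R) (l : ℤ), thetaFun (C c * T l) = C ((l : R) * c) * T l := by
        intro c l
        ext i
        rw [coeff_thetaFun, coeff_C_mul_T, coeff_C_mul_T]
        split_ifs with h
        · rw [h]
        · rw [mul_zero]
      have h1 : (C a * T m : LaurentPolynomial R) * (C b * T n) = C (a * b) * T (m + n) := by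
        rw [T_add, map_mul]; ring
      have h2 : (C a * T m : LaurentPolynomial R) * (C ((n : R) * b) * T n)
          = C (a * ((n : R) * b)) * T (m + n) := by
        rw [T_add, map_mul C a]; ring
      have h3 : (C b * T n : LaurentPolynomial R) * (C ((m : R) * a) * T m)
          = C (b * ((m : R) * a)) * T (m + n) := by
        rw [T_add, map_mul C b]; ring
      rw [h1, key, key, key, h2, h3, ← add_mul, ← map_add]
      congr 2
      push_cast
      ring

/-- The derivation `T d/dT`. -/
noncomputable def theta : Der (LaurentPolynomial R) :=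
  Derivation.mk' (AddMonoidHom.toIntLinearMap
    { toFun := thetaFun
      map_zero' := by ext n; rw [coeff_thetaFun]; simp
      map_add' := thetaFun_add }) (by
    intro a b
    exact thetaFun_mul a b)

theorem coeff_theta (f : LaurentPolynomial R) (n : ℤ) :
    (theta f).coeff n = (n : R) * f.coeff n := rfl

theorem theta_T_one : theta (T 1 : LaurentPolynomial R) = T 1 := by
  ext n
  rw [coeff_theta, T_apply]
  split_ifs with h
  · rw [← h]; simp
  · rw [mul_zero]

theorem theta_C (r : R) : theta (C r : LaurentPolynomial R) = 0 := by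
  ext n
  rw [coeff_theta, C_apply]
  split_ifs with h
  · rw [h]; simp
  · rw [mul_zero]; rfl

theorem Ge.theta {a : ℤ} {f : LaurentPolynomial R} (hf : Ge a f) : Ge a (theta f) := by
  intro n hn
  rw [coeff_theta, hf n hn, mul_zero]

theorem Le.theta {a : ℤ} {f : LaurentPolynomial R} (hf : Le a f) : Le a (theta f) := by
  intro n hn
  rw [coeff_theta, hf n hn, mul_zero]

theorem Ge.theta_zero {f : LaurentPolynomial R} (hf : Ge 0 f) : Ge 1 (Pool.Agent.PRank.theta f) := by
  intro n hn
  rw [coeff_theta]
  rcases lt_or_eq_of_le (Int.lt_add_one_iff.1 (by simpa using hn) : n ≤ 0) with h | h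
  · rw [hf n h, mul_zero]
  · rw [h]; simp

/-- `(θ - m) f` has exponents at most `m - 1` if `f` has exponents at most `m`. -/
theorem Le.theta_sub {m : ℤ} {f : LaurentPolynomial R} (hf : Le m f) :
    Le (m - 1) (Pool.Agent.PRank.theta f - C (m : R) * f) := by
  intro n hn
  rw [AddMonoidAlgebra.coeff_sub, Finsupp.sub_apply, coeff_theta, coeff_C_mul]
  rcases lt_or_eq_of_le (show m ≤ n by omega) with h | h
  · rw [hf n h, mul_zero, mul_zero, sub_zero]
  · rw [h, sub_self]

end Pool.Agent.PRank
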