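import Pool.Agent.PRank.VanIdeal

/-!
Solving `G C (C^(p))ᵗ = 1` over the power series ring.
-/

namespace Pool.Agent.PRank

set_option linter.unusedSectionVars false

open Matrix

variable {k : Type*} [Field k]

/-- All entries vanish to order `N`. -/
def MVan (N : ℕ) (M : Matrix (Fin 3) (Fin 3) (MvPowerSeries (Fin 6) k)) : Prop :=
  ∀ i j, VanTo N (M i j)

variable {N : ℕ} {M M' U U' : Matrix (Fin 3) (Fin 3) (MvPowerSeries (Fin 6) k)}

theorem MVan.mul_left (h : MVan N M) (U : Matrix (Fin 3) (Fin 3) (MvPowerSeries (Fin 6) k)) :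
    MVan N (U * M) := by
  intro i j
  rw [Matrix.mul_apply]
  exact vanTo_sum _ fun l _ => (h l j).mul_left _

theorem MVan.mul_right (h : MVan N M) (U : Matrix (Fin 3) (Fin 3) (MvPowerSeries (Fin 6) k)) :
    MVan N (M * U) := by
  intro i j
  rw [Matrix.mul_apply]
  exact vanTo_sum _ fun l _ => (h i l).mul_right _

theorem MVan.add (h : MVan N M) (h' : MVan N M') : MVan N (M + M') := fun i j =>
  (h i j).add (h' i j)

theorem MVan.neg (h : MVan N M) : MVan N (-M) := fun i j => (h i j).neg

theorem MVan.mono {N' : ℕ} (h : MVan N M) (hN : N' ≤ N) : MVan N' M := fun i j =>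
  (h i j).mono hN

theorem MVan.transpose (h : MVan N M) : MVan N M.transpose := fun i j => h j i

theorem MVan.inv (h : MVan N (U - U')) (hU : IsUnit U.det) (hU' : IsUnit U'.det) :
    MVan N (U⁻¹ - U'⁻¹) := by
  have e : U⁻¹ - U'⁻¹ = -(U⁻¹ * (U - U') * U'⁻¹) := by
    rw [Matrix.mul_sub, Matrix.sub_mul, Matrix.nonsing_inv_mul _ hU, Matrix.one_mul,
      Matrix.mul_assoc, Matrix.mul_nonsing_inv _ hU', Matrix.mul_one, neg_sub]
  rw [e]
  exact ((h.mul_left _).mul_right _).neg

theorem det_constantCoeff (M : Matrix (Fin 3) (Fin 3) (MvPowerSeries (Fin 6) k)) :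
    MvPowerSeries.constantCoeff M.det = (M.map MvPowerSeries.constantCoeff).det := by
  rw [← RingHom.mapMatrix_apply, ← RingHom.map_det]

theorem isUnit_det_iff (M : Matrix (Fin 3) (Fin 3) (MvPowerSeries (Fin 6) k)) :
    IsUnit M.det ↔ (M.map MvPowerSeries.constantCoeff).det ≠ 0 := by
  rw [MvPowerSeries.isUnit_iff_constantCoeff, det_constantCoeff, isUnit_iff_ne_zero]

variable (p : ℕ) [Fact p.Prime] [CharP k p]

theorem MVan.frob (h : MVan N (U - U')) :
    MVan (p * N) (U.map (· ^ p) - U'.map (· ^ p)) := by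
  have : CharP (MvPowerSeries (Fin 6) k) p :=
    charP_of_injective_ringHom (MvPowerSeries.C_injective (σ := Fin 6) (R := k)) p
  intro i j
  have := (h i j).pow p
  rw [Matrix.sub_apply, sub_pow_char] at this
  exact this

theorem frob_map (M : Matrix (Fin 3) (Fin 3) (MvPowerSeries (Fin 6) k)) :
    (M.map (· ^ p)).map MvPowerSeries.constantCoeff
      = (M.map MvPowerSeries.constantCoeff).map (· ^ p) := by
  ext i j
  simp

theorem det_frob (M : Matrix (Fin 3) (Fin 3) k) : (M.map (· ^ p)).det = M.det ^ p := by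
  have h := RingHom.map_det (frobenius k p) M
  rw [frobenius_def] at h
  rw [h]
  rfl

theorem map_constantCoeff_inv (U : Matrix (Fin 3) (Fin 3) (MvPowerSeries (Fin 6) k))
    (hU : IsUnit U.det) :
    U⁻¹.map MvPowerSeries.constantCoeff = (U.map MvPowerSeries.constantCoeff)⁻¹ := by
  symm
  apply Matrix.inv_eq_left_inv
  rw [← RingHom.mapMatrix_apply, ← RingHom.mapMatrix_apply, ← map_mul,
    Matrix.nonsing_inv_mul _ hU, map_one]

/-- Solving the equation `G C (C^(p))ᵗ = 1`. -/
theorem exists_solution (G : Matrix (Fin 3) (Fin 3) (MvPowerSeries (Fin 6) k))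
    (C0 : Matrix (Fin 3) (Fin 3) k) (hC0 : C0.det ≠ 0)
    (h0 : G.map MvPowerSeries.constantCoeff * C0 * (C0.map (· ^ p)).transpose = 1) :
    ∃ C : Matrix (Fin 3) (Fin 3) (MvPowerSeries (Fin 6) k),
      C.map MvPowerSeries.constantCoeff = C0 ∧ G * C * (C.map (· ^ p)).transpose = 1 := by
  have hp2 : 2 ≤ p := (Fact.out : p.Prime).two_le
  have hCF : (C0.map (· ^ p)).det ≠ 0 := by
    rw [det_frob]; exact pow_ne_zero _ hC0
  have hG0 : (G.map MvPowerSeries.constantCoeff).det ≠ 0 := by
    intro h
    have := congrArg Matrix.det h0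
    rw [Matrix.det_mul, Matrix.det_mul, h, zero_mul, zero_mul, Matrix.det_one] at this
    exact zero_ne_one this
  have hG : IsUnit G.det := (isUnit_det_iff G).2 hG0
  -- the iteration
  let Φ : Matrix (Fin 3) (Fin 3) (MvPowerSeries (Fin 6) k) →
      Matrix (Fin 3) (Fin 3) (MvPowerSeries (Fin 6) k) :=
    fun C => G⁻¹ * ((C.map (· ^ p)).transpose)⁻¹
  let S : ℕ → Matrix (Fin 3) (Fin 3) (MvPowerSeries (Fin 6) k) := fun n =>
    Nat.rec (C0.map MvPowerSeries.C) (fun _ C => Φ C) n
  have hS0 : S 0 = C0.map MvPowerSeries.C := rfl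
  have hSs : ∀ n, S (n + 1) = G⁻¹ * (((S n).map (· ^ p)).transpose)⁻¹ := fun n => rfl
  have hFu : ∀ C : Matrix (Fin 3) (Fin 3) (MvPowerSeries (Fin 6) k),
      C.map MvPowerSeries.constantCoeff = C0 → IsUnit ((C.map (· ^ p)).transpose).det := by
    intro C hC
    rw [Matrix.det_transpose, isUnit_det_iff, frob_map, hC]
    exact hCF
  have hSc : ∀ n, (S n).map MvPowerSeries.constantCoeff = C0 := by
    intro n
    induction n with
    | zero =>
      rw [hS0]
      ext i j
      simp
    | succ n ih =>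
      have e1 : ((((S n).map (· ^ p)).transpose)⁻¹).map MvPowerSeries.constantCoeff
          = ((C0.map (· ^ p)).transpose)⁻¹ := by
        rw [map_constantCoeff_inv _ (hFu _ ih), Matrix.transpose_map, frob_map, ih]
      have e2 : (G⁻¹).map MvPowerSeries.constantCoeff
          = (G.map MvPowerSeries.constantCoeff)⁻¹ := map_constantCoeff_inv _ hG
      rw [hSs, Matrix.map_mul, e1, e2]
      have hGu : IsUnit (G.map MvPowerSeries.constantCoeff).det := isUnit_iff_ne_zero.2 hG0
      have hTu : IsUnit ((C0.map (· ^ p)).transpose).det := by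
        rw [Matrix.det_transpose]; exact isUnit_iff_ne_zero.2 hCF
      calc (G.map MvPowerSeries.constantCoeff)⁻¹ * ((C0.map (· ^ p)).transpose)⁻¹
          = (G.map MvPowerSeries.constantCoeff)⁻¹ * (G.map MvPowerSeries.constantCoeff * C0
              * (C0.map (· ^ p)).transpose) * ((C0.map (· ^ p)).transpose)⁻¹ := by
            rw [h0, Matrix.mul_one]
        _ = ((G.map MvPowerSeries.constantCoeff)⁻¹ * G.map MvPowerSeries.constantCoeff) * C0
              * ((C0.map (· ^ p)).transpose * ((C0.map (· ^ p)).transpose)⁻¹) := by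
            simp only [Matrix.mul_assoc]
        _ = C0 := by
            rw [Matrix.nonsing_inv_mul _ hGu, Matrix.mul_nonsing_inv _ hTu, Matrix.one_mul,
              Matrix.mul_one]
  have hstep : ∀ n, MVan (n + 1) (S (n + 1) - S n) := by
    intro n
    induction n with
    | zero =>
      intro i j
      rw [zero_add, vanTo_one_iff, Matrix.sub_apply, map_sub]
      have h1 := congrFun (congrFun (hSc 1) i) j
      have h2 := congrFun (congrFun (hSc 0) i) j
      rw [Matrix.map_apply] at h1 h2
      rw [h1, h2, sub_self]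
    | succ n ih =>
      have h1 : MVan (n + 1 + 1) (((S (n + 1)).map (· ^ p)).transpose
          - ((S n).map (· ^ p)).transpose) := by
        rw [← Matrix.transpose_sub]
        refine ((ih.frob p).mono ?_).transpose
        nlinarith
      have h2 := h1.inv (hFu _ (hSc (n + 1))) (hFu _ (hSc n))
      rw [hSs (n + 1), hSs n, ← Matrix.mul_sub]
      exact h2.mul_left _
  -- the limit
  have hlim : ∀ i j, ∃ g, ∀ N, VanTo N (g - S N i j) := fun i j =>
    exists_lim (fun N => S N i j) fun N => (hstep N i j).mono (by omega)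
  choose C hC using hlim
  have hCv : ∀ N, MVan N ((Matrix.of C) - S N) := fun N i j => hC i j N
  refine ⟨Matrix.of C, ?_, ?_⟩
  · ext i j
    have h1 := hC i j 1
    rw [vanTo_one_iff, map_sub, sub_eq_zero] at h1
    have h2 := congrFun (congrFun (hSc 1) i) j
    rw [Matrix.map_apply] at h2
    rw [Matrix.map_apply, Matrix.of_apply, h1, h2]
  · rw [← sub_eq_zero]
    have hall : ∀ N, MVan N (G * Matrix.of C * ((Matrix.of C).map (· ^ p)).transpose - 1) := by
      intro N
      have e0 : G * S (N + 1) * ((S N).map (· ^ p)).transpose = 1 := by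
        rw [hSs, ← Matrix.mul_assoc, Matrix.mul_nonsing_inv _ hG, Matrix.one_mul,
          Matrix.nonsing_inv_mul _ (hFu _ (hSc N))]
      have e1 : G * Matrix.of C * ((Matrix.of C).map (· ^ p)).transpose - 1
          = G * (Matrix.of C - S (N + 1)) * ((Matrix.of C).map (· ^ p)).transpose
            + G * S (N + 1) * ((Matrix.of C).map (· ^ p) - (S N).map (· ^ p)).transpose := by
        rw [Matrix.transpose_sub, Matrix.mul_sub G, Matrix.sub_mul, Matrix.mul_sub, e0]
        abel
      rw [e1]
      refine MVan.add ?_ ?_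
      · exact (((hCv (N + 1)).mono (by omega)).mul_left _).mul_right _
      · refine (((hCv N).frob p).mono ?_).transpose.mul_left _
        nlinarith
    ext1 i j
    exact eq_zero_of_vanTo fun N => hall N i j

end Pool.Agent.PRank
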