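import Pool.Agent.PRank.HZero2
import Pool.Agent.PRank.Dbl
import Pool.Agent.PRank.Arith
import Pool.Agent.PRank.Solve
import Pool.Agent.PRank.DefsLemmas

/-!
The Hasse-Witt matrix of the generic member of the family as a matrix over the power series ring
in `a_2, …, a_6, s²`, and its linear terms.
-/

namespace Pool.Agent.PRank

open Finsupp

set_option linter.unusedSectionVars false

section IR

/-- The exponents of the terms kept. -/
def inS (d : Fin 6 →₀ ℕ) : Prop := d = 0 ∨ (∃ l, d = single l 1) ∨ d = single 5 2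

theorem eq_single_of_le {e : Fin 6 →₀ ℕ} {l : Fin 6} {n : ℕ} (h : e ≤ single l n) :
    e = single l (e l) ∧ e l ≤ n := by
  refine ⟨?_, by simpa using h l⟩
  ext i
  by_cases hi : i = l
  · subst hi; rw [single_eq_same]
  · have := h i
    rw [single_eq_of_ne hi] at this ⊢
    omega

theorem inS_of_le {d e : Fin 6 →₀ ℕ} (hd : inS d) (h : e ≤ d) : inS e := by
  rcases hd with rfl | ⟨l, rfl⟩ | rfl
  · left
    ext i
    have := h i
    simpa using this
  · obtain ⟨h1, h2⟩ := eq_single_of_le h
    rcases Nat.le_one_iff_eq_zero_or_eq_one.1 h2 with h3 | h3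
    · left; rw [h1, h3, single_zero]
    · right; left; exact ⟨l, by rw [h1, h3]⟩
  · obtain ⟨h1, h2⟩ := eq_single_of_le h
    have : e 5 = 0 ∨ e 5 = 1 ∨ e 5 = 2 := by omega
    rcases this with h3 | h3 | h3
    · left; rw [h1, h3, single_zero]
    · right; left; exact ⟨5, by rw [h1, h3]⟩
    · right; right; rw [h1, h3]

variable (k : Type*) [CommRing k]

/-- The ideal of power series without terms with exponent in `inS`. -/
def IR : Ideal (MvPowerSeries (Fin 6) k) where
  carrier := {f | ∀ d, inS d → MvPowerSeries.coeff d f = 0}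
  zero_mem' := fun d _ => by rw [map_zero]
  add_mem' := fun {f g} hf hg d hd => by rw [map_add, hf d hd, hg d hd, add_zero]
  smul_mem' := fun g f hf d hd => by
    classical
    rw [smul_eq_mul, MvPowerSeries.coeff_mul]
    refine Finset.sum_eq_zero fun x hx => ?_
    rw [Finset.HasAntidiagonal.mem_antidiagonal] at hx
    rw [hf x.2 (inS_of_le hd (by rw [← hx]; exact le_add_self)), mul_zero]

variable {k}

theorem monomial_mem_IR {e : Fin 6 →₀ ℕ} (he : ¬ inS e) (r : k) :
    MvPowerSeries.monomial e r ∈ IR k := by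
  classical
  intro d hd
  rw [MvPowerSeries.coeff_monomial, if_neg]
  rintro rfl
  exact he hd

theorem degree_le_of_inS {e : Fin 6 →₀ ℕ} (he : inS e) :
    e.degree ≤ 1 ∨ (e = single 5 2) := by
  rcases he with rfl | ⟨l, rfl⟩ | rfl
  · left; simp
  · left; simp
  · right; rfl

theorem small_quot : Small (fun i => Ideal.Quotient.mk (IR k) (MvPowerSeries.X i)) := by
  refine ⟨?_, ?_, ?_⟩
  · intro i j hi hj
    rw [← map_mul, Ideal.Quotient.eq_zero_iff_mem, MvPowerSeries.X_def, MvPowerSeries.X_def,
      MvPowerSeries.monomial_mul_monomial]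
    apply monomial_mem_IR
    intro h
    rcases degree_le_of_inS h with h | h
    · rw [map_add, degree_single, degree_single] at h; omega
    · have := congrFun (congrArg DFunLike.coe h) 5
      simp [single_eq_of_ne (Ne.symm hi), single_eq_of_ne (Ne.symm hj)] at this
  · intro i hi
    rw [← map_mul, Ideal.Quotient.eq_zero_iff_mem, MvPowerSeries.X_def, MvPowerSeries.X_def,
      MvPowerSeries.monomial_mul_monomial]
    apply monomial_mem_IR
    intro h
    rcases degree_le_of_inS h with h | h
    · rw [map_add, degree_single, degree_single] at h; omega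
    · have := congrFun (congrArg DFunLike.coe h) 5
      simp [single_eq_of_ne (Ne.symm hi)] at this
  · rw [← map_pow, Ideal.Quotient.eq_zero_iff_mem, MvPowerSeries.X_pow_eq]
    apply monomial_mem_IR
    intro h
    rcases degree_le_of_inS h with h | h
    · rw [degree_single] at h; omega
    · have := congrFun (congrArg DFunLike.coe h) 5
      simp at this

/-- Elements whose image lies in `IR` vanish to order two. -/
theorem vanTo_of_phi_mem {f : MvPowerSeries (Fin 6) k} (hf : phi k f ∈ IR k) : VanTo 2 f := by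
  intro d hd
  rw [← coeff_phi_dbl]
  apply hf
  by_cases hd0 : d.degree = 0
  · left
    rw [(Finsupp.degree_eq_zero_iff d).1 hd0, dbl_zero]
  · have h1 : d.degree = 1 := by omega
    obtain ⟨l, hl⟩ : ∃ l, d = single l 1 := by
      have hne : d ≠ 0 := by
        rintro rfl
        simp at h1
      obtain ⟨l, hl⟩ := Finsupp.ne_iff.1 hne
      rw [Finsupp.coe_zero, Pi.zero_apply] at hl
      refine ⟨l, ?_⟩
      have hle : single l 1 ≤ d := by
        rw [Finsupp.single_le_iff]; omega
      have h2 : (d - single l 1).degree = 0 := by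
        have h3 : (d - single l 1) + single l 1 = d := tsub_add_cancel_of_le hle
        have h4 : (d - single l 1).degree + (single l 1 : Fin 6 →₀ ℕ).degree = d.degree := by
          rw [← map_add, h3]
        rw [degree_single] at h4
        omega
      have h5 := (Finsupp.degree_eq_zero_iff _).1 h2
      rw [← tsub_add_cancel_of_le hle, h5, zero_add]
    subst hl
    by_cases h5 : l = 5
    · subst h5
      right; right
      rw [dbl_single_five]
    · right; left
      exact ⟨l, dbl_single h5 1⟩

end IR

section LiftT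

variable {k : Type*} [Field k] {p : ℕ} [Fact p.Prime] [CharP k p]

/-- The sign change of the last variable. -/
noncomputable def neg5 (k : Type*) [Field k] :
    MvPowerSeries (Fin 6) k →+* MvPowerSeries (Fin 6) k :=
  MvPowerSeries.rescale (Function.update 1 5 (-1))

theorem coeff_neg5 (f : MvPowerSeries (Fin 6) k) (d : Fin 6 →₀ ℕ) :
    MvPowerSeries.coeff d (neg5 k f) = (-1) ^ (d 5) * MvPowerSeries.coeff d f := by
  rw [neg5, MvPowerSeries.coeff_rescale]
  congr 1
  rw [Finsupp.prod_fintype _ _ (fun i => pow_zero _)]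
  rw [Finset.prod_eq_single 5]
  · simp
  · intro i _ hi
    rw [Function.update_of_ne hi]
    simp
  · simp

theorem neg5_X {l : Fin 6} (hl : l ≠ 5) :
    neg5 k (MvPowerSeries.X l) = MvPowerSeries.X l := by
  classical
  ext d
  rw [coeff_neg5, MvPowerSeries.coeff_X]
  split_ifs with h
  · rw [h, single_eq_of_ne (Ne.symm hl)]; simp
  · rw [mul_zero]

theorem neg5_X5 : neg5 k (MvPowerSeries.X 5) = -MvPowerSeries.X 5 := by
  classical
  ext d
  rw [coeff_neg5, map_neg, MvPowerSeries.coeff_X]
  split_ifs with h
  · rw [h, single_eq_same]; simp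
  · rw [mul_zero, neg_zero]

variable (k) in
/-- The generic parameters. -/
noncomputable def genc : Fin 6 → MvPowerSeries (Fin 6) k := fun i => MvPowerSeries.X i

theorem neg5_HW (hp : Odd p) (i j : Fin 3) : neg5 k (HW p (genc k) i j) = HW p (genc k) i j := by
  have h1 := congrFun (congrFun (HW_map (neg5 k) p (genc k)) i) j
  rw [Matrix.map_apply] at h1
  have h2 : (fun l => neg5 k (genc k l)) = Function.update (genc k) 5 (-(genc k) 5) := by
    funext l
    by_cases hl : l = 5
    · subst hl
      rw [Function.update_self, genc, neg5_X5]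
    · rw [Function.update_of_ne hl, genc, neg5_X hl]
  rw [h1, h2, HW_even p hp]

theorem exists_lift_of_even (h2 : (2 : k) ≠ 0) {x : MvPowerSeries (Fin 6) k}
    (hx : neg5 k x = x) : ∃ a, phi k a = x := by
  obtain ⟨a, b, hab⟩ := phi_gen x
  refine ⟨a, ?_⟩
  ext d
  by_cases hd : d 5 % 2 = 0
  · obtain ⟨e, rfl⟩ : ∃ e, dbl e = d := ⟨_, dbl_halve hd⟩
    rw [hab, map_add, coeff_phi_mul_X_even, add_zero]
  · rw [coeff_phi_odd _ hd]
    have h3 := congrArg (MvPowerSeries.coeff d) hx
    rw [coeff_neg5] at h3
    have hodd : Odd (d 5) := Nat.odd_iff.2 (by omega)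
    rw [hodd.neg_one_pow] at h3
    have h4 : 2 * MvPowerSeries.coeff d x = 0 := by linear_combination -h3
    rcases mul_eq_zero.1 h4 with h5 | h5
    · exact absurd h5 h2
    · exact h5.symm

/-- The matrix over the power series ring in `a_2, …, a_6, s²`. -/
theorem exists_Te (h2 : (2 : k) ≠ 0) (hp : Odd p) :
    ∃ Te : Matrix (Fin 3) (Fin 3) (MvPowerSeries (Fin 6) k), Te.map (phi k) = HW p (genc k) := by
  choose T hT using fun i j => exists_lift_of_even h2 (neg5_HW (k := k) hp i j)
  refine ⟨Matrix.of T, ?_⟩
  ext1 i j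
  exact hT i j

/-- The even part. -/
noncomputable def evPart (x : MvPowerSeries (Fin 6) k) : MvPowerSeries (Fin 6) k :=
  fun d => MvPowerSeries.coeff (dbl d) x

theorem coeff_evPart (x : MvPowerSeries (Fin 6) k) (d : Fin 6 →₀ ℕ) :
    MvPowerSeries.coeff d (evPart x) = MvPowerSeries.coeff (dbl d) x := rfl

theorem evPart_phi_mul (a x : MvPowerSeries (Fin 6) k) :
    evPart (phi k a * x) = a * evPart x := by
  obtain ⟨b, c, hbc⟩ := phi_gen x
  have h1 : evPart x = b := by
    ext d
    rw [coeff_evPart, hbc, map_add, coeff_phi_mul_X_even, add_zero, coeff_phi_dbl]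
  rw [h1]
  ext d
  rw [coeff_evPart, hbc, mul_add, ← mul_assoc, ← map_mul, ← map_mul, map_add,
    coeff_phi_mul_X_even, add_zero, coeff_phi_dbl]

theorem evPart_add (x y : MvPowerSeries (Fin 6) k) : evPart (x + y) = evPart x + evPart y := by
  ext d
  rw [coeff_evPart, map_add, map_add, coeff_evPart, coeff_evPart]

theorem evPart_sum {ι : Type*} (s : Finset ι) (f : ι → MvPowerSeries (Fin 6) k) :
    evPart (∑ i ∈ s, f i) = ∑ i ∈ s, evPart (f i) := by
  classical
  induction s using Finset.induction_on with
  | empty => ext d; rw [coeff_evPart]; simp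
  | insert a t ha ih => rw [Finset.sum_insert ha, evPart_add, ih, Finset.sum_insert ha]

/-- The pairing matrix over the power series ring in `a_2, …, a_6, s²`. -/
noncomputable def He (k : Type*) [Field k] (p : ℕ) :
    Matrix (Fin 3) (Fin 3) (MvPowerSeries (Fin 6) k) := (HM p (genc k)).map evPart

theorem He_symm (hp0 : p ≠ 0) {Te : Matrix (Fin 3) (Fin 3) (MvPowerSeries (Fin 6) k)}
    (hTe : Te.map (phi k) = HW p (genc k)) :
    ((He k p).transpose * Te).transpose = (He k p).transpose * Te := by
  have hch : CharP (MvPowerSeries (Fin 6) k) p :=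
    charP_of_injective_ringHom (MvPowerSeries.C_injective (σ := Fin 6) (R := k)) p
  have h1 : ((HM p (genc k)).transpose * HW p (genc k)).map evPart = (He k p).transpose * Te := by
    ext1 i j
    rw [Matrix.map_apply, Matrix.mul_apply, evPart_sum, Matrix.mul_apply]
    refine Finset.sum_congr rfl fun l _ => ?_
    rw [← hTe, Matrix.map_apply, Matrix.transpose_apply, Matrix.transpose_apply, mul_comm,
      evPart_phi_mul, He, Matrix.map_apply, mul_comm]
  rw [← h1, ← Matrix.transpose_map, HM_HW_symm p hp0]

theorem He_zero : (He k p).map MvPowerSeries.constantCoeff = HM p (0 : Fin 6 → k) := by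
  have h := HM_map (MvPowerSeries.constantCoeff (σ := Fin 6) (R := k)) p (genc k)
  have h0 : (fun i => MvPowerSeries.constantCoeff (σ := Fin 6) (R := k) (genc k i)) = 0 := by
    funext i
    simp [genc]
  rw [h0] at h
  rw [← h]
  ext i j
  rw [Matrix.map_apply, He, Matrix.map_apply, Matrix.map_apply,
    ← MvPowerSeries.coeff_zero_eq_constantCoeff_apply, coeff_evPart, dbl_zero,
    MvPowerSeries.coeff_zero_eq_constantCoeff_apply]

theorem Te_zero {m : ℕ} (hm : m % 3 ≠ 0) (hp : p = 4 * m + 3)
    {Te : Matrix (Fin 3) (Fin 3) (MvPowerSeries (Fin 6) k)}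
    (hTe : Te.map (phi k) = HW p (genc k)) (i j : Fin 3) :
    MvPowerSeries.constantCoeff (Te i j) = 0 := by
  have h := HW_map (MvPowerSeries.constantCoeff (σ := Fin 6) (R := k)) p (genc k)
  have h0 : (fun i => MvPowerSeries.constantCoeff (σ := Fin 6) (R := k) (genc k i)) = 0 := by
    funext i
    simp [genc]
  rw [h0, hp, HW_zero hm, ← hp, ← hTe] at h
  have h1 := congrFun (congrFun h i) j
  rw [Matrix.map_apply, Matrix.map_apply, Matrix.zero_apply] at h1
  rw [← MvPowerSeries.coeff_zero_eq_constantCoeff_apply, ← coeff_phi_dbl, dbl_zero,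
    MvPowerSeries.coeff_zero_eq_constantCoeff_apply]
  exact h1

end LiftT

end Pool.Agent.PRank
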