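import Pool.Agent.PRank.Pows

/-!
The entries of the Hasse-Witt matrix modulo quadratic terms.
-/

namespace Pool.Agent.PRank

open LaurentPolynomial Q4

variable {R : Type*} [CommRing R]

/-- Coefficients of `(x^3 - 1)^n`. -/
theorem coeff_B0 (n : ℕ) (j : ℤ) :
    (((T 3 - 1 : LaurentPolynomial R)) ^ n).coeff j
      = ∑ i ∈ Finset.range (n + 1), if 3 * (i : ℤ) = j then (-1) ^ (n + i) * (n.choose i : R)
        else 0 := by
  rw [sub_eq_add_neg, (Commute.all (T 3 : LaurentPolynomial R) (-1)).add_pow,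
    AddMonoidAlgebra.coeff_sum, Finset.sum_apply']
  refine Finset.sum_congr rfl fun i hi => ?_
  have hi' : i ≤ n := by simpa [Nat.lt_succ_iff] using hi
  have e1 : (-1 : LaurentPolynomial R) ^ (n - i) * ((n.choose i : ℕ) : LaurentPolynomial R)
      = C ((-1) ^ (n + i) * (n.choose i : R)) := by
    rw [map_mul, map_pow, map_neg, map_one, map_natCast]
    congr 1
    rw [show n + i = (n - i) + 2 * i by omega, pow_add, pow_mul]
    simp
  have e2 : (T 3 : LaurentPolynomial R) ^ i * (-1) ^ (n - i) * ((n.choose i : ℕ) :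
      LaurentPolynomial R) = C ((-1) ^ (n + i) * (n.choose i : R)) * T (3 * (i : ℤ)) := by
    rw [mul_assoc, e1, T_pow, mul_comm, mul_comm (i : ℤ) 3]
  rw [e2, coeff_C_mul_T]

theorem coeff_B0_three (n i : ℕ) {j : ℤ} (hj : j = 3 * (i : ℤ)) :
    (((T 3 - 1 : LaurentPolynomial R)) ^ n).coeff j = (-1) ^ (n + i) * (n.choose i : R) := by
  rw [coeff_B0]
  by_cases hi : i ≤ n
  · rw [Finset.sum_eq_single i]
    · rw [if_pos hj.symm]
    · intro l _ hl
      rw [if_neg]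
      omega
    · intro h
      exact absurd (Finset.mem_range.2 (Nat.lt_succ_of_le hi)) h
  · rw [Nat.choose_eq_zero_of_lt (not_le.1 hi), Nat.cast_zero, mul_zero]
    refine Finset.sum_eq_zero fun l hl => ?_
    rw [if_neg]
    have := Finset.mem_range.1 hl
    omega

theorem coeff_B0_other (n : ℕ) {j : ℤ} (hj : j % 3 ≠ 0) :
    (((T 3 - 1 : LaurentPolynomial R)) ^ n).coeff j = 0 := by
  rw [coeff_B0]
  refine Finset.sum_eq_zero fun l _ => ?_
  rw [if_neg]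
  omega

theorem coeff_mul_T (f : LaurentPolynomial R) (a n : ℤ) :
    (f * T a).coeff n = f.coeff (n - a) := by
  induction f using LaurentPolynomial.induction_on' with
  | add f g hf hg =>
    rw [add_mul, AddMonoidAlgebra.coeff_add, AddMonoidAlgebra.coeff_add, Finsupp.add_apply,
      Finsupp.add_apply, hf, hg]
  | C_mul_T l r =>
    rw [mul_assoc, ← T_add, coeff_C_mul_T, coeff_C_mul_T]
    congr 1
    rw [eq_iff_iff]
    omega

theorem coeff_natCast_mul (r : ℕ) (f : LaurentPolynomial R) (n : ℤ) :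
    ((r : LaurentPolynomial R) * f).coeff n = (r : R) * f.coeff n := by
  rw [← map_natCast (C : R →+* LaurentPolynomial R), coeff_C_mul]

variable {s : R} {A B : LaurentPolynomial R}

theorem bb_zero_pow (n : ℕ) :
    bb s A B 0 ^ n = of (T (-(n : ℤ))) * (W (T 1) (C s) A B) ^ n := by
  have h : bb s A B 0 = of (T (-1)) * W _ _ _ _ := by
    ext1 <;> simp [bb]
  rw [h, mul_pow, ← map_pow, T_pow, mul_neg_one]

theorem bb_one_pow (n : ℕ) :
    bb s A B 1 ^ n = of (T (-(n : ℤ))) * (Y (T 1) (C s) A B * W (T 1) (C s) A B) ^ n := by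
  have h : bb s A B 1 = of (T (-1)) * (Y _ _ _ _ * W _ _ _ _) := by
    ext1 <;> simp [bb, Y_mul_W_c0, Y_mul_W_c1, Y_mul_W_c2, Y_mul_W_c3]
  rw [h, mul_pow, ← map_pow, T_pow, mul_neg_one]

theorem bb_two_pow (n : ℕ) :
    bb s A B 2 ^ n = of (T (-(2 * n : ℤ))) * (Y (T 1) (C s) A B * W (T 1) (C s) A B) ^ n := by
  have h : bb s A B 2 = of (T (-2)) * (Y _ _ _ _ * W _ _ _ _) := by
    ext1 <;> simp [bb, Y_mul_W_c0, Y_mul_W_c1, Y_mul_W_c2, Y_mul_W_c3]
  rw [h, mul_pow, ← map_pow, T_pow, mul_comm (n : ℤ) (-2), neg_mul]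

theorem hw_col_zero (hAA : A * A = 0) (hs3 : s ^ 3 = 0) (hsA : C s * A = 0) (m : ℕ) :
    hw s A B (4 * m + 3) 0 0 = ((m + 1).choose 2 : ℕ) * s ^ 2 * (B ^ (2 * m + 2)).coeff (3 * m + 3)
        + (2 * m + 1 : ℕ) * (A * B ^ (2 * m)).coeff (3 * m + 2)
    ∧ hw s A B (4 * m + 3) 1 0 = (B ^ (2 * m + 1)).coeff (3 * m + 2)
    ∧ hw s A B (4 * m + 3) 2 0 = (B ^ (2 * m + 1)).coeff (3 * m + 1) := by
  refine ⟨?_, ?_, ?_⟩
  · have : (C s : LaurentPolynomial R) ^ 2 = C (s ^ 2) := by rw [map_pow]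
    simp only [hw, Matrix.of_apply, tau, bb_zero_pow, W_pow hAA hs3 hsA, Matrix.cons_val_zero,
      of_mul_c2, add_c2, sub_c2, of_c2, Y_mul_W_c2, W_c2, this]
    rw [show (T (-((4 * m + 3 : ℕ) : ℤ)) : LaurentPolynomial R) * (B ^ (2 * m + 1) * T (m : ℤ) * 0
        - 0 + ((((m + 1).choose 2 : ℕ) : LaurentPolynomial R) * T ((m : ℤ) - 1) * C (s ^ 2)
            * B ^ (2 * m + 2)
          + ((2 * m + 1 : ℕ) : LaurentPolynomial R) * (A * B ^ (2 * m)) * T (m : ℤ)) * 1)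
        = (((m + 1).choose 2 : ℕ) : LaurentPolynomial R) * (C (s ^ 2) * (B ^ (2 * m + 2)
            * T ((m : ℤ) - 1) * T (-((4 * m + 3 : ℕ) : ℤ))))
          + ((2 * m + 1 : ℕ) : LaurentPolynomial R) * (A * B ^ (2 * m) * T (m : ℤ)
            * T (-((4 * m + 3 : ℕ) : ℤ))) by ring]
    rw [AddMonoidAlgebra.coeff_add, Finsupp.add_apply, coeff_natCast_mul, coeff_natCast_mul,
      coeff_C_mul, coeff_mul_T, coeff_mul_T, coeff_mul_T, coeff_mul_T]
    push_cast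
    rw [show (-1 : ℤ) - -(4 * (m : ℤ) + 3) - (m - 1) = 3 * m + 3 by ring,
      show (-1 : ℤ) - -(4 * (m : ℤ) + 3) - m = 3 * m + 2 by ring]
    ring
  · simp only [hw, Matrix.of_apply, tau, bb_zero_pow, W_pow hAA hs3 hsA, Matrix.cons_val_one,
      Matrix.cons_val_zero,
      of_mul_c3, add_c3, sub_c3, of_c3, Y_mul_W_c3, W_c3, mul_one, mul_zero, sub_zero, add_zero]
    rw [mul_comm, coeff_mul_T, coeff_mul_T]
    congr 1
    push_cast; ring
  · simp only [hw, Matrix.of_apply, tau, bb_zero_pow, W_pow hAA hs3 hsA, Matrix.cons_val,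
      of_mul_c3, add_c3, sub_c3, of_c3, Y_mul_W_c3, W_c3, mul_one, mul_zero, sub_zero, add_zero]
    rw [mul_comm, coeff_mul_T, coeff_mul_T]
    congr 1
    push_cast; ring

theorem hw_col_one (hAA : A * A = 0) (hs3 : s ^ 3 = 0) (hsA : C s * A = 0) (m : ℕ) :
    hw s A B (4 * m + 3) 0 1 = (B ^ (2 * m + 1)).coeff m
    ∧ hw s A B (4 * m + 3) 1 1
        = ((3 * m + 2).choose 2 : ℕ) * s ^ 2 * (B ^ (2 * m + 2)).coeff (m + 2)
        + (2 * m + 1 : ℕ) * (A * B ^ (2 * m)).coeff (m + 1)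
    ∧ hw s A B (4 * m + 3) 2 1
        = ((3 * m + 2).choose 2 : ℕ) * s ^ 2 * (B ^ (2 * m + 2)).coeff (m + 1)
        + (2 * m + 1 : ℕ) * (A * B ^ (2 * m)).coeff m := by
  have hsq : (C s : LaurentPolynomial R) ^ 2 = C (s ^ 2) := by rw [map_pow]
  have key : ∀ N : ℤ, ((T N : LaurentPolynomial R) * (((((3 * m + 2).choose 2 : ℕ) :
        LaurentPolynomial R)
          * T (((3 * m + 2 : ℕ) : ℤ) - 2) * C (s ^ 2) * B ^ (2 * m + 2)
          + ((2 * m + 1 : ℕ) : LaurentPolynomial R) * (A * B ^ (2 * m))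
            * T ((3 * m + 1 : ℕ) : ℤ))))
        = (((3 * m + 2).choose 2 : ℕ) : LaurentPolynomial R) * (C (s ^ 2) * (B ^ (2 * m + 2)
            * T (((3 * m + 2 : ℕ) : ℤ) - 2) * T N))
          + ((2 * m + 1 : ℕ) : LaurentPolynomial R) * (A * B ^ (2 * m) * T ((3 * m + 1 : ℕ) : ℤ)
            * T N) := by
    intro N; ring
  refine ⟨?_, ?_, ?_⟩
  · simp only [hw, Matrix.of_apply, tau, bb_one_pow, YW_pow hAA hs3 hsA, Matrix.cons_val_zero,
      of_mul_c2, add_c2, sub_c2, Y_mul_W_c2, W_c2, Y_c2, mul_one, mul_zero, sub_zero, add_zero]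
    rw [mul_comm, coeff_mul_T, coeff_mul_T]
    congr 1
    push_cast; ring
  · simp only [hw, Matrix.of_apply, tau, bb_one_pow, YW_pow hAA hs3 hsA, Matrix.cons_val_one,
      Matrix.cons_val_zero, hsq,
      of_mul_c3, add_c3, sub_c3, Y_mul_W_c3, W_c3, Y_c3, mul_one, mul_zero, sub_zero, zero_add]
    rw [key, AddMonoidAlgebra.coeff_add, Finsupp.add_apply, coeff_natCast_mul,
      coeff_natCast_mul, coeff_C_mul, coeff_mul_T, coeff_mul_T, coeff_mul_T, coeff_mul_T]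
    push_cast
    rw [show (-1 : ℤ) - -(4 * (m : ℤ) + 3) - (3 * m + 2 - 2) = m + 2 by ring,
      show (-1 : ℤ) - -(4 * (m : ℤ) + 3) - (3 * m + 1) = m + 1 by ring]
    ring
  · simp only [hw, Matrix.of_apply, tau, bb_one_pow, YW_pow hAA hs3 hsA, Matrix.cons_val, hsq,
      of_mul_c3, add_c3, sub_c3, Y_mul_W_c3, W_c3, Y_c3, mul_one, mul_zero, sub_zero, zero_add]
    rw [key, AddMonoidAlgebra.coeff_add, Finsupp.add_apply, coeff_natCast_mul,
      coeff_natCast_mul, coeff_C_mul, coeff_mul_T, coeff_mul_T, coeff_mul_T, coeff_mul_T]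
    push_cast
    rw [show (-2 : ℤ) - -(4 * (m : ℤ) + 3) - (3 * m + 2 - 2) = m + 1 by ring,
      show (-2 : ℤ) - -(4 * (m : ℤ) + 3) - (3 * m + 1) = m by ring]
    ring

theorem hw_col_two (hAA : A * A = 0) (hs3 : s ^ 3 = 0) (hsA : C s * A = 0) (m : ℕ) :
    hw s A B (4 * m + 3) 0 2 = (B ^ (2 * m + 1)).coeff (5 * m + 3)
    ∧ hw s A B (4 * m + 3) 1 2
        = ((3 * m + 2).choose 2 : ℕ) * s ^ 2 * (B ^ (2 * m + 2)).coeff (5 * m + 5)
        + (2 * m + 1 : ℕ) * (A * B ^ (2 * m)).coeff (5 * m + 4)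
    ∧ hw s A B (4 * m + 3) 2 2
        = ((3 * m + 2).choose 2 : ℕ) * s ^ 2 * (B ^ (2 * m + 2)).coeff (5 * m + 4)
        + (2 * m + 1 : ℕ) * (A * B ^ (2 * m)).coeff (5 * m + 3) := by
  have hsq : (C s : LaurentPolynomial R) ^ 2 = C (s ^ 2) := by rw [map_pow]
  have key : ∀ N : ℤ, ((T N : LaurentPolynomial R) * (((((3 * m + 2).choose 2 : ℕ) :
        LaurentPolynomial R)
          * T (((3 * m + 2 : ℕ) : ℤ) - 2) * C (s ^ 2) * B ^ (2 * m + 2)
          + ((2 * m + 1 : ℕ) : LaurentPolynomial R) * (A * B ^ (2 * m))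
            * T ((3 * m + 1 : ℕ) : ℤ))))
        = (((3 * m + 2).choose 2 : ℕ) : LaurentPolynomial R) * (C (s ^ 2) * (B ^ (2 * m + 2)
            * T (((3 * m + 2 : ℕ) : ℤ) - 2) * T N))
          + ((2 * m + 1 : ℕ) : LaurentPolynomial R) * (A * B ^ (2 * m) * T ((3 * m + 1 : ℕ) : ℤ)
            * T N) := by
    intro N; ring
  refine ⟨?_, ?_, ?_⟩
  · simp only [hw, Matrix.of_apply, tau, bb_two_pow, YW_pow hAA hs3 hsA, Matrix.cons_val_zero,
      of_mul_c2, add_c2, sub_c2, Y_mul_W_c2, W_c2, Y_c2, mul_one, mul_zero, sub_zero, add_zero]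
    rw [mul_comm, coeff_mul_T, coeff_mul_T]
    congr 1
    push_cast; ring
  · simp only [hw, Matrix.of_apply, tau, bb_two_pow, YW_pow hAA hs3 hsA, Matrix.cons_val_one,
      Matrix.cons_val_zero, hsq,
      of_mul_c3, add_c3, sub_c3, Y_mul_W_c3, W_c3, Y_c3, mul_one, mul_zero, sub_zero, zero_add]
    rw [key, AddMonoidAlgebra.coeff_add, Finsupp.add_apply, coeff_natCast_mul,
      coeff_natCast_mul, coeff_C_mul, coeff_mul_T, coeff_mul_T, coeff_mul_T, coeff_mul_T]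
    push_cast
    rw [show (-1 : ℤ) - -(2 * (4 * (m : ℤ) + 3)) - (3 * m + 2 - 2) = 5 * m + 5 by ring,
      show (-1 : ℤ) - -(2 * (4 * (m : ℤ) + 3)) - (3 * m + 1) = 5 * m + 4 by ring]
    ring
  · simp only [hw, Matrix.of_apply, tau, bb_two_pow, YW_pow hAA hs3 hsA, Matrix.cons_val, hsq,
      of_mul_c3, add_c3, sub_c3, Y_mul_W_c3, W_c3, Y_c3, mul_one, mul_zero, sub_zero, zero_add]
    rw [key, AddMonoidAlgebra.coeff_add, Finsupp.add_apply, coeff_natCast_mul,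
      coeff_natCast_mul, coeff_C_mul, coeff_mul_T, coeff_mul_T, coeff_mul_T, coeff_mul_T]
    push_cast
    rw [show (-2 : ℤ) - -(2 * (4 * (m : ℤ) + 3)) - (3 * m + 2 - 2) = 5 * m + 4 by ring,
      show (-2 : ℤ) - -(2 * (4 * (m : ℤ) + 3)) - (3 * m + 1) = 5 * m + 3 by ring]
    ring

end Pool.Agent.PRank
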