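import Pool.Agent.PRank.Lin

/-!
The entries of the Hasse-Witt matrix of the family modulo quadratic terms.
-/

namespace Pool.Agent.PRank

open LaurentPolynomial Q4

variable {R : Type*} [CommRing R]

/-- The parameters are small: products of two deformation parameters vanish, and the cube of the
last one. -/
structure Small (c : Fin 6 → R) : Prop where
  h1 : ∀ i j, i ≠ 5 → j ≠ 5 → c i * c j = 0
  h2 : ∀ i, i ≠ 5 → c 5 * c i = 0
  h3 : c 5 ^ 3 = 0

/-- The deformation part of `famB`. -/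
noncomputable def famD (c : Fin 6 → R) : LaurentPolynomial R := C (c 3) * T 2 + C (c 1) * T 1

theorem famB_eq (c : Fin 6 → R) : famB c = (T 3 - 1) + famD c := by
  rw [famB, famD]; ring

variable {c : Fin 6 → R} (h : Small c)

include h

theorem Small.CC (i j : Fin 6) (hi : i ≠ 5) (hj : j ≠ 5) :
    (C (c i) * C (c j) : LaurentPolynomial R) = 0 := by
  rw [← map_mul, h.h1 i j hi hj, map_zero]

theorem Small.AA : famA c * famA c = 0 := by
  rw [famA]
  linear_combination (T 3 * T 3) * h.CC 4 4 (by decide) (by decide)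
    + 2 * (T 3 * T 2) * h.CC 4 2 (by decide) (by decide)
    + 2 * (T 3 * T 1) * h.CC 4 0 (by decide) (by decide)
    + (T 2 * T 2) * h.CC 2 2 (by decide) (by decide)
    + 2 * (T 2 * T 1) * h.CC 2 0 (by decide) (by decide)
    + (T 1 * T 1) * h.CC 0 0 (by decide) (by decide)

theorem Small.DD : famD c * famD c = 0 := by
  rw [famD]
  linear_combination (T 2 * T 2) * h.CC 3 3 (by decide) (by decide)
    + 2 * (T 2 * T 1) * h.CC 3 1 (by decide) (by decide)
    + (T 1 * T 1) * h.CC 1 1 (by decide) (by decide)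

theorem Small.AD : famA c * famD c = 0 := by
  rw [famA, famD]
  linear_combination (T 3 * T 2) * h.CC 4 3 (by decide) (by decide)
    + (T 3 * T 1) * h.CC 4 1 (by decide) (by decide)
    + (T 2 * T 2) * h.CC 2 3 (by decide) (by decide)
    + (T 2 * T 1) * h.CC 2 1 (by decide) (by decide)
    + (T 1 * T 2) * h.CC 0 3 (by decide) (by decide)
    + (T 1 * T 1) * h.CC 0 1 (by decide) (by decide)

theorem Small.SC (i : Fin 6) (hi : i ≠ 5) : (C (c 5) * C (c i) : LaurentPolynomial R) = 0 := by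
  rw [← map_mul, h.h2 i hi, map_zero]

theorem Small.SA : C (c 5) * famA c = 0 := by
  rw [famA]
  linear_combination (T 3) * h.SC 4 (by decide) + (T 2) * h.SC 2 (by decide)
    + (T 1) * h.SC 0 (by decide)

theorem Small.SD : C (c 5) * famD c = 0 := by
  rw [famD]
  linear_combination (T 2) * h.SC 3 (by decide) + (T 1) * h.SC 1 (by decide)

theorem Small.coeff_B_pow (n : ℕ) (j : ℤ) :
    ((famB c) ^ (n + 1)).coeff j = ((T 3 - 1 : LaurentPolynomial R) ^ (n + 1)).coeff j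
      + (n + 1 : ℕ) * (c 3 * ((T 3 - 1 : LaurentPolynomial R) ^ n).coeff (j - 2)
        + c 1 * ((T 3 - 1 : LaurentPolynomial R) ^ n).coeff (j - 1)) := by
  rw [famB_eq, add_pow_of_sq h.DD, AddMonoidAlgebra.coeff_add, Finsupp.add_apply,
    coeff_natCast_mul]
  congr 2
  rw [famD, show (T 3 - 1 : LaurentPolynomial R) ^ n * (C (c 3) * T 2 + C (c 1) * T 1)
    = C (c 3) * ((T 3 - 1) ^ n * T 2) + C (c 1) * ((T 3 - 1) ^ n * T 1) by ring]
  rw [AddMonoidAlgebra.coeff_add, Finsupp.add_apply, coeff_C_mul, coeff_C_mul, coeff_mul_T,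
    coeff_mul_T]

theorem Small.coeff_AB_pow (n : ℕ) (j : ℤ) :
    (famA c * (famB c) ^ n).coeff j
      = c 4 * ((T 3 - 1 : LaurentPolynomial R) ^ n).coeff (j - 3)
        + c 2 * ((T 3 - 1 : LaurentPolynomial R) ^ n).coeff (j - 2)
        + c 0 * ((T 3 - 1 : LaurentPolynomial R) ^ n).coeff (j - 1) := by
  rw [mul_pow_eq (famB_eq c) h.AD, famA,
    show (C (c 4) * T 3 + C (c 2) * T 2 + C (c 0) * T 1 : LaurentPolynomial R)
        * (T 3 - 1 : LaurentPolynomial R) ^ n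
      = C (c 4) * ((T 3 - 1) ^ n * T 3) + C (c 2) * ((T 3 - 1) ^ n * T 2)
        + C (c 0) * ((T 3 - 1) ^ n * T 1) by ring]
  rw [AddMonoidAlgebra.coeff_add, Finsupp.add_apply, AddMonoidAlgebra.coeff_add,
    Finsupp.add_apply, coeff_C_mul, coeff_C_mul, coeff_C_mul, coeff_mul_T,
    coeff_mul_T, coeff_mul_T]

theorem Small.coeff_SB_pow (n : ℕ) (j : ℤ) :
    c 5 ^ 2 * ((famB c) ^ n).coeff j = c 5 ^ 2 * ((T 3 - 1 : LaurentPolynomial R) ^ n).coeff j := by
  have h1 := mul_pow_eq (famB_eq c) h.SD n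
  have h2 : (C (c 5) * famB c ^ n).coeff j
      = (C (c 5) * (T 3 - 1 : LaurentPolynomial R) ^ n).coeff j := by rw [h1]
  rw [coeff_C_mul, coeff_C_mul] at h2
  rw [sq, mul_assoc, h2, mul_assoc]

/-- The column with index zero. -/
theorem Small.col_zero (m : ℕ) :
    HW (4 * m + 3) c 0 0
        = ((m + 1).choose 2 : ℕ) * (-1) ^ ((2 * m + 2) + (m + 1))
            * ((2 * m + 2).choose (m + 1) : ℕ) * c 5 ^ 2
          + (2 * m + 1 : ℕ) * ((-1) ^ (2 * m + m) * ((2 * m).choose m : ℕ)) * c 2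
    ∧ HW (4 * m + 3) c 1 0
        = (2 * m + 1 : ℕ) * ((-1) ^ (2 * m + m) * ((2 * m).choose m : ℕ)) * c 3
    ∧ HW (4 * m + 3) c 2 0
        = (2 * m + 1 : ℕ) * ((-1) ^ (2 * m + m) * ((2 * m).choose m : ℕ)) * c 1 := by
  obtain ⟨e1, e2, e3⟩ := hw_col_zero h.AA h.h3 h.SA m
  refine ⟨?_, ?_, ?_⟩
  · rw [HW, e1, mul_assoc, h.coeff_SB_pow, h.coeff_AB_pow,
      coeff_B0_three (2 * m + 2) (m + 1) (by push_cast; ring),
      coeff_B0_other (2 * m) (j := 3 * (m : ℤ) + 2 - 3) (by omega),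
      coeff_B0_three (2 * m) m (j := 3 * (m : ℤ) + 2 - 2) (by ring),
      coeff_B0_other (2 * m) (j := 3 * (m : ℤ) + 2 - 1) (by omega)]
    ring
  · rw [HW, e2, h.coeff_B_pow, coeff_B0_other (2 * m + 1) (j := 3 * (m : ℤ) + 2) (by omega),
      coeff_B0_three (2 * m) m (j := 3 * (m : ℤ) + 2 - 2) (by ring),
      coeff_B0_other (2 * m) (j := 3 * (m : ℤ) + 2 - 1) (by omega)]
    ring
  · rw [HW, e3, h.coeff_B_pow, coeff_B0_other (2 * m + 1) (j := 3 * (m : ℤ) + 1) (by omega),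
      coeff_B0_three (2 * m) m (j := 3 * (m : ℤ) + 1 - 1) (by ring),
      coeff_B0_other (2 * m) (j := 3 * (m : ℤ) + 1 - 2) (by omega)]
    ring

/-- Some entries for `m = 3 q + 1`. -/
theorem Small.ent_one (q : ℕ) {m : ℕ} (hm : m = 3 * q + 1) :
    HW (4 * m + 3) c 1 1
        = ((3 * m + 2).choose 2 : ℕ) * (-1) ^ ((2 * m + 2) + (q + 1))
            * ((2 * m + 2).choose (q + 1) : ℕ) * c 5 ^ 2
          + (2 * m + 1 : ℕ) * ((-1) ^ (2 * m + q) * ((2 * m).choose q : ℕ)) * c 2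
    ∧ HW (4 * m + 3) c 2 1
        = (2 * m + 1 : ℕ) * ((-1) ^ (2 * m + q) * ((2 * m).choose q : ℕ)) * c 0
    ∧ HW (4 * m + 3) c 1 2
        = (2 * m + 1 : ℕ) * ((-1) ^ (2 * m + (5 * q + 2)) * ((2 * m).choose (5 * q + 2) : ℕ))
          * c 4 := by
  obtain ⟨e1, e2, e3⟩ := hw_col_one h.AA h.h3 h.SA m
  obtain ⟨f1, f2, f3⟩ := hw_col_two h.AA h.h3 h.SA m
  refine ⟨?_, ?_, ?_⟩
  · rw [HW, e2, mul_assoc, h.coeff_SB_pow, h.coeff_AB_pow,
      coeff_B0_three (2 * m + 2) (q + 1) (j := (m : ℤ) + 2) (by subst hm; push_cast; ring),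
      coeff_B0_other (2 * m) (j := (m : ℤ) + 1 - 3) (by omega),
      coeff_B0_three (2 * m) q (j := (m : ℤ) + 1 - 2) (by subst hm; push_cast; ring),
      coeff_B0_other (2 * m) (j := (m : ℤ) + 1 - 1) (by omega)]
    ring
  · rw [HW, e3, mul_assoc, h.coeff_SB_pow, h.coeff_AB_pow,
      coeff_B0_other (2 * m + 2) (j := (m : ℤ) + 1) (by omega),
      coeff_B0_other (2 * m) (j := (m : ℤ) - 3) (by omega),
      coeff_B0_other (2 * m) (j := (m : ℤ) - 2) (by omega),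
      coeff_B0_three (2 * m) q (j := (m : ℤ) - 1) (by subst hm; push_cast; ring)]
    ring
  · rw [HW, f2, mul_assoc, h.coeff_SB_pow, h.coeff_AB_pow,
      coeff_B0_other (2 * m + 2) (j := 5 * (m : ℤ) + 5) (by omega),
      coeff_B0_three (2 * m) (5 * q + 2) (j := 5 * (m : ℤ) + 4 - 3) (by subst hm; push_cast; ring),
      coeff_B0_other (2 * m) (j := 5 * (m : ℤ) + 4 - 2) (by omega),
      coeff_B0_other (2 * m) (j := 5 * (m : ℤ) + 4 - 1) (by omega)]
    ring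

/-- Some entries for `m = 3 q + 2`. -/
theorem Small.ent_two (q : ℕ) {m : ℕ} (hm : m = 3 * q + 2) :
    HW (4 * m + 3) c 2 1
        = ((3 * m + 2).choose 2 : ℕ) * (-1) ^ ((2 * m + 2) + (q + 1))
            * ((2 * m + 2).choose (q + 1) : ℕ) * c 5 ^ 2
          + (2 * m + 1 : ℕ) * ((-1) ^ (2 * m + q) * ((2 * m).choose q : ℕ)) * c 2
    ∧ HW (4 * m + 3) c 1 1
        = (2 * m + 1 : ℕ) * ((-1) ^ (2 * m + q) * ((2 * m).choose q : ℕ)) * c 4
    ∧ HW (4 * m + 3) c 2 2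
        = (2 * m + 1 : ℕ) * ((-1) ^ (2 * m + (5 * q + 4)) * ((2 * m).choose (5 * q + 4) : ℕ))
          * c 0 := by
  obtain ⟨e1, e2, e3⟩ := hw_col_one h.AA h.h3 h.SA m
  obtain ⟨f1, f2, f3⟩ := hw_col_two h.AA h.h3 h.SA m
  refine ⟨?_, ?_, ?_⟩
  · rw [HW, e3, mul_assoc, h.coeff_SB_pow, h.coeff_AB_pow,
      coeff_B0_three (2 * m + 2) (q + 1) (j := (m : ℤ) + 1) (by subst hm; push_cast; ring),
      coeff_B0_other (2 * m) (j := (m : ℤ) - 3) (by omega),
      coeff_B0_three (2 * m) q (j := (m : ℤ) - 2) (by subst hm; push_cast; ring),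
      coeff_B0_other (2 * m) (j := (m : ℤ) - 1) (by omega)]
    ring
  · rw [HW, e2, mul_assoc, h.coeff_SB_pow, h.coeff_AB_pow,
      coeff_B0_other (2 * m + 2) (j := (m : ℤ) + 2) (by omega),
      coeff_B0_three (2 * m) q (j := (m : ℤ) + 1 - 3) (by subst hm; push_cast; ring),
      coeff_B0_other (2 * m) (j := (m : ℤ) + 1 - 2) (by omega),
      coeff_B0_other (2 * m) (j := (m : ℤ) + 1 - 1) (by omega)]
    ring
  · rw [HW, f3, mul_assoc, h.coeff_SB_pow, h.coeff_AB_pow,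
      coeff_B0_other (2 * m + 2) (j := 5 * (m : ℤ) + 4) (by omega),
      coeff_B0_other (2 * m) (j := 5 * (m : ℤ) + 3 - 3) (by omega),
      coeff_B0_other (2 * m) (j := 5 * (m : ℤ) + 3 - 2) (by omega),
      coeff_B0_three (2 * m) (5 * q + 4) (j := 5 * (m : ℤ) + 3 - 1) (by subst hm; push_cast; ring)]
    ring

omit h in
/-- The Hasse-Witt matrix vanishes at the origin. -/
theorem HW_zero {m : ℕ} (hm : m % 3 ≠ 0) : HW (4 * m + 3) (0 : Fin 6 → R) = 0 := by
  have h0 : Small (0 : Fin 6 → R) :=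
    ⟨fun _ _ _ _ => by simp, fun _ _ => by simp, by simp⟩
  obtain ⟨a1, a2, a3⟩ := h0.col_zero m
  obtain ⟨e1, e2, e3⟩ := hw_col_one h0.AA h0.h3 h0.SA m
  obtain ⟨f1, f2, f3⟩ := hw_col_two h0.AA h0.h3 h0.SA m
  have b01 : HW (4 * m + 3) (0 : Fin 6 → R) 0 1 = 0 := by
    rw [HW, e1, h0.coeff_B_pow, coeff_B0_other (2 * m + 1) (by omega)]; simp
  have b11 : HW (4 * m + 3) (0 : Fin 6 → R) 1 1 = 0 := by
    rw [HW, e2, h0.coeff_AB_pow]; simp
  have b21 : HW (4 * m + 3) (0 : Fin 6 → R) 2 1 = 0 := by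
    rw [HW, e3, h0.coeff_AB_pow]; simp
  have b02 : HW (4 * m + 3) (0 : Fin 6 → R) 0 2 = 0 := by
    rw [HW, f1, h0.coeff_B_pow, coeff_B0_other (2 * m + 1) (by omega)]; simp
  have b12 : HW (4 * m + 3) (0 : Fin 6 → R) 1 2 = 0 := by
    rw [HW, f2, h0.coeff_AB_pow]; simp
  have b22 : HW (4 * m + 3) (0 : Fin 6 → R) 2 2 = 0 := by
    rw [HW, f3, h0.coeff_AB_pow]; simp
  ext i j
  fin_cases i <;> fin_cases j
  · simpa using a1
  · exact b01
  · exact b02
  · simpa using a2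
  · exact b11
  · exact b12
  · simpa using a3
  · exact b21
  · exact b22

end Pool.Agent.PRank
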