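import Pool.Agent.PRank.Span
import Pool.Agent.PRank.Core

/-!
Non-reducedness for the explicit family, over the power series ring.
-/

namespace Pool.Agent.PRank

set_option linter.unusedSectionVars false

open Matrix

variable {k : Type*} [Field k] {p : ℕ} [Fact p.Prime] [CharP k p]

section Consts

variable [IsAlgClosed k]

theorem exists_C0_diag {h0 h1 h2 : k} (n0 : h0 ≠ 0) (n1 : h1 ≠ 0) (n2 : h2 ≠ 0) :
    ∃ C0 : Matrix (Fin 3) (Fin 3) k, C0.det ≠ 0 ∧
      (!![h0, 0, 0; 0, h1, 0; 0, 0, h2] : Matrix (Fin 3) (Fin 3) k).transpose * C0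
        * (C0.map (· ^ p)).transpose = 1 := by
  have hp0 : p ≠ 0 := (Fact.out : p.Prime).ne_zero
  have ex : ∀ h : k, h ≠ 0 → ∃ c : k, c ≠ 0 ∧ h * (c * c ^ p) = 1 := by
    intro h hh
    obtain ⟨c, hc⟩ := IsAlgClosed.exists_pow_nat_eq (h⁻¹) (Nat.succ_pos p)
    refine ⟨c, ?_, ?_⟩
    · rintro rfl
      rw [zero_pow (Nat.succ_ne_zero p)] at hc
      exact inv_ne_zero hh hc.symm
    · rw [← pow_succ', ← Nat.succ_eq_add_one, hc, mul_inv_cancel₀ hh]
  obtain ⟨c0, m0, e0⟩ := ex h0 n0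
  obtain ⟨c1, m1, e1⟩ := ex h1 n1
  obtain ⟨c2, m2, e2⟩ := ex h2 n2
  refine ⟨!![c0, 0, 0; 0, c1, 0; 0, 0, c2], ?_, ?_⟩
  · simp [Matrix.det_fin_three, m0, m1, m2]
  · ext i j
    fin_cases i <;> fin_cases j <;>
      simp [Matrix.mul_apply, Fin.sum_univ_three, Matrix.transpose_apply, Matrix.map_apply, hp0,
        mul_assoc, e0, e1, e2]

theorem exists_C0_anti (hodd : Odd p) (h2 : (2 : k) ≠ 0) {h0 g1 g2 : k} (n0 : h0 ≠ 0)
    (n1 : g1 ≠ 0) (n2 : g2 ≠ 0) :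
    ∃ C0 : Matrix (Fin 3) (Fin 3) k, C0.det ≠ 0 ∧
      (!![h0, 0, 0; 0, 0, g1; 0, g2, 0] : Matrix (Fin 3) (Fin 3) k).transpose * C0
        * (C0.map (· ^ p)).transpose = 1 := by
  have hp0 : p ≠ 0 := (Fact.out : p.Prime).ne_zero
  have hp2 : 2 ≤ p := (Fact.out : p.Prime).two_le
  obtain ⟨c, hc⟩ := IsAlgClosed.exists_pow_nat_eq (h0⁻¹) (Nat.succ_pos p)
  have hc0 : c ≠ 0 := by
    rintro rfl
    rw [zero_pow (Nat.succ_ne_zero p)] at hc
    exact inv_ne_zero n0 hc.symm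
  have hc1 : h0 * (c * c ^ p) = 1 := by
    rw [← pow_succ', ← Nat.succ_eq_add_one, hc, mul_inv_cancel₀ n0]
  obtain ⟨ζ, hζ⟩ := IsAlgClosed.exists_pow_nat_eq (-1 : k) (Nat.succ_pos p)
  have hζ0 : ζ ≠ 0 := by
    rintro rfl
    rw [zero_pow (Nat.succ_ne_zero p)] at hζ
    exact neg_ne_zero.2 one_ne_zero hζ.symm
  have hζ1 : ζ * ζ ^ p = -1 := by rw [← pow_succ', ← Nat.succ_eq_add_one, hζ]
  -- the unknowns a, d with `2 a d ^ p = 1 / g1`, `2 d a ^ p = 1 / g2`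
  have hpos : 0 < p * p - 1 := by
    have : 4 ≤ p * p := Nat.mul_le_mul hp2 hp2
    omega
  set β : k := g1⁻¹ with hβ
  set γ : k := g2⁻¹ with hγ
  have hβ0 : β ≠ 0 := inv_ne_zero n1
  have hγ0 : γ ≠ 0 := inv_ne_zero n2
  obtain ⟨d, hd⟩ := IsAlgClosed.exists_pow_nat_eq (2 * (β / 2) ^ p / γ) hpos
  have hd0 : d ≠ 0 := by
    rintro rfl
    rw [zero_pow hpos.ne'] at hd
    exact (div_ne_zero (mul_ne_zero h2 (pow_ne_zero _ (div_ne_zero hβ0 h2))) hγ0) hd.symm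
  have hd1 : d ^ (p * p) = d * (2 * (β / 2) ^ p / γ) := by
    rw [← hd, ← pow_succ', show p * p - 1 + 1 = p * p by omega]
  set a : k := β / 2 / d ^ p with ha
  have ha0 : a ≠ 0 := div_ne_zero (div_ne_zero hβ0 h2) (pow_ne_zero _ hd0)
  have e1 : 2 * (a * d ^ p) = β := by
    rw [ha]
    field_simp
  have e2 : 2 * (d * a ^ p) = γ := by
    rw [ha, div_pow, ← pow_mul, hd1]
    have : (β / 2) ^ p ≠ 0 := pow_ne_zero _ (div_ne_zero hβ0 h2)
    field_simp
  have e1' : g1 * (2 * (a * d ^ p)) = 1 := by rw [e1, hβ, mul_inv_cancel₀ n1]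
  have e2' : g2 * (2 * (d * a ^ p)) = 1 := by rw [e2, hγ, mul_inv_cancel₀ n2]
  refine ⟨!![c, 0, 0; 0, a, ζ * a; 0, d, -(ζ * d)], ?_, ?_⟩
  · have : (!![c, 0, 0; 0, a, ζ * a; 0, d, -(ζ * d)] : Matrix (Fin 3) (Fin 3) k).det
        = -(2 * c * a * d * ζ) := by
      simp [Matrix.det_fin_three]; ring
    rw [this]
    exact neg_ne_zero.2 (mul_ne_zero (mul_ne_zero (mul_ne_zero (mul_ne_zero h2 hc0) ha0) hd0) hζ0)
  · ext i j
    fin_cases i <;> fin_cases j
    · simp [Matrix.mul_apply, Fin.sum_univ_three, Matrix.transpose_apply, Matrix.map_apply]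
      linear_combination hc1
    · simp [Matrix.mul_apply, Fin.sum_univ_three, Matrix.transpose_apply, Matrix.map_apply, hp0]
    · simp [Matrix.mul_apply, Fin.sum_univ_three, Matrix.transpose_apply, Matrix.map_apply, hp0]
    · simp [Matrix.mul_apply, Fin.sum_univ_three, Matrix.transpose_apply, Matrix.map_apply, hp0]
    · simp [Matrix.mul_apply, Fin.sum_univ_three, Matrix.transpose_apply, Matrix.map_apply, hp0,
        mul_pow]
      linear_combination (-(g2 * d * a ^ p)) * hζ1 + e2'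
    · simp [Matrix.mul_apply, Fin.sum_univ_three, Matrix.transpose_apply, Matrix.map_apply, hp0,
        mul_pow, hodd.neg_pow]
      linear_combination (g2 * d * d ^ p) * hζ1
    · simp [Matrix.mul_apply, Fin.sum_univ_three, Matrix.transpose_apply, Matrix.map_apply, hp0]
    · simp [Matrix.mul_apply, Fin.sum_univ_three, Matrix.transpose_apply, Matrix.map_apply, hp0,
        mul_pow]
      linear_combination (g1 * a * a ^ p) * hζ1
    · simp [Matrix.mul_apply, Fin.sum_univ_three, Matrix.transpose_apply, Matrix.map_apply, hp0,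
        mul_pow, hodd.neg_pow]
      linear_combination (-(g1 * a * d ^ p)) * hζ1 + e1'

end Consts

end Pool.Agent.PRank
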