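import Pool.Agent.PRank.LocalMain

/-!
Non-reducedness for the explicit family, over the power series ring: conclusion.
-/

namespace Pool.Agent.PRank

set_option linter.unusedSectionVars false

open Matrix

section General

variable {R : Type*} [CommRing R]

theorem Ent_mul_le (A N B : Matrix (Fin 3) (Fin 3) R) : Ent (A * N * B) ≤ Ent N := by
  rw [Ent, Ideal.span_le]
  rintro _ ⟨⟨i, j⟩, rfl⟩
  simp only [Matrix.mul_apply, SetLike.mem_coe]
  exact Ideal.sum_mem _ fun l _ => Ideal.mul_mem_right _ _
    (Ideal.sum_mem _ fun l' _ => Ideal.mul_mem_left _ _ (mem_Ent N l' l))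

/-- Change of basis does not change the ideal. -/
theorem entIdeal_le_of_conj {p : ℕ} (hR : (p : R) = 0) [Fact p.Prime]
    {C S T : Matrix (Fin 3) (Fin 3) R} (hC : IsUnit C.det)
    (h : C * S = T * C.map (· ^ p)) : entIdeal p S ≤ entIdeal p T := by
  have hpow : ∀ (M : Matrix (Fin 3) (Fin 3) R), (M.map (· ^ p)).map (· ^ p) = M.map (· ^ (p ^ 2)) := by
    intro M
    ext i j
    simp [← pow_mul, sq]
  have h1 : C.map (· ^ p) * S.map (· ^ p) = T.map (· ^ p) * C.map (· ^ (p ^ 2)) := by
    rw [← hpow C, ← map_pow_mul hR, ← map_pow_mul hR, h]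
  have h2 : C.map (· ^ (p ^ 2)) * S.map (· ^ (p ^ 2))
      = T.map (· ^ (p ^ 2)) * (C.map (· ^ (p ^ 2))).map (· ^ p) := by
    rw [← hpow C, ← hpow S, ← hpow T, ← map_pow_mul hR, h1, map_pow_mul hR, hpow C]
  have h3 : C * triple p S = triple p T * (C.map (· ^ (p ^ 2))).map (· ^ p) := by
    rw [triple, triple]
    calc C * (S * S.map (· ^ p) * S.map (· ^ (p ^ 2)))
        = (C * S) * S.map (· ^ p) * S.map (· ^ (p ^ 2)) := by simp only [Matrix.mul_assoc]
      _ = T * (C.map (· ^ p) * S.map (· ^ p)) * S.map (· ^ (p ^ 2)) := by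
          rw [h]; simp only [Matrix.mul_assoc]
      _ = T * T.map (· ^ p) * (C.map (· ^ (p ^ 2)) * S.map (· ^ (p ^ 2))) := by
          rw [h1]; simp only [Matrix.mul_assoc]
      _ = T * T.map (· ^ p) * T.map (· ^ (p ^ 2)) * (C.map (· ^ (p ^ 2))).map (· ^ p) := by
          rw [h2]; simp only [Matrix.mul_assoc]
  have h4 : triple p S = C⁻¹ * triple p T * (C.map (· ^ (p ^ 2))).map (· ^ p) := by
    rw [Matrix.mul_assoc, ← h3, ← Matrix.mul_assoc, Matrix.nonsing_inv_mul _ hC, Matrix.one_mul]
  change Ent (triple p S) ≤ Ent (triple p T)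
  rw [h4]
  exact Ent_mul_le _ _ _

end General

variable {k : Type*} [Field k] {p : ℕ} [Fact p.Prime] [CharP k p] [IsAlgClosed k]

/-- A linear form vanishing on the Hermitian curve vanishes. -/
theorem linear_zero (h2 : (2 : k) ≠ 0) (hodd : Odd p) (c : Fin 6 → k)
    (h : ∀ m : Fin 3 → k, Herm p m → m ≠ 0 → ∑ i, c i * th p m 1 0 i = 0) : ∀ i, c i = 0 := by
  have hp2 : 2 ≤ p := (Fact.out : p.Prime).two_le
  have hform : ∀ m : Fin 3 → k, Herm p m → m ≠ 0 →
      c 0 * (m 0 * m 0) + c 1 * (m 0 * m 1) + c 2 * (m 0 * m 2) + c 3 * (m 1 * m 1)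
        + c 4 * (m 1 * m 2) + c 5 * (m 2 * m 2) = 0 := by
    intro m hm hm0
    have h' := h m hm hm0
    rw [Fin.sum_univ_six] at h'
    simp only [th, Matrix.cons_val_zero, Matrix.cons_val_one, Matrix.cons_val] at h'
    linear_combination h'
  obtain ⟨z, hz⟩ := IsAlgClosed.exists_pow_nat_eq (-1 : k) (Nat.succ_pos p)
  have hz0 : z ≠ 0 := by
    rintro rfl
    rw [zero_pow (Nat.succ_ne_zero p)] at hz
    exact neg_ne_zero.2 one_ne_zero hz.symm
  obtain ⟨w, hw⟩ := exists_prim (k := k) (p := p)
  have hw1 : w ^ (p + 1) = 1 := hw.pow_eq_one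
  have hw2 : w ^ 2 ≠ 1 := hw.pow_ne_one_of_pos_of_lt (by norm_num) (by omega)
  have heven : Even (p + 1) := hodd.add_one
  -- a quadratic polynomial in one variable
  have quad : ∀ a b d : k, (∀ t : k, t ^ (p + 1) = -1 → a + b * t + d * (t * t) = 0) →
      a = 0 ∧ b = 0 ∧ d = 0 := by
    intro a b d hq
    have q1 := hq z hz
    have q2 := hq (-z) (by rw [heven.neg_pow]; exact hz)
    have q3 := hq (z * w) (by rw [mul_pow, hw1, mul_one]; exact hz)
    have q4 := hq (-(z * w)) (by rw [heven.neg_pow, mul_pow, hw1, mul_one]; exact hz)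
    have hb : b = 0 := by
      have : 2 * (b * z) = 0 := by linear_combination q1 - q2
      rcases mul_eq_zero.1 this with h' | h'
      · exact absurd h' h2
      · rcases mul_eq_zero.1 h' with h'' | h''
        · exact h''
        · exact absurd h'' hz0
    subst hb
    have hd : d = 0 := by
      have : d * (z * z * (w ^ 2 - 1)) = 0 := by linear_combination q3 - q1
      rcases mul_eq_zero.1 this with h' | h'
      · exact h'
      · exact absurd h' (mul_ne_zero (mul_ne_zero hz0 hz0) (sub_ne_zero.2 hw2))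
    subst hd
    exact ⟨by linear_combination q1, rfl, rfl⟩
  have hp0 : p + 1 ≠ 0 := Nat.succ_ne_zero p
  obtain ⟨a0, a1, a3⟩ := quad (c 0) (c 1) (c 3) (by
    intro t ht
    have := hform ![1, t, 0] (by simp [Herm, ht]) (by
      intro h0
      have := congrFun h0 0
      simp at this)
    simp only [Matrix.cons_val_zero, Matrix.cons_val_one, Matrix.cons_val] at this
    linear_combination this)
  obtain ⟨b0, b2, b5⟩ := quad (c 0) (c 2) (c 5) (by
    intro t ht
    have := hform ![1, 0, t] (by simp [Herm, ht]) (by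
      intro h0
      have := congrFun h0 0
      simp at this)
    simp only [Matrix.cons_val_zero, Matrix.cons_val_one, Matrix.cons_val] at this
    linear_combination this)
  obtain ⟨c3, c4, c5⟩ := quad (c 3) (c 4) (c 5) (by
    intro t ht
    have := hform ![0, 1, t] (by simp [Herm, ht]) (by
      intro h0
      have := congrFun h0 1
      simp at this)
    simp only [Matrix.cons_val_zero, Matrix.cons_val_one, Matrix.cons_val] at this
    linear_combination this)
  intro i
  fin_cases i
  exacts [a0, a1, b2, a3, c4, b5]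

theorem degree_one {d : Fin 6 →₀ ℕ} (h1 : d.degree = 1) : ∃ l, d = Finsupp.single l 1 := by
  have hne : d ≠ 0 := by
    rintro rfl
    simp at h1
  obtain ⟨l, hl⟩ := Finsupp.ne_iff.1 hne
  rw [Finsupp.coe_zero, Pi.zero_apply] at hl
  refine ⟨l, ?_⟩
  have hle : Finsupp.single l 1 ≤ d := by
    rw [Finsupp.single_le_iff]; omega
  have h2 : (d - Finsupp.single l 1).degree = 0 := by
    have h3 : (d - Finsupp.single l 1) + Finsupp.single l 1 = d := tsub_add_cancel_of_le hle
    have h4 : (d - Finsupp.single l 1).degree + (Finsupp.single l 1 : Fin 6 →₀ ℕ).degree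
        = d.degree := by
      rw [← map_add, h3]
    rw [Finsupp.degree_single] at h4
    omega
  have h5 := (Finsupp.degree_eq_zero_iff _).1 h2
  rw [← tsub_add_cancel_of_le hle, h5, zero_add]

theorem hpart_one (f : MvPowerSeries (Fin 6) k) :
    hpart 1 f = ∑ i, MvPolynomial.monomial (Finsupp.single i 1)
      (MvPowerSeries.coeff (Finsupp.single i 1) f) := by
  classical
  ext d
  rw [coeff_hpart, MvPolynomial.coeff_sum]
  simp only [MvPolynomial.coeff_monomial]
  by_cases hd : d.degree = 1
  · obtain ⟨l, rfl⟩ := degree_one hd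
    rw [if_pos hd, Finset.sum_eq_single l, if_pos rfl]
    · intro i _ hi
      rw [if_neg]
      intro h
      exact hi (Finsupp.single_left_injective one_ne_zero h)
    · simp
  · rw [if_neg hd]
    symm
    refine Finset.sum_eq_zero fun i _ => ?_
    rw [if_neg]
    rintro rfl
    simp at hd

/-- Elements of the ideal without constant term have no linear term. -/
theorem vanTo_two_of_mem_VI (h2 : (2 : k) ≠ 0) (hodd : Odd p) {u : MvPowerSeries (Fin 6) k}
    (hu0 : MvPowerSeries.constantCoeff u = 0) (hu : u ∈ VI k p) : VanTo 2 u := by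
  have hlin := linear_zero h2 hodd (fun i => MvPowerSeries.coeff (Finsupp.single i 1) u) (by
    intro m hm _
    have h1 := ev_VI hm 1 0 hu
    have h3 := coeff_ev (th p m 1 0) u 1
    rw [h1, map_zero, hpart_one, map_sum] at h3
    refine Eq.trans (Finset.sum_congr rfl fun i _ => ?_) h3.symm
    rw [MvPolynomial.eval_monomial, Finsupp.prod_single_index (by simp), pow_one])
  intro d hd
  by_cases hd0 : d.degree = 0
  · rw [(Finsupp.degree_eq_zero_iff d).1 hd0, MvPowerSeries.coeff_zero_eq_constantCoeff_apply, hu0]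
  · obtain ⟨l, rfl⟩ := degree_one (show d.degree = 1 by omega)
    exact hlin l

theorem constantCoeff_subs {σ : Fin 6 → MvPowerSeries (Fin 6) k}
    {hσ : ∀ i, MvPowerSeries.constantCoeff (σ i) = 0} (f : MvPowerSeries (Fin 6) k) :
    MvPowerSeries.constantCoeff (subs σ hσ f) = MvPowerSeries.constantCoeff f := by
  have h1 : VanTo 1 (f - MvPowerSeries.C (MvPowerSeries.constantCoeff f)) := by
    rw [vanTo_one_iff]; simp
  have h2 := subs_vanTo (σ := σ) (hσ := hσ) h1
  have h3 : subs σ hσ (MvPowerSeries.C (MvPowerSeries.constantCoeff f))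
      = MvPowerSeries.C (MvPowerSeries.constantCoeff f) := by
    rw [← MvPolynomial.coe_C, subs_coe]
    simp
    rfl
  rw [vanTo_one_iff, map_sub, map_sub, h3, MvPowerSeries.constantCoeff_C, sub_eq_zero] at h2
  exact h2

/-- The non-reducedness over the power series ring in `a_2, …, a_6, s²`. -/
theorem exists_z {m q : ℕ} (hp : p = 4 * m + 3) (hm : m = 3 * q + 1 ∨ m = 3 * q + 2)
    {Te : Matrix (Fin 3) (Fin 3) (MvPowerSeries (Fin 6) k)}
    (hTe : Te.map (phi k) = HW p (genc k)) :
    ∃ z, z ^ 2 ∈ (entIdeal p Te).radical ⊔ Ideal.span {MvPowerSeries.X 5}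
      ∧ z ∉ (entIdeal p Te).radical ⊔ Ideal.span {MvPowerSeries.X 5} := by
  have hr : p = 2 * (2 * m + 1) + 1 := by omega
  have hodd : Odd p := ⟨_, hr⟩
  have h2 : (2 : k) ≠ 0 := two_ne hr
  have hp0 : p ≠ 0 := (Fact.out : p.Prime).ne_zero
  have hm3 : m % 3 ≠ 0 := by omega
  have hch : CharP (MvPowerSeries (Fin 6) k) p :=
    charP_of_injective_ringHom (MvPowerSeries.C_injective (σ := Fin 6) (R := k)) p
  have hpR : ((p : ℕ) : MvPowerSeries (Fin 6) k) = 0 := CharP.cast_eq_zero _ p
  -- small numbers are invertible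
  have h6 : (6 : k) ≠ 0 := by
    have := cast_ne_zero_of_lt (k := k) (p := p) (n := 6) (by norm_num) (by omega)
    exact_mod_cast this
  have h10 : (10 : k) ≠ 0 := by
    have h5 := five_cast_ne_zero (k := k) hp
    have : (10 : k) = 2 * 5 := by norm_num
    rw [this]
    exact mul_ne_zero h2 h5
  have hsb : ∀ i, i ≤ 2 * m + 1 → sb k (2 * m + 1) i ≠ 0 := fun i hi =>
    mul_ne_zero (neg_one_pow_ne_zero _) (choose_cast_ne_zero (p := p) (by omega) hi)
  -- the constant matrix
  obtain ⟨C0, hC0, hC1⟩ : ∃ C0 : Matrix (Fin 3) (Fin 3) k, C0.det ≠ 0 ∧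
      ((He k p).transpose).map MvPowerSeries.constantCoeff * C0
        * (C0.map (· ^ p)).transpose = 1 := by
    rw [Matrix.transpose_map, He_zero]
    rcases hm with hm | hm
    · rw [show HM p (0 : Fin 6 → k) = HM (4 * m + 3) 0 by rw [hp], HM_zero_one q hm]
      exact exists_C0_anti hodd h2 (mul_ne_zero h6 (hsb _ (by omega)))
        (mul_ne_zero h2 (hsb _ (by omega))) (mul_ne_zero h10 (hsb _ (by omega)))
    · rw [show HM p (0 : Fin 6 → k) = HM (4 * m + 3) 0 by rw [hp], HM_zero_two q hm]
      exact exists_C0_diag (mul_ne_zero h6 (hsb _ (by omega)))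
        (mul_ne_zero h2 (hsb _ (by omega))) (mul_ne_zero h10 (hsb _ (by omega)))
  obtain ⟨C, hCc, hCe⟩ := exists_solution p _ C0 hC0 hC1
  have hCdet : IsUnit C.det := by
    rw [isUnit_det_iff, hCc]; exact hC0
  have hCFdet : IsUnit (C.map (· ^ p)).det := by
    rw [isUnit_det_iff, frob_map, hCc, det_frob]; exact pow_ne_zero _ hC0
  -- the symmetric matrix
  set M := (He k p).transpose * Te with hM
  have hMs : M.transpose = M := He_symm hp0 hTe
  set S := (C.map (· ^ p)).transpose * M * C.map (· ^ p) with hS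
  have hSs : S.transpose = S := by
    rw [hS, Matrix.transpose_mul, Matrix.transpose_mul, Matrix.transpose_transpose, hMs]
    exact (Matrix.mul_assoc _ _ _).symm
  have hCe' : C * (C.map (· ^ p)).transpose * (He k p).transpose = 1 := by
    rw [Matrix.mul_assoc] at hCe
    exact (mul_eq_one_comm.1 hCe)
  have hconj : C * S = Te * C.map (· ^ p) := by
    calc C * S = (C * (C.map (· ^ p)).transpose * (He k p).transpose) * Te * C.map (· ^ p) := by
          rw [hS, hM]; simp only [Matrix.mul_assoc]
      _ = Te * C.map (· ^ p) := by rw [hCe', Matrix.one_mul]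
  -- the entries
  let σ : Fin 6 → MvPowerSeries (Fin 6) k := ![S 0 0, S 0 1, S 0 2, S 1 1, S 1 2, S 2 2]
  have hsym : ∀ i j, S i j = S j i := fun i j => by
    have := congrFun (congrFun hSs j) i
    rwa [Matrix.transpose_apply] at this
  have hσS : symMat σ = S := by
    ext1 i j
    fin_cases i <;> fin_cases j
    · rfl
    · rfl
    · rfl
    · exact hsym 0 1
    · rfl
    · rfl
    · exact hsym 0 2
    · exact hsym 1 2
    · rfl
  have hS0 : ∀ i j, MvPowerSeries.constantCoeff (S i j) = 0 := by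
    have hT1 : MVan 1 Te := fun i j => vanTo_one_iff.2 (Te_zero hm3 hp hTe i j)
    have hS1 : MVan 1 S := ((hT1.mul_left _).mul_left _).mul_right _
    exact fun i j => vanTo_one_iff.1 (hS1 i j)
  have hσ : ∀ i, MvPowerSeries.constantCoeff (σ i) = 0 := by
    intro i
    fin_cases i
    exacts [hS0 0 0, hS0 0 1, hS0 0 2, hS0 1 1, hS0 1 2, hS0 2 2]
  -- the entries generate
  have hEnt : Ent Te ≤ Ideal.span (Set.range σ) := by
    have h1 : Te = C * S * (C.map (· ^ p))⁻¹ := by
      rw [hconj, Matrix.mul_assoc, Matrix.mul_nonsing_inv _ hCFdet, Matrix.mul_one]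
    rw [h1]
    refine (Ent_mul_le _ _ _).trans ?_
    rw [Ent, Ideal.span_le]
    rintro _ ⟨⟨i, j⟩, rfl⟩
    have hmem : ∀ l, σ l ∈ Ideal.span (Set.range σ) := fun l => Ideal.subset_span ⟨l, rfl⟩
    change S i j ∈ _
    fin_cases i <;> fin_cases j
    · exact hmem 0
    · exact hmem 1
    · exact hmem 2
    · exact (hsym 1 0) ▸ hmem 1
    · exact hmem 3
    · exact hmem 4
    · exact (hsym 2 0) ▸ hmem 2
    · exact (hsym 2 1) ▸ hmem 4
    · exact hmem 5
  have hsurj : Function.Surjective (subs σ hσ) := by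
    apply subs_surjective
    intro l
    have h1 : (MvPowerSeries.X l : MvPowerSeries (Fin 6) k) ∈ Ideal.span (Set.range σ) ⊔ vI k 6 2 :=
      (sup_le_sup_right hEnt _) (span_ent hp hm hTe l)
    obtain ⟨a, ha, b, hb, hab⟩ := Submodule.mem_sup.1 h1
    obtain ⟨g, rfl⟩ := (Ideal.mem_span_range_iff_exists_fun).1 ha
    refine ⟨∑ i, MvPowerSeries.C (MvPowerSeries.constantCoeff (g i)) * MvPowerSeries.X i,
      vanTo_sum _ fun i _ => (vanTo_X i).mul_left _, ?_⟩
    have hC : ∀ r : k, subs σ hσ (MvPowerSeries.C r) = MvPowerSeries.C r := by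
      intro r
      rw [← MvPolynomial.coe_C, subs_coe]
      simp
      rfl
    rw [map_sum]
    simp only [map_mul, hC, subs_X]
    have e : MvPowerSeries.X l - ∑ i, MvPowerSeries.C (MvPowerSeries.constantCoeff (g i)) * σ i
        = ∑ i, (g i - MvPowerSeries.C (MvPowerSeries.constantCoeff (g i))) * σ i + b := by
      rw [← hab]
      simp only [sub_mul, Finset.sum_sub_distrib]
      ring
    rw [e]
    refine VanTo.add (vanTo_sum _ fun i _ => ?_) hb
    have g1 : VanTo 1 (g i - MvPowerSeries.C (MvPowerSeries.constantCoeff (g i))) := by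
      rw [vanTo_one_iff]; simp
    exact g1.mul (vanTo_one_iff.2 (hσ i))
  have hinj : Function.Injective (subs σ hσ) :=
    injective_of_surjective (subs σ hσ).toRingHom hsurj
  set θ : MvPowerSeries (Fin 6) k →+* MvPowerSeries (Fin 6) k := (subs σ hσ).toRingHom with hθ
  have hθa : ∀ f, θ f = subs σ hσ f := fun f => rfl
  have hθs : Function.Surjective θ := hsurj
  have hθi : Function.Injective θ := hinj
  -- the ideals correspond
  have hId : (entIdeal p Te).radical = (VI k p).map θ := by
    have h1 : entIdeal p Te = entIdeal p S := by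
      apply le_antisymm
      · have hinvdet : IsUnit (C⁻¹).det := by
          rw [Matrix.det_nonsing_inv]
          exact isUnit_iff_exists_inv.2 ⟨C.det, Ring.inverse_mul_cancel _ hCdet⟩
        apply entIdeal_le_of_conj hpR hinvdet
        have h3 : (C⁻¹).map (· ^ p) * C.map (· ^ p) = 1 := by
          rw [← map_pow_mul hpR, Matrix.nonsing_inv_mul _ hCdet]
          ext i j
          by_cases hij : i = j
          · subst hij; simp
          · simp [Matrix.one_apply_ne hij, hp0]
        have h4 : C.map (· ^ p) * (C⁻¹).map (· ^ p) = 1 := mul_eq_one_comm.1 h3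
        calc C⁻¹ * Te = C⁻¹ * (Te * C.map (· ^ p)) * (C⁻¹).map (· ^ p) := by
              rw [Matrix.mul_assoc, Matrix.mul_assoc Te, h4, Matrix.mul_one]
          _ = S * (C⁻¹).map (· ^ p) := by
              rw [← hconj, ← Matrix.mul_assoc C⁻¹, Matrix.nonsing_inv_mul _ hCdet, Matrix.one_mul]
      · exact entIdeal_le_of_conj hpR hCdet hconj
    have h3 : (entIdeal p (genT k)).map θ = entIdeal p S := by
      rw [entIdeal_map, genT, symMat_map]
      congr 1
      rw [← hσS]
      congr 1
      funext i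
      change subs σ hσ (MvPowerSeries.X i) = σ i
      rw [subs_X]
    have hker : RingHom.ker θ ≤ entIdeal p (genT k) := by
      intro x hx
      have : x = 0 := by
        rw [RingHom.mem_ker] at hx
        exact (map_eq_zero_iff θ hθi).1 hx
      rw [this]
      exact Ideal.zero_mem _
    rw [h1, ← h3, VI]
    exact (Ideal.map_radical_of_surjective hθs hker).symm
  -- the function `u`
  obtain ⟨u, hθu⟩ := hθs (MvPowerSeries.X 5)
  have hu0 : MvPowerSeries.constantCoeff u = 0 := by
    rw [← constantCoeff_subs (σ := σ) (hσ := hσ) u, ← hθa, hθu, MvPowerSeries.constantCoeff_X]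
  have huV : u ∉ VI k p := by
    intro hmem
    have h1 := vanTo_two_of_mem_VI h2 hodd hu0 hmem
    have h3 := subs_vanTo (σ := σ) (hσ := hσ) h1
    rw [← hθa, hθu] at h3
    have h4 := h3 (Finsupp.single 5 1) (by simp)
    rw [MvPowerSeries.coeff_index_single_self_X] at h4
    exact one_ne_zero h4
  obtain ⟨z, hz2, hz⟩ := core hr hu0 huV
  have hmap : (VI k p ⊔ Ideal.span {u}).map θ
      = (entIdeal p Te).radical ⊔ Ideal.span {MvPowerSeries.X 5} := by
    rw [Ideal.map_sup, Ideal.map_span, Set.image_singleton, ← hId, hθu]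
  refine ⟨θ z, ?_, ?_⟩
  · rw [← hmap, ← map_pow]
    exact Ideal.mem_map_of_mem θ hz2
  · rw [← hmap]
    intro h
    apply hz
    rw [← Ideal.mem_comap] at h
    rwa [Ideal.comap_map_of_bijective θ ⟨hθi, hθs⟩] at h

/-- Non-reducedness for the explicit family over the power series ring. -/
theorem local_main {m q : ℕ} (hp : p = 4 * m + 3) (hm : m = 3 * q + 1 ∨ m = 3 * q + 2) :
    ¬ ((entIdeal p (HW p (genc k))).radical
      ⊔ Ideal.span {(MvPowerSeries.X 5 : MvPowerSeries (Fin 6) k)}).IsRadical := by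
  have hr : p = 2 * (2 * m + 1) + 1 := by omega
  have hodd : Odd p := ⟨_, hr⟩
  have h2 : (2 : k) ≠ 0 := two_ne hr
  obtain ⟨Te, hTe⟩ := exists_Te (k := k) (p := p) h2 hodd
  obtain ⟨z, hz2, hz⟩ := exists_z hp hm hTe
  have ht : (2 : MvPowerSeries (Fin 6) k) * MvPowerSeries.C (2⁻¹ : k) = 1 := by
    have : (2 : MvPowerSeries (Fin 6) k) = MvPowerSeries.C (2 : k) := by
      rw [map_ofNat]
    rw [this, ← map_mul, mul_inv_cancel₀ h2, map_one]
  have hdc := double_cover (phi k) (MvPowerSeries.X 5) (MvPowerSeries.X 5) phi_X_five.symm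
    phi_gen phi_ind ht (J := (entIdeal p Te).radical) (Ideal.radical_idem _) hz2 hz
  have h3 : (((entIdeal p Te).radical).map (phi k)).radical
      = (entIdeal p (HW p (genc k))).radical := by
    rw [← hTe, ← entIdeal_map]
    apply le_antisymm
    · rw [Ideal.radical_le_radical_iff]
      exact Ideal.map_radical_le _
    · exact Ideal.radical_mono (Ideal.map_mono Ideal.le_radical)
  rw [h3] at hdc
  exact hdc

end Pool.Agent.PRank
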