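import Pool.Agent.PRank.PZero
import Pool.Agent.PRank.Descent
import Pool.Agent.PRank.LocalMain2

/-!
Non-reducedness in affine space.
-/

namespace Pool.Agent.PRank

open MvPolynomial

variable {k : Type*} [Field k]

/-- The saturation of an ideal at the origin. -/
def sat {n : ℕ} (J : Ideal (MvPolynomial (Fin n) k)) : Ideal (MvPolynomial (Fin n) k) where
  carrier := {x | ∃ h, eval 0 h ≠ 0 ∧ h * x ∈ J}
  zero_mem' := ⟨1, by simp, by simp⟩
  add_mem' := by
    rintro x y ⟨h, h0, hx⟩ ⟨g, g0, gy⟩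
    refine ⟨h * g, by rw [map_mul]; exact mul_ne_zero h0 g0, ?_⟩
    have : h * g * (x + y) = g * (h * x) + h * (g * y) := by ring
    rw [this]
    exact J.add_mem (J.mul_mem_left _ hx) (J.mul_mem_left _ gy)
  smul_mem' := by
    rintro a x ⟨h, h0, hx⟩
    refine ⟨h, h0, ?_⟩
    have : h * (a • x) = a * (h * x) := by rw [smul_eq_mul]; ring
    rw [this]
    exact J.mul_mem_left _ hx

theorem le_sat {n : ℕ} (J : Ideal (MvPolynomial (Fin n) k)) : J ≤ sat J :=
  fun x hx => ⟨1, by simp, by simpa using hx⟩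

theorem extI_sat {n : ℕ} (J : Ideal (MvPolynomial (Fin n) k)) : extI (sat J) = extI J := by
  apply le_antisymm
  · rw [extI, Ideal.map_le_iff_le_comap]
    rintro x ⟨h, h0, hx⟩
    rw [Ideal.mem_comap]
    have hu : IsUnit (h : MvPowerSeries (Fin n) k) := by
      rw [MvPowerSeries.isUnit_iff_constantCoeff, isUnit_iff_ne_zero]
      rw [← MvPowerSeries.coeff_zero_eq_constantCoeff_apply, MvPolynomial.coeff_coe,
        ← MvPolynomial.constantCoeff_eq]
      rwa [← MvPolynomial.eval_zero] 
    have h1 : ((h * x : MvPolynomial (Fin n) k) : MvPowerSeries (Fin n) k) ∈ extI J :=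
      coe_mem_extI hx
    rw [MvPolynomial.coe_mul] at h1
    exact (Ideal.unit_mul_mem_iff_mem _ hu).1 h1
  · exact Ideal.map_mono (le_sat J)

theorem isRadical_sat {n : ℕ} {J : Ideal (MvPolynomial (Fin n) k)} (hJ : ReducedAtOrigin J) :
    (sat J).IsRadical := by
  have hsq : ∀ f, f ^ 2 ∈ sat J → f ∈ sat J := by
    rintro f ⟨h, h0, hf⟩
    have h1 : (h * f) ^ 2 ∈ J := by
      have : (h * f) ^ 2 = h * (h * f ^ 2) := by ring
      rw [this]
      exact J.mul_mem_left _ hf
    obtain ⟨g, g0, hg⟩ := hJ _ h1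
    refine ⟨g * h, by rw [map_mul]; exact mul_ne_zero g0 h0, ?_⟩
    rwa [mul_assoc]
  have hpow : ∀ m : ℕ, ∀ f, f ^ (2 ^ m) ∈ sat J → f ∈ sat J := by
    intro m
    induction m with
    | zero => intro f hf; simpa using hf
    | succ m ih =>
      intro f hf
      apply ih
      apply hsq
      rwa [← pow_mul, ← pow_succ]
  rintro f ⟨m, hm⟩
  apply hpow m
  have hle : m ≤ 2 ^ m := (Nat.lt_two_pow_self).le
  rw [← Nat.sub_add_cancel hle, pow_add]
  exact Ideal.mul_mem_left _ _ hm

variable {p : ℕ} [Fact p.Prime] [CharP k p] [IsAlgClosed k]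

theorem not_reducedAtOrigin {m q : ℕ} (hp : p = 4 * m + 3)
    (hm : m = 3 * q + 1 ∨ m = 3 * q + 2) :
    ¬ ReducedAtOrigin (MvPolynomial.vanishingIdeal k {c : Fin 6 → k | pRank p c ≤ 0}
      ⊔ Ideal.span {X 5}) := by
  intro hred
  rw [vanishing_eq] at hred
  set E0 := entIdeal p (HW p (genp k)) with hE0
  have h1 := isRadical_extI p (isRadical_sat hred)
  rw [extI_sat] at h1
  have h2 : (extI E0.radical).IsRadical := isRadical_extI p (Ideal.radical_isRadical _)
  have h3 : extI E0 = entIdeal p (HW p (genc k)) := by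
    rw [extI, hE0, entIdeal_map, HW_map]
    congr 2
    funext i
    change ((X i : MvPolynomial (Fin 6) k) : MvPowerSeries (Fin 6) k) = MvPowerSeries.X i
    rw [MvPolynomial.coe_X]
  have h4 : extI E0.radical = (entIdeal p (HW p (genc k))).radical := by
    apply le_antisymm
    · rw [← h3]
      exact Ideal.map_radical_le _
    · rw [← h3]
      calc (extI E0).radical ≤ (extI E0.radical).radical :=
            Ideal.radical_mono (Ideal.map_mono Ideal.le_radical)
        _ = extI E0.radical := h2.radical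
  have h5 : extI (E0.radical ⊔ Ideal.span {X 5})
      = (entIdeal p (HW p (genc k))).radical
        ⊔ Ideal.span {(MvPowerSeries.X 5 : MvPowerSeries (Fin 6) k)} := by
    rw [extI, Ideal.map_sup, Ideal.map_span, Set.image_singleton]
    change extI E0.radical ⊔ Ideal.span {((X 5 : MvPolynomial (Fin 6) k) :
      MvPowerSeries (Fin 6) k)} = _
    rw [h4, MvPolynomial.coe_X]
  rw [h5] at h1
  exact local_main hp hm h1

end Pool.Agent.PRank
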