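import Pool.Agent.PRank.Closed

/-!
The function `η₀` is not a polynomial in the matrix entries.
-/

namespace Pool.Agent.PRank

set_option linter.unusedSectionVars false

open MvPolynomial Finset

variable {k : Type*} [Field k]

theorem eval_smul_homog {σ : Type*} [Fintype σ] {n : ℕ} {f : MvPolynomial σ k}
    (hf : f.IsHomogeneous n) (τ : k) (t : σ → k) :
    eval (fun i => τ * t i) f = τ ^ n * eval t f := by
  rw [eval_eq', eval_eq', Finset.mul_sum]
  refine Finset.sum_congr rfl fun d hd => ?_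
  have h1 : ∑ i, d i = n := by
    have := hf (mem_support_iff.1 hd)
    rw [Finsupp.weight_apply, Finsupp.sum_fintype] at this
    · simpa using this
    · simp
  simp only [mul_pow]
  rw [Finset.prod_mul_distrib, Finset.prod_pow_eq_pow_sum, h1]
  ring

theorem eval_smul_sum {σ : Type*} [Fintype σ] (f : MvPolynomial σ k) (τ : k) (t : σ → k) :
    eval (fun i => τ * t i) f
      = ∑ d ∈ range (f.totalDegree + 1), τ ^ d * eval t (homogeneousComponent d f) := by
  conv_lhs => rw [← sum_homogeneousComponent f]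
  rw [map_sum]
  exact Finset.sum_congr rfl fun d _ =>
    eval_smul_homog (homogeneousComponent_isHomogeneous d f) τ t

/-- Two polynomial expressions in a scalar which agree have equal coefficients. -/
theorem coeff_compare [Infinite k] {N n : ℕ} (a : ℕ → k) (b : k)
    (h : ∀ τ : k, ∑ d ∈ range (N + 1), τ ^ d * a d = τ ^ n * b) (hN : ∀ d, N < d → a d = 0) :
    a n = b := by
  have h1 : (∑ d ∈ range (N + 1), Polynomial.C (a d) * Polynomial.X ^ d : Polynomial k)
      = Polynomial.C b * Polynomial.X ^ n := by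
    apply Polynomial.funext
    intro τ
    rw [Polynomial.eval_finsetSum]
    simp only [Polynomial.eval_mul, Polynomial.eval_C, Polynomial.eval_pow, Polynomial.eval_X]
    rw [mul_comm b, ← h τ]
    exact Finset.sum_congr rfl fun d _ => mul_comm _ _
  have h2 := congrArg (fun P => Polynomial.coeff P n) h1
  simp only [Polynomial.finsetSum_coeff, Polynomial.coeff_C_mul, Polynomial.coeff_X_pow,
    if_true, mul_one] at h2
  rw [← h2]
  simp only [mul_ite, mul_one, mul_zero, Finset.sum_ite_eq, Finset.mem_range]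
  split_ifs with h3
  · rfl
  · exact hN n (by omega)

theorem th_smul {p : ℕ} (m : Fin 3 → k) (x y τ : k) (i : Fin 6) :
    th p m (τ * x) (τ * y) i = τ * th p m x y i := by
  fin_cases i <;> simp [th] <;> ring

/-- The homogeneous component of the right degree also represents `M η_i` when `M` is
homogeneous. -/
theorem homog_rep [Infinite k] {p r e : ℕ} {G M : MvPolynomial (Fin 6) k}
    (hM : M.IsHomogeneous e) {i : Fin 3}
    (hG : ∀ (m : Fin 3 → k) (δ x y : k), Herm p m → m ≠ 0 → IsDelta p m δ →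
      eval (th p m x y) G = eval (th p m x y) M * eta p r i m δ x y) :
    ∀ (m : Fin 3 → k) (δ x y : k), Herm p m → m ≠ 0 → IsDelta p m δ →
      eval (th p m x y) (homogeneousComponent (e + (p + (r * p + r))) G)
        = eval (th p m x y) M * eta p r i m δ x y := by
  intro m δ x y h1 h2 h3
  refine coeff_compare (N := G.totalDegree) (n := e + (p + (r * p + r)))
    (fun d => eval (th p m x y) (homogeneousComponent d G)) _ ?_ ?_
  · intro τ
    rw [← eval_smul_sum]
    have e1 : (fun i => τ * th p m x y i) = th p m (τ * x) (τ * y) :=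
      funext fun i => (th_smul m x y τ i).symm
    rw [e1, hG m δ (τ * x) (τ * y) h1 h2 h3, ← e1, eval_smul_homog hM, eta, eta, mul_pow,
      mul_pow, pow_add τ e, pow_add τ p]
    ring
  · intro d hd
    rw [homogeneousComponent_eq_zero d G hd, map_zero]

section Avg

variable {p : ℕ} [Fact p.Prime] [CharP k p] [IsAlgClosed k]

theorem exists_prim : ∃ ζ : k, IsPrimitiveRoot ζ (p + 1) := by
  have hne : NeZero ((p + 1 : ℕ) : k) := ⟨by
    push_cast
    rw [CharP.cast_eq_zero, zero_add]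
    exact one_ne_zero⟩
  obtain ⟨ζ, hζ⟩ := IsAlgClosed.exists_root (Polynomial.cyclotomic (p + 1) k) (by
    rw [Polynomial.degree_cyclotomic]
    have : 0 < (p + 1).totient := Nat.totient_pos.2 (Nat.succ_pos p)
    exact_mod_cast this.ne')
  exact ⟨ζ, Polynomial.isRoot_cyclotomic_iff.1 hζ⟩

theorem sum_prim {ζ : k} (hζ : IsPrimitiveRoot ζ (p + 1)) (j : ℕ) :
    ∑ i ∈ range (p + 1), (ζ ^ i) ^ j = if p + 1 ∣ j then 1 else 0 := by
  have h1 : ∀ i, (ζ ^ i) ^ j = (ζ ^ j) ^ i := fun i => by rw [← pow_mul, ← pow_mul, mul_comm]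
  simp only [h1]
  split_ifs with h
  · rw [(hζ.pow_eq_one_iff_dvd j).2 h]
    simp
  · have h2 : ζ ^ j ≠ 1 := fun h3 => h ((hζ.pow_eq_one_iff_dvd j).1 h3)
    have h3 := geom_sum_mul (ζ ^ j) (p + 1)
    have h4 : (ζ ^ j) ^ (p + 1) = 1 := by
      rw [← pow_mul, mul_comm, pow_mul, hζ.pow_eq_one, one_pow]
    rw [h4, sub_self] at h3
    exact (mul_eq_zero.1 h3).resolve_right (sub_ne_zero.2 h2)

/-- Weight conditions. -/
def Good (p : ℕ) (d : Fin 6 →₀ ℕ) : Prop :=
  d 3 = 0 ∧ d 5 = 0 ∧ p + 1 ∣ d 0 + d 1 ∧ p + 1 ∣ d 1 + d 2 + 2 * d 4 + 2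

instance (p : ℕ) : DecidablePred (Good p) := fun d => by unfold Good; infer_instance

theorem eval_four (G : MvPolynomial (Fin 6) k) (t0 t1 t2 t4 : k) :
    eval ![t0, t1, t2, 0, t4, 0] G = ∑ d ∈ G.support with (d 3 = 0 ∧ d 5 = 0),
      G.coeff d * (t0 ^ d 0 * t1 ^ d 1 * t2 ^ d 2 * t4 ^ d 4) := by
  rw [eval_eq', Finset.sum_filter]
  refine Finset.sum_congr rfl fun d _ => ?_
  rw [Fin.prod_univ_six]
  by_cases h3 : d 3 = 0
  · by_cases h5 : d 5 = 0
    · rw [if_pos ⟨h3, h5⟩]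
      simp [h3, h5]
    · rw [if_neg (fun h => h5 h.2)]
      simp [h5]
  · rw [if_neg (fun h => h3 h.1)]
    simp [h3]

/-- Averaging over the torus. -/
theorem avg_four {ζ : k} (hζ : IsPrimitiveRoot ζ (p + 1)) (G : MvPolynomial (Fin 6) k)
    (t0 t1 t2 t4 : k) :
    ∑ i ∈ range (p + 1), ∑ j ∈ range (p + 1), (ζ ^ i) ^ 2 *
      eval ![ζ ^ j * t0, ζ ^ i * ζ ^ j * t1, ζ ^ i * t2, 0, (ζ ^ i) ^ 2 * t4, 0] G
      = ∑ d ∈ G.support with Good p d,
        G.coeff d * (t0 ^ d 0 * t1 ^ d 1 * t2 ^ d 2 * t4 ^ d 4) := by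
  simp only [eval_four, Finset.mul_sum]
  have h1 : ∀ i ∈ range (p + 1), ∑ j ∈ range (p + 1),
      ∑ d ∈ G.support with (d 3 = 0 ∧ d 5 = 0), (ζ ^ i) ^ 2 *
        (G.coeff d * ((ζ ^ j * t0) ^ d 0 * (ζ ^ i * ζ ^ j * t1) ^ d 1 * (ζ ^ i * t2) ^ d 2 *
          ((ζ ^ i) ^ 2 * t4) ^ d 4))
      = ∑ d ∈ G.support with (d 3 = 0 ∧ d 5 = 0),
        (G.coeff d * (t0 ^ d 0 * t1 ^ d 1 * t2 ^ d 2 * t4 ^ d 4)) *
          ((ζ ^ i) ^ (d 1 + d 2 + 2 * d 4 + 2) * (if p + 1 ∣ d 0 + d 1 then 1 else 0)) := by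
    intro i _
    rw [Finset.sum_comm]
    refine Finset.sum_congr rfl fun d _ => ?_
    rw [← sum_prim hζ (d 0 + d 1), Finset.mul_sum, Finset.mul_sum]
    refine Finset.sum_congr rfl fun j _ => ?_
    simp only [mul_pow, pow_add]
    ring
  rw [Finset.sum_congr rfl h1, Finset.sum_comm]
  have h2 : ∀ d ∈ G.support.filter (fun d => d 3 = 0 ∧ d 5 = 0),
      ∑ i ∈ range (p + 1), (G.coeff d * (t0 ^ d 0 * t1 ^ d 1 * t2 ^ d 2 * t4 ^ d 4)) *
          ((ζ ^ i) ^ (d 1 + d 2 + 2 * d 4 + 2) * (if p + 1 ∣ d 0 + d 1 then 1 else 0))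
      = if p + 1 ∣ d 0 + d 1 ∧ p + 1 ∣ d 1 + d 2 + 2 * d 4 + 2 then
          G.coeff d * (t0 ^ d 0 * t1 ^ d 1 * t2 ^ d 2 * t4 ^ d 4) else 0 := by
    intro d _
    rw [← Finset.mul_sum, ← Finset.sum_mul, sum_prim hζ]
    by_cases ha : p + 1 ∣ d 0 + d 1
    · by_cases hb : p + 1 ∣ d 1 + d 2 + 2 * d 4 + 2
      · simp [ha, hb]
      · simp [ha, hb]
    · simp [ha]
  rw [Finset.sum_congr rfl h2, ← Finset.sum_filter, Finset.filter_filter]
  refine Finset.sum_congr ?_ fun _ _ => rfl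
  ext d
  simp only [Finset.mem_filter, Good]
  tauto

end Avg

end Pool.Agent.PRank
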