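import Pool.Agent.PRank.NotOne

/-!
The function `η₀` is not a polynomial in the matrix entries, second part.
-/

namespace Pool.Agent.PRank

set_option linter.unusedSectionVars false

open MvPolynomial Finset

variable {k : Type*} [Field k]

section

variable {p r : ℕ}

/-- Numerology of the exponents of good monomials. -/
theorem good_num (hr : p = 2 * r + 1) {d : Fin 6 →₀ ℕ} (hd : Good p d)
    (hdeg : d 0 + d 1 + d 2 + d 3 + d 4 + d 5 = p + (r * p + r)) :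
    ∃ a j : ℕ, d 0 + d 1 = (p + 1) * a ∧ d 1 + d 2 + 2 * d 4 = (p + 1) * j + 2 * p ∧
      (d 0 + d 1) / (p + 1) = a ∧ (d 1 + d 2 + 2 * d 4 + 2) / (p + 1) - 2 = j ∧
      (p + 1) * (a + j) + (d 0 + d 2) = (p + 1) * (2 * r) := by
  obtain ⟨h3, h5, ⟨a, ha⟩, ⟨J, hJ⟩⟩ := hd
  rw [h3, h5] at hdeg
  have hn : p + (r * p + r) + 1 = (p + 1) * (r + 1) := by ring
  have hJ2 : 2 ≤ J := by
    by_contra hcon
    have hJ1 : J = 1 := by
      have : J ≠ 0 := by
        rintro rfl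
        omega
      omega
    rw [hJ1, mul_one] at hJ
    have h1 : (p + 1) * a + (d 2 + d 4 + 1) = (p + 1) * (r + 1) := by
      rw [← ha, ← hn]; omega
    have h2 : p + 1 ∣ d 2 + d 4 + 1 := by
      have h3 : p + 1 ∣ (p + 1) * a + (d 2 + d 4 + 1) := by rw [h1]; exact dvd_mul_right _ _
      exact (Nat.dvd_add_right (dvd_mul_right _ _)).1 h3
    have h3 := Nat.le_of_dvd (by omega) h2
    omega
  obtain ⟨j, rfl⟩ : ∃ j, J = j + 2 := ⟨J - 2, by omega⟩
  refine ⟨a, j, ha, ?_, ?_, ?_, ?_⟩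
  · have : (p + 1) * (j + 2) = (p + 1) * j + 2 * p + 2 := by ring
    omega
  · rw [ha, Nat.mul_div_cancel_left _ (Nat.succ_pos p)]
  · rw [hJ, Nat.mul_div_cancel_left _ (Nat.succ_pos p)]
    omega
  · have e1 : (p + 1) * (a + j) = (p + 1) * a + (p + 1) * j := by ring
    have e2 : (p + 1) * (j + 2) = (p + 1) * j + 2 * p + 2 := by ring
    have e3 : (p + 1) * (2 * r) + 2 * p = 2 * (p + (r * p + r)) := by ring
    omega

/-- The one-variable polynomial attached to `G`. -/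
noncomputable def Psi (p : ℕ) (G : MvPolynomial (Fin 6) k) : Polynomial k :=
  ∑ d ∈ G.support with Good p d,
    Polynomial.C (G.coeff d * ((-2) ^ d 0 * (-1) ^ d 4)) *
      (Polynomial.X ^ ((d 0 + d 1) / (p + 1)) *
        (-(1 + Polynomial.X)) ^ ((d 1 + d 2 + 2 * d 4 + 2) / (p + 1) - 2))

theorem deg_eq {n : ℕ} {G : MvPolynomial (Fin 6) k} (hG : G.IsHomogeneous n)
    {d : Fin 6 →₀ ℕ} (hd : d ∈ G.support) : d 0 + d 1 + d 2 + d 3 + d 4 + d 5 = n := by
  have := hG (mem_support_iff.1 hd)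
  rw [Finsupp.weight_apply, Finsupp.sum_fintype] at this
  · simpa [Fin.sum_univ_six] using this
  · simp

theorem eval_Psi (hr : p = 2 * r + 1) {G : MvPolynomial (Fin 6) k}
    (hG : G.IsHomogeneous (p + (r * p + r))) {c l t : k} (hc : c ^ (p + 1) = t)
    (hl : l ^ (p + 1) = -(1 + t)) :
    ∑ d ∈ G.support with Good p d,
        G.coeff d * ((-2 * c) ^ d 0 * (l * c) ^ d 1 * l ^ d 2 * (-(l ^ 2)) ^ d 4)
      = l ^ (2 * p) * (Psi p G).eval t := by
  rw [Psi, Polynomial.eval_finsetSum, Finset.mul_sum]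
  refine Finset.sum_congr rfl fun d hd => ?_
  rw [Finset.mem_filter] at hd
  obtain ⟨a, j, h1, h2, h3, h4, h5⟩ := good_num hr hd.2 (deg_eq hG hd.1)
  rw [h3, h4]
  simp only [Polynomial.eval_mul, Polynomial.eval_C, Polynomial.eval_pow, Polynomial.eval_X,
    Polynomial.eval_neg, Polynomial.eval_add, Polynomial.eval_one]
  rw [← hl, ← hc, ← pow_mul, ← pow_mul]
  have e1 : (-2 * c) ^ d 0 * (l * c) ^ d 1 * l ^ d 2 * (-(l ^ 2)) ^ d 4
      = (-2) ^ d 0 * (-1) ^ d 4 * c ^ (d 0 + d 1) * l ^ (d 1 + d 2 + 2 * d 4) := by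
    rw [neg_pow (l ^ 2), mul_pow, mul_pow, pow_add, pow_add, pow_add, pow_mul l 2]
    ring
  rw [e1, h1, h2, pow_add]
  ring

/-- Top coefficient of `Psi`. -/
theorem coeff_term (a j N : ℕ) (haj : a + j ≤ N) :
    (Polynomial.X ^ a * (-(1 + Polynomial.X)) ^ j : Polynomial k).coeff N
      = if a + j = N then (-1) ^ j else 0 := by
  have hmon : (1 + Polynomial.X : Polynomial k).Monic := by
    rw [add_comm]; exact Polynomial.monic_X_add_C 1
  have hdeg : ((1 + Polynomial.X : Polynomial k) ^ j).natDegree = j := by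
    rw [hmon.natDegree_pow, add_comm, ← Polynomial.C_1, Polynomial.natDegree_X_add_C, mul_one]
  have e : (Polynomial.X ^ a * (-(1 + Polynomial.X)) ^ j : Polynomial k)
      = Polynomial.C ((-1) ^ j) * ((1 + Polynomial.X) ^ j * Polynomial.X ^ a) := by
    rw [neg_pow, Polynomial.C_pow, Polynomial.C_neg, Polynomial.C_1]
    ring
  rw [e, Polynomial.coeff_C_mul]
  split_ifs with h
  · rw [← h, add_comm a j, Polynomial.coeff_mul_X_pow]
    have : ((1 + Polynomial.X : Polynomial k) ^ j).coeff j = 1 := by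
      have h2 := (hmon.pow j).coeff_natDegree
      rwa [hdeg] at h2
    rw [this, mul_one]
  · rw [Polynomial.coeff_eq_zero_of_natDegree_lt, mul_zero]
    refine lt_of_le_of_lt Polynomial.natDegree_mul_le ?_
    rw [hdeg, Polynomial.natDegree_X_pow]
    omega

theorem natDegree_term (a j N : ℕ) (haj : a + j ≤ N) (c : k) :
    (Polynomial.C c * (Polynomial.X ^ a * (-(1 + Polynomial.X)) ^ j)).natDegree ≤ N := by
  refine le_trans (Polynomial.natDegree_C_mul_le _ _) ?_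
  refine le_trans Polynomial.natDegree_mul_le ?_
  have h1 : ((-(1 + Polynomial.X) : Polynomial k) ^ j).natDegree ≤ j := by
    refine le_trans Polynomial.natDegree_pow_le ?_
    have : (-(1 + Polynomial.X) : Polynomial k).natDegree ≤ 1 := by
      rw [Polynomial.natDegree_neg, add_comm, ← Polynomial.C_1, Polynomial.natDegree_X_add_C]
    calc j * (-(1 + Polynomial.X) : Polynomial k).natDegree ≤ j * 1 :=
          Nat.mul_le_mul_left _ this
      _ = j := mul_one j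
  have h2 : ((Polynomial.X : Polynomial k) ^ a).natDegree ≤ a := Polynomial.natDegree_X_pow_le a
  omega

theorem natDegree_Psi (hr : p = 2 * r + 1) {G : MvPolynomial (Fin 6) k}
    (hG : G.IsHomogeneous (p + (r * p + r))) : (Psi p G).natDegree ≤ 2 * r := by
  refine Polynomial.natDegree_sum_le_of_forall_le _ _ fun d hd => ?_
  rw [Finset.mem_filter] at hd
  obtain ⟨a, j, h1, h2, h3, h4, h5⟩ := good_num hr hd.2 (deg_eq hG hd.1)
  rw [h3, h4]
  apply natDegree_term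
  have : (p + 1) * (a + j) ≤ (p + 1) * (2 * r) := by omega
  exact Nat.le_of_mul_le_mul_left this (Nat.succ_pos p)

theorem coeff_Psi (hr : p = 2 * r + 1) {G : MvPolynomial (Fin 6) k}
    (hG : G.IsHomogeneous (p + (r * p + r))) {l : k} (hl : l ^ (p + 1) = -1) :
    l ^ (2 * p) * (Psi p G).coeff (2 * r) =
      ∑ d ∈ G.support with Good p d,
        G.coeff d * (0 ^ d 0 * l ^ d 1 * 0 ^ d 2 * (-(l ^ 2)) ^ d 4) := by
  rw [Psi, Polynomial.finsetSum_coeff, Finset.mul_sum]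
  refine Finset.sum_congr rfl fun d hd => ?_
  rw [Finset.mem_filter] at hd
  obtain ⟨a, j, h1, h2, h3, h4, h5⟩ := good_num hr hd.2 (deg_eq hG hd.1)
  have hle : a + j ≤ 2 * r := by
    have : (p + 1) * (a + j) ≤ (p + 1) * (2 * r) := by omega
    exact Nat.le_of_mul_le_mul_left this (Nat.succ_pos p)
  rw [h3, h4, Polynomial.coeff_C_mul, coeff_term _ _ _ hle]
  split_ifs with h
  · rw [h] at h5
    have h0 : d 0 = 0 := by omega
    have h2' : d 2 = 0 := by omega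
    have e1 : l ^ d 1 * (-(l ^ 2)) ^ d 4 = (-1) ^ d 4 * l ^ (d 1 + d 2 + 2 * d 4) := by
      rw [neg_pow (l ^ 2), h2', add_zero, pow_add, pow_mul l 2]
      ring
    have e2 : G.coeff d * (0 ^ 0 * l ^ d 1 * 0 ^ 0 * (-(l ^ 2)) ^ d 4)
        = G.coeff d * ((-1) ^ d 4 * ((-1) ^ j * l ^ (2 * p))) := by
      rw [pow_zero, one_mul, mul_one, e1, h2, pow_add, pow_mul, hl]
    rw [h0, h2', e2]
    ring
  · have h0 : d 0 ≠ 0 ∨ d 2 ≠ 0 := by
      by_contra hcon
      push Not at hcon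
      rw [hcon.1, hcon.2, add_zero, add_zero] at h5
      exact h (Nat.eq_of_mul_eq_mul_left (Nat.succ_pos p) h5)
    rcases h0 with h0 | h0
    · rw [zero_pow h0]; ring
    · rw [zero_pow h0]; ring

end

section Points

variable {p r : ℕ} [Fact p.Prime] [CharP k p] [IsAlgClosed k]

theorem two_pow_p : (2 : k) ^ p = 2 := by
  have h : (1 + 1 : k) ^ p = 1 ^ p + 1 ^ p := add_pow_char _ _ _
  rw [one_pow] at h
  have e : (1 + 1 : k) = 2 := by norm_num
  rw [e] at h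
  exact h

/-- Values at the non-rational torus points. -/
theorem value_Q (hr : p = 2 * r + 1) (G : MvPolynomial (Fin 6) k)
    (hG : ∀ (m : Fin 3 → k) (δ x y : k), Herm p m → m ≠ 0 → IsDelta p m δ →
      eval (th p m x y) G = eta p r 0 m δ x y) {m0 c1 : k} (hm0 : m0 ≠ 0) (hc1 : c1 ≠ 0)
    (hc : c1 ^ (p ^ 2) = -c1) (hm : m0 ^ (p + 1) = -(1 + c1 ^ (p + 1))) :
    eval ![-2 * c1 ^ p, m0 ^ p * c1 ^ p, m0 ^ p, 0, -((m0 ^ p) ^ 2), 0] G
      = m0 ^ (p ^ 2 + 1) * (c1 ^ (p + 1)) ^ r := by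
  have hodd : Odd p := ⟨r, hr⟩
  have h2 : (2 : k) ≠ 0 := two_ne hr
  set κ := c1 ^ (p + 1) with hκ
  have hκp : κ ^ p = -κ := by
    have : κ ^ p = c1 ^ (p ^ 2) * c1 ^ p := by rw [hκ]; ring
    rw [this, hc, hκ]
    ring
  have hE : m0 ^ (p ^ 2) * m0 ^ p = -(1 - κ) := by
    have : m0 ^ (p ^ 2) * m0 ^ p = (m0 ^ (p + 1)) ^ p := by ring
    rw [this, hm, hodd.neg_pow, add_pow_char, one_pow, hκp]
    ring
  have hm' : m0 * m0 ^ p = -(1 + κ) := by rw [← pow_succ']; exact hm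
  have hu : m0 ^ p ≠ 0 := pow_ne_zero _ hm0
  set m : Fin 3 → k := ![m0, 1, c1] with hmdef
  have hHerm : Herm p m := by
    change m0 ^ (p + 1) + 1 ^ (p + 1) + c1 ^ (p + 1) = 0
    rw [hm]; ring
  have hmne : m ≠ 0 := by
    intro h
    exact hm0 (congrFun h 0)
  set δ : k := -(2 * c1) / m0 ^ p with hδ
  have hIs : IsDelta p m δ := by
    refine ⟨?_, ?_, ?_⟩
    · change 1 * c1 ^ (p ^ 2) - c1 * 1 ^ (p ^ 2) = δ * m0 ^ p
      rw [hc, hδ]
      field_simp
      ring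
    · change c1 * m0 ^ (p ^ 2) - m0 * c1 ^ (p ^ 2) = δ * 1 ^ p
      rw [hc, hδ, one_pow, mul_one, eq_div_iff hu]
      linear_combination c1 * hE + c1 * hm'
    · change m0 * 1 ^ (p ^ 2) - 1 * m0 ^ (p ^ 2) = δ * c1 ^ p
      rw [one_pow, hδ, div_mul_eq_mul_div, eq_div_iff hu]
      linear_combination hm' - hE
  have h := hG m δ (-(m0 ^ p) ^ 2 / (2 * c1)) ((m0 ^ p) ^ 2 / (2 * c1)) hHerm hmne hIs
  have hth : th p m (-(m0 ^ p) ^ 2 / (2 * c1)) ((m0 ^ p) ^ 2 / (2 * c1))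
      = ![-2 * c1 ^ p, m0 ^ p * c1 ^ p, m0 ^ p, 0, -((m0 ^ p) ^ 2), 0] := by
    funext i
    fin_cases i
    · change -(m0 ^ p) ^ 2 / (2 * c1) * (m0 * m0)
        + (m0 ^ p) ^ 2 / (2 * c1) * (m0 ^ (p ^ 2) * m0 ^ (p ^ 2)) = -2 * c1 ^ p
      rw [div_mul_eq_mul_div, div_mul_eq_mul_div, ← add_div, div_eq_iff (mul_ne_zero h2 hc1)]
      have e : κ = c1 * c1 ^ p := by rw [hκ]; ring
      linear_combination (m0 ^ (p ^ 2) * m0 ^ p - (1 - κ)) * hE
        - (m0 * m0 ^ p - (1 + κ)) * hm' - 4 * e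
    · change -(m0 ^ p) ^ 2 / (2 * c1) * (m0 * 1)
        + (m0 ^ p) ^ 2 / (2 * c1) * (m0 ^ (p ^ 2) * 1 ^ (p ^ 2)) = m0 ^ p * c1 ^ p
      rw [div_mul_eq_mul_div, div_mul_eq_mul_div, ← add_div, div_eq_iff (mul_ne_zero h2 hc1),
        one_pow]
      have e : κ = c1 * c1 ^ p := by rw [hκ]; ring
      linear_combination (m0 ^ p) * hE - m0 ^ p * hm' + 2 * m0 ^ p * e
    · change -(m0 ^ p) ^ 2 / (2 * c1) * (m0 * c1)
        + (m0 ^ p) ^ 2 / (2 * c1) * (m0 ^ (p ^ 2) * c1 ^ (p ^ 2)) = m0 ^ p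
      rw [hc, div_mul_eq_mul_div, div_mul_eq_mul_div, ← add_div,
        div_eq_iff (mul_ne_zero h2 hc1)]
      linear_combination (-(m0 ^ p * c1)) * hE - m0 ^ p * c1 * hm'
    · change -(m0 ^ p) ^ 2 / (2 * c1) * (1 * 1)
        + (m0 ^ p) ^ 2 / (2 * c1) * (1 ^ (p ^ 2) * 1 ^ (p ^ 2)) = 0
      rw [one_pow, neg_div]
      ring
    · change -(m0 ^ p) ^ 2 / (2 * c1) * (1 * c1)
        + (m0 ^ p) ^ 2 / (2 * c1) * (1 ^ (p ^ 2) * c1 ^ (p ^ 2)) = -((m0 ^ p) ^ 2)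
      rw [one_pow, hc, div_mul_eq_mul_div, div_mul_eq_mul_div, ← add_div,
        div_eq_iff (mul_ne_zero h2 hc1)]
      ring
    · change -(m0 ^ p) ^ 2 / (2 * c1) * (c1 * c1)
        + (m0 ^ p) ^ 2 / (2 * c1) * (c1 ^ (p ^ 2) * c1 ^ (p ^ 2)) = 0
      rw [hc, neg_div]
      ring
  rw [hth] at h
  rw [h, eta]
  have e2 : p ^ 2 + 2 * r = p + (r * p + r) + (r * p + r) := by
    rw [hr]; ring
  have e3 : (-(m0 ^ p) ^ 2 / (2 * c1)) ^ p * ((m0 ^ p) ^ 2 / (2 * c1)) ^ (r * p + r)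
      * δ ^ (p ^ 2 + 2 * r) = (m0 ^ p) ^ p * (2 * c1) ^ (r * p + r) := by
    set u := m0 ^ p with hu'
    set w := 2 * c1 with hw
    have hw0 : w ≠ 0 := mul_ne_zero h2 hc1
    rw [hδ, e2, show -u ^ 2 / w = -(u ^ 2 / w) by ring, show -w / u = -(w / u) by ring,
      hodd.neg_pow]
    have hodd2 : Odd (p + (r * p + r) + (r * p + r)) := by
      rw [← e2, hr]
      exact ⟨2 * r ^ 2 + 3 * r, by ring⟩
    rw [hodd2.neg_pow, neg_mul, neg_mul_neg]
    have e4 : (u ^ 2 / w) ^ p * (u ^ 2 / w) ^ (r * p + r) * (w / u) ^ (p + (r * p + r) + (r * p + r))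
        = ((u ^ 2 / w) * (w / u)) ^ (p + (r * p + r)) * (w / u) ^ (r * p + r) := by
      rw [mul_pow, pow_add (u ^ 2 / w) p (r * p + r), pow_add (w / u) (p + (r * p + r))]
      ring
    have e5 : (u ^ 2 / w) * (w / u) = u := by field_simp
    rw [e4, e5, pow_add, mul_assoc, ← mul_pow]
    congr 2
    field_simp
  have e6 : (2 * c1) ^ (r * p + r) = κ ^ r := by
    have h2p : (2 : k) ^ (r * p + r) = 1 := by
      have h3 : (2 : k) ^ (2 * r) * 2 = 1 * 2 := by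
        rw [← pow_succ, ← hr, two_pow_p, one_mul]
      have h4 : (2 : k) ^ (2 * r) = 1 := mul_right_cancel₀ h2 h3
      calc (2 : k) ^ (r * p + r) = (2 ^ p) ^ r * 2 ^ r := by rw [pow_add, mul_comm r p, pow_mul]
        _ = 2 ^ (2 * r) := by rw [two_pow_p]; ring
        _ = 1 := h4
    rw [mul_pow, h2p, one_mul, hκ, ← pow_mul]
    congr 1
    ring
  calc (-(m0 ^ p) ^ 2 / (2 * c1)) ^ p * ((m0 ^ p) ^ 2 / (2 * c1)) ^ (r * p + r)
        * δ ^ (p ^ 2 + 2 * r) * m 0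
      = (m0 ^ p) ^ p * κ ^ r * m0 := by rw [e3, e6]; rfl
    _ = m0 ^ (p ^ 2 + 1) * κ ^ r := by ring

/-- Values at the first family of rational tangent lines. -/
theorem value_one (hr : p = 2 * r + 1) (G : MvPolynomial (Fin 6) k)
    (hG : ∀ (m : Fin 3 → k) (δ x y : k), Herm p m → m ≠ 0 → IsDelta p m δ →
      eval (th p m x y) G = eta p r 0 m δ x y) {l : k} (hl : l ^ (p + 1) = -1) :
    eval ![0, 0, l, 0, -(l ^ 2), 0] G = 0 := by
  have hodd : Odd p := ⟨r, hr⟩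
  have heven : Even (p + 1) := hodd.add_one
  have hlq : l ^ (p ^ 2) = l := by
    have e : l ^ (p ^ 2) * l ^ p = (l ^ (p + 1)) ^ p := by ring
    rw [hl, hodd.neg_one_pow] at e
    have e2 : l * l ^ p = -1 := by rw [← pow_succ']; exact hl
    have hl0 : l ^ p ≠ 0 := by
      intro h
      rw [h, mul_zero] at e2
      exact one_ne_zero (neg_eq_zero.1 e2.symm)
    exact mul_right_cancel₀ hl0 (e.trans e2.symm)
  have hp0' : p ≠ 0 := (Fact.out : p.Prime).ne_zero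
  have h := closed_eta hr G hG ![1, -l, 0] 0 (-(l ^ 2)) (by
    change (1 : k) ^ (p + 1) + (-l) ^ (p + 1) + 0 ^ (p + 1) = 0
    rw [heven.neg_pow, hl]
    simp) (by simp) (by simp [cr, hp0'])
  have hth : thE p ![1, -l, 0] 0 (-(l ^ 2)) = ![0, 0, l, 0, -(l ^ 2), 0] := by
    have hp0 : p ≠ 0 := (Fact.out : p.Prime).ne_zero
    have hq : Odd (p ^ 2) := hodd.pow
    funext i
    fin_cases i
    · simp [thE]
    · change 0 * (1 * -l) + -(l ^ 2) * (1 * 1 ^ (p ^ 2) * 0 ^ p) = 0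
      rw [zero_pow hp0]; ring
    · change 0 * (1 * 0) - -(l ^ 2) * (1 * 1 ^ (p ^ 2) * (-l) ^ p) = l
      rw [hodd.neg_pow, one_pow]
      linear_combination (-l) * hl
    · change 0 * (-l * -l) + -(l ^ 2) * (0 ^ p * (1 ^ (p ^ 2) * -l + 1 * (-l) ^ (p ^ 2))) = 0
      rw [zero_pow hp0]; ring
    · change 0 * (-l * 0) + -(l ^ 2) * (1 ^ (p ^ 2) * 0 ^ p * 0 - 1 * (-l) ^ (p ^ 2) * (-l) ^ p)
        = -(l ^ 2)
      rw [hq.neg_pow, hlq, hodd.neg_pow]
      linear_combination (l ^ 2) * hl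
    · change 0 * (0 * 0) - -(l ^ 2) * ((-l) ^ p * (1 ^ (p ^ 2) * 0 + 1 * 0 ^ (p ^ 2))) = 0
      rw [zero_pow (by positivity : p ^ 2 ≠ 0)]; ring
  rw [hth] at h
  exact h

/-- Values at the second family of rational tangent lines. -/
theorem value_two (hr : p = 2 * r + 1) (G : MvPolynomial (Fin 6) k)
    (hG : ∀ (m : Fin 3 → k) (δ x y : k), Herm p m → m ≠ 0 → IsDelta p m δ →
      eval (th p m x y) G = eta p r 0 m δ x y) {t s : k} (ht : t ^ (p + 1) = -1)
    (hs : s ^ (p + 1) = 1) :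
    eval ![0, t, 0, 0, s, 0] G = 0 := by
  have hodd : Odd p := ⟨r, hr⟩
  have heven : Even (p + 1) := hodd.add_one
  have hp0 : p ≠ 0 := (Fact.out : p.Prime).ne_zero
  have hs0 : s ≠ 0 := by
    rintro rfl
    rw [zero_pow (by omega)] at hs
    exact zero_ne_one hs
  set b : k := -(t / s) ^ p with hb
  have hts : (t / s) ^ (p + 1) = -1 := by rw [div_pow, ht, hs, div_one]
  have hb1 : b ^ (p + 1) = -1 := by
    rw [hb, heven.neg_pow, ← pow_mul, mul_comm, pow_mul, hts, hodd.neg_one_pow]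
  have hbp : b ^ p = -(t / s) := by
    rw [hb, hodd.neg_pow]
    have e : ((t / s) ^ p) ^ p * (t / s) ^ p = (t / s) * (t / s) ^ p := by
      have e1 : ((t / s) ^ p) ^ p * (t / s) ^ p = ((t / s) ^ (p + 1)) ^ p := by ring
      rw [e1, hts, hodd.neg_one_pow, ← pow_succ', hts]
    have hne : (t / s) ^ p ≠ 0 := by
      intro h
      rw [pow_succ, h, zero_mul] at hts
      exact one_ne_zero (neg_eq_zero.1 hts.symm)
    rw [mul_right_cancel₀ hne e]
  have h := closed_eta hr G hG ![1, 0, b] 0 (-s) (by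
    change (1 : k) ^ (p + 1) + 0 ^ (p + 1) + b ^ (p + 1) = 0
    rw [hb1]
    simp) (by simp) (by simp [cr, hp0])
  have hth : thE p ![1, 0, b] 0 (-s) = ![0, t, 0, 0, s, 0] := by
    funext i
    fin_cases i
    · simp [thE]
    · change 0 * (1 * 0) + -s * (1 * 1 ^ (p ^ 2) * b ^ p) = t
      rw [hbp, one_pow]
      field_simp
      ring
    · change 0 * (1 * b) - -s * (1 * 1 ^ (p ^ 2) * 0 ^ p) = 0
      rw [zero_pow hp0]; ring
    · change 0 * (0 * 0) + -s * (b ^ p * (1 ^ (p ^ 2) * 0 + 1 * 0 ^ (p ^ 2))) = 0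
      rw [zero_pow (by positivity : p ^ 2 ≠ 0)]; ring
    · change 0 * (0 * b) + -s * (1 ^ (p ^ 2) * b ^ p * b - 1 * 0 ^ (p ^ 2) * 0 ^ p) = s
      rw [zero_pow hp0, one_pow]
      linear_combination (-s) * hb1
    · change 0 * (b * b) - -s * (0 ^ p * (1 ^ (p ^ 2) * b + 1 * b ^ (p ^ 2))) = 0
      rw [zero_pow hp0]; ring
  rw [hth] at h
  exact h

end Points

end Pool.Agent.PRank
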