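import Pool.Agent.PRank.NotOne2

/-!
The function `η₀` is not a polynomial in the matrix entries, conclusion.
-/

namespace Pool.Agent.PRank

set_option linter.unusedSectionVars false

open MvPolynomial Finset

variable {k : Type*} [Field k]

section

variable {p r : ℕ} [Fact p.Prime] [CharP k p] [IsAlgClosed k]

/-- The averaged value at the non-rational torus points. -/
theorem avg_Q (hr : p = 2 * r + 1) (G : MvPolynomial (Fin 6) k)
    (hG : ∀ (m : Fin 3 → k) (δ x y : k), Herm p m → m ≠ 0 → IsDelta p m δ →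
      eval (th p m x y) G = eta p r 0 m δ x y) {ζ : k} (hζ : IsPrimitiveRoot ζ (p + 1))
    {m0 c1 : k} (hm0 : m0 ≠ 0) (hc1 : c1 ≠ 0)
    (hc : c1 ^ (p ^ 2) = -c1) (hm : m0 ^ (p + 1) = -(1 + c1 ^ (p + 1))) :
    ∑ d ∈ G.support with Good p d,
        G.coeff d * ((-2 * c1 ^ p) ^ d 0 * (m0 ^ p * c1 ^ p) ^ d 1 * (m0 ^ p) ^ d 2 *
          (-((m0 ^ p) ^ 2)) ^ d 4)
      = m0 ^ (p ^ 2 + 1) * (c1 ^ (p + 1)) ^ r := by
  rw [← avg_four hζ]
  have hq : p ^ 2 = (p + 1) * (p - 1) + 1 := by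
    have hp1 : 1 ≤ p := (Fact.out : p.Prime).one_le
    obtain ⟨s, rfl⟩ : ∃ s, p = s + 1 := ⟨p - 1, by omega⟩
    simp only [Nat.add_sub_cancel]
    ring
  have hζi : ∀ i : ℕ, (ζ ^ i) ^ (p + 1) = 1 := fun i => by
    rw [← pow_mul, mul_comm, pow_mul, hζ.pow_eq_one, one_pow]
  have hζq : ∀ i : ℕ, (ζ ^ i) ^ (p ^ 2) = ζ ^ i := fun i => by
    rw [hq, pow_succ, pow_mul, hζi, one_pow, one_mul]
  have key : ∀ i ∈ range (p + 1), ∀ j ∈ range (p + 1), (ζ ^ i) ^ 2 *
      eval ![ζ ^ j * (-2 * c1 ^ p), ζ ^ i * ζ ^ j * (m0 ^ p * c1 ^ p), ζ ^ i * m0 ^ p, 0,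
        (ζ ^ i) ^ 2 * (-((m0 ^ p) ^ 2)), 0] G = m0 ^ (p ^ 2 + 1) * (c1 ^ (p + 1)) ^ r := by
    intro i _ j _
    set a := ζ ^ i with ha
    set b := ζ ^ j with hb
    have ha1 : a ^ (p + 1) = 1 := hζi i
    have hb1 : b ^ (p + 1) = 1 := hζi j
    have haq : (a ^ p) ^ p = a := by rw [← pow_mul, ← pow_two]; exact hζq i
    have hbq : (b ^ p) ^ p = b := by rw [← pow_mul, ← pow_two]; exact hζq j
    have ha0 : a ≠ 0 := by
      intro h
      rw [h, zero_pow (by omega)] at ha1
      exact zero_ne_one ha1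
    have hb0 : b ≠ 0 := by
      intro h
      rw [h, zero_pow (by omega)] at hb1
      exact zero_ne_one hb1
    have hap1 : (a ^ p) ^ (p + 1) = 1 := by rw [← pow_mul, mul_comm, pow_mul, ha1, one_pow]
    have hbp1 : (b ^ p) ^ (p + 1) = 1 := by rw [← pow_mul, mul_comm, pow_mul, hb1, one_pow]
    have h := value_Q hr G hG (m0 := a ^ p * m0) (c1 := b ^ p * c1)
      (mul_ne_zero (pow_ne_zero _ ha0) hm0) (mul_ne_zero (pow_ne_zero _ hb0) hc1)
      (by
        rw [mul_pow, hc]
        have : (b ^ p) ^ (p ^ 2) = b ^ p := by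
          rw [← pow_mul, mul_comm, pow_mul, hζq j]
        rw [this]
        ring)
      (by rw [mul_pow, mul_pow, hap1, hbp1, one_mul, one_mul, hm])
    rw [mul_pow, mul_pow, haq, hbq, mul_pow (b ^ p), hbp1, one_mul] at h
    have e1 : (![b * (-2 * c1 ^ p), a * b * (m0 ^ p * c1 ^ p), a * m0 ^ p, 0,
        a ^ 2 * (-((m0 ^ p) ^ 2)), 0] : Fin 6 → k)
        = ![-2 * (b * c1 ^ p), a * m0 ^ p * (b * c1 ^ p), a * m0 ^ p, 0,
        -((a * m0 ^ p) ^ 2), 0] := by
      funext i
      fin_cases i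
      · change b * (-2 * c1 ^ p) = -2 * (b * c1 ^ p); ring
      · change a * b * (m0 ^ p * c1 ^ p) = a * m0 ^ p * (b * c1 ^ p); ring
      · rfl
      · rfl
      · change a ^ 2 * (-((m0 ^ p) ^ 2)) = -((a * m0 ^ p) ^ 2); ring
      · rfl
    rw [e1, h, mul_pow]
    have e2 : a ^ 2 * (a ^ p) ^ (p ^ 2 + 1) = 1 := by
      rw [← pow_mul a p, ← pow_add]
      have : 2 + p * (p ^ 2 + 1) = (p + 1) * (p ^ 2 - p + 2) := by
        have hle : p ≤ p ^ 2 := Nat.le_self_pow (by norm_num) p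
        zify [hle]
        ring
      rw [this, pow_mul, ha1, one_pow]
    linear_combination (m0 ^ (p ^ 2 + 1) * (c1 ^ (p + 1)) ^ r) * e2
  rw [Finset.sum_congr rfl fun i hi => Finset.sum_congr rfl fun j hj => key i hi j hj]
  simp

/-- The avg of zeros, first family. -/
theorem avg_one (hr : p = 2 * r + 1) (G : MvPolynomial (Fin 6) k)
    (hG : ∀ (m : Fin 3 → k) (δ x y : k), Herm p m → m ≠ 0 → IsDelta p m δ →
      eval (th p m x y) G = eta p r 0 m δ x y) {ζ : k} (hζ : IsPrimitiveRoot ζ (p + 1))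
    {l : k} (hl : l ^ (p + 1) = -1) :
    ∑ d ∈ G.support with Good p d,
        G.coeff d * ((-2 * 0) ^ d 0 * (l * 0) ^ d 1 * l ^ d 2 * (-(l ^ 2)) ^ d 4) = 0 := by
  rw [← avg_four hζ]
  have hζi : ∀ i : ℕ, (ζ ^ i) ^ (p + 1) = 1 := fun i => by
    rw [← pow_mul, mul_comm, pow_mul, hζ.pow_eq_one, one_pow]
  refine Finset.sum_eq_zero fun i _ => Finset.sum_eq_zero fun j _ => ?_
  have h := value_one hr G hG (l := ζ ^ i * l) (by rw [mul_pow, hζi, one_mul, hl])
  have e1 : (![ζ ^ j * (-2 * 0), ζ ^ i * ζ ^ j * (l * 0), ζ ^ i * l, 0,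
      (ζ ^ i) ^ 2 * (-(l ^ 2)), 0] : Fin 6 → k)
      = ![0, 0, ζ ^ i * l, 0, -((ζ ^ i * l) ^ 2), 0] := by
    funext i
    fin_cases i
    · change ζ ^ j * (-2 * 0) = 0; ring
    · change _ * (l * 0) = 0; ring
    · rfl
    · rfl
    · change _ ^ 2 * (-(l ^ 2)) = -((_ * l) ^ 2); ring
    · rfl
  rw [e1, h, mul_zero]

/-- The avg of zeros, second family. -/
theorem avg_two (hr : p = 2 * r + 1) (G : MvPolynomial (Fin 6) k)
    (hG : ∀ (m : Fin 3 → k) (δ x y : k), Herm p m → m ≠ 0 → IsDelta p m δ →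
      eval (th p m x y) G = eta p r 0 m δ x y) {ζ : k} (hζ : IsPrimitiveRoot ζ (p + 1))
    {l : k} (hl : l ^ (p + 1) = -1) :
    ∑ d ∈ G.support with Good p d,
        G.coeff d * (0 ^ d 0 * l ^ d 1 * 0 ^ d 2 * (-(l ^ 2)) ^ d 4) = 0 := by
  rw [← avg_four hζ]
  have hodd : Odd p := ⟨r, hr⟩
  have heven : Even (p + 1) := hodd.add_one
  have hζi : ∀ i : ℕ, (ζ ^ i) ^ (p + 1) = 1 := fun i => by
    rw [← pow_mul, mul_comm, pow_mul, hζ.pow_eq_one, one_pow]
  refine Finset.sum_eq_zero fun i _ => Finset.sum_eq_zero fun j _ => ?_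
  have h := value_two hr G hG (t := ζ ^ i * ζ ^ j * l) (s := (ζ ^ i) ^ 2 * (-(l ^ 2)))
    (by rw [mul_pow, mul_pow, hζi, hζi, one_mul, one_mul, hl])
    (by rw [mul_pow, ← pow_mul, mul_comm 2, pow_mul, hζi, one_pow, one_mul, heven.neg_pow,
          ← pow_mul, mul_comm 2, pow_mul, hl]; ring)
  rw [mul_zero, mul_zero, h, mul_zero]

theorem psi_relation (hr : p = 2 * r + 1) {G : MvPolynomial (Fin 6) k}
    (hhom : G.IsHomogeneous (p + (r * p + r)))
    (hG : ∀ (m : Fin 3 → k) (δ x y : k), Herm p m → m ≠ 0 → IsDelta p m δ →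
      eval (th p m x y) G = eta p r 0 m δ x y) {ζ : k} (hζ : IsPrimitiveRoot ζ (p + 1))
    {t : k} (ht : t ^ p = -t) (ht0 : t ≠ 0) :
    (1 + t) * (Psi p G).eval t = (1 - t) * (-t) ^ r := by
  have hodd : Odd p := ⟨r, hr⟩
  have heven : Even (p + 1) := hodd.add_one
  have h2 : (2 : k) ≠ 0 := two_ne hr
  have hp2 : 2 ≤ p := (Fact.out : p.Prime).two_le
  obtain ⟨c1, hc1⟩ := IsAlgClosed.exists_pow_nat_eq (-t : k) (Nat.succ_pos p)
  have hc1' : c1 ^ (p + 1) = -t := hc1
  have hc0 : c1 ≠ 0 := by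
    rintro rfl
    rw [zero_pow (by omega)] at hc1'
    exact ht0 (neg_eq_zero.1 hc1'.symm)
  obtain ⟨m0, hm0⟩ := IsAlgClosed.exists_pow_nat_eq (-(1 + c1 ^ (p + 1)) : k) (Nat.succ_pos p)
  have hm0' : m0 ^ (p + 1) = -(1 + c1 ^ (p + 1)) := hm0
  have hcq : c1 ^ (p ^ 2) = -c1 := by
    have e : c1 ^ (p ^ 2) * c1 ^ p = (c1 ^ (p + 1)) ^ p := by ring
    rw [hc1', hodd.neg_pow, ht, neg_neg] at e
    have e2 : c1 * c1 ^ p = -t := by rw [← pow_succ']; exact hc1'
    exact mul_right_cancel₀ (pow_ne_zero p hc0) (by linear_combination e + e2)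
  have hmne : m0 ≠ 0 := by
    rintro rfl
    rw [zero_pow (by omega), hc1'] at hm0'
    have ht1 : t = 1 := by linear_combination -hm0'
    rw [ht1, one_pow] at ht
    exact h2 (by linear_combination ht)
  have hA := avg_Q hr G hG hζ hmne hc0 hcq hm0'
  -- evaluation
  have hcp : (c1 ^ p) ^ (p + 1) = t := by
    rw [← pow_mul, mul_comm, pow_mul, hc1', hodd.neg_pow, ht, neg_neg]
  have hlp : (m0 ^ p) ^ (p + 1) = -(1 + t) := by
    rw [← pow_mul, mul_comm, pow_mul, hm0', hc1', hodd.neg_pow, add_pow_char, one_pow,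
      hodd.neg_pow, ht, neg_neg]
  rw [eval_Psi hr hhom hcp hlp, hc1'] at hA
  -- relation between powers of m0
  have hE : m0 ^ (p ^ 2) * m0 ^ p = -(1 + t) := by rw [← hlp]; ring
  have hm : m0 * m0 ^ p = -(1 - t) := by
    rw [← pow_succ', hm0', hc1']; ring
  have hX : m0 ^ (p ^ 2) * (m0 ^ (p ^ 2) * (Psi p G).eval t - m0 * (-t) ^ r) = 0 := by
    have e : (m0 ^ p) ^ (2 * p) = m0 ^ (p ^ 2) * m0 ^ (p ^ 2) := by ring
    rw [e] at hA
    have e2 : m0 ^ (p ^ 2 + 1) = m0 ^ (p ^ 2) * m0 := pow_succ _ _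
    rw [e2] at hA
    linear_combination hA
  have hY := (mul_eq_zero.1 hX).resolve_left (pow_ne_zero _ hmne)
  linear_combination (-(m0 ^ p)) * hY + (Psi p G).eval t * hE - (-t) ^ r * hm

/-- `η₀` is not polynomial in the matrix entries. -/
theorem eta_not_poly (hr : p = 2 * r + 1) :
    ¬ ∃ G : MvPolynomial (Fin 6) k, ∀ (m : Fin 3 → k) (δ x y : k), Herm p m → m ≠ 0 →
      IsDelta p m δ → eval (th p m x y) G = eta p r 0 m δ x y := by
  rintro ⟨G0, hG0⟩
  have hodd : Odd p := ⟨r, hr⟩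
  have heven : Even (p + 1) := hodd.add_one
  have h2 : (2 : k) ≠ 0 := two_ne hr
  have hp2 : 2 ≤ p := (Fact.out : p.Prime).two_le
  have hr1 : 1 ≤ r := by omega
  -- reduce to a homogeneous polynomial
  set G := homogeneousComponent (0 + (p + (r * p + r))) G0 with hGdef
  have hG : ∀ (m : Fin 3 → k) (δ x y : k), Herm p m → m ≠ 0 →
      IsDelta p m δ → eval (th p m x y) G = eta p r 0 m δ x y := by
    intro m δ x y h1 h2 h3
    have := homog_rep (p := p) (r := r) (e := 0) (G := G0) (M := 1) (i := 0)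
      (isHomogeneous_one _ _) (by
        intro m δ x y h1 h2 h3
        rw [hG0 m δ x y h1 h2 h3, map_one, one_mul]) m δ x y h1 h2 h3
    rw [this, map_one, one_mul]
  have hhom : G.IsHomogeneous (p + (r * p + r)) := by
    have h := homogeneousComponent_isHomogeneous (0 + (p + (r * p + r))) G0
    have e : 0 + (p + (r * p + r)) = p + (r * p + r) := zero_add _
    exact e ▸ h
  obtain ⟨ζ, hζ⟩ := exists_prim (p := p) (k := k)
  obtain ⟨l, hl⟩ := IsAlgClosed.exists_pow_nat_eq (-1 : k) (Nat.succ_pos p)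
  have hl' : l ^ (p + 1) = -1 := hl
  have hl0 : l ≠ 0 := by
    rintro rfl
    rw [zero_pow (by omega)] at hl'
    exact one_ne_zero (neg_eq_zero.1 hl'.symm)
  -- value at zero
  have hzero : (Psi p G).eval 0 = 0 := by
    have h1 := avg_one hr G hG hζ hl'
    rw [eval_Psi hr hhom (c := 0) (t := 0) (zero_pow (by omega)) (by rw [hl']; ring)] at h1
    exact (mul_eq_zero.1 h1).resolve_left (pow_ne_zero _ hl0)
  -- top coefficient
  have htop : (Psi p G).coeff (2 * r) = 0 := by
    have h1 := coeff_Psi hr hhom hl'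
    rw [avg_two hr G hG hζ hl'] at h1
    exact (mul_eq_zero.1 h1).resolve_left (pow_ne_zero _ hl0)
  -- the polynomial Φ
  set Φ : Polynomial k := (1 + Polynomial.X) * Psi p G
    - (1 - Polynomial.X) * (-Polynomial.X) ^ r with hΦ
  have hdegPsi : (Psi p G).degree < (2 * r : ℕ) := by
    rw [Polynomial.degree_lt_iff_coeff_zero]
    intro m hm
    rcases Nat.lt_or_ge (2 * r) m with h | h
    · exact Polynomial.coeff_eq_zero_of_natDegree_lt (lt_of_le_of_lt (natDegree_Psi hr hhom) h)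
    · have : m = 2 * r := le_antisymm h hm
      rw [this]; exact htop
  have hdegΦ : Φ.natDegree < p := by
    have h1 : (Psi p G).natDegree < 2 * r := by
      by_cases h0 : Psi p G = 0
      · rw [h0, Polynomial.natDegree_zero]; omega
      · exact (Polynomial.natDegree_lt_iff_degree_lt h0).2 hdegPsi
    have h3 : ((1 + Polynomial.X : Polynomial k) * Psi p G).natDegree ≤ 2 * r := by
      refine le_trans Polynomial.natDegree_mul_le ?_
      have : (1 + Polynomial.X : Polynomial k).natDegree = 1 := by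
        rw [add_comm, ← Polynomial.C_1, Polynomial.natDegree_X_add_C]
      omega
    have h4 : ((1 - Polynomial.X : Polynomial k) * (-Polynomial.X) ^ r).natDegree ≤ 2 * r := by
      refine le_trans Polynomial.natDegree_mul_le ?_
      have e1 : (1 - Polynomial.X : Polynomial k).natDegree ≤ 1 := by
        refine le_trans (Polynomial.natDegree_sub_le _ _) ?_
        simp
      have e2 : ((-Polynomial.X : Polynomial k) ^ r).natDegree ≤ r := by
        refine le_trans Polynomial.natDegree_pow_le ?_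
        rw [Polynomial.natDegree_neg, Polynomial.natDegree_X, mul_one]
      omega
    refine lt_of_le_of_lt (Polynomial.natDegree_sub_le _ _) ?_
    rw [max_lt_iff]
    omega
  -- its roots
  have hroots : ∀ t : k, t ^ p = -t → Φ.eval t = 0 := by
    intro t ht
    rw [hΦ]
    simp only [Polynomial.eval_sub, Polynomial.eval_mul, Polynomial.eval_add,
      Polynomial.eval_one, Polynomial.eval_X, Polynomial.eval_pow, Polynomial.eval_neg]
    by_cases ht0 : t = 0
    · rw [ht0, hzero, neg_zero, zero_pow (by omega)]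
      ring
    · rw [psi_relation hr hhom hG hζ ht ht0, sub_self]
  have hsep : (Polynomial.X ^ p + Polynomial.X : Polynomial k).Separable := by
    rw [Polynomial.separable_def]
    have hder : Polynomial.derivative (Polynomial.X ^ p + Polynomial.X : Polynomial k) = 1 := by
      rw [Polynomial.derivative_add, Polynomial.derivative_X_pow, Polynomial.derivative_X]
      rw [CharP.cast_eq_zero, Polynomial.C_0, zero_mul, zero_add]
    rw [hder]
    exact isCoprime_one_right
  have hnd : (Polynomial.X ^ p + Polynomial.X : Polynomial k).natDegree = p := by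
    rw [Polynomial.natDegree_add_eq_left_of_natDegree_lt]
    · exact Polynomial.natDegree_X_pow p
    · rw [Polynomial.natDegree_X_pow, Polynomial.natDegree_X]; omega
  have hne : (Polynomial.X ^ p + Polynomial.X : Polynomial k) ≠ 0 := by
    intro h
    rw [h, Polynomial.natDegree_zero] at hnd
    omega
  classical
  have hcard : (Polynomial.X ^ p + Polynomial.X : Polynomial k).roots.toFinset.card = p := by
    rw [Multiset.toFinset_card_of_nodup (Polynomial.nodup_roots hsep)]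
    rw [← (IsAlgClosed.splits _).natDegree_eq_card_roots, hnd]
  have hΦ0 : Φ = 0 := by
    refine Polynomial.eq_zero_of_natDegree_lt_card_of_eval_eq_zero' Φ
      (Polynomial.X ^ p + Polynomial.X : Polynomial k).roots.toFinset ?_ ?_
    · intro t ht
      apply hroots
      rw [Multiset.mem_toFinset, Polynomial.mem_roots hne] at ht
      have : t ^ p + t = 0 := by
        simpa [Polynomial.IsRoot] using ht
      linear_combination this
    · rw [hcard]; exact hdegΦ
  have hfin : Φ.eval (-1) = 0 := by rw [hΦ0, Polynomial.eval_zero]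
  rw [hΦ] at hfin
  simp only [Polynomial.eval_sub, Polynomial.eval_mul, Polynomial.eval_add,
    Polynomial.eval_one, Polynomial.eval_X, Polynomial.eval_pow, Polynomial.eval_neg] at hfin
  rw [neg_neg, one_pow] at hfin
  exact h2 (by linear_combination -hfin)

end

end Pool.Agent.PRank
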