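import Pool.Agent.PRank.Curve
import Pool.Agent.PRank.Fam

/-!
The overlap ring of the family is the free algebra `Q4`.
-/

namespace Pool.Agent.PRank

open LaurentPolynomial Q4

section

variable {R : Type*} [CommRing R] (c : Fin 6 → R)

/-- The overlap ring of the family in normal form. -/
abbrev QF : Type _ := QQ (c 5) (famA c) (famB c)

/-- The structure map. -/
noncomputable def ofR : R →+* QF c := (of : LaurentPolynomial R →+* QF c).comp C

/-- The map from polynomials. -/
noncomputable def psi0 : MvPolynomial (Fin 4) R →+* QF c :=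
  MvPolynomial.eval₂Hom (ofR c) ![of (T 1), of (T (-1)), Y _ _ _ _, W _ _ _ _]

theorem psi0_C (r : R) : psi0 c (MvPolynomial.C r) = of (C r) := by
  rw [psi0, MvPolynomial.eval₂Hom_C]; rfl

theorem psi0_X0 : psi0 c (MvPolynomial.X 0) = of (T 1) := by
  rw [psi0, MvPolynomial.eval₂Hom_X']; rfl

theorem psi0_X1 : psi0 c (MvPolynomial.X 1) = of (T (-1)) := by
  rw [psi0, MvPolynomial.eval₂Hom_X']; rfl

theorem psi0_X2 : psi0 c (MvPolynomial.X 2) = Y _ _ _ _ := by
  rw [psi0, MvPolynomial.eval₂Hom_X']; rfl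

theorem psi0_X3 : psi0 c (MvPolynomial.X 3) = W _ _ _ _ := by
  rw [psi0, MvPolynomial.eval₂Hom_X']; rfl

theorem relations_eq : relations c = Ideal.span {MvPolynomial.X 0 * MvPolynomial.X 1 - 1,
        MvPolynomial.X 2 ^ 2 + MvPolynomial.C (c 5) * MvPolynomial.X 3 - MvPolynomial.X 0,
        MvPolynomial.X 3 ^ 2 - (MvPolynomial.X 0 ^ 3 * MvPolynomial.X 2
          + MvPolynomial.C (c 4) * MvPolynomial.X 0 ^ 3
          + MvPolynomial.C (c 3) * MvPolynomial.X 0 ^ 2 * MvPolynomial.X 2
          + MvPolynomial.C (c 2) * MvPolynomial.X 0 ^ 2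
          + MvPolynomial.C (c 1) * MvPolynomial.X 0 * MvPolynomial.X 2
          + MvPolynomial.C (c 0) * MvPolynomial.X 0 - MvPolynomial.X 2)} := rfl

/-- The map from the overlap ring. -/
noncomputable def psi : Overlap c →+* QF c :=
  Ideal.Quotient.lift (relations c) (psi0 c) (by
    intro a ha
    have hle : Ideal.span {MvPolynomial.X 0 * MvPolynomial.X 1 - 1,
        MvPolynomial.X 2 ^ 2 + MvPolynomial.C (c 5) * MvPolynomial.X 3 - MvPolynomial.X 0,
        MvPolynomial.X 3 ^ 2 - (MvPolynomial.X 0 ^ 3 * MvPolynomial.X 2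
          + MvPolynomial.C (c 4) * MvPolynomial.X 0 ^ 3
          + MvPolynomial.C (c 3) * MvPolynomial.X 0 ^ 2 * MvPolynomial.X 2
          + MvPolynomial.C (c 2) * MvPolynomial.X 0 ^ 2
          + MvPolynomial.C (c 1) * MvPolynomial.X 0 * MvPolynomial.X 2
          + MvPolynomial.C (c 0) * MvPolynomial.X 0 - MvPolynomial.X 2)}
        ≤ RingHom.ker (psi0 c) := by
      rw [Ideal.span_le]
      rintro x (rfl | rfl | rfl)
      · rw [SetLike.mem_coe, RingHom.mem_ker, map_sub, map_mul, psi0_X0, psi0_X1, ← map_mul,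
          ← T_add, map_one]
        simp
      · rw [SetLike.mem_coe, RingHom.mem_ker, map_sub, map_add, map_mul, map_pow, psi0_X0,
          psi0_X2, psi0_X3, psi0_C, Y_sq]
        ring
      · rw [SetLike.mem_coe, RingHom.mem_ker]
        have eA : (of (famA c) : QF c) = of (C (c 4)) * of (T 1) ^ 3 + of (C (c 2)) * of (T 1) ^ 2
            + of (C (c 0)) * of (T 1) := by
          have h : famA c = C (c 4) * T 1 ^ 3 + C (c 2) * T 1 ^ 2 + C (c 0) * T 1 := by
            rw [famA, T_pow, T_pow]; norm_num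
          exact (congrArg of h).trans (by simp only [map_add, map_mul, map_pow])
        have eB : (of (famB c) : QF c) = of (T 1) ^ 3 + of (C (c 3)) * of (T 1) ^ 2
            + of (C (c 1)) * of (T 1) - 1 := by
          have h : famB c = T 1 ^ 3 + C (c 3) * T 1 ^ 2 + C (c 1) * T 1 - 1 := by
            rw [famB, T_pow, T_pow]; norm_num
          exact (congrArg of h).trans (by simp only [map_add, map_sub, map_mul, map_pow, map_one])
        have hW := W_sq (X := T 1) (S := C (c 5)) (A := famA c) (B := famB c)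
        rw [eA, eB] at hW
        simp only [map_sub, map_add, map_mul, map_pow, psi0_X0, psi0_X2, psi0_X3, psi0_C]
        linear_combination hW
    exact hle (by rw [← relations_eq]; exact ha))

theorem psi_mk (a : MvPolynomial (Fin 4) R) :
    psi c (Ideal.Quotient.mk (relations c) a) = psi0 c a := Ideal.Quotient.lift_mk _ _ _

theorem psi_fn0 : psi c (fn c 0) = of (T 1) := by rw [fn, psi_mk, psi0_X0]
theorem psi_fn1 : psi c (fn c 1) = of (T (-1)) := by rw [fn, psi_mk, psi0_X1]
theorem psi_fn2 : psi c (fn c 2) = Y _ _ _ _ := by rw [fn, psi_mk, psi0_X2]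
theorem psi_fn3 : psi c (fn c 3) = W _ _ _ _ := by rw [fn, psi_mk, psi0_X3]

theorem psi_algebraMap (r : R) : psi c (algebraMap R (Overlap c) r) = of (C r) := by
  change psi c (Ideal.Quotient.mk (relations c) (MvPolynomial.C r)) = _
  rw [psi_mk, psi0_C]

/-- The relation `x x⁻¹ = 1`. -/
theorem rel0 : fn c 0 * fn c 1 = 1 := by
  have h : Ideal.Quotient.mk (relations c) (MvPolynomial.X 0 * MvPolynomial.X 1 - 1) = 0 := by
    rw [Ideal.Quotient.eq_zero_iff_mem, relations_eq]
    exact Ideal.subset_span (Or.inl rfl)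
  have h' : fn c 0 * fn c 1 - 1 = 0 := h
  linear_combination h'

theorem rel1 : fn c 2 ^ 2 = fn c 0 - algebraMap R (Overlap c) (c 5) * fn c 3 := by
  have h : Ideal.Quotient.mk (relations c) (MvPolynomial.X 2 ^ 2
      + MvPolynomial.C (c 5) * MvPolynomial.X 3 - MvPolynomial.X 0) = 0 := by
    rw [Ideal.Quotient.eq_zero_iff_mem, relations_eq]
    exact Ideal.subset_span (Or.inr (Or.inl rfl))
  have h' : fn c 2 ^ 2 + algebraMap R (Overlap c) (c 5) * fn c 3 - fn c 0 = 0 := h
  linear_combination h'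

theorem rel2 : fn c 3 ^ 2 = fn c 0 ^ 3 * fn c 2 + algebraMap R (Overlap c) (c 4) * fn c 0 ^ 3
      + algebraMap R (Overlap c) (c 3) * fn c 0 ^ 2 * fn c 2
      + algebraMap R (Overlap c) (c 2) * fn c 0 ^ 2
      + algebraMap R (Overlap c) (c 1) * fn c 0 * fn c 2
      + algebraMap R (Overlap c) (c 0) * fn c 0 - fn c 2 := by
  have h : Ideal.Quotient.mk (relations c) (MvPolynomial.X 3 ^ 2 - (MvPolynomial.X 0 ^ 3
      * MvPolynomial.X 2 + MvPolynomial.C (c 4) * MvPolynomial.X 0 ^ 3
      + MvPolynomial.C (c 3) * MvPolynomial.X 0 ^ 2 * MvPolynomial.X 2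
      + MvPolynomial.C (c 2) * MvPolynomial.X 0 ^ 2
      + MvPolynomial.C (c 1) * MvPolynomial.X 0 * MvPolynomial.X 2
      + MvPolynomial.C (c 0) * MvPolynomial.X 0 - MvPolynomial.X 2)) = 0 := by
    rw [Ideal.Quotient.eq_zero_iff_mem, relations_eq]
    exact Ideal.subset_span (Or.inr (Or.inr rfl))
  have h' : fn c 3 ^ 2 - (fn c 0 ^ 3 * fn c 2 + algebraMap R (Overlap c) (c 4) * fn c 0 ^ 3
      + algebraMap R (Overlap c) (c 3) * fn c 0 ^ 2 * fn c 2
      + algebraMap R (Overlap c) (c 2) * fn c 0 ^ 2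
      + algebraMap R (Overlap c) (c 1) * fn c 0 * fn c 2
      + algebraMap R (Overlap c) (c 0) * fn c 0 - fn c 2) = 0 := h
  linear_combination h'

/-- The unit `x`. -/
noncomputable def ux : (Overlap c)ˣ :=
  ⟨fn c 0, fn c 1, rel0 c, by rw [mul_comm]; exact rel0 c⟩

/-- The inclusion of Laurent polynomials in `x`. -/
noncomputable def lam : LaurentPolynomial R →+* Overlap c :=
  LaurentPolynomial.eval₂ (algebraMap R (Overlap c)) (ux c)

theorem lam_C (r : R) : lam c (C r) = algebraMap R (Overlap c) r := by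
  rw [lam, LaurentPolynomial.eval₂_C]

theorem lam_T (n : ℤ) : lam c (T n) = ((ux c ^ n : (Overlap c)ˣ) : Overlap c) := by
  rw [lam, LaurentPolynomial.eval₂_T]

theorem lam_T1 : lam c (T 1) = fn c 0 := by
  rw [lam_T, zpow_one]; rfl

theorem lam_Tm1 : lam c (T (-1)) = fn c 1 := by
  rw [lam_T, zpow_neg, zpow_one]; rfl

theorem lam_T_nat (n : ℕ) : lam c (T (n : ℤ)) = fn c 0 ^ n := by
  rw [← lam_T1, ← map_pow, T_pow, mul_one]

theorem lam_T_neg (n : ℕ) : lam c (T (-(n : ℤ))) = fn c 1 ^ n := by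
  rw [← lam_Tm1, ← map_pow, T_pow, mul_neg_one]

/-- The relation for `y²` in terms of `lam`. -/
theorem rel1' : fn c 2 ^ 2 = lam c (T 1) - lam c (C (c 5)) * fn c 3 := by
  rw [rel1, lam_T1, lam_C]

theorem rel2' : fn c 3 ^ 2 = lam c (famA c) + lam c (famB c) * fn c 2 := by
  rw [rel2, famA, famB]
  simp only [map_add, map_sub, map_mul, map_one, lam_C]
  rw [show (T 3 : LaurentPolynomial R) = T ((3 : ℕ) : ℤ) from rfl,
    show (T 2 : LaurentPolynomial R) = T ((2 : ℕ) : ℤ) from rfl, lam_T_nat, lam_T_nat, lam_T1]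
  ring

/-- The inverse map. -/
noncomputable def Lam : QF c →+* Overlap c where
  toFun u := lam c u.c0 + lam c u.c1 * fn c 2 + lam c u.c2 * fn c 3
    + lam c u.c3 * (fn c 2 * fn c 3)
  map_one' := by simp
  map_zero' := by simp
  map_add' u v := by
    simp only [add_c0, add_c1, add_c2, add_c3, map_add]
    ring
  map_mul' u v := by
    simp only [mul_c0, mul_c1, mul_c2, mul_c3, map_add, map_sub, map_mul]
    have h1 := rel1' c
    have h2 := rel2' c
    set a0 := lam c u.c0
    set a1 := lam c u.c1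
    set a2 := lam c u.c2
    set a3 := lam c u.c3
    set b0 := lam c v.c0
    set b1 := lam c v.c1
    set b2 := lam c v.c2
    set b3 := lam c v.c3
    set y := fn c 2
    set w := fn c 3
    set x := lam c (T 1)
    set s := lam c (C (c 5))
    set A := lam c (famA c)
    set B := lam c (famB c)
    linear_combination (-(a1 * b1) - (a1 * b3 + a3 * b1) * w - (a2 * b3 + a3 * b2) * B
        - a3 * b3 * w ^ 2) * h1
      + ((a1 * b3 + a3 * b1) * s - a2 * b2 - (a2 * b3 + a3 * b2) * y
        - a3 * b3 * (x - s * w)) * h2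

theorem Lam_apply (u : QF c) : Lam c u = lam c u.c0 + lam c u.c1 * fn c 2 + lam c u.c2 * fn c 3
    + lam c u.c3 * (fn c 2 * fn c 3) := rfl

theorem Lam_of (f : LaurentPolynomial R) : Lam c (of f) = lam c f := by
  rw [Lam_apply]; simp

theorem Lam_Y : Lam c (Y _ _ _ _) = fn c 2 := by
  rw [Lam_apply]; simp

theorem Lam_W : Lam c (W _ _ _ _) = fn c 3 := by
  rw [Lam_apply]; simp

theorem Lam_psi (h : Overlap c) : Lam c (psi c h) = h := by
  obtain ⟨a, rfl⟩ := Ideal.Quotient.mk_surjective h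
  rw [psi_mk]
  induction a using MvPolynomial.induction_on with
  | C r => rw [psi0_C, Lam_of, lam_C]; rfl
  | add f g hf hg => rw [map_add, map_add, hf, hg, map_add]; rfl
  | mul_X f i hf =>
    rw [map_mul, map_mul, hf, map_mul]
    congr 1
    fin_cases i
    · change Lam c (psi0 c (MvPolynomial.X 0)) = fn c 0
      rw [psi0_X0, Lam_of, lam_T1]
    · change Lam c (psi0 c (MvPolynomial.X 1)) = fn c 1
      rw [psi0_X1, Lam_of, lam_Tm1]
    · change Lam c (psi0 c (MvPolynomial.X 2)) = fn c 2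
      rw [psi0_X2, Lam_Y]
    · change Lam c (psi0 c (MvPolynomial.X 3)) = fn c 3
      rw [psi0_X3, Lam_W]

theorem psi_lam (f : LaurentPolynomial R) : psi c (lam c f) = of f := by
  induction f using LaurentPolynomial.induction_on' with
  | add f g hf hg => rw [map_add, map_add, hf, hg, map_add]
  | C_mul_T n a =>
    rw [map_mul, map_mul, lam_C, psi_algebraMap, map_mul]
    congr 1
    rcases Int.eq_nat_or_neg n with ⟨m, rfl | rfl⟩
    · rw [lam_T_nat, map_pow, psi_fn0, ← map_pow, T_pow, mul_one]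
    · rw [lam_T_neg, map_pow, psi_fn1, ← map_pow, T_pow, mul_neg_one]

theorem psi_Lam (u : QF c) : psi c (Lam c u) = u := by
  rw [Lam_apply, map_add, map_add, map_add, map_mul, map_mul, map_mul, map_mul, psi_lam,
    psi_lam, psi_lam, psi_lam, psi_fn2, psi_fn3]
  exact (eq_basis u).symm

end

end Pool.Agent.PRank
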