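import Pool.Agent.PRank.ChartMem
import Pool.Agent.PRank.Core

/-!
The locus of curves of `p`-rank zero in the family.
-/

namespace Pool.Agent.PRank

open Matrix

section

variable {R : Type*} [CommRing R] (p : ℕ) [Fact p.Prime] [CharP R p]

theorem mulVec_pow (T : Matrix (Fin 3) (Fin 3) R) (v : Fin 3 → R) :
    (fun i => (T.mulVec v i) ^ p) = (T.map (· ^ p)).mulVec (fun i => v i ^ p) := by
  funext i
  simp only [Matrix.mulVec, dotProduct, Matrix.map_apply]
  rw [sum_pow_char]
  exact Finset.sum_congr rfl fun j _ => mul_pow _ _ _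

theorem rho_pow_three (c : Fin 6 → R) (h : Overlap c) :
    rho c (h ^ (p ^ 3)) = (triple p (HW p c)).mulVec (fun i => rho c h i ^ (p ^ 3)) := by
  have e1 : h ^ (p ^ 3) = ((h ^ p) ^ p) ^ p := by ring
  have s1 := rho_pow c p h
  have s2 : rho c ((h ^ p) ^ p) = (HW p c).mulVec
      (((HW p c).map (· ^ p)).mulVec (fun i => (rho c h i ^ p) ^ p)) := by
    rw [rho_pow c p (h ^ p), s1, mulVec_pow]
  have s3 : rho c (((h ^ p) ^ p) ^ p) = (HW p c).mulVec (((HW p c).map (· ^ p)).mulVec
      ((((HW p c).map (· ^ p)).map (· ^ p)).mulVec (fun i => ((rho c h i ^ p) ^ p) ^ p))) := by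
    rw [rho_pow c p ((h ^ p) ^ p), s2, mulVec_pow, mulVec_pow]
  rw [e1, s3]
  have e2 : ((HW p c).map (· ^ p)).map (· ^ p) = (HW p c).map (· ^ (p ^ 2)) := by
    ext i j
    simp [← pow_mul, sq]
  have e3 : (fun i => ((rho c h i ^ p) ^ p) ^ p) = fun i => rho c h i ^ (p ^ 3) := by
    funext i; ring
  rw [e2, e3, Matrix.mulVec_mulVec, Matrix.mulVec_mulVec, triple, Matrix.mul_assoc]

end

section Field

variable {k : Type*} [Field k] (p : ℕ) [Fact p.Prime] [CharP k p]

theorem cls_eq_zero_iff (c : Fin 6 → k) (h : Overlap c) : cls c h = 0 ↔ rho c h = 0 := by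
  rw [← mem_coboundaries_iff, cls]
  exact Submodule.Quotient.mk_eq_zero _

theorem finite_H1 (c : Fin 6 → k) : Module.Finite k (H1 c) := by
  let f : H1 c →ₗ[k] (Fin 3 → k) := (coboundaries c).liftQ (rho c) (by
    intro h hh
    rw [LinearMap.mem_ker]
    exact (mem_coboundaries_iff c h).1 hh)
  have hf : Function.Injective f := by
    refine (injective_iff_map_eq_zero f).2 fun x hx => ?_
    obtain ⟨h, rfl⟩ := Submodule.Quotient.mk_surjective (coboundaries c) x
    exact (cls_eq_zero_iff c h).2 hx
  exact Module.Finite.of_injective f hf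

theorem pRank_eq_zero_iff (c : Fin 6 → k) : pRank p c ≤ 0 ↔ triple p (HW p c) = 0 := by
  have hfin := finite_H1 c
  have hq : p ^ 3 ≠ 0 := pow_ne_zero _ (Fact.out : p.Prime).ne_zero
  rw [Nat.le_zero, pRank, Submodule.finrank_eq_zero, Submodule.span_eq_bot]
  constructor
  · intro h
    have key : ∀ g : Overlap c, rho c (g ^ (p ^ 3)) = 0 := by
      intro g
      have := h _ ⟨g, rfl⟩
      exact (cls_eq_zero_iff c _).1 this
    ext i j
    have h1 := congrFun (key (BB c j)) i
    rw [rho_pow_three] at h1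
    have e : (fun l => rho c (BB c j) l ^ (p ^ 3)) = fun l => if l = j then (1 : k) else 0 := by
      funext l
      rw [rho_BB]
      split_ifs
      · exact one_pow _
      · exact zero_pow hq
    rw [e] at h1
    simpa [Matrix.mulVec, dotProduct] using h1
  · rintro h _ ⟨g, rfl⟩
    simp only []
    rw [cls_eq_zero_iff, rho_pow_three, h, Matrix.zero_mulVec]

variable (k) in
/-- The generic parameters over the polynomial ring. -/
noncomputable def genp : Fin 6 → MvPolynomial (Fin 6) k := fun i => MvPolynomial.X i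

theorem vanishing_eq [IsAlgClosed k] :
    MvPolynomial.vanishingIdeal k {c : Fin 6 → k | pRank p c ≤ 0}
      = (entIdeal p (HW p (genp k))).radical := by
  rw [← MvPolynomial.vanishingIdeal_zeroLocus_eq_radical (K := k)]
  congr 1
  ext c
  rw [Set.mem_ofPred_eq, pRank_eq_zero_iff, entIdeal, MvPolynomial.zeroLocus_span]
  have h1 : triple p (HW p c) = (triple p (HW p (genp k))).map
      (MvPolynomial.aeval (R := k) c).toRingHom := by
    rw [triple_map, HW_map]
    congr 2
    funext i
    change c i = MvPolynomial.aeval c (MvPolynomial.X i)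
    rw [MvPolynomial.aeval_X]
  rw [h1]
  constructor
  · rintro h _ ⟨⟨i, j⟩, rfl⟩
    exact congrFun (congrFun h i) j
  · intro h
    ext i j
    exact h _ ⟨(i, j), rfl⟩

end Field

end Pool.Agent.PRank
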