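import Pool.Agent.PRank.Laur

/-!
The two charts inside `Q4`, the pairing, and the Hasse-Witt matrix.
-/

namespace Pool.Agent.PRank

open LaurentPolynomial Q4

variable {R : Type*} [CommRing R] {s : R} {A B : LaurentPolynomial R}

/-- The overlap ring of the family. -/
abbrev QQ (s : R) (A B : LaurentPolynomial R) := Q4 (T 1 : LaurentPolynomial R) (C s) A B

/-- Bounds on the exponents of the coefficients of the quartic. -/
structure Hyp (A B : LaurentPolynomial R) : Prop where
  geA : Ge 0 A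
  leA : Le 4 A
  geB : Ge 0 B
  leB : Le 3 B

/-- Regular on the first chart. -/
def Pos (u : QQ s A B) : Prop := Ge 0 u.c0 ∧ Ge 0 u.c1 ∧ Ge 0 u.c2 ∧ Ge 0 u.c3

/-- Regular on the second chart. -/
def Low (u : QQ s A B) : Prop := Le 0 u.c0 ∧ Le (-1) u.c1 ∧ Le (-2) u.c2 ∧ Le (-3) u.c3

theorem Pos.add {u v : QQ s A B} (hu : Pos u) (hv : Pos v) : Pos (u + v) :=
  ⟨hu.1.add hv.1, hu.2.1.add hv.2.1, hu.2.2.1.add hv.2.2.1, hu.2.2.2.add hv.2.2.2⟩

theorem Low.add {u v : QQ s A B} (hu : Low u) (hv : Low v) : Low (u + v) :=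
  ⟨hu.1.add hv.1, hu.2.1.add hv.2.1, hu.2.2.1.add hv.2.2.1, hu.2.2.2.add hv.2.2.2⟩

theorem Pos.mul (h : Hyp A B) {u v : QQ s A B} (hu : Pos u) (hv : Pos v) : Pos (u * v) := by
  obtain ⟨u0, u1, u2, u3⟩ := hu
  obtain ⟨v0, v1, v2, v3⟩ := hv
  have hX : Ge 0 (T 1 : LaurentPolynomial R) := (ge_T 1).mono (by norm_num)
  have m : ∀ {f g : LaurentPolynomial R}, Ge 0 f → Ge 0 g → Ge 0 (f * g) := by
    intro f g hf hg
    exact (hf.mul hg).mono (by norm_num)
  refine ⟨?_, ?_, ?_, ?_⟩
  · rw [mul_c0]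
    exact (((((m u0 v0).add (m hX (m u1 v1))).sub (m (m (ge_C s) h.geA)
      ((m u1 v3).add (m u3 v1)))).add (m h.geA (m u2 v2))).add (m (m hX h.geB)
      ((m u2 v3).add (m u3 v2)))).add (m (m hX h.geA) (m u3 v3))
  · rw [mul_c1]
    exact (((((m u0 v1).add (m u1 v0)).sub (m (m (ge_C s) h.geB)
      ((m u1 v3).add (m u3 v1)))).add (m h.geB (m u2 v2))).add (m h.geA
      ((m u2 v3).add (m u3 v2)))).add (m (m hX h.geB) (m u3 v3))
  · rw [mul_c2]
    exact (((((m u0 v2).add (m u2 v0)).sub (m (ge_C s) (m u1 v1))).add (m hX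
      ((m u1 v3).add (m u3 v1)))).sub (m (m (ge_C s) h.geB)
      ((m u2 v3).add (m u3 v2)))).sub (m (m (ge_C s) h.geA) (m u3 v3))
  · rw [mul_c3]
    exact ((((m u0 v3).add (m u3 v0)).add (m u1 v2)).add (m u2 v1)).sub
      (m (m (ge_C s) h.geB) (m u3 v3))

/-- Product bound with explicit target. -/
theorem Le.mul' {a b c : ℤ} {f g : LaurentPolynomial R} (hf : Le a f) (hg : Le b g)
    (h : a + b ≤ c) : Le c (f * g) := (hf.mul hg).mono h

theorem Low.mul (h : Hyp A B) {u v : QQ s A B} (hu : Low u) (hv : Low v) : Low (u * v) := by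
  obtain ⟨u0, u1, u2, u3⟩ := hu
  obtain ⟨v0, v1, v2, v3⟩ := hv
  have hX : Le 1 (T 1 : LaurentPolynomial R) := le_T 1
  have hS : Le 0 (C s : LaurentPolynomial R) := le_C s
  refine ⟨?_, ?_, ?_, ?_⟩
  · rw [mul_c0]
    have h13 : Le (-4) (u.c1 * v.c3 + u.c3 * v.c1) :=
      (u1.mul' v3 (by norm_num)).add (u3.mul' v1 (by norm_num))
    have h23 : Le (-5) (u.c2 * v.c3 + u.c3 * v.c2) :=
      (u2.mul' v3 (by norm_num)).add (u3.mul' v2 (by norm_num))
    exact (((((u0.mul' v0 (by norm_num)).add (hX.mul' (u1.mul v1) (by norm_num))).sub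
      ((hS.mul h.leA).mul' h13 (by norm_num))).add (h.leA.mul' (u2.mul v2) (by norm_num))).add
      ((hX.mul h.leB).mul' h23 (by norm_num))).add ((hX.mul h.leA).mul' (u3.mul v3) (by norm_num))
  · rw [mul_c1]
    have h13 : Le (-4) (u.c1 * v.c3 + u.c3 * v.c1) :=
      (u1.mul' v3 (by norm_num)).add (u3.mul' v1 (by norm_num))
    have h23 : Le (-5) (u.c2 * v.c3 + u.c3 * v.c2) :=
      (u2.mul' v3 (by norm_num)).add (u3.mul' v2 (by norm_num))
    exact (((((u0.mul' v1 (by norm_num)).add (u1.mul' v0 (by norm_num))).sub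
      ((hS.mul h.leB).mul' h13 (by norm_num))).add (h.leB.mul' (u2.mul v2) (by norm_num))).add
      (h.leA.mul' h23 (by norm_num))).add ((hX.mul h.leB).mul' (u3.mul v3) (by norm_num))
  · rw [mul_c2]
    have h13 : Le (-4) (u.c1 * v.c3 + u.c3 * v.c1) :=
      (u1.mul' v3 (by norm_num)).add (u3.mul' v1 (by norm_num))
    have h23 : Le (-5) (u.c2 * v.c3 + u.c3 * v.c2) :=
      (u2.mul' v3 (by norm_num)).add (u3.mul' v2 (by norm_num))
    exact (((((u0.mul' v2 (by norm_num)).add (u2.mul' v0 (by norm_num))).sub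
      (hS.mul' (u1.mul v1) (by norm_num))).add (hX.mul' h13 (by norm_num))).sub
      ((hS.mul h.leB).mul' h23 (by norm_num))).sub
      ((hS.mul h.leA).mul' (u3.mul v3) (by norm_num))
  · rw [mul_c3]
    exact ((((u0.mul' v3 (by norm_num)).add (u3.mul' v0 (by norm_num))).add
      (u1.mul' v2 (by norm_num))).add (u2.mul' v1 (by norm_num))).sub
      ((hS.mul h.leB).mul' (u3.mul v3) (by norm_num))

/-- The coordinates of the class in the first cohomology of the structure sheaf. -/
noncomputable def tau (i : Fin 3) (u : QQ s A B) : R :=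
  ![u.c2.coeff (-1), u.c3.coeff (-1), u.c3.coeff (-2)] i

variable (s A B) in
/-- The basis of the first cohomology of the structure sheaf. -/
noncomputable def bb (j : Fin 3) : QQ s A B :=
  ![⟨0, 0, T (-1), 0⟩, ⟨0, 0, 0, T (-1)⟩, ⟨0, 0, 0, T (-2)⟩] j

theorem tau_add (i : Fin 3) (u v : QQ s A B) : tau i (u + v) = tau i u + tau i v := by
  fin_cases i <;> simp [tau]

theorem tau_C_mul (i : Fin 3) (r : R) (u : QQ s A B) :
    tau i ((of (C r) : QQ s A B) * u) = r * tau i u := by
  fin_cases i <;> simp [tau, coeff_C_mul]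

theorem tau_pos (i : Fin 3) {u : QQ s A B} (hu : Pos u) : tau i u = 0 := by
  obtain ⟨u0, u1, u2, u3⟩ := hu
  fin_cases i
  · exact u2 (-1) (by norm_num)
  · exact u3 (-1) (by norm_num)
  · exact u3 (-2) (by norm_num)

theorem tau_low (i : Fin 3) {u : QQ s A B} (hu : Low u) : tau i u = 0 := by
  obtain ⟨u0, u1, u2, u3⟩ := hu
  fin_cases i
  · exact u2 (-1) (by norm_num)
  · exact u3 (-1) (by norm_num)
  · exact u3 (-2) (by norm_num)

theorem tau_bb (i j : Fin 3) : tau i (bb s A B j) = if i = j then 1 else 0 := by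
  fin_cases i <;> fin_cases j <;> simp [tau, bb, T_apply]

/-- The part of a Laurent polynomial with nonnegative exponents. -/
noncomputable def posPart (f : LaurentPolynomial R) : LaurentPolynomial R :=
  AddMonoidAlgebra.ofCoeff (f.coeff.filter (fun n => 0 ≤ n))

theorem coeff_posPart (f : LaurentPolynomial R) (n : ℤ) :
    (posPart f).coeff n = if 0 ≤ n then f.coeff n else 0 := by
  rw [posPart, AddMonoidAlgebra.coeff_ofCoeff, Finsupp.filter_apply]

theorem ge_posPart (f : LaurentPolynomial R) : Ge 0 (posPart f) := by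
  intro n hn
  rw [coeff_posPart, if_neg (by omega)]

/-- The first chart component. -/
noncomputable def alphaPart (u : QQ s A B) : QQ s A B :=
  ⟨posPart u.c0, posPart u.c1, posPart u.c2, posPart u.c3⟩

/-- The class component. -/
noncomputable def classPart (u : QQ s A B) : QQ s A B :=
  ∑ i, (of (C (tau i u)) : QQ s A B) * bb s A B i

theorem pos_alphaPart (u : QQ s A B) : Pos (alphaPart u) :=
  ⟨ge_posPart _, ge_posPart _, ge_posPart _, ge_posPart _⟩

theorem low_rest (u : QQ s A B) : Low (u - alphaPart u - classPart u) := by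
  rw [classPart, Fin.sum_univ_three]
  refine ⟨?_, ?_, ?_, ?_⟩
  · intro n hn
    simp [alphaPart, coeff_posPart, bb, show (0:ℤ) ≤ n by omega]
  · intro n hn
    simp [alphaPart, coeff_posPart, bb, show (0:ℤ) ≤ n by omega]
  · intro n hn
    rcases lt_or_eq_of_le (show -1 ≤ n by omega) with h | h
    · simp [alphaPart, coeff_posPart, bb, coeff_C_mul, T_apply, show (0:ℤ) ≤ n by omega,
        show ¬ (-1 = n) by omega]
    · simp [alphaPart, coeff_posPart, bb, coeff_C_mul, T_apply, ← h, tau]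
  · intro n hn
    rcases lt_or_eq_of_le (show -2 ≤ n by omega) with h | h
    · rcases lt_or_eq_of_le (show -1 ≤ n by omega) with h' | h'
      · simp [alphaPart, coeff_posPart, bb, coeff_C_mul, T_apply, show (0:ℤ) ≤ n by omega,
          show ¬ (-1 = n) by omega, show ¬ (-2 = n) by omega]
      · simp [alphaPart, coeff_posPart, bb, coeff_C_mul, T_apply, ← h', tau]
    · simp [alphaPart, coeff_posPart, bb, coeff_C_mul, T_apply, ← h, tau]

/-- The pairing. -/
noncomputable def om (u v : QQ s A B) : R := (u * E theta v).c3.coeff 0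

theorem om_add_left (u u' v : QQ s A B) : om (u + u') v = om u v + om u' v := by
  rw [om, add_mul]; rfl

theorem om_add_right (u v v' : QQ s A B) : om u (v + v') = om u v + om u v' := by
  rw [om, E_add, mul_add]; rfl

theorem om_swap (u v : QQ s A B) : om u v = -om v u := by
  have h1 : (E theta (u * v)).c3.coeff 0 = 0 := by
    rw [E_c3 theta (theta_C s)]
    exact (coeff_theta _ 0).trans (by simp)
  rw [E_mul theta theta_T_one (theta_C s), add_c3, AddMonoidAlgebra.coeff_add,
    Finsupp.add_apply] at h1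
  rw [eq_neg_iff_add_eq_zero, om, om, mul_comm v]
  exact h1

theorem E_one : E theta (1 : QQ s A B) = 0 := by
  have h := E_mul theta theta_T_one (theta_C s) (1 : QQ s A B) 1
  rw [one_mul, mul_one, one_mul] at h
  exact left_eq_add.1 h

theorem E_pow (u : QQ s A B) (n : ℕ) :
    E theta (u ^ (n + 1)) = ((n + 1 : ℕ) : QQ s A B) * u ^ n * E theta u := by
  induction n with
  | zero => simp
  | succ n ih =>
    rw [pow_succ, E_mul theta theta_T_one (theta_C s), ih]
    push_cast
    ring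

theorem om_pow_right {p : ℕ} [CharP R p] (hp : p ≠ 0) (u v : QQ s A B) : om v (u ^ p) = 0 := by
  obtain ⟨n, rfl⟩ := Nat.exists_eq_succ_of_ne_zero hp
  have : ((n + 1 : ℕ) : QQ s A B) = 0 := by
    have h : ((n + 1 : ℕ) : R) = 0 := CharP.cast_eq_zero R (n + 1)
    rw [← map_natCast (of : LaurentPolynomial R →+* QQ s A B),
      ← map_natCast (C : R →+* LaurentPolynomial R), h, map_zero, map_zero]
  rw [om, Nat.succ_eq_add_one, E_pow, this, zero_mul, zero_mul, mul_zero]
  rfl

theorem om_pow_left {p : ℕ} [CharP R p] (hp : p ≠ 0) (u v : QQ s A B) : om (u ^ p) v = 0 := by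
  rw [om_swap, om_pow_right hp, neg_zero]

theorem Ge.mul' {a b c : ℤ} {f g : LaurentPolynomial R} (hf : Ge a f) (hg : Ge b g)
    (h : c ≤ a + b) : Ge c (f * g) := (hf.mul hg).mono h

theorem om_pos (h : Hyp A B) {u v : QQ s A B} (hu : Pos u) (hv : Pos v) : om u v = 0 := by
  obtain ⟨u0, u1, u2, u3⟩ := hu
  obtain ⟨v0, v1, v2, v3⟩ := hv
  have hX : Ge 1 (T 1 : LaurentPolynomial R) := ge_T 1
  have hS : Ge 0 (C s : LaurentPolynomial R) := ge_C s
  have hn : ∀ n : ℕ, Ge 0 ((n : LaurentPolynomial R)) := by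
    intro n
    rw [← map_natCast (C : R →+* LaurentPolynomial R)]
    exact ge_C _
  have h2 : Ge 0 (2 : LaurentPolynomial R) := by simpa using hn 2
  have h4 : Ge 0 (4 : LaurentPolynomial R) := by simpa using hn 4
  have t0 := v0.theta_zero
  have t1 := v1.theta_zero
  have t2 := v2.theta_zero
  have t3 := v3.theta_zero
  have tA := h.geA.theta_zero
  have tB := h.geB.theta_zero
  have hSB := hS.mul' h.geB (le_refl 0)
  have hSA := hS.mul' h.geA (le_refl 0)
  have hXB := hX.mul' h.geB (show (1:ℤ) ≤ 1 + 0 by norm_num)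
  have hXA := hX.mul' h.geA (show (1:ℤ) ≤ 1 + 0 by norm_num)
  have e0 : Ge 1 (E theta v).c0 := by
    refine ((((((?_ : Ge 1 _).add ?_).sub ?_).sub ?_).add ?_).add ?_).add ?_
    · exact hSB.neg.mul' t0 (by norm_num)
    · exact (h4.mul hSA).mul' t1 (by norm_num)
    · exact (h4.mul hXB).mul' t2 (by norm_num)
    · exact (h4.mul hXA).mul' t3 (by norm_num)
    · exact v1.mul' (hS.mul tA) (by norm_num)
    · exact v2.mul' (hXB.neg.sub ((h2.mul hX).mul' tB (show (1:ℤ) ≤ 0 + 1 + 1 by norm_num)))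
        (by norm_num)
    · refine v3.mul' (b := 1) ?_ (by norm_num)
      exact (h2.neg.mul' (hX.mul tA) (by norm_num)).sub (h2.mul' hXA (by norm_num))
  have e1 : Ge 1 (E theta v).c1 := by
    refine ((((((?_ : Ge 1 _).add ?_).sub ?_).sub ?_).add ?_).add ?_).add ?_
    · exact hSB.neg.mul' t1 (by norm_num)
    · exact (h4.mul hSB).mul' t1 (by norm_num)
    · exact (h4.mul h.geA).mul' t2 (by norm_num)
    · exact (h4.mul hXB).mul' t3 (by norm_num)
    · exact v1.mul' (hS.mul tB) (by norm_num)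
    · exact v2.mul' (h2.neg.mul tA) (by norm_num)
    · refine v3.mul' (b := 1) ?_ (by norm_num)
      exact (hXB.neg.sub ((h2.mul hX).mul' tB (by norm_num))).sub (h2.mul' hXB (by norm_num))
  have e2 : Ge 1 (E theta v).c2 := by
    refine ((((((?_ : Ge 1 _).sub ?_).add ?_).add ?_).add ?_).add ?_).add ?_
    · exact hSB.neg.mul' t2 (by norm_num)
    · exact (h4.mul hX).mul' t1 (by norm_num)
    · exact (h4.mul hSB).mul' t2 (by norm_num)
    · exact (h4.mul hSA).mul' t3 (by norm_num)
    · exact v1.mul' (h2.neg.mul hX) (by norm_num)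
    · exact v2.mul' ((h2.mul hS).mul tB) (by norm_num)
    · refine v3.mul' (b := 1) ?_ (by norm_num)
      exact (h2.mul' (hS.mul tA) (by norm_num)).add (hS.mul' tA (by norm_num))
  have e3 : Ge 1 (E theta v).c3 := by
    refine (((?_ : Ge 1 _).sub ?_).add ?_).add ?_
    · exact hSB.neg.mul' t3 (by norm_num)
    · exact h4.mul' t0 (by norm_num)
    · exact (h4.mul hSB).mul' t3 (by norm_num)
    · refine v3.mul' (b := 1) ?_ (by norm_num)
      exact (h2.mul' (hS.mul tB) (by norm_num)).add (hS.mul' tB (by norm_num))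
  have key : Ge 1 (u * E theta v).c3 := by
    rw [mul_c3]
    exact ((((u0.mul' e3 (by norm_num)).add (u3.mul' e0 (by norm_num))).add
      (u1.mul' e2 (by norm_num))).add (u2.mul' e1 (by norm_num))).sub
      (hSB.mul' (u3.mul e3) (by norm_num))
  exact key 0 (by norm_num)

end Pool.Agent.PRank
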