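import Pool.Agent.PRank.Pair

/-!
The second chart is isotropic; the symmetric matrix.
-/

namespace Pool.Agent.PRank

open LaurentPolynomial Q4

variable {R : Type*} [CommRing R] {s : R} {A B : LaurentPolynomial R}

theorem om_low (h : Hyp A B) {u v : QQ s A B} (hu : Low u) (hv : Low v) : om u v = 0 := by
  obtain ⟨u0, u1, u2, u3⟩ := hu
  obtain ⟨v0, v1, v2, v3⟩ := hv
  have hX : Le 1 (T 1 : LaurentPolynomial R) := le_T 1
  have hS : Le 0 (C s : LaurentPolynomial R) := le_C s
  have hn : ∀ n : ℕ, Le 0 ((n : LaurentPolynomial R)) := by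
    intro n
    rw [← map_natCast (C : R →+* LaurentPolynomial R)]
    exact le_C _
  have h2 : Le 0 (2 : LaurentPolynomial R) := by simpa using hn 2
  have h3 : Le 0 (3 : LaurentPolynomial R) := by simpa using hn 3
  have h4 : Le 0 (4 : LaurentPolynomial R) := by simpa using hn 4
  -- lowered derivatives
  obtain ⟨a0, ha0, e_a0⟩ : ∃ a0, Le (-1) a0 ∧ theta v.c0 = a0 :=
    ⟨_, by simpa using v0.theta_sub, rfl⟩
  obtain ⟨a1, ha1, e_a1⟩ : ∃ a1, Le (-2) a1 ∧ theta v.c1 = a1 - v.c1 := by
    refine ⟨_, v1.theta_sub, ?_⟩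
    simp only [Int.cast_neg, Int.cast_one, map_neg, map_one]; ring
  obtain ⟨a2, ha2, e_a2⟩ : ∃ a2, Le (-3) a2 ∧ theta v.c2 = a2 - 2 * v.c2 := by
    refine ⟨_, v2.theta_sub, ?_⟩
    simp only [Int.cast_neg, Int.cast_ofNat, map_neg, map_ofNat]; ring
  obtain ⟨a3, ha3, e_a3⟩ : ∃ a3, Le (-4) a3 ∧ theta v.c3 = a3 - 3 * v.c3 := by
    refine ⟨_, v3.theta_sub, ?_⟩
    simp only [Int.cast_neg, Int.cast_ofNat, map_neg, map_ofNat]; ring
  obtain ⟨A', hA', e_A⟩ : ∃ A', Le 3 A' ∧ theta A = A' + 4 * A := by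
    refine ⟨_, h.leA.theta_sub, ?_⟩
    simp only [Int.cast_ofNat, map_ofNat]; ring
  obtain ⟨B', hB', e_B⟩ : ∃ B', Le 2 B' ∧ theta B = B' + 3 * B := by
    refine ⟨_, h.leB.theta_sub, ?_⟩
    simp only [Int.cast_ofNat, map_ofNat]; ring
  have e0 : Le 2 (E theta v).c0 := by
    have : (E theta v).c0 = -(C s * B * a0) + 4 * (C s * A) * a1 - 4 * (T 1 * B) * a2
        + T 1 * B * v.c2 - 4 * (T 1 * A) * a3 + 2 * (T 1 * A) * v.c3
        + C s * A' * v.c1 - 2 * (T 1 * B') * v.c2 - 2 * (T 1 * A') * v.c3 := by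
      have hh : (E theta v).c0 = -(C s * B) * theta v.c0 + 4 * (C s * A) * theta v.c1
        - 4 * (T 1 * B) * theta v.c2 - 4 * (T 1 * A) * theta v.c3
        + v.c1 * (C s * theta A) + v.c2 * (-(T 1 * B) - 2 * T 1 * theta B)
        + v.c3 * (-2 * (T 1 * theta A) - 2 * (T 1 * A)) := rfl
      rw [hh, e_a0, e_a1, e_a2, e_a3, e_A, e_B]; ring
    rw [this]
    refine (((((((((?_ : Le 2 _).neg.add ?_).sub ?_).add ?_).sub ?_).add ?_).add ?_).sub ?_).sub
      ?_)
    · exact (hS.mul h.leB).mul' ha0 (by norm_num)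
    · exact (h4.mul (hS.mul h.leA)).mul' ha1 (by norm_num)
    · exact (h4.mul (hX.mul h.leB)).mul' ha2 (by norm_num)
    · exact (hX.mul h.leB).mul' v2 (by norm_num)
    · exact (h4.mul (hX.mul h.leA)).mul' ha3 (by norm_num)
    · exact (h2.mul (hX.mul h.leA)).mul' v3 (by norm_num)
    · exact (hS.mul hA').mul' v1 (by norm_num)
    · exact (h2.mul (hX.mul hB')).mul' v2 (by norm_num)
    · exact (h2.mul (hX.mul hA')).mul' v3 (by norm_num)
  have e1 : Le 1 (E theta v).c1 := by
    have : (E theta v).c1 = 3 * (C s * B) * a1 - 4 * A * a2 - 4 * (T 1 * B) * a3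
        + 3 * (T 1 * B) * v.c3 + C s * B' * v.c1 - 2 * A' * v.c2 - 2 * (T 1 * B') * v.c3 := by
      have hh : (E theta v).c1 = -(C s * B) * theta v.c1 + 4 * (C s * B) * theta v.c1
        - 4 * A * theta v.c2 - 4 * (T 1 * B) * theta v.c3
        + v.c1 * (C s * theta B) + v.c2 * (-2 * theta A)
        + v.c3 * (-(T 1 * B) - 2 * T 1 * theta B - 2 * (T 1 * B)) := rfl
      rw [hh, e_a1, e_a2, e_a3, e_A, e_B]; ring
    rw [this]
    refine (((((((?_ : Le 1 _).sub ?_).sub ?_).add ?_).add ?_).sub ?_).sub ?_)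
    · exact (h3.mul (hS.mul h.leB)).mul' ha1 (by norm_num)
    · exact (h4.mul h.leA).mul' ha2 (by norm_num)
    · exact (h4.mul (hX.mul h.leB)).mul' ha3 (by norm_num)
    · exact (h3.mul (hX.mul h.leB)).mul' v3 (by norm_num)
    · exact (hS.mul hB').mul' v1 (by norm_num)
    · exact (h2.mul hA').mul' v2 (by norm_num)
    · exact (h2.mul (hX.mul hB')).mul' v3 (by norm_num)
  have e2 : Le 0 (E theta v).c2 := by
    have : (E theta v).c2 = 3 * (C s * B) * a2 - 4 * T 1 * a1 + 4 * (C s * A) * a3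
        + 2 * T 1 * v.c1 + 2 * (C s * B') * v.c2 + 3 * (C s * A') * v.c3 := by
      have hh : (E theta v).c2 = -(C s * B) * theta v.c2 - 4 * T 1 * theta v.c1
        + 4 * (C s * B) * theta v.c2 + 4 * (C s * A) * theta v.c3
        + v.c1 * (-2 * T 1) + v.c2 * (2 * C s * theta B)
        + v.c3 * (2 * (C s * theta A) + C s * theta A) := rfl
      rw [hh, e_a1, e_a2, e_a3, e_A, e_B]; ring
    rw [this]
    refine ((((((?_ : Le 0 _).sub ?_).add ?_).add ?_).add ?_).add ?_)
    · exact (h3.mul (hS.mul h.leB)).mul' ha2 (by norm_num)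
    · exact (h4.mul hX).mul' ha1 (by norm_num)
    · exact (h4.mul (hS.mul h.leA)).mul' ha3 (by norm_num)
    · exact (h2.mul hX).mul' v1 (by norm_num)
    · exact (h2.mul (hS.mul hB')).mul' v2 (by norm_num)
    · exact (h3.mul (hS.mul hA')).mul' v3 (by norm_num)
  have e3 : Le (-1) (E theta v).c3 := by
    have : (E theta v).c3 = 3 * (C s * B) * a3 - 4 * a0 + 3 * (C s * B') * v.c3 := by
      have hh : (E theta v).c3 = -(C s * B) * theta v.c3 - 4 * theta v.c0
        + 4 * (C s * B) * theta v.c3 + v.c3 * (2 * (C s * theta B) + C s * theta B) := rfl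
      rw [hh, e_a0, e_a3, e_B]; ring
    rw [this]
    refine (((?_ : Le (-1) _).sub ?_).add ?_)
    · exact (h3.mul (hS.mul h.leB)).mul' ha3 (by norm_num)
    · exact h4.mul' ha0 (by norm_num)
    · exact (h3.mul (hS.mul hB')).mul' v3 (by norm_num)
  have key : Le (-1) (u * E theta v).c3 := by
    rw [mul_c3]
    exact ((((u0.mul' e3 (by norm_num)).add (u3.mul' e0 (by norm_num))).add
      (u1.mul' e2 (by norm_num))).add (u2.mul' e1 (by norm_num))).sub
      ((hS.mul h.leB).mul' (u3.mul e3) (by norm_num))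
  exact key 0 (by norm_num)

theorem om_C_mul_left (r : R) (u v : QQ s A B) :
    om ((of (C r) : QQ s A B) * u) v = r * om u v := by
  rw [om, mul_assoc, of_mul_c3, coeff_C_mul]; rfl

theorem om_neg_left (u v : QQ s A B) : om (-u) v = -om u v := by
  rw [om, neg_mul]; rfl

theorem om_sub_left (u u' v : QQ s A B) : om (u - u') v = om u v - om u' v := by
  rw [sub_eq_add_neg, om_add_left, om_neg_left, ← sub_eq_add_neg]

theorem om_neg_right (u v : QQ s A B) : om u (-v) = -om u v := by
  rw [om_swap, om_neg_left, om_swap v u, neg_neg]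

theorem om_sub_right (u v v' : QQ s A B) : om u (v - v') = om u v - om u v' := by
  rw [sub_eq_add_neg, om_add_right, om_neg_right, ← sub_eq_add_neg]

theorem om_zero_left (v : QQ s A B) : om (0 : QQ s A B) v = 0 := by
  rw [om, zero_mul]; rfl

theorem om_sum_left {ι : Type*} (t : Finset ι) (f : ι → QQ s A B) (v : QQ s A B) :
    om (∑ i ∈ t, f i) v = ∑ i ∈ t, om (f i) v := by
  classical
  induction t using Finset.induction_on with
  | empty => simp [om_zero_left]
  | insert a t ha ih => rw [Finset.sum_insert ha, om_add_left, ih, Finset.sum_insert ha]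

variable (s A B)

/-- The Hasse-Witt matrix. -/
noncomputable def hw (p : ℕ) : Matrix (Fin 3) (Fin 3) R :=
  Matrix.of fun i j => tau i (bb s A B j ^ p)

/-- The matrix of the pairing with the classes. -/
noncomputable def hm (p : ℕ) : Matrix (Fin 3) (Fin 3) R :=
  Matrix.of fun i k => om (bb s A B i)
    ((alphaPart (bb s A B k ^ p) + alphaPart (bb s A B k ^ p)) + classPart (bb s A B k ^ p))

variable {s A B}

theorem symm_aux (h : Hyp A B) (p : ℕ) [CharP R p] (hp : p ≠ 0) (j k : Fin 3) :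
    ((hm s A B p).transpose * hw s A B p) k j
      = om (alphaPart (bb s A B j ^ p))
          (bb s A B k ^ p - alphaPart (bb s A B k ^ p) - classPart (bb s A B k ^ p))
        + om (alphaPart (bb s A B k ^ p))
          (bb s A B j ^ p - alphaPart (bb s A B j ^ p) - classPart (bb s A B j ^ p)) := by
  -- abbreviations
  set aj := alphaPart (bb s A B j ^ p) with haj
  set ak := alphaPart (bb s A B k ^ p) with hak
  set vj := classPart (bb s A B j ^ p) with hvj
  set vk := classPart (bb s A B k ^ p) with hvk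
  set bj := bb s A B j ^ p - aj - vj with hbj
  set bk := bb s A B k ^ p - ak - vk with hbk
  have pj : Pos aj := pos_alphaPart _
  have pk : Pos ak := pos_alphaPart _
  have lj : Low bj := low_rest _
  have lk : Low bk := low_rest _
  have e1 : ((hm s A B p).transpose * hw s A B p) k j = om vj ((ak + ak) + vk) := by
    rw [Matrix.mul_apply, hvj, classPart, om_sum_left]
    refine Finset.sum_congr rfl fun i _ => ?_
    rw [om_C_mul_left, Matrix.transpose_apply]
    simp only [hm, hw, Matrix.of_apply]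
    rw [mul_comm]
  have e2 : vj = bb s A B j ^ p - aj - bj := by rw [hbj]; ring
  have e3 : vk = bb s A B k ^ p - ak - bk := by rw [hbk]; ring
  have z1 : ∀ v, om (bb s A B j ^ p) v = 0 := fun v => om_pow_left hp _ _
  have z2 : ∀ v, om v (bb s A B k ^ p) = 0 := fun v => om_pow_right hp _ _
  rw [e1, e3, e2]
  simp only [om_add_right, om_sub_left, om_sub_right, z1, z2]
  rw [om_pos h pj pk, om_low h lj lk, om_swap bj ak]
  ring

theorem hm_hw_symm (h : Hyp A B) (p : ℕ) [CharP R p] (hp : p ≠ 0) :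
    ((hm s A B p).transpose * hw s A B p).transpose = (hm s A B p).transpose * hw s A B p := by
  ext j k
  rw [Matrix.transpose_apply, symm_aux h p hp, symm_aux h p hp, add_comm]

end Pool.Agent.PRank
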