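import Pool.Agent.PRank.Fam

/-!
Explicit `p`-th powers modulo the quadratic terms in the parameters.
-/

namespace Pool.Agent.PRank

open LaurentPolynomial Q4

section Abstract

variable {Q : Type*} [CommRing Q]

theorem add_pow_of_sq {a b : Q} (ha : a * a = 0) (n : ℕ) :
    (b + a) ^ (n + 1) = b ^ (n + 1) + (n + 1 : ℕ) * (b ^ n * a) := by
  induction n with
  | zero => simp
  | succ n ih =>
    rw [pow_succ, ih]
    push_cast
    linear_combination ((n : Q) + 1) * b ^ n * ha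

theorem mul_pow_eq {a b b0 d : Q} (hb : b = b0 + d) (hd : a * d = 0) (n : ℕ) :
    a * b ^ n = a * b0 ^ n := by
  induction n with
  | zero => simp
  | succ n ih =>
    rw [pow_succ, pow_succ, ← mul_assoc, ih, hb]
    linear_combination b0 ^ n * hd

end Abstract

variable {R : Type*} [CommRing R] {s : R} {A B : LaurentPolynomial R}

/-- Abbreviation: the image of `T n`. -/
theorem Y_sq_pow (hs3 : s ^ 3 = 0) (n : ℕ) :
    ((Y (T 1) (C s) A B) ^ 2) ^ n = of (T (n : ℤ))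
      - (n : QQ s A B) * of (T ((n : ℤ) - 1)) * of (C s) * W _ _ _ _
      + ((n.choose 2 : ℕ) : QQ s A B) * of (T ((n : ℤ) - 2)) * of (C s) ^ 2
        * (W _ _ _ _) ^ 2 := by
  have hσ : (of (C s) : QQ s A B) ^ 3 = 0 := by
    rw [← map_pow, ← map_pow, hs3, map_zero, map_zero]
  rw [Y_sq]
  induction n with
  | zero => simp
  | succ n ih =>
    rw [pow_succ, ih]
    have e1 : (of (T (((n + 1 : ℕ)) : ℤ)) : QQ s A B) = of (T (n : ℤ)) * of (T 1) := by
      rw [← map_mul, ← T_add]; push_cast; rfl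
    have e2 : (of (T ((((n + 1 : ℕ)) : ℤ) - 1)) : QQ s A B) = of (T (n : ℤ)) := by
      congr 2; push_cast; ring
    have e3 : (of (T ((((n + 1 : ℕ)) : ℤ) - 2)) : QQ s A B) = of (T ((n : ℤ) - 1)) := by
      congr 2; push_cast; ring
    have e4 : (of (T ((n : ℤ) - 1)) : QQ s A B) * of (T 1) = of (T (n : ℤ)) := by
      rw [← map_mul, ← T_add]; congr 2; ring
    have e5 : (of (T ((n : ℤ) - 2)) : QQ s A B) * of (T 1) = of (T ((n : ℤ) - 1)) := by
      rw [← map_mul, ← T_add]; congr 2; ring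
    have e6 : (((n + 1).choose 2 : ℕ) : QQ s A B) = n + (n.choose 2 : ℕ) := by
      rw [Nat.choose_succ_succ' n 1]; simp
    rw [e1, e2, e3, e6]
    push_cast
    linear_combination (-(n : QQ s A B) * of (C s) * W _ _ _ _) * e4
      + ((n.choose 2 : ℕ) : QQ s A B) * of (C s) ^ 2 * (W _ _ _ _) ^ 2 * e5
      - ((n.choose 2 : ℕ) : QQ s A B) * of (T ((n : ℤ) - 2)) * (W _ _ _ _) ^ 3 * hσ

theorem W_sq_pow (hAA : A * A = 0) (n : ℕ) :
    ((W (T 1) (C s) A B) ^ 2) ^ (n + 1) = (of B * Y _ _ _ _) ^ (n + 1)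
      + ((n + 1 : ℕ) : QQ s A B) * ((of B * Y _ _ _ _) ^ n * of A) := by
  rw [W_sq, add_comm (of A : QQ s A B)]
  apply add_pow_of_sq
  rw [← map_mul, hAA, map_zero]

theorem of_A_mul_Y_sq_pow (hs3 : s ^ 3 = 0) (hsA : C s * A = 0) (n : ℕ) :
    (of A : QQ s A B) * ((Y (T 1) (C s) A B) ^ 2) ^ n = of A * of (T (n : ℤ)) := by
  have h : (of (C s) : QQ s A B) * of A = 0 := by rw [← map_mul, hsA, map_zero]
  rw [Y_sq_pow hs3]
  linear_combination (-(n : QQ s A B) * of (T ((n : ℤ) - 1)) * W _ _ _ _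
    + ((n.choose 2 : ℕ) : QQ s A B) * of (T ((n : ℤ) - 2)) * of (C s) * (W _ _ _ _) ^ 2) * h

/-- Formula for `w ^ (4 m + 3)`. -/
theorem W_pow (hAA : A * A = 0) (hs3 : s ^ 3 = 0) (hsA : C s * A = 0) (m : ℕ) :
    (W (T 1) (C s) A B) ^ (4 * m + 3) =
      of (B ^ (2 * m + 1) * T (m : ℤ)) * (Y _ _ _ _ * W _ _ _ _)
      - of ((m : LaurentPolynomial R) * T (m : ℤ) * C s * B ^ (2 * m + 2))
      + of ((((m + 1).choose 2 : ℕ) : LaurentPolynomial R) * T ((m : ℤ) - 1) * (C s) ^ 2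
            * B ^ (2 * m + 2)
          + ((2 * m + 1 : ℕ) : LaurentPolynomial R) * (A * B ^ (2 * m)) * T (m : ℤ))
        * W _ _ _ _ := by
  have h0 : (of (C s) : QQ s A B) * of A = 0 := by rw [← map_mul, hsA, map_zero]
  have hσ : (of (C s) : QQ s A B) ^ 3 = 0 := by
    rw [← map_pow, ← map_pow, hs3, map_zero, map_zero]
  have e4 : (of (T ((m : ℤ) - 1)) : QQ s A B) * of (T 1) = of (T (m : ℤ)) := by
    rw [← map_mul, ← T_add]; congr 2; ring
  have e5 : (of (T ((m : ℤ) - 2)) : QQ s A B) * of (T 1) = of (T ((m : ℤ) - 1)) := by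
    rw [← map_mul, ← T_add]; congr 2; ring
  have e6 : (((m + 1).choose 2 : ℕ) : QQ s A B) = m + (m.choose 2 : ℕ) := by
    rw [Nat.choose_succ_succ' m 1]; simp
  have hW := W_sq (X := T 1) (S := C s) (A := A) (B := B)
  have hY := Y_sq (X := T 1) (S := C s) (A := A) (B := B)
  have h1 : (W (T 1) (C s) A B) ^ (4 * m + 3)
      = W _ _ _ _ * (of B ^ (2 * m + 1) * Y _ _ _ _ * ((Y _ _ _ _) ^ 2) ^ m)
        + ((2 * m + 1 : ℕ) : QQ s A B) * of B ^ (2 * m) * W _ _ _ _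
          * (of A * ((Y _ _ _ _) ^ 2) ^ m) := by
    have : (W (T 1) (C s) A B) ^ (4 * m + 3) = W _ _ _ _ * ((W _ _ _ _) ^ 2) ^ (2 * m + 1) := by
      ring
    rw [this, W_sq_pow hAA]
    ring
  rw [h1, of_A_mul_Y_sq_pow hs3 hsA, Y_sq_pow hs3]
  simp only [map_add, map_mul, map_pow, map_natCast, e6]
  set w := W (T 1) (C s) A B
  set y := Y (T 1) (C s) A B
  set b : QQ s A B := of B
  set a : QQ s A B := of A
  set σ : QQ s A B := of (C s)
  set t : QQ s A B := of (T (m : ℤ))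
  set t1 : QQ s A B := of (T ((m : ℤ) - 1))
  set t2 : QQ s A B := of (T ((m : ℤ) - 2))
  set c : QQ s A B := ((m.choose 2 : ℕ) : QQ s A B)
  linear_combination b ^ (2 * m) * ((-(m : QQ s A B) * b * t1 * σ * y + c * b * t2 * σ ^ 2 * w * y)
      * hW + (-(m : QQ s A B) * b ^ 2 * t1 * σ + c * b ^ 2 * t2 * σ ^ 2 * w) * hY
    + (-(m : QQ s A B) * b * t1 * y + c * b * t2 * σ * w * y) * h0
    + (-(m : QQ s A B) * b ^ 2 * σ) * e4 + (c * b ^ 2 * σ ^ 2 * w) * e5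
    - (c * b ^ 2 * t2 * w ^ 2) * hσ)

/-- Formula for `(y w) ^ (4 m + 3)`. -/
theorem YW_pow (hAA : A * A = 0) (hs3 : s ^ 3 = 0) (hsA : C s * A = 0) (m : ℕ) :
    (Y (T 1) (C s) A B * W (T 1) (C s) A B) ^ (4 * m + 3) =
      of (B ^ (2 * m + 1) * T ((3 * m + 2 : ℕ) : ℤ)) * W _ _ _ _
      - of (((3 * m + 2 : ℕ) : LaurentPolynomial R) * T (((3 * m + 2 : ℕ) : ℤ) - 1) * C s
          * B ^ (2 * m + 2)) * Y _ _ _ _
      + of ((((3 * m + 2).choose 2 : ℕ) : LaurentPolynomial R)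
          * T (((3 * m + 2 : ℕ) : ℤ) - 2) * (C s) ^ 2 * B ^ (2 * m + 2)
          + ((2 * m + 1 : ℕ) : LaurentPolynomial R) * (A * B ^ (2 * m))
            * T ((3 * m + 1 : ℕ) : ℤ))
        * (Y _ _ _ _ * W _ _ _ _) := by
  have h0 : (of (C s) : QQ s A B) * of A = 0 := by rw [← map_mul, hsA, map_zero]
  have hW := W_sq (X := T 1) (S := C s) (A := A) (B := B)
  have h1 : (Y (T 1) (C s) A B * W (T 1) (C s) A B) ^ (4 * m + 3)
      = W _ _ _ _ * (of B ^ (2 * m + 1) * ((Y _ _ _ _) ^ 2) ^ (3 * m + 2))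
        + ((2 * m + 1 : ℕ) : QQ s A B) * of B ^ (2 * m) * (Y _ _ _ _ * W _ _ _ _)
          * (of A * ((Y _ _ _ _) ^ 2) ^ (3 * m + 1)) := by
    have : (Y (T 1) (C s) A B * W (T 1) (C s) A B) ^ (4 * m + 3)
        = (Y _ _ _ _) ^ (4 * m + 3) * (W _ _ _ _ * ((W _ _ _ _) ^ 2) ^ (2 * m + 1)) := by
      ring
    rw [this, W_sq_pow hAA]
    ring
  rw [h1, of_A_mul_Y_sq_pow hs3 hsA, Y_sq_pow hs3]
  simp only [map_add, map_mul, map_pow, map_natCast]
  set w := W (T 1) (C s) A B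
  set y := Y (T 1) (C s) A B
  set b : QQ s A B := of B
  set a : QQ s A B := of A
  set σ : QQ s A B := of (C s)
  set t : QQ s A B := of (T ((3 * m + 2 : ℕ) : ℤ))
  set t1 : QQ s A B := of (T (((3 * m + 2 : ℕ) : ℤ) - 1))
  set t2 : QQ s A B := of (T (((3 * m + 2 : ℕ) : ℤ) - 2))
  set c : QQ s A B := (((3 * m + 2).choose 2 : ℕ) : QQ s A B)
  set n : QQ s A B := ((3 * m + 2 : ℕ) : QQ s A B)
  linear_combination b ^ (2 * m) * ((-n * b * t1 * σ + c * b * t2 * σ ^ 2 * w) * hW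
    + (-n * b * t1 + c * b * t2 * σ * w) * h0)

end Pool.Agent.PRank
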