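import Mathlib

/-!
The free rank four algebra with basis `1, y, w, yw` and relations `y ^ 2 = X - S w`,
`w ^ 2 = A + B y`.
-/

namespace Pool.Agent.PRank

/-- The element `c0 + c1 y + c2 w + c3 y w`. -/
@[ext]
structure Q4 {L : Type*} (X S A B : L) where
  /-- coefficient of `1` -/
  c0 : L
  /-- coefficient of `y` -/
  c1 : L
  /-- coefficient of `w` -/
  c2 : L
  /-- coefficient of `y w` -/
  c3 : L

namespace Q4

variable {L : Type*} [CommRing L] {X S A B : L}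

instance : Zero (Q4 X S A B) := ⟨⟨0, 0, 0, 0⟩⟩
instance : One (Q4 X S A B) := ⟨⟨1, 0, 0, 0⟩⟩
instance : Add (Q4 X S A B) :=
  ⟨fun u v => ⟨u.c0 + v.c0, u.c1 + v.c1, u.c2 + v.c2, u.c3 + v.c3⟩⟩
instance : Neg (Q4 X S A B) := ⟨fun u => ⟨-u.c0, -u.c1, -u.c2, -u.c3⟩⟩
instance : Mul (Q4 X S A B) :=
  ⟨fun u v =>
    ⟨u.c0 * v.c0 + X * (u.c1 * v.c1) - S * A * (u.c1 * v.c3 + u.c3 * v.c1) + A * (u.c2 * v.c2)
        + X * B * (u.c2 * v.c3 + u.c3 * v.c2) + X * A * (u.c3 * v.c3),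
      u.c0 * v.c1 + u.c1 * v.c0 - S * B * (u.c1 * v.c3 + u.c3 * v.c1) + B * (u.c2 * v.c2)
        + A * (u.c2 * v.c3 + u.c3 * v.c2) + X * B * (u.c3 * v.c3),
      u.c0 * v.c2 + u.c2 * v.c0 - S * (u.c1 * v.c1) + X * (u.c1 * v.c3 + u.c3 * v.c1)
        - S * B * (u.c2 * v.c3 + u.c3 * v.c2) - S * A * (u.c3 * v.c3),
      u.c0 * v.c3 + u.c3 * v.c0 + u.c1 * v.c2 + u.c2 * v.c1 - S * B * (u.c3 * v.c3)⟩⟩

@[simp] theorem zero_c0 : (0 : Q4 X S A B).c0 = 0 := rfl
@[simp] theorem zero_c1 : (0 : Q4 X S A B).c1 = 0 := rfl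
@[simp] theorem zero_c2 : (0 : Q4 X S A B).c2 = 0 := rfl
@[simp] theorem zero_c3 : (0 : Q4 X S A B).c3 = 0 := rfl
@[simp] theorem one_c0 : (1 : Q4 X S A B).c0 = 1 := rfl
@[simp] theorem one_c1 : (1 : Q4 X S A B).c1 = 0 := rfl
@[simp] theorem one_c2 : (1 : Q4 X S A B).c2 = 0 := rfl
@[simp] theorem one_c3 : (1 : Q4 X S A B).c3 = 0 := rfl
@[simp] theorem add_c0 (u v : Q4 X S A B) : (u + v).c0 = u.c0 + v.c0 := rfl
@[simp] theorem add_c1 (u v : Q4 X S A B) : (u + v).c1 = u.c1 + v.c1 := rfl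
@[simp] theorem add_c2 (u v : Q4 X S A B) : (u + v).c2 = u.c2 + v.c2 := rfl
@[simp] theorem add_c3 (u v : Q4 X S A B) : (u + v).c3 = u.c3 + v.c3 := rfl
@[simp] theorem neg_c0 (u : Q4 X S A B) : (-u).c0 = -u.c0 := rfl
@[simp] theorem neg_c1 (u : Q4 X S A B) : (-u).c1 = -u.c1 := rfl
@[simp] theorem neg_c2 (u : Q4 X S A B) : (-u).c2 = -u.c2 := rfl
@[simp] theorem neg_c3 (u : Q4 X S A B) : (-u).c3 = -u.c3 := rfl
theorem mul_c0 (u v : Q4 X S A B) : (u * v).c0 =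
    u.c0 * v.c0 + X * (u.c1 * v.c1) - S * A * (u.c1 * v.c3 + u.c3 * v.c1) + A * (u.c2 * v.c2)
        + X * B * (u.c2 * v.c3 + u.c3 * v.c2) + X * A * (u.c3 * v.c3) := rfl
theorem mul_c1 (u v : Q4 X S A B) : (u * v).c1 =
    u.c0 * v.c1 + u.c1 * v.c0 - S * B * (u.c1 * v.c3 + u.c3 * v.c1) + B * (u.c2 * v.c2)
        + A * (u.c2 * v.c3 + u.c3 * v.c2) + X * B * (u.c3 * v.c3) := rfl
theorem mul_c2 (u v : Q4 X S A B) : (u * v).c2 =
    u.c0 * v.c2 + u.c2 * v.c0 - S * (u.c1 * v.c1) + X * (u.c1 * v.c3 + u.c3 * v.c1)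
        - S * B * (u.c2 * v.c3 + u.c3 * v.c2) - S * A * (u.c3 * v.c3) := rfl
theorem mul_c3 (u v : Q4 X S A B) : (u * v).c3 =
    u.c0 * v.c3 + u.c3 * v.c0 + u.c1 * v.c2 + u.c2 * v.c1 - S * B * (u.c3 * v.c3) := rfl

instance : CommRing (Q4 X S A B) where
  add_assoc u v w := by ext <;> simp <;> ring
  zero_add u := by ext <;> simp
  add_zero u := by ext <;> simp
  add_comm u v := by ext <;> simp <;> ring
  neg_add_cancel u := by ext <;> simp
  zero_mul u := by ext <;> simp [mul_c0, mul_c1, mul_c2, mul_c3]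
  mul_zero u := by ext <;> simp [mul_c0, mul_c1, mul_c2, mul_c3]
  one_mul u := by ext <;> simp [mul_c0, mul_c1, mul_c2, mul_c3]
  mul_one u := by ext <;> simp [mul_c0, mul_c1, mul_c2, mul_c3]
  left_distrib u v w := by
    ext <;> simp only [mul_c0, mul_c1, mul_c2, mul_c3, add_c0, add_c1, add_c2, add_c3] <;> ring
  right_distrib u v w := by
    ext <;> simp only [mul_c0, mul_c1, mul_c2, mul_c3, add_c0, add_c1, add_c2, add_c3] <;> ring
  mul_assoc u v w := by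
    ext <;> simp only [mul_c0, mul_c1, mul_c2, mul_c3] <;> ring
  mul_comm u v := by
    ext <;> simp only [mul_c0, mul_c1, mul_c2, mul_c3] <;> ring
  nsmul := nsmulRec
  zsmul := zsmulRec

@[simp] theorem sub_c0 (u v : Q4 X S A B) : (u - v).c0 = u.c0 - v.c0 := by
  rw [sub_eq_add_neg, sub_eq_add_neg]; rfl
@[simp] theorem sub_c1 (u v : Q4 X S A B) : (u - v).c1 = u.c1 - v.c1 := by
  rw [sub_eq_add_neg, sub_eq_add_neg]; rfl
@[simp] theorem sub_c2 (u v : Q4 X S A B) : (u - v).c2 = u.c2 - v.c2 := by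
  rw [sub_eq_add_neg, sub_eq_add_neg]; rfl
@[simp] theorem sub_c3 (u v : Q4 X S A B) : (u - v).c3 = u.c3 - v.c3 := by
  rw [sub_eq_add_neg, sub_eq_add_neg]; rfl

/-- The inclusion of scalars. -/
def of : L →+* Q4 X S A B where
  toFun l := ⟨l, 0, 0, 0⟩
  map_one' := rfl
  map_zero' := rfl
  map_mul' a b := by ext <;> simp [mul_c0, mul_c1, mul_c2, mul_c3]
  map_add' a b := by ext <;> simp

@[simp] theorem of_c0 (l : L) : (of l : Q4 X S A B).c0 = l := rfl
@[simp] theorem of_c1 (l : L) : (of l : Q4 X S A B).c1 = 0 := rfl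
@[simp] theorem of_c2 (l : L) : (of l : Q4 X S A B).c2 = 0 := rfl
@[simp] theorem of_c3 (l : L) : (of l : Q4 X S A B).c3 = 0 := rfl

@[simp] theorem of_mul_c0 (l : L) (u : Q4 X S A B) : (of l * u).c0 = l * u.c0 := by
  simp [mul_c0]
@[simp] theorem of_mul_c1 (l : L) (u : Q4 X S A B) : (of l * u).c1 = l * u.c1 := by
  simp [mul_c1]
@[simp] theorem of_mul_c2 (l : L) (u : Q4 X S A B) : (of l * u).c2 = l * u.c2 := by
  simp [mul_c2]
@[simp] theorem of_mul_c3 (l : L) (u : Q4 X S A B) : (of l * u).c3 = l * u.c3 := by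
  simp [mul_c3]

variable (X S A B) in
/-- The element `y`. -/
def Y : Q4 X S A B := ⟨0, 1, 0, 0⟩

variable (X S A B) in
/-- The element `w`. -/
def W : Q4 X S A B := ⟨0, 0, 1, 0⟩

@[simp] theorem Y_c0 : (Y X S A B).c0 = 0 := rfl
@[simp] theorem Y_c1 : (Y X S A B).c1 = 1 := rfl
@[simp] theorem Y_c2 : (Y X S A B).c2 = 0 := rfl
@[simp] theorem Y_c3 : (Y X S A B).c3 = 0 := rfl
@[simp] theorem W_c0 : (W X S A B).c0 = 0 := rfl
@[simp] theorem W_c1 : (W X S A B).c1 = 0 := rfl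
@[simp] theorem W_c2 : (W X S A B).c2 = 1 := rfl
@[simp] theorem W_c3 : (W X S A B).c3 = 0 := rfl

theorem Y_mul_W_c0 : (Y X S A B * W X S A B).c0 = 0 := by simp [mul_c0]
theorem Y_mul_W_c1 : (Y X S A B * W X S A B).c1 = 0 := by simp [mul_c1]
theorem Y_mul_W_c2 : (Y X S A B * W X S A B).c2 = 0 := by simp [mul_c2]
theorem Y_mul_W_c3 : (Y X S A B * W X S A B).c3 = 1 := by simp [mul_c3]

theorem Y_sq : Y X S A B ^ 2 = of X - of S * W X S A B := by
  rw [sq]; ext <;> simp [mul_c0, mul_c1, mul_c2, mul_c3]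

theorem W_sq : W X S A B ^ 2 = of A + of B * Y X S A B := by
  rw [sq]; ext <;> simp [mul_c0, mul_c1, mul_c2, mul_c3]

theorem eq_basis (u : Q4 X S A B) :
    u = of u.c0 + of u.c1 * Y X S A B + of u.c2 * W X S A B
      + of u.c3 * (Y X S A B * W X S A B) := by
  ext <;> simp [Y_mul_W_c0, Y_mul_W_c1, Y_mul_W_c2, Y_mul_W_c3]

/-- `of` is injective. -/
theorem of_injective : Function.Injective (of : L → Q4 X S A B) := by
  intro a b h
  exact congrArg Q4.c0 h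

section Map

variable {L' : Type*} [CommRing L'] {X' S' A' B' : L'}

/-- Base change. -/
def map (f : L →+* L') (hX : f X = X') (hS : f S = S') (hA : f A = A') (hB : f B = B') :
    Q4 X S A B →+* Q4 X' S' A' B' where
  toFun u := ⟨f u.c0, f u.c1, f u.c2, f u.c3⟩
  map_one' := by ext <;> simp
  map_zero' := by ext <;> simp
  map_mul' u v := by
    subst hX hS hA hB
    ext <;> simp [mul_c0, mul_c1, mul_c2, mul_c3]
  map_add' u v := by ext <;> simp

@[simp] theorem map_c0 (f : L →+* L') (hX : f X = X') (hS : f S = S') (hA : f A = A')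
    (hB : f B = B') (u : Q4 X S A B) : (map f hX hS hA hB u).c0 = f u.c0 := rfl
@[simp] theorem map_c1 (f : L →+* L') (hX : f X = X') (hS : f S = S') (hA : f A = A')
    (hB : f B = B') (u : Q4 X S A B) : (map f hX hS hA hB u).c1 = f u.c1 := rfl
@[simp] theorem map_c2 (f : L →+* L') (hX : f X = X') (hS : f S = S') (hA : f A = A')
    (hB : f B = B') (u : Q4 X S A B) : (map f hX hS hA hB u).c2 = f u.c2 := rfl
@[simp] theorem map_c3 (f : L →+* L') (hX : f X = X') (hS : f S = S') (hA : f A = A')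
    (hB : f B = B') (u : Q4 X S A B) : (map f hX hS hA hB u).c3 = f u.c3 := rfl

end Map

section Flip

/-- The isomorphism `w ↦ -w` between the algebras for `S` and `-S`. -/
def flip : Q4 X S A B →+* Q4 X (-S) A B where
  toFun u := ⟨u.c0, u.c1, -u.c2, -u.c3⟩
  map_one' := by ext <;> simp
  map_zero' := by ext <;> simp
  map_mul' u v := by
    ext <;> simp only [mul_c0, mul_c1, mul_c2, mul_c3] <;> ring
  map_add' u v := by ext <;> simp <;> ring

@[simp] theorem flip_c0 (u : Q4 X S A B) : (flip u).c0 = u.c0 := rfl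
@[simp] theorem flip_c1 (u : Q4 X S A B) : (flip u).c1 = u.c1 := rfl
@[simp] theorem flip_c2 (u : Q4 X S A B) : (flip u).c2 = -u.c2 := rfl
@[simp] theorem flip_c3 (u : Q4 X S A B) : (flip u).c3 = -u.c3 := rfl

end Flip

instance instCharP (p : ℕ) [CharP L p] : CharP (Q4 X S A B) p :=
  charP_of_injective_ringHom of_injective p

end Q4

end Pool.Agent.PRank
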