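import Pool.Agent.PRank.Q4

/-!
The vector field on the algebra `Q4` and the alternating pairing it defines.
-/

namespace Pool.Agent.PRank

/-- Derivations of a commutative ring. -/
abbrev Der (L : Type*) [CommRing L] := Derivation ℤ L L

namespace Q4

variable {L : Type*} [CommRing L] {X S A B : L}

/-- The value of the vector field on `y`. -/
def EY (θ : Der L) : Q4 X S A B := ⟨S * θ A, S * θ B, -2 * X, 0⟩

/-- The value of the vector field on `w`. -/
def EW (θ : Der L) : Q4 X S A B :=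
  ⟨-(X * B) - 2 * X * θ B, -2 * θ A, 2 * S * θ B, 0⟩

/-- The vector field. -/
def E (θ : Der L) (u : Q4 X S A B) : Q4 X S A B :=
  ⟨-(S * B) * θ u.c0 + 4 * (S * A) * θ u.c1 - 4 * (X * B) * θ u.c2 - 4 * (X * A) * θ u.c3
      + u.c1 * (S * θ A) + u.c2 * (-(X * B) - 2 * X * θ B)
      + u.c3 * (-2 * (X * θ A) - 2 * (X * A)),
    -(S * B) * θ u.c1 + 4 * (S * B) * θ u.c1 - 4 * A * θ u.c2 - 4 * (X * B) * θ u.c3
      + u.c1 * (S * θ B) + u.c2 * (-2 * θ A)
      + u.c3 * (-(X * B) - 2 * X * θ B - 2 * (X * B)),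
    -(S * B) * θ u.c2 - 4 * X * θ u.c1 + 4 * (S * B) * θ u.c2 + 4 * (S * A) * θ u.c3
      + u.c1 * (-2 * X) + u.c2 * (2 * S * θ B)
      + u.c3 * (2 * (S * θ A) + S * θ A),
    -(S * B) * θ u.c3 - 4 * θ u.c0 + 4 * (S * B) * θ u.c3 + u.c3 * (2 * (S * θ B) + S * θ B)⟩

theorem E_eq (θ : Der L) (u : Q4 X S A B) :
    E θ u = (⟨-(S * B), 0, 0, -4⟩ : Q4 X S A B) * ⟨θ u.c0, θ u.c1, θ u.c2, θ u.c3⟩
      + of u.c1 * EY θ + of u.c2 * EW θ
      + of u.c3 * (Y X S A B * EW θ + W X S A B * EY θ) := by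
  ext <;> simp [E, EY, EW, mul_c0, mul_c1, mul_c2, mul_c3] <;> ring

theorem E_mul (θ : Der L) (hX : θ X = X) (hS : θ S = 0) (u v : Q4 X S A B) :
    E θ (u * v) = u * E θ v + E θ u * v := by
  ext
  · simp only [E, mul_c0, mul_c1, mul_c2, mul_c3, add_c0, map_add, map_sub, Derivation.leibniz,
      smul_eq_mul, hX, hS]
    ring
  · simp only [E, mul_c0, mul_c1, mul_c2, mul_c3, add_c1, map_add, map_sub, Derivation.leibniz,
      smul_eq_mul, hX, hS]
    ring
  · simp only [E, mul_c0, mul_c1, mul_c2, mul_c3, add_c2, map_add, map_sub, Derivation.leibniz,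
      smul_eq_mul, hX, hS]
    ring
  · simp only [E, mul_c0, mul_c1, mul_c2, mul_c3, add_c3, map_add, map_sub, Derivation.leibniz,
      smul_eq_mul, hX, hS]
    ring

theorem E_add (θ : Der L) (u v : Q4 X S A B) : E θ (u + v) = E θ u + E θ v := by
  ext <;> simp only [E, add_c0, add_c1, add_c2, add_c3, map_add] <;> ring

theorem E_c3 (θ : Der L) (hS : θ S = 0) (u : Q4 X S A B) :
    (E θ u).c3 = θ (-4 * u.c0 + 3 * (S * B) * u.c3) := by
  have h4 : θ (4 : L) = 0 := by
    have := θ.map_natCast 4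
    simpa using this
  have h3 : θ (3 : L) = 0 := by
    have := θ.map_natCast 3
    simpa using this
  simp only [E, map_add, Derivation.leibniz, smul_eq_mul, hS, map_neg, h4, h3, neg_mul,
    mul_zero]
  ring

end Q4

end Pool.Agent.PRank
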