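import Pool.Agent.PRank.VLocus2

/-!
Power series in six variables: evaluation along lines, homogeneous parts, division by variables.
-/

namespace Pool.Agent.PRank

set_option linter.unusedSectionVars false

open Finset

section Div

variable {R : Type*} [CommRing R] {n : ℕ}

/-- Power series all of whose coefficients of degree less than `N` vanish. -/
def VanTo (N : ℕ) (f : MvPowerSeries (Fin n) R) : Prop :=
  ∀ d : Fin n →₀ ℕ, d.degree < N → MvPowerSeries.coeff d f = 0

/-- `i` is the first index of the support of `d`. -/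
def IsFst (d : Fin n →₀ ℕ) (i : Fin n) : Prop := d i ≠ 0 ∧ ∀ j, d j ≠ 0 → i ≤ j

open Classical in
/-- The part of `f` divided by its first variable `X i`. -/
noncomputable def divPart (f : MvPowerSeries (Fin n) R) (i : Fin n) : MvPowerSeries (Fin n) R :=
  fun d => if IsFst (d + Finsupp.single i 1) i then
    MvPowerSeries.coeff (d + Finsupp.single i 1) f else 0

open Classical in
theorem coeff_divPart (f : MvPowerSeries (Fin n) R) (i : Fin n) (d : Fin n →₀ ℕ) :
    MvPowerSeries.coeff d (divPart f i) = if IsFst (d + Finsupp.single i 1) i then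
      MvPowerSeries.coeff (d + Finsupp.single i 1) f else 0 := rfl

theorem exists_fst {d : Fin n →₀ ℕ} (hd : d ≠ 0) : ∃ i, IsFst d i := by
  classical
  have hne : (Finset.univ.filter fun i => d i ≠ 0).Nonempty := by
    by_contra hcon
    rw [Finset.not_nonempty_iff_eq_empty, Finset.filter_eq_empty_iff] at hcon
    apply hd
    ext i
    simpa using hcon (Finset.mem_univ i)
  refine ⟨(Finset.univ.filter fun i => d i ≠ 0).min' hne, ?_, ?_⟩
  · have := Finset.min'_mem _ hne
    exact (Finset.mem_filter.1 this).2
  · intro j hj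
    exact Finset.min'_le (Finset.univ.filter fun i => d i ≠ 0) j
      (Finset.mem_filter.2 ⟨Finset.mem_univ j, hj⟩)

theorem exists_div {N : ℕ} {f : MvPowerSeries (Fin n) R} (hf : VanTo (N + 1) f) :
    ∃ g : Fin n → MvPowerSeries (Fin n) R, (∀ i, VanTo N (g i)) ∧
      f = ∑ i, MvPowerSeries.X i * g i := by
  classical
  refine ⟨divPart f, ?_, ?_⟩
  · intro i d hd
    rw [coeff_divPart]
    split_ifs
    · apply hf
      rw [map_add, Finsupp.degree_single]
      omega
    · rfl
  · ext d
    rw [map_sum]
    by_cases hd : d = 0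
    · subst hd
      have h0 : MvPowerSeries.coeff (0 : Fin n →₀ ℕ) f = 0 := hf 0 (by simp)
      rw [h0]
      symm
      refine Finset.sum_eq_zero fun i _ => ?_
      rw [MvPowerSeries.X_def, MvPowerSeries.coeff_monomial_mul, if_neg]
      intro h
      have := h i
      simp at this
    · -- the first index of the support
      obtain ⟨i, hi⟩ := exists_fst hd
      have key : ∀ j, MvPowerSeries.coeff d (MvPowerSeries.X j * divPart f j)
          = if j = i then MvPowerSeries.coeff d f else 0 := by
        intro j
        rw [MvPowerSeries.X_def, MvPowerSeries.coeff_monomial_mul, one_mul]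
        by_cases hj : Finsupp.single j 1 ≤ d
        · rw [if_pos hj, coeff_divPart, tsub_add_cancel_of_le hj]
          by_cases hji : j = i
          · rw [if_pos hji, if_pos (hji ▸ hi)]
          · rw [if_neg hji, if_neg]
            intro h
            exact hji (le_antisymm (h.2 i hi.1) (hi.2 j h.1))
        · rw [if_neg hj, if_neg]
          rintro rfl
          apply hj
          rw [Finsupp.single_le_iff]
          exact Nat.one_le_iff_ne_zero.2 hi.1
      rw [Finset.sum_congr rfl fun j _ => key j]
      simp

theorem exists_div_of_constantCoeff {f : MvPowerSeries (Fin n) R}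
    (hf : MvPowerSeries.constantCoeff f = 0) :
    ∃ g : Fin n → MvPowerSeries (Fin n) R, f = ∑ i, MvPowerSeries.X i * g i := by
  obtain ⟨g, -, hg⟩ := exists_div (N := 0) (f := f) (by
    intro d hd
    have : d = 0 := by
      rw [← Finsupp.degree_eq_zero_iff]; omega
    rw [this, MvPowerSeries.coeff_zero_eq_constantCoeff_apply]
    exact hf)
  exact ⟨g, hg⟩

theorem mem_pow_of_vanTo (I : Ideal (MvPowerSeries (Fin n) R))
    (hI : ∀ i, MvPowerSeries.X i ∈ I) (N : ℕ) :
    ∀ f : MvPowerSeries (Fin n) R, VanTo N f → f ∈ I ^ N := by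
  induction N with
  | zero => intro f _; simp
  | succ N ih =>
    intro f hf
    obtain ⟨g, hg, rfl⟩ := exists_div hf
    refine Ideal.sum_mem _ fun i _ => ?_
    rw [pow_succ']
    exact Ideal.mul_mem_mul (hI i) (ih _ (hg i))

end Div

section Ev

variable {k : Type*} [Field k]

/-- The substitution `X_i ↦ t_i τ`. -/
noncomputable def evArg (t : Fin 6 → k) : Fin 6 → MvPowerSeries Unit k :=
  fun i => MvPowerSeries.C (t i) * MvPowerSeries.X ()

theorem evArg_hasSubst (t : Fin 6 → k) : MvPowerSeries.HasSubst (evArg t) :=
  MvPowerSeries.hasSubst_of_constantCoeff_zero fun i => by simp [evArg]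

/-- Restriction of power series to the line through `t`. -/
noncomputable def ev (t : Fin 6 → k) : MvPowerSeries (Fin 6) k →ₐ[k] MvPowerSeries Unit k :=
  MvPowerSeries.substAlgHom (evArg_hasSubst t)

theorem ev_X (t : Fin 6 → k) (i : Fin 6) :
    ev t (MvPowerSeries.X i) = MvPowerSeries.C (t i) * MvPowerSeries.X () := by
  rw [ev, MvPowerSeries.substAlgHom_X]
  rfl

/-- Homogeneous part of degree `n` of a power series as a polynomial. -/
noncomputable def hpart (n : ℕ) (f : MvPowerSeries (Fin 6) k) : MvPolynomial (Fin 6) k :=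
  ∑ d ∈ Finset.univ.finsuppAntidiag n, MvPolynomial.monomial d (MvPowerSeries.coeff d f)

theorem coeff_hpart (n : ℕ) (f : MvPowerSeries (Fin 6) k) (d : Fin 6 →₀ ℕ) :
    (hpart n f).coeff d = if d.degree = n then MvPowerSeries.coeff d f else 0 := by
  classical
  rw [hpart, MvPolynomial.coeff_sum]
  simp only [MvPolynomial.coeff_monomial, Finset.sum_ite_eq', Finset.mem_finsuppAntidiag,
    Finset.subset_univ, and_true]
  rw [Finsupp.degree_eq_sum]

theorem coeff_ev (t : Fin 6 → k) (f : MvPowerSeries (Fin 6) k) (n : ℕ) :
    MvPowerSeries.coeff (Finsupp.single () n) (ev t f) = MvPolynomial.eval t (hpart n f) := by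
  classical
  rw [ev, MvPowerSeries.substAlgHom_apply, MvPowerSeries.coeff_subst (evArg_hasSubst t)]
  have key : ∀ d : Fin 6 →₀ ℕ, MvPowerSeries.coeff d f •
      MvPowerSeries.coeff (Finsupp.single () n) (d.prod fun s e => evArg t s ^ e)
      = if d.degree = n then MvPowerSeries.coeff d f * ∏ i, t i ^ d i else 0 := by
    intro d
    have h1 : (d.prod fun s e => evArg t s ^ e)
        = MvPowerSeries.C (∏ i, t i ^ d i) * MvPowerSeries.X () ^ d.degree := by
      rw [Finsupp.prod_fintype _ _ (fun i => pow_zero _)]
      simp only [evArg, mul_pow]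
      rw [Finset.prod_mul_distrib, Finset.prod_pow_eq_pow_sum, map_prod, Finsupp.degree_eq_sum]
      simp only [map_pow]
    rw [h1, MvPowerSeries.coeff_C_mul, MvPowerSeries.X_pow_eq, MvPowerSeries.coeff_monomial]
    by_cases hd : d.degree = n
    · rw [if_pos hd, if_pos (by rw [hd]), mul_one, smul_eq_mul]
    · rw [if_neg hd, if_neg, mul_zero, smul_zero]
      intro h
      apply hd
      have := congrArg (fun g => g ()) h
      simpa using this.symm
  rw [finsum_congr key, hpart, map_sum]
  rw [finsum_eq_sum_of_support_subset (s := Finset.univ.finsuppAntidiag n)]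
  · refine Finset.sum_congr rfl fun d hd => ?_
    rw [Finset.mem_finsuppAntidiag] at hd
    rw [if_pos (by rw [Finsupp.degree_eq_sum]; exact hd.1), MvPolynomial.eval_monomial,
      Finsupp.prod_fintype _ _ (fun i => pow_zero _)]
  · intro d hd
    rw [Function.mem_support] at hd
    rw [Finset.mem_coe, Finset.mem_finsuppAntidiag]
    by_contra hcon
    apply hd
    rw [if_neg]
    intro h
    apply hcon
    refine ⟨?_, Finset.subset_univ _⟩
    rw [← h, Finsupp.degree_eq_sum]

/-- Evaluation along a line of a homogeneous polynomial. -/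
theorem ev_homog (t : Fin 6 → k) {G : MvPolynomial (Fin 6) k} {n : ℕ} (hG : G.IsHomogeneous n) :
    ev t (G : MvPowerSeries (Fin 6) k)
      = MvPowerSeries.C (MvPolynomial.eval t G) * MvPowerSeries.X () ^ n := by
  rw [ev, MvPowerSeries.substAlgHom_coe, MvPolynomial.aeval_def, MvPolynomial.eval₂_eq',
    MvPolynomial.eval_eq', map_sum, Finset.sum_mul]
  refine Finset.sum_congr rfl fun d hd => ?_
  have h1 : ∑ i, d i = n := by
    have := hG (MvPolynomial.mem_support_iff.1 hd)
    rw [Finsupp.weight_apply, Finsupp.sum_fintype] at this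
    · simpa using this
    · simp
  simp only [evArg, mul_pow]
  rw [Finset.prod_mul_distrib, Finset.prod_pow_eq_pow_sum, h1, map_mul, map_prod]
  simp only [map_pow]
  rw [← mul_assoc]
  rfl

theorem hpart_homog (n : ℕ) (f : MvPowerSeries (Fin 6) k) : (hpart n f).IsHomogeneous n := by
  intro d hd
  rw [coeff_hpart] at hd
  have h : d.degree = n := by
    by_contra h
    rw [if_neg h] at hd
    exact hd rfl
  rw [Finsupp.weight_apply, Finsupp.sum_fintype _ _ (by simp), ← h, Finsupp.degree_eq_sum]
  simp

/-- A power series minus its parts of small degree vanishes to high order. -/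
theorem vanTo_sub (N : ℕ) (f : MvPowerSeries (Fin 6) k) :
    VanTo N (f - ∑ n ∈ range N, (hpart n f : MvPowerSeries (Fin 6) k)) := by
  intro d hd
  rw [map_sub, map_sum]
  simp only [MvPolynomial.coeff_coe, coeff_hpart]
  rw [Finset.sum_ite_eq, if_pos (Finset.mem_range.2 hd), sub_self]

end Ev

end Pool.Agent.PRank
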