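import Pool.Agent.PRank.Lift

/-!
The entries of the Hasse-Witt matrix generate the maximal ideal of the power series ring in
`a_2, …, a_6, s²`.
-/

namespace Pool.Agent.PRank

set_option linter.unusedSectionVars false

variable {k : Type*} [Field k] {p : ℕ} [Fact p.Prime] [CharP k p]

/-- The ideal generated by the entries of a matrix. -/
def Ent {R : Type*} [CommRing R] (T : Matrix (Fin 3) (Fin 3) R) : Ideal R :=
  Ideal.span (Set.range fun ij : Fin 3 × Fin 3 => T ij.1 ij.2)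

theorem mem_Ent {R : Type*} [CommRing R] (T : Matrix (Fin 3) (Fin 3) R) (i j : Fin 3) :
    T i j ∈ Ent T := Ideal.subset_span ⟨(i, j), rfl⟩

variable {Te : Matrix (Fin 3) (Fin 3) (MvPowerSeries (Fin 6) k)}

theorem quot_entry (hTe : Te.map (phi k) = HW p (genc k)) (i j : Fin 3)
    (g : MvPowerSeries (Fin 6) k)
    (hg : HW p (fun l => Ideal.Quotient.mk (IR k) (MvPowerSeries.X l)) i j
      = Ideal.Quotient.mk (IR k) (phi k g)) : VanTo 2 (Te i j - g) := by
  apply vanTo_of_phi_mem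
  rw [← Ideal.Quotient.eq_zero_iff_mem, map_sub, map_sub, sub_eq_zero, ← hg]
  have h1 := congrFun (congrFun (HW_map (Ideal.Quotient.mk (IR k)) p (genc k)) i) j
  rw [← hTe] at h1
  exact h1

theorem mk_C_natCast (n : ℕ) : Ideal.Quotient.mk (IR k) (MvPowerSeries.C (n : k))
    = (n : MvPowerSeries (Fin 6) k ⧸ IR k) := by
  rw [map_natCast, map_natCast]

/-- Linear term with one variable. -/
theorem one_var (hTe : Te.map (phi k) = HW p (genc k)) (i j : Fin 3) {l : Fin 6} (hl : l ≠ 5)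
    (β : k) (hβ : β ≠ 0)
    (h : HW p (fun l => Ideal.Quotient.mk (IR k) (MvPowerSeries.X l)) i j
      = Ideal.Quotient.mk (IR k) (MvPowerSeries.C β) *
        Ideal.Quotient.mk (IR k) (MvPowerSeries.X l)) :
    (MvPowerSeries.X l : MvPowerSeries (Fin 6) k) ∈ Ent Te ⊔ vI k 6 2 := by
  have h1 : VanTo 2 (Te i j - MvPowerSeries.C β * MvPowerSeries.X l) := by
    apply quot_entry hTe
    rw [h, map_mul, map_mul, phi_C, phi_X hl]
  have h2 : (MvPowerSeries.X l : MvPowerSeries (Fin 6) k) = MvPowerSeries.C β⁻¹ * Te i j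
      + -(MvPowerSeries.C β⁻¹ * (Te i j - MvPowerSeries.C β * MvPowerSeries.X l)) := by
    have : (MvPowerSeries.C β⁻¹ : MvPowerSeries (Fin 6) k) * MvPowerSeries.C β = 1 := by
      rw [← map_mul, inv_mul_cancel₀ hβ, map_one]
    linear_combination -MvPowerSeries.X l * this
  rw [h2]
  exact Submodule.add_mem_sup (Ideal.mul_mem_left _ _ (mem_Ent Te i j))
    ((vI k 6 2).neg_mem (Ideal.mul_mem_left _ _ h1))

/-- Linear terms with two variables. -/
theorem two_var (hTe : Te.map (phi k) = HW p (genc k)) (i j i' j' : Fin 3)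
    (α β α' β' : k) (hdet : α * β' - α' * β ≠ 0)
    (h : HW p (fun l => Ideal.Quotient.mk (IR k) (MvPowerSeries.X l)) i j
      = Ideal.Quotient.mk (IR k) (MvPowerSeries.C α) *
        Ideal.Quotient.mk (IR k) (MvPowerSeries.X 5) ^ 2
        + Ideal.Quotient.mk (IR k) (MvPowerSeries.C β) *
        Ideal.Quotient.mk (IR k) (MvPowerSeries.X 2))
    (h' : HW p (fun l => Ideal.Quotient.mk (IR k) (MvPowerSeries.X l)) i' j'
      = Ideal.Quotient.mk (IR k) (MvPowerSeries.C α') *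
        Ideal.Quotient.mk (IR k) (MvPowerSeries.X 5) ^ 2
        + Ideal.Quotient.mk (IR k) (MvPowerSeries.C β') *
        Ideal.Quotient.mk (IR k) (MvPowerSeries.X 2)) :
    (MvPowerSeries.X 5 : MvPowerSeries (Fin 6) k) ∈ Ent Te ⊔ vI k 6 2
      ∧ (MvPowerSeries.X 2 : MvPowerSeries (Fin 6) k) ∈ Ent Te ⊔ vI k 6 2 := by
  have hx2 : phi k (MvPowerSeries.X 2) = MvPowerSeries.X 2 := phi_X (by decide)
  have h1 : VanTo 2 (Te i j - (MvPowerSeries.C α * MvPowerSeries.X 5
      + MvPowerSeries.C β * MvPowerSeries.X 2)) := by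
    apply quot_entry hTe
    rw [h, map_add, map_mul, map_mul, phi_C, phi_C, phi_X_five, hx2, map_add, map_mul, map_mul,
      map_pow]
  have h2 : VanTo 2 (Te i' j' - (MvPowerSeries.C α' * MvPowerSeries.X 5
      + MvPowerSeries.C β' * MvPowerSeries.X 2)) := by
    apply quot_entry hTe
    rw [h', map_add, map_mul, map_mul, phi_C, phi_C, phi_X_five, hx2, map_add, map_mul, map_mul,
      map_pow]
  set D := α * β' - α' * β with hD
  have hDD : (MvPowerSeries.C D⁻¹ : MvPowerSeries (Fin 6) k)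
      * (MvPowerSeries.C α * MvPowerSeries.C β' - MvPowerSeries.C α' * MvPowerSeries.C β)
      = 1 := by
    rw [← map_mul, ← map_mul, ← map_sub, ← map_mul, ← hD, inv_mul_cancel₀ hdet, map_one]
  constructor
  · have e : (MvPowerSeries.X 5 : MvPowerSeries (Fin 6) k)
        = MvPowerSeries.C D⁻¹ * (MvPowerSeries.C β' * Te i j - MvPowerSeries.C β * Te i' j')
        + -(MvPowerSeries.C D⁻¹ * (MvPowerSeries.C β' * (Te i j - (MvPowerSeries.C α
          * MvPowerSeries.X 5 + MvPowerSeries.C β * MvPowerSeries.X 2))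
          - MvPowerSeries.C β * (Te i' j' - (MvPowerSeries.C α' * MvPowerSeries.X 5
          + MvPowerSeries.C β' * MvPowerSeries.X 2)))) := by
      linear_combination -MvPowerSeries.X 5 * hDD
    rw [e]
    exact Submodule.add_mem_sup (Ideal.mul_mem_left _ _ (Ideal.sub_mem _
      (Ideal.mul_mem_left _ _ (mem_Ent Te i j)) (Ideal.mul_mem_left _ _ (mem_Ent Te i' j'))))
      ((vI k 6 2).neg_mem (Ideal.mul_mem_left _ _ (Ideal.sub_mem _
        (Ideal.mul_mem_left _ _ h1) (Ideal.mul_mem_left _ _ h2))))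
  · have e : (MvPowerSeries.X 2 : MvPowerSeries (Fin 6) k)
        = MvPowerSeries.C D⁻¹ * (MvPowerSeries.C α * Te i' j' - MvPowerSeries.C α' * Te i j)
        + -(MvPowerSeries.C D⁻¹ * (MvPowerSeries.C α * (Te i' j' - (MvPowerSeries.C α'
          * MvPowerSeries.X 5 + MvPowerSeries.C β' * MvPowerSeries.X 2))
          - MvPowerSeries.C α' * (Te i j - (MvPowerSeries.C α * MvPowerSeries.X 5
          + MvPowerSeries.C β * MvPowerSeries.X 2)))) := by
      linear_combination -MvPowerSeries.X 2 * hDD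
    rw [e]
    exact Submodule.add_mem_sup (Ideal.mul_mem_left _ _ (Ideal.sub_mem _
      (Ideal.mul_mem_left _ _ (mem_Ent Te i' j')) (Ideal.mul_mem_left _ _ (mem_Ent Te i j))))
      ((vI k 6 2).neg_mem (Ideal.mul_mem_left _ _ (Ideal.sub_mem _
        (Ideal.mul_mem_left _ _ h2) (Ideal.mul_mem_left _ _ h1))))

/-- The entries generate the maximal ideal modulo its square. -/
theorem span_ent {m q : ℕ} (hp : p = 4 * m + 3) (hm : m = 3 * q + 1 ∨ m = 3 * q + 2)
    (hTe : Te.map (phi k) = HW p (genc k)) (l : Fin 6) :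
    (MvPowerSeries.X l : MvPowerSeries (Fin 6) k) ∈ Ent Te ⊔ vI k 6 2 := by
  have hr : ((2 * m + 1 : ℕ) : k) ≠ 0 := cast_ne_zero_of_lt (p := p) (by omega) (by omega)
  have hq2 : q ≤ 2 * m := by omega
  set β1 : k := ((2 * m + 1 : ℕ) : k) * ((-1) ^ (2 * m + m) * ((2 * m).choose m : ℕ)) with hβ1
  set β2 : k := ((2 * m + 1 : ℕ) : k) * ((-1) ^ (2 * m + q) * ((2 * m).choose q : ℕ)) with hβ2
  set α0 : k := (((m + 1).choose 2 : ℕ) : k) * (-1) ^ ((2 * m + 2) + (m + 1))
            * ((2 * m + 2).choose (m + 1) : ℕ) with hα0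
  set α1 : k := (((3 * m + 2).choose 2 : ℕ) : k) * (-1) ^ ((2 * m + 2) + (q + 1))
            * ((2 * m + 2).choose (q + 1) : ℕ) with hα1
  have hβ1' : β1 ≠ 0 := mul_ne_zero hr (mul_ne_zero (neg_one_pow_ne_zero _)
    (choose_cast_ne_zero (p := p) (by omega) (by omega)))
  have hβ2' : β2 ≠ 0 := mul_ne_zero hr (mul_ne_zero (neg_one_pow_ne_zero _)
    (choose_cast_ne_zero (p := p) (by omega) (by omega)))
  have hdet : α0 * β2 - α1 * β1 ≠ 0 := by
    have h1 := det_ne_zero (k := k) hp hq2 hm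
    have e : α0 * β2 - α1 * β1 = ((-1) ^ (m + q) * ((2 * m + 1 : ℕ) : k))
        * (((3 * m + 2).choose 2 : k) * ((2 * m + 2).choose (q + 1) : k)
            * ((2 * m).choose m : k)
          - ((m + 1).choose 2 : k) * ((2 * m + 2).choose (m + 1) : k)
            * ((2 * m).choose q : k)) := by
      rw [hα0, hα1, hβ1, hβ2]
      have s1 : ((-1 : k)) ^ ((2 * m + 2) + (m + 1)) = -(-1) ^ m := by
        rw [show (2 * m + 2) + (m + 1) = 2 * (m + 1) + m + 1 by ring, pow_succ, pow_add, pow_mul]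
        simp
      have s2 : ((-1 : k)) ^ (2 * m + q) = (-1) ^ q := by
        rw [pow_add, pow_mul]; simp
      have s3 : ((-1 : k)) ^ ((2 * m + 2) + (q + 1)) = -(-1) ^ q := by
        rw [show (2 * m + 2) + (q + 1) = 2 * (m + 1) + q + 1 by ring, pow_succ, pow_add, pow_mul]
        simp
      have s4 : ((-1 : k)) ^ (2 * m + m) = (-1) ^ m := by
        rw [pow_add, pow_mul]; simp
      rw [s1, s2, s3, s4, pow_add]
      ring
    rw [e]
    exact mul_ne_zero (mul_ne_zero (neg_one_pow_ne_zero _) hr) h1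
  have hβ1q : (Ideal.Quotient.mk (IR k)) (MvPowerSeries.C β1) =
      ((2 * m + 1 : ℕ) : MvPowerSeries (Fin 6) k ⧸ IR k)
        * ((-1) ^ (2 * m + m) * ((2 * m).choose m : ℕ)) := by
    rw [hβ1]; simp only [map_mul, map_pow, map_neg, map_one, map_natCast]
  have hβ2q : (Ideal.Quotient.mk (IR k)) (MvPowerSeries.C β2) =
      ((2 * m + 1 : ℕ) : MvPowerSeries (Fin 6) k ⧸ IR k)
        * ((-1) ^ (2 * m + q) * ((2 * m).choose q : ℕ)) := by
    rw [hβ2]; simp only [map_mul, map_pow, map_neg, map_one, map_natCast]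
  have hα0q : (Ideal.Quotient.mk (IR k)) (MvPowerSeries.C α0) =
      (((m + 1).choose 2 : ℕ) : MvPowerSeries (Fin 6) k ⧸ IR k) * (-1) ^ ((2 * m + 2) + (m + 1))
            * ((2 * m + 2).choose (m + 1) : ℕ) := by
    rw [hα0]; simp only [map_mul, map_pow, map_neg, map_one, map_natCast]
  have hα1q : (Ideal.Quotient.mk (IR k)) (MvPowerSeries.C α1) =
      (((3 * m + 2).choose 2 : ℕ) : MvPowerSeries (Fin 6) k ⧸ IR k)
            * (-1) ^ ((2 * m + 2) + (q + 1))
            * ((2 * m + 2).choose (q + 1) : ℕ) := by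
    rw [hα1]; simp only [map_mul, map_pow, map_neg, map_one, map_natCast]
  obtain ⟨c1, c2, c3⟩ := (small_quot (k := k)).col_zero m
  rw [← hp, ← hβ1q] at c1 c2 c3
  rw [← hα0q] at c1
  have H3 := one_var hTe 1 0 (l := 3) (by decide) β1 hβ1' c2
  have H1 := one_var hTe 2 0 (l := 1) (by decide) β1 hβ1' c3
  have key : ∀ j' i' : Fin 3, HW p (fun l => Ideal.Quotient.mk (IR k) (MvPowerSeries.X l)) i' j'
      = Ideal.Quotient.mk (IR k) (MvPowerSeries.C α1) *
        Ideal.Quotient.mk (IR k) (MvPowerSeries.X 5) ^ 2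
        + Ideal.Quotient.mk (IR k) (MvPowerSeries.C β2) *
        Ideal.Quotient.mk (IR k) (MvPowerSeries.X 2) →
      (MvPowerSeries.X 5 : MvPowerSeries (Fin 6) k) ∈ Ent Te ⊔ vI k 6 2
      ∧ (MvPowerSeries.X 2 : MvPowerSeries (Fin 6) k) ∈ Ent Te ⊔ vI k 6 2 := by
    intro j' i' h
    exact two_var hTe 0 0 i' j' α0 β1 α1 β2 hdet c1 h
  rcases hm with hm | hm
  · obtain ⟨e1, e2, e3⟩ := (small_quot (k := k)).ent_one q hm
    rw [← hp] at e1 e2 e3
    rw [← hβ2q] at e1 e2
    rw [← hα1q] at e1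
    obtain ⟨H5, H2⟩ := key 1 1 e1
    have H0 := one_var hTe 2 1 (l := 0) (by decide) β2 hβ2' e2
    set β3 : k := ((2 * m + 1 : ℕ) : k) * ((-1) ^ (2 * m + (5 * q + 2))
      * ((2 * m).choose (5 * q + 2) : ℕ)) with hβ3
    have hβ3' : β3 ≠ 0 := mul_ne_zero hr (mul_ne_zero (neg_one_pow_ne_zero _)
      (choose_cast_ne_zero (p := p) (by omega) (by omega)))
    have hβ3q : (Ideal.Quotient.mk (IR k)) (MvPowerSeries.C β3) =
        ((2 * m + 1 : ℕ) : MvPowerSeries (Fin 6) k ⧸ IR k)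
          * ((-1) ^ (2 * m + (5 * q + 2)) * ((2 * m).choose (5 * q + 2) : ℕ)) := by
      rw [hβ3]; simp only [map_mul, map_pow, map_neg, map_one, map_natCast]
    rw [← hβ3q] at e3
    have H4 := one_var hTe 1 2 (l := 4) (by decide) β3 hβ3' e3
    fin_cases l
    exacts [H0, H1, H2, H3, H4, H5]
  · obtain ⟨e1, e2, e3⟩ := (small_quot (k := k)).ent_two q hm
    rw [← hp] at e1 e2 e3
    rw [← hβ2q] at e1 e2
    rw [← hα1q] at e1
    obtain ⟨H5, H2⟩ := key 1 2 e1
    have H4 := one_var hTe 1 1 (l := 4) (by decide) β2 hβ2' e2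
    set β3 : k := ((2 * m + 1 : ℕ) : k) * ((-1) ^ (2 * m + (5 * q + 4))
      * ((2 * m).choose (5 * q + 4) : ℕ)) with hβ3
    have hβ3' : β3 ≠ 0 := mul_ne_zero hr (mul_ne_zero (neg_one_pow_ne_zero _)
      (choose_cast_ne_zero (p := p) (by omega) (by omega)))
    have hβ3q : (Ideal.Quotient.mk (IR k)) (MvPowerSeries.C β3) =
        ((2 * m + 1 : ℕ) : MvPowerSeries (Fin 6) k ⧸ IR k)
          * ((-1) ^ (2 * m + (5 * q + 4)) * ((2 * m).choose (5 * q + 4) : ℕ)) := by
      rw [hβ3]; simp only [map_mul, map_pow, map_neg, map_one, map_natCast]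
    rw [← hβ3q] at e3
    have H0 := one_var hTe 2 2 (l := 0) (by decide) β3 hβ3' e3
    fin_cases l
    exacts [H0, H1, H2, H3, H4, H5]

end Pool.Agent.PRank
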