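import Pool.Agent.PRank.Herm
import Pool.Agent.PRank.Chart

/-!
The parametrisation `θ(m, x, y) = x m mᵀ + y m' m'ᵀ` of the `p`-rank zero cone and the
conductor-like ideal `K` of the functions `η_i`.
-/

namespace Pool.Agent.PRank

open MvPolynomial

variable {k : Type*} [Field k]

/-- The Hermitian curve (cone). -/
def Herm (p : ℕ) (m : Fin 3 → k) : Prop := m 0 ^ (p + 1) + m 1 ^ (p + 1) + m 2 ^ (p + 1) = 0

/-- The cross product of `m` and its `p²`-power is `δ` times the `p`-power of `m`. -/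
def IsDelta (p : ℕ) (m : Fin 3 → k) (δ : k) : Prop :=
  m 1 * m 2 ^ (p ^ 2) - m 2 * m 1 ^ (p ^ 2) = δ * m 0 ^ p ∧
  m 2 * m 0 ^ (p ^ 2) - m 0 * m 2 ^ (p ^ 2) = δ * m 1 ^ p ∧
  m 0 * m 1 ^ (p ^ 2) - m 1 * m 0 ^ (p ^ 2) = δ * m 2 ^ p

/-- Entries of the symmetric matrix `x m mᵀ + y m' m'ᵀ`. -/
def th (p : ℕ) (m : Fin 3 → k) (x y : k) : Fin 6 → k :=
  ![x * (m 0 * m 0) + y * (m 0 ^ (p ^ 2) * m 0 ^ (p ^ 2)),
    x * (m 0 * m 1) + y * (m 0 ^ (p ^ 2) * m 1 ^ (p ^ 2)),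
    x * (m 0 * m 2) + y * (m 0 ^ (p ^ 2) * m 2 ^ (p ^ 2)),
    x * (m 1 * m 1) + y * (m 1 ^ (p ^ 2) * m 1 ^ (p ^ 2)),
    x * (m 1 * m 2) + y * (m 1 ^ (p ^ 2) * m 2 ^ (p ^ 2)),
    x * (m 2 * m 2) + y * (m 2 ^ (p ^ 2) * m 2 ^ (p ^ 2))]

/-- The functions `η_i`. -/
def eta (p r : ℕ) (i : Fin 3) (m : Fin 3 → k) (δ x y : k) : k :=
  x ^ p * y ^ (r * p + r) * δ ^ (p ^ 2 + 2 * r) * m i

/-- The ideal of all `M` with `M η_i` polynomial in the matrix entries. -/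
def KIdeal (k : Type*) [Field k] (p r : ℕ) : Ideal (MvPolynomial (Fin 6) k) where
  carrier := {M | ∀ i : Fin 3, ∃ G : MvPolynomial (Fin 6) k, ∀ (m : Fin 3 → k) (δ x y : k),
    Herm p m → m ≠ 0 → IsDelta p m δ →
    eval (th p m x y) G = eval (th p m x y) M * eta p r i m δ x y}
  zero_mem' := fun i => ⟨0, fun m δ x y _ _ _ => by simp⟩
  add_mem' := by
    intro M N hM hN i
    obtain ⟨G, hG⟩ := hM i
    obtain ⟨G', hG'⟩ := hN i
    refine ⟨G + G', fun m δ x y h1 h2 h3 => ?_⟩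
    rw [map_add, map_add, hG m δ x y h1 h2 h3, hG' m δ x y h1 h2 h3]
    ring
  smul_mem' := by
    intro c M hM i
    obtain ⟨G, hG⟩ := hM i
    refine ⟨c * G, fun m δ x y h1 h2 h3 => ?_⟩
    rw [smul_eq_mul, map_mul, map_mul, hG m δ x y h1 h2 h3]
    ring

theorem mem_KIdeal {p r : ℕ} {M : MvPolynomial (Fin 6) k} :
    M ∈ KIdeal k p r ↔ ∀ i : Fin 3, ∃ G : MvPolynomial (Fin 6) k,
      ∀ (m : Fin 3 → k) (δ x y : k), Herm p m → m ≠ 0 → IsDelta p m δ →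
      eval (th p m x y) G = eval (th p m x y) M * eta p r i m δ x y := Iff.rfl

section Basic

variable {p : ℕ} [Fact p.Prime] [CharP k p]

theorem herm_pow {m : Fin 3 → k} (hm : Herm p m) :
    m 0 ^ (p ^ 2) * m 0 ^ p + m 1 ^ (p ^ 2) * m 1 ^ p + m 2 ^ (p ^ 2) * m 2 ^ p = 0 := by
  have hp : p ≠ 0 := (Fact.out : p.Prime).ne_zero
  have h : (m 0 ^ (p + 1) + m 1 ^ (p + 1) + m 2 ^ (p + 1)) ^ p = 0 ^ p := by
    rw [show m 0 ^ (p + 1) + m 1 ^ (p + 1) + m 2 ^ (p + 1) = 0 from hm]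
  rw [add_pow_char, add_pow_char, zero_pow hp] at h
  rw [← h]
  ring

theorem exists_delta {m : Fin 3 → k} (hm : Herm p m) (hm0 : m ≠ 0) : ∃ δ, IsDelta p m δ := by
  have h1 : m 0 ^ (p + 1) + m 1 ^ (p + 1) + m 2 ^ (p + 1) = 0 := hm
  have h2 := herm_pow hm
  by_cases c0 : m 0 = 0
  · by_cases c1 : m 1 = 0
    · have c2 : m 2 ≠ 0 := by
        intro c2
        apply hm0
        funext i
        fin_cases i
        · exact c0
        · exact c1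
        · exact c2
      refine ⟨(m 0 * m 1 ^ (p ^ 2) - m 1 * m 0 ^ (p ^ 2)) / m 2 ^ p, ?_, ?_, ?_⟩
      · rw [div_mul_eq_mul_div, eq_div_iff (pow_ne_zero _ c2)]
        linear_combination m 1 * h2 - m 1 ^ (p ^ 2) * h1
      · rw [div_mul_eq_mul_div, eq_div_iff (pow_ne_zero _ c2)]
        linear_combination m 0 ^ (p ^ 2) * h1 - m 0 * h2
      · rw [div_mul_cancel₀ _ (pow_ne_zero _ c2)]
    · refine ⟨(m 2 * m 0 ^ (p ^ 2) - m 0 * m 2 ^ (p ^ 2)) / m 1 ^ p, ?_, ?_, ?_⟩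
      · rw [div_mul_eq_mul_div, eq_div_iff (pow_ne_zero _ c1)]
        linear_combination m 2 ^ (p ^ 2) * h1 - m 2 * h2
      · rw [div_mul_cancel₀ _ (pow_ne_zero _ c1)]
      · rw [div_mul_eq_mul_div, eq_div_iff (pow_ne_zero _ c1)]
        linear_combination m 0 * h2 - m 0 ^ (p ^ 2) * h1
  · refine ⟨(m 1 * m 2 ^ (p ^ 2) - m 2 * m 1 ^ (p ^ 2)) / m 0 ^ p, ?_, ?_, ?_⟩
    · rw [div_mul_cancel₀ _ (pow_ne_zero _ c0)]
    · rw [div_mul_eq_mul_div, eq_div_iff (pow_ne_zero _ c0)]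
      linear_combination m 2 * h2 - m 2 ^ (p ^ 2) * h1
    · rw [div_mul_eq_mul_div, eq_div_iff (pow_ne_zero _ c0)]
      linear_combination m 1 ^ (p ^ 2) * h1 - m 1 * h2

end Basic

end Pool.Agent.PRank
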