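import Pool.Agent.PRank.KMax

/-!
Every symmetric matrix `T` with `T T^(p) T^(p²) = 0` is in the closure of the image of `θ`.
-/

namespace Pool.Agent.PRank

set_option linter.unusedSectionVars false

open MvPolynomial Finset

variable {k : Type*} [Field k]

/-- The product of the symmetric matrix with entries `t` and the vector `w`. -/
def Tv (t : Fin 6 → k) (w : Fin 3 → k) : Fin 3 → k :=
  ![t 0 * w 0 + t 1 * w 1 + t 2 * w 2, t 1 * w 0 + t 3 * w 1 + t 4 * w 2,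
    t 2 * w 0 + t 4 * w 1 + t 5 * w 2]

/-- Entrywise `p`-th power. -/
def fr {ι : Type*} (p : ℕ) (w : ι → k) : ι → k := fun i => w i ^ p

/-- The standard bilinear form. -/
def dp (v w : Fin 3 → k) : k := v 0 * w 0 + v 1 * w 1 + v 2 * w 2

theorem vec3_ext {v w : Fin 3 → k} (h0 : v 0 = w 0) (h1 : v 1 = w 1) (h2 : v 2 = w 2) :
    v = w := by
  funext i
  fin_cases i
  · exact h0
  · exact h1
  · exact h2

theorem Tv_smul (t : Fin 6 → k) (c : k) (w : Fin 3 → k) : Tv t (c • w) = c • Tv t w := by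
  refine vec3_ext ?_ ?_ ?_ <;> simp [Tv] <;> ring

theorem Tv_add (t : Fin 6 → k) (v w : Fin 3 → k) : Tv t (v + w) = Tv t v + Tv t w := by
  refine vec3_ext ?_ ?_ ?_ <;> simp [Tv] <;> ring

theorem Tv_zero (t : Fin 6 → k) : Tv t 0 = 0 := by
  refine vec3_ext ?_ ?_ ?_ <;> simp [Tv]

theorem dp_Tv (t : Fin 6 → k) (v w : Fin 3 → k) : dp v (Tv t w) = dp (Tv t v) w := by
  simp [dp, Tv]
  ring

section

variable {p r : ℕ} [Fact p.Prime] [CharP k p]

theorem fr_Tv (t : Fin 6 → k) (w : Fin 3 → k) : Tv (fr p t) (fr p w) = fr p (Tv t w) := by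
  refine vec3_ext ?_ ?_ ?_
  · change t 0 ^ p * w 0 ^ p + t 1 ^ p * w 1 ^ p + t 2 ^ p * w 2 ^ p
      = (t 0 * w 0 + t 1 * w 1 + t 2 * w 2) ^ p
    rw [add_pow_char, add_pow_char, mul_pow, mul_pow, mul_pow]
  · change t 1 ^ p * w 0 ^ p + t 3 ^ p * w 1 ^ p + t 4 ^ p * w 2 ^ p
      = (t 1 * w 0 + t 3 * w 1 + t 4 * w 2) ^ p
    rw [add_pow_char, add_pow_char, mul_pow, mul_pow, mul_pow]
  · change t 2 ^ p * w 0 ^ p + t 4 ^ p * w 1 ^ p + t 5 ^ p * w 2 ^ p
      = (t 2 * w 0 + t 4 * w 1 + t 5 * w 2) ^ p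
    rw [add_pow_char, add_pow_char, mul_pow, mul_pow, mul_pow]

theorem fr_smul (c : k) (w : Fin 3 → k) : fr p (c • w) = c ^ p • fr p w := by
  funext i
  simp [fr, mul_pow]

theorem fr_add (v w : Fin 3 → k) : fr p (v + w) = fr p v + fr p w := by
  funext i
  simp [fr, add_pow_char]

theorem fr_zero : fr p (0 : Fin 3 → k) = 0 := by
  funext i
  simp [fr, (Fact.out : p.Prime).ne_zero]

theorem fr_eq_zero {w : Fin 3 → k} (h : fr p w = 0) : w = 0 := by
  funext i
  have := congrFun h i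
  exact pow_eq_zero_iff (Fact.out : p.Prime).ne_zero |>.1 this

theorem dp_fr (v w : Fin 3 → k) : dp (fr p v) (fr p w) = dp v w ^ p := by
  simp only [dp, fr]
  rw [add_pow_char, add_pow_char, mul_pow, mul_pow, mul_pow]

/-- Isotropic kernel vector. -/
theorem exists_isotropic [IsAlgClosed k] {t : Fin 6 → k}
    (hT : ∀ v, Tv t (Tv (fr p t) (Tv (fr p (fr p t)) v)) = 0)
    (hker : ∃ l : Fin 3 → k, l ≠ 0 ∧ Tv t l = 0) :
    ∃ l : Fin 3 → k, l ≠ 0 ∧ Tv t l = 0 ∧ dp l (fr p l) = 0 := by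
  obtain ⟨l0, hl0, hTl0⟩ := hker
  by_cases hρ : dp l0 (fr p l0) = 0
  · exact ⟨l0, hl0, hTl0, hρ⟩
  by_cases h : ∃ l1 : Fin 3 → k, Tv t l1 = 0 ∧ ∀ c : k, l1 ≠ c • l0
  · obtain ⟨l1, hTl1, hl1⟩ := h
    set P : Polynomial k := Polynomial.C (dp l0 (fr p l0)) * Polynomial.X ^ (p + 1)
      + Polynomial.C (dp l1 (fr p l0)) * Polynomial.X ^ p
      + Polynomial.C (dp l0 (fr p l1)) * Polynomial.X + Polynomial.C (dp l1 (fr p l1)) with hP
    have hp2 : 2 ≤ p := (Fact.out : p.Prime).two_le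
    have hcoeff : P.coeff (p + 1) ≠ 0 := by
      rw [hP]
      simp only [Polynomial.coeff_add, Polynomial.coeff_C_mul, Polynomial.coeff_X_pow,
        Polynomial.coeff_X, Polynomial.coeff_C]
      rw [if_pos trivial, if_neg (show ¬ (p + 1 = p) by omega),
        if_neg (show ¬ (1 = p + 1) by omega), if_neg (show ¬ (p + 1 = 0) by omega)]
      simpa using hρ
    obtain ⟨s, hs⟩ := IsAlgClosed.exists_root P (by
      intro h0
      have h1 := Polynomial.le_degree_of_ne_zero hcoeff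
      rw [h0] at h1
      have h2 : p + 1 ≤ 0 := by exact_mod_cast h1
      omega)
    refine ⟨s • l0 + l1, ?_, ?_, ?_⟩
    · intro h0
      apply hl1 (-s)
      rw [neg_smul]
      exact eq_neg_of_add_eq_zero_right h0
    · rw [Tv_add, Tv_smul, hTl0, hTl1, smul_zero, add_zero]
    · have hs' : dp l0 (fr p l0) * s ^ (p + 1) + dp l1 (fr p l0) * s ^ p
          + dp l0 (fr p l1) * s + dp l1 (fr p l1) = 0 := by
        have := hs
        rw [hP, Polynomial.IsRoot] at this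
        simpa using this
      rw [fr_add, fr_smul]
      rw [← hs']
      simp only [dp, Pi.add_apply, Pi.smul_apply, smul_eq_mul]
      ring
  · exfalso
    push Not at h
    have hsym : ∀ w : Fin 3 → k, Tv t (Tv (fr p t) w) = 0 → Tv (fr p t) w = 0 := by
      intro w hw
      obtain ⟨c, hc⟩ := h _ hw
      have h1 : dp (fr p l0) (Tv (fr p t) w) = 0 := by
        rw [dp_Tv, fr_Tv, hTl0, fr_zero]
        simp [dp]
      rw [hc] at h1
      have h2 : c * dp l0 (fr p l0) = 0 := by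
        rw [← h1]
        simp only [dp, Pi.smul_apply, smul_eq_mul]
        ring
      rcases mul_eq_zero.1 h2 with h3 | h3
      · rw [hc, h3, zero_smul]
      · exact absurd h3 hρ
    have h1 : ∀ v, Tv (fr p t) (Tv (fr p (fr p t)) v) = 0 := fun v => hsym _ (hT v)
    have h2 : ∀ v, Tv t (Tv (fr p t) v) = 0 := by
      intro v
      apply fr_eq_zero (p := p)
      rw [← fr_Tv, ← fr_Tv]
      exact h1 _
    have h3 : ∀ v, Tv (fr p t) v = 0 := fun v => hsym _ (h2 v)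
    have h4 : ∀ v, Tv t v = 0 := by
      intro v
      apply fr_eq_zero (p := p)
      rw [← fr_Tv]
      exact h3 _
    obtain ⟨c, hc⟩ := h ![1, 0, 0] (h4 _)
    obtain ⟨c', hc'⟩ := h ![0, 1, 0] (h4 _)
    have e1 : (1 : k) = c * l0 0 := congrFun hc 0
    have e2 : (0 : k) = c * l0 1 := congrFun hc 1
    have e3 : (1 : k) = c' * l0 1 := congrFun hc' 1
    have hc0 : c ≠ 0 := by
      rintro rfl
      rw [zero_mul] at e1
      exact one_ne_zero e1
    have e4 : l0 1 = 0 := (mul_eq_zero.1 e2.symm).resolve_left hc0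
    rw [e4, mul_zero] at e3
    exact one_ne_zero e3

/-- A vector orthogonal to `l` is a combination of `m` and `n`. -/
theorem decomp {l m n v : Fin 3 → k} (hl : l 0 ≠ 0) (hc : m 1 * n 2 - m 2 * n 1 ≠ 0)
    (hm : dp m l = 0) (hn : dp n l = 0) (hv : dp v l = 0) :
    v = ((v 1 * n 2 - v 2 * n 1) / (m 1 * n 2 - m 2 * n 1)) • m
      + ((v 2 * m 1 - v 1 * m 2) / (m 1 * n 2 - m 2 * n 1)) • n := by
  simp only [dp] at hm hn hv
  have h1 : v 1 = ((v 1 * n 2 - v 2 * n 1) / (m 1 * n 2 - m 2 * n 1)) * m 1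
      + ((v 2 * m 1 - v 1 * m 2) / (m 1 * n 2 - m 2 * n 1)) * n 1 := by
    rw [div_mul_eq_mul_div, div_mul_eq_mul_div, ← add_div, eq_div_iff hc]
    ring
  have h2 : v 2 = ((v 1 * n 2 - v 2 * n 1) / (m 1 * n 2 - m 2 * n 1)) * m 2
      + ((v 2 * m 1 - v 1 * m 2) / (m 1 * n 2 - m 2 * n 1)) * n 2 := by
    rw [div_mul_eq_mul_div, div_mul_eq_mul_div, ← add_div, eq_div_iff hc]
    ring
  refine vec3_ext ?_ h1 h2
  have h0 : l 0 * (v 0 - (((v 1 * n 2 - v 2 * n 1) / (m 1 * n 2 - m 2 * n 1)) * m 0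
      + ((v 2 * m 1 - v 1 * m 2) / (m 1 * n 2 - m 2 * n 1)) * n 0)) = 0 := by
    linear_combination hv - ((v 1 * n 2 - v 2 * n 1) / (m 1 * n 2 - m 2 * n 1)) * hm
      - ((v 2 * m 1 - v 1 * m 2) / (m 1 * n 2 - m 2 * n 1)) * hn - l 1 * h1 - l 2 * h2
  exact sub_eq_zero.1 ((mul_eq_zero.1 h0).resolve_left hl)

/-- Decomposition of a symmetric matrix killing `l`. -/
theorem decompT {t : Fin 6 → k} {l m n : Fin 3 → k} (hl : l 0 ≠ 0)
    (hc : m 1 * n 2 - m 2 * n 1 ≠ 0) (hm : dp m l = 0) (hn : dp n l = 0) (hT : Tv t l = 0) :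
    ∃ x z y : k, t = ![x * (m 0 * m 0) + z * (m 0 * n 0 + n 0 * m 0) + y * (n 0 * n 0),
      x * (m 0 * m 1) + z * (m 0 * n 1 + n 0 * m 1) + y * (n 0 * n 1),
      x * (m 0 * m 2) + z * (m 0 * n 2 + n 0 * m 2) + y * (n 0 * n 2),
      x * (m 1 * m 1) + z * (m 1 * n 1 + n 1 * m 1) + y * (n 1 * n 1),
      x * (m 1 * m 2) + z * (m 1 * n 2 + n 1 * m 2) + y * (n 1 * n 2),
      x * (m 2 * m 2) + z * (m 2 * n 2 + n 2 * m 2) + y * (n 2 * n 2)] := by
  set c := m 1 * n 2 - m 2 * n 1 with hcdef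
  -- dual vectors
  set ms : Fin 3 → k := ![0, n 2 / c, -(n 1 / c)] with hms
  set ns : Fin 3 → k := ![0, -(m 2 / c), m 1 / c] with hns
  have hdec : ∀ v : Fin 3 → k, dp v l = 0 → v = dp v ms • m + dp v ns • n := by
    intro v hv
    have h := decomp hl hc hm hn hv
    have e1 : dp v ms = (v 1 * n 2 - v 2 * n 1) / c := by
      simp [dp, hms]
      ring
    have e2 : dp v ns = (v 2 * m 1 - v 1 * m 2) / c := by
      simp [dp, hns]
      ring
    rw [e1, e2]
    exact h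
  have hTw : ∀ w, dp (Tv t w) l = 0 := by
    intro w
    rw [← dp_Tv, hT]
    simp [dp]
  have hcol : ∀ w, Tv t w = dp w (Tv t ms) • m + dp w (Tv t ns) • n := by
    intro w
    have h := hdec _ (hTw w)
    rw [← dp_Tv, ← dp_Tv] at h
    exact h
  have h1 := hdec _ (hTw ms)
  have h2 := hdec _ (hTw ns)
  have hz : dp (Tv t ns) ms = dp (Tv t ms) ns := by
    rw [← dp_Tv]
    simp only [dp]
    ring
  refine ⟨dp (Tv t ms) ms, dp (Tv t ms) ns, dp (Tv t ns) ns, ?_⟩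
  rw [hz] at h2
  set x := dp (Tv t ms) ms
  set z := dp (Tv t ms) ns
  set y := dp (Tv t ns) ns
  have c0 := hcol ![1, 0, 0]
  have c1 := hcol ![0, 1, 0]
  have c2 := hcol ![0, 0, 1]
  rw [h1, h2] at c0 c1 c2
  have t0 : t 0 = x * (m 0 * m 0) + z * (m 0 * n 0 + n 0 * m 0) + y * (n 0 * n 0) := by
    have := congrFun c0 0
    simp [Tv, dp] at this
    rw [this]; ring
  have t1 : t 1 = x * (m 0 * m 1) + z * (m 0 * n 1 + n 0 * m 1) + y * (n 0 * n 1) := by
    have := congrFun c0 1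
    simp [Tv, dp] at this
    rw [this]; ring
  have t2 : t 2 = x * (m 0 * m 2) + z * (m 0 * n 2 + n 0 * m 2) + y * (n 0 * n 2) := by
    have := congrFun c0 2
    simp [Tv, dp] at this
    rw [this]; ring
  have t3 : t 3 = x * (m 1 * m 1) + z * (m 1 * n 1 + n 1 * m 1) + y * (n 1 * n 1) := by
    have := congrFun c1 1
    simp [Tv, dp] at this
    rw [this]; ring
  have t4 : t 4 = x * (m 1 * m 2) + z * (m 1 * n 2 + n 1 * m 2) + y * (n 1 * n 2) := by
    have := congrFun c1 2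
    simp [Tv, dp] at this
    rw [this]; ring
  have t5 : t 5 = x * (m 2 * m 2) + z * (m 2 * n 2 + n 2 * m 2) + y * (n 2 * n 2) := by
    have := congrFun c2 2
    simp [Tv, dp] at this
    rw [this]; ring
  funext i
  fin_cases i
  · exact t0
  · exact t1
  · exact t2
  · exact t3
  · exact t4
  · exact t5

/-- Action on vectors of the decomposed matrix. -/
theorem Tv_decomp (x z y : k) (m n w : Fin 3 → k) :
    Tv ![x * (m 0 * m 0) + z * (m 0 * n 0 + n 0 * m 0) + y * (n 0 * n 0),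
      x * (m 0 * m 1) + z * (m 0 * n 1 + n 0 * m 1) + y * (n 0 * n 1),
      x * (m 0 * m 2) + z * (m 0 * n 2 + n 0 * m 2) + y * (n 0 * n 2),
      x * (m 1 * m 1) + z * (m 1 * n 1 + n 1 * m 1) + y * (n 1 * n 1),
      x * (m 1 * m 2) + z * (m 1 * n 2 + n 1 * m 2) + y * (n 1 * n 2),
      x * (m 2 * m 2) + z * (m 2 * n 2 + n 2 * m 2) + y * (n 2 * n 2)] w
      = (x * dp m w + z * dp n w) • m + (z * dp m w + y * dp n w) • n := by
  refine vec3_ext ?_ ?_ ?_ <;> simp [Tv, dp] <;> ring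

end

end Pool.Agent.PRank
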