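import Pool.Agent.PRank.VLocus

/-!
Every symmetric matrix `T` with `T T^(p) T^(p²) = 0` is in the closure of the image of `θ`,
conclusion.
-/

namespace Pool.Agent.PRank

set_option linter.unusedSectionVars false

open MvPolynomial Finset

variable {k : Type*} [Field k]

section

variable {p r : ℕ} [Fact p.Prime] [CharP k p] [IsAlgClosed k]

theorem fr_fr_apply (w : Fin 3 → k) (i : Fin 3) : fr p (fr p w) i = w i ^ (p ^ 2) := by
  simp only [fr]
  rw [← pow_mul, pow_two]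

/-- The main case of the closure statement: the kernel vector has nonzero first coordinate. -/
theorem vanish_on_V_aux (hr : p = 2 * r + 1) (f : MvPolynomial (Fin 6) k)
    (hf : ∀ (m : Fin 3 → k) (x y : k), Herm p m → m ≠ 0 → eval (th p m x y) f = 0)
    {t : Fin 6 → k} (hT : ∀ v, Tv t (Tv (fr p t) (Tv (fr p (fr p t)) v)) = 0)
    {m : Fin 3 → k} (hm0 : m 0 ≠ 0) (hker : Tv t (fr p m) = 0) (hiso : Herm p m) :
    eval t f = 0 := by
  have hp0 : p ≠ 0 := (Fact.out : p.Prime).ne_zero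
  set l := fr p m with hl
  have hl0 : l 0 ≠ 0 := pow_ne_zero _ hm0
  have hmne : m ≠ 0 := fun h => hm0 (congrFun h 0)
  have hml : dp m l = 0 := by
    have h : m 0 ^ (p + 1) + m 1 ^ (p + 1) + m 2 ^ (p + 1) = 0 := hiso
    simp only [dp, hl, fr]
    rw [← h]
    ring
  obtain ⟨δ, hδ⟩ := exists_delta (p := p) hiso hmne
  set m' := fr p l with hm'
  have hm'a : ∀ i, m' i = m i ^ (p ^ 2) := fun i => fr_fr_apply m i
  set l3 := fr p m' with hl3
  have hm'l : dp m' l = 0 := by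
    have h : dp m' l = (dp l m) ^ p := by rw [hm', ← dp_fr]
    rw [h]
    have : dp l m = dp m l := by simp only [dp]; ring
    rw [this, hml, zero_pow hp0]
  have hm'l3 : dp m' l3 = 0 := by
    rw [hm', hl3, hm', dp_fr]
    have : dp l (fr p l) = (dp m l) ^ p := by rw [hl, ← dp_fr]
    rw [this, hml, zero_pow hp0, zero_pow hp0]
  have hcr0 : m 1 * m' 2 - m 2 * m' 1 = δ * l 0 := by
    rw [hm'a, hm'a]; exact hδ.1
  have hcr1 : m 2 * m' 0 - m 0 * m' 2 = δ * l 1 := by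
    rw [hm'a, hm'a]; exact hδ.2.1
  have hcr2 : m 0 * m' 1 - m 1 * m' 0 = δ * l 2 := by
    rw [hm'a, hm'a]; exact hδ.2.2
  -- Frobenius transport
  have frT : ∀ w, Tv (fr p t) (fr p w) = fr p (Tv t w) := fun w => fr_Tv t w
  have frT2 : ∀ w, Tv (fr p (fr p t)) (fr p (fr p w)) = fr p (fr p (Tv t w)) := fun w => by
    rw [fr_Tv, fr_Tv]
  by_cases hδ0 : δ = 0
  · -- rational case
    rw [hδ0, zero_mul] at hcr0 hcr1 hcr2
    set b : Fin 3 → k := ![0, l 2, -(l 1)] with hb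
    have hbl : dp b l = 0 := by simp [dp, hb]; ring
    have hmb : m 1 * b 2 - m 2 * b 1 = m 0 * l 0 := by
      have h : m 0 * l 0 + m 1 * l 1 + m 2 * l 2 = 0 := hml
      simp [hb]
      linear_combination -h
    obtain ⟨X, Z, Y, ht⟩ := decompT hl0 (m := m) (n := b)
      (by rw [hmb]; exact mul_ne_zero hm0 hl0) hml hbl hker
    have hTv : ∀ w, Tv t w = (X * dp m w + Z * dp b w) • m + (Z * dp m w + Y * dp b w) • b := by
      intro w
      conv_lhs => rw [ht]
      exact Tv_decomp X Z Y m b w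
    set b1 := fr p b with hb1
    have hmb1 : dp m b1 = 0 := by
      have h1 : b1 0 = 0 := by simp [hb1, fr, hb, hp0]
      have h2 : b1 1 = m' 2 := by simp [hb1, fr, hb, hm']
      have h3 : b1 2 = -(m' 1) := by
        have : Odd p := ⟨r, hr⟩
        simp [hb1, fr, hb, hm', this.neg_pow]
      simp only [dp]
      rw [h1, h2, h3]
      linear_combination hcr0
    have hbb1 : dp b b1 = -(l 0 * m' 0) := by
      have h1 : b1 0 = 0 := by simp [hb1, fr, hb, hp0]
      have h2 : b1 1 = m' 2 := by simp [hb1, fr, hb, hm']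
      have h3 : b1 2 = -(m' 1) := by
        have : Odd p := ⟨r, hr⟩
        simp [hb1, fr, hb, hm', this.neg_pow]
      have h4 : m' 0 * l 0 + m' 1 * l 1 + m' 2 * l 2 = 0 := hm'l
      simp only [dp]
      rw [h1, h2, h3]
      simp [hb]
      linear_combination h4
    set β := dp b b1 with hβ
    have hβ0 : β ≠ 0 := by
      rw [hbb1]
      exact neg_ne_zero.2 (mul_ne_zero hl0 (pow_ne_zero _ hl0))
    have hTb1 : Tv t b1 = β • (Z • m + Y • b) := by
      rw [hTv, hmb1]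
      refine vec3_ext ?_ ?_ ?_ <;> simp <;> ring
    have hTm' : Tv (fr p t) m' = 0 := by
      rw [hm', frT, hker, fr_zero]
    have hTb'' : Tv (fr p t) (fr p (fr p b)) = β ^ p • (Z ^ p • l + Y ^ p • b1) := by
      rw [frT, ← hb1, hTb1, fr_smul, fr_add, fr_smul, fr_smul]
    have hv : Tv (fr p (fr p t)) (fr p (fr p b1))
        = (β ^ p) ^ p • ((Z ^ p) ^ p • m' + (Y ^ p) ^ p • fr p (fr p b)) := by
      rw [frT2, hTb1, fr_smul, fr_smul, fr_add, fr_add, fr_smul, fr_smul, fr_smul, fr_smul,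
        ← hl, ← hm']
    have hv2 : Tv (fr p t) (Tv (fr p (fr p t)) (fr p (fr p b1)))
        = ((β ^ p) ^ p * (Y ^ p) ^ p * β ^ p) • (Z ^ p • l + Y ^ p • b1) := by
      rw [hv, Tv_smul, Tv_add, Tv_smul, Tv_smul, hTm', hTb'', smul_zero, zero_add, smul_smul,
        smul_smul, mul_assoc]
    have hv3 : Tv t (Tv (fr p t) (Tv (fr p (fr p t)) (fr p (fr p b1))))
        = ((β ^ p) ^ p * (Y ^ p) ^ p * β ^ p * Y ^ p * β) • (Z • m + Y • b) := by
      rw [hv2, Tv_smul, Tv_add, Tv_smul, Tv_smul, hker, hTb1, smul_zero, zero_add, smul_smul,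
        smul_smul]
    rw [hT] at hv3
    have hY : Y = 0 := by
      by_contra hY
      have hc : (β ^ p) ^ p * (Y ^ p) ^ p * β ^ p * Y ^ p * β ≠ 0 :=
        mul_ne_zero (mul_ne_zero (mul_ne_zero (mul_ne_zero (pow_ne_zero _ (pow_ne_zero _ hβ0))
          (pow_ne_zero _ (pow_ne_zero _ hY))) (pow_ne_zero _ hβ0)) (pow_ne_zero _ hY)) hβ0
      have hzero : Z • m + Y • b = 0 := (smul_eq_zero.1 hv3.symm).resolve_left hc
      have h0 := congrFun hzero 0
      have h1 := congrFun hzero 1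
      have h2 := congrFun hzero 2
      simp only [Pi.smul_apply, Pi.add_apply, Pi.zero_apply, smul_eq_mul] at h0 h1 h2
      have hb0 : b 0 = 0 := rfl
      rw [hb0, mul_zero, add_zero] at h0
      have hZ : Z = 0 := (mul_eq_zero.1 h0).resolve_right hm0
      rw [hZ, zero_mul, zero_add] at h1 h2
      have hb1' : b 1 = 0 := (mul_eq_zero.1 h1).resolve_left hY
      have hb2' : b 2 = 0 := (mul_eq_zero.1 h2).resolve_left hY
      apply hβ0
      rw [hβ]
      simp only [dp]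
      rw [hb0, hb1', hb2']
      ring
    -- identify with the closed parametrisation
    have hm'0 : m' 0 ≠ 0 := pow_ne_zero _ hl0
    have ht2 : t = thE p m X (Z / m' 0) := by
      have hb0 : b 0 = 0 := rfl
      have hb1' : b 1 = l 2 := rfl
      have hb2' : b 2 = -(l 1) := rfl
      rw [ht, hY]
      funext i
      fin_cases i
      · change X * (m 0 * m 0) + Z * (m 0 * b 0 + b 0 * m 0) + 0 * (b 0 * b 0) = X * (m 0 * m 0)
        rw [hb0]; ring
      · change X * (m 0 * m 1) + Z * (m 0 * b 1 + b 0 * m 1) + 0 * (b 0 * b 1)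
          = X * (m 0 * m 1) + Z / m' 0 * (m 0 * m 0 ^ (p ^ 2) * m 2 ^ p)
        rw [hb0, hb1', ← hm'a, show m 2 ^ p = l 2 from rfl]
        field_simp
        ring
      · change X * (m 0 * m 2) + Z * (m 0 * b 2 + b 0 * m 2) + 0 * (b 0 * b 2)
          = X * (m 0 * m 2) - Z / m' 0 * (m 0 * m 0 ^ (p ^ 2) * m 1 ^ p)
        rw [hb0, hb2', ← hm'a, show m 1 ^ p = l 1 from rfl]
        field_simp
        ring
      · change X * (m 1 * m 1) + Z * (m 1 * b 1 + b 1 * m 1) + 0 * (b 1 * b 1)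
          = X * (m 1 * m 1) + Z / m' 0 * (m 2 ^ p * (m 0 ^ (p ^ 2) * m 1 + m 0 * m 1 ^ (p ^ 2)))
        rw [hb1', ← hm'a, ← hm'a, show m 2 ^ p = l 2 from rfl]
        field_simp
        linear_combination (-(Z * l 2)) * hcr2
      · change X * (m 1 * m 2) + Z * (m 1 * b 2 + b 1 * m 2) + 0 * (b 1 * b 2)
          = X * (m 1 * m 2) + Z / m' 0 *
            (m 0 ^ (p ^ 2) * m 2 ^ p * m 2 - m 0 * m 1 ^ (p ^ 2) * m 1 ^ p)
        rw [hb1', hb2', ← hm'a, ← hm'a, show m 2 ^ p = l 2 from rfl, show m 1 ^ p = l 1 from rfl]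
        field_simp
        linear_combination (Z * l 1) * hcr2
      · change X * (m 2 * m 2) + Z * (m 2 * b 2 + b 2 * m 2) + 0 * (b 2 * b 2)
          = X * (m 2 * m 2) - Z / m' 0 * (m 1 ^ p * (m 0 ^ (p ^ 2) * m 2 + m 0 * m 2 ^ (p ^ 2)))
        rw [hb2', ← hm'a, ← hm'a, show m 1 ^ p = l 1 from rfl]
        field_simp
        linear_combination (-(Z * l 1)) * hcr1
    rw [ht2]
    exact closed_zero hr f hf m X _ hiso
  · -- non-rational case
    have hc : m 1 * m' 2 - m 2 * m' 1 ≠ 0 := by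
      rw [hcr0]; exact mul_ne_zero hδ0 hl0
    obtain ⟨x, z, y, ht⟩ := decompT hl0 (m := m) (n := m') hc hml hm'l hker
    have hTv : ∀ w, Tv t w = (x * dp m w + z * dp m' w) • m
        + (z * dp m w + y * dp m' w) • m' := by
      intro w
      conv_lhs => rw [ht]
      exact Tv_decomp x z y m m' w
    set D := dp m l3 with hD
    have hD0 : D ≠ 0 := by
      intro h0
      have e1 : δ * (l3 1 * l 2 - l3 2 * l 1) = 0 := by
        have h1 : m 0 * l3 0 + m 1 * l3 1 + m 2 * l3 2 = 0 := h0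
        have h2 : m' 0 * l3 0 + m' 1 * l3 1 + m' 2 * l3 2 = 0 := hm'l3
        linear_combination m 0 * h2 - m' 0 * h1 - l3 1 * hcr2 + l3 2 * hcr1
      have e2 : l3 1 * l 2 - l3 2 * l 1 = (-(δ * l 0)) ^ p := by
        rw [← hcr0, neg_sub, sub_pow_char, mul_pow, mul_pow]
        simp only [hl3, hl, fr]
        ring
      rw [e2] at e1
      exact (mul_ne_zero hδ0 (pow_ne_zero p (neg_ne_zero.2 (mul_ne_zero hδ0 hl0)))) e1
    have hTl3 : Tv t l3 = D • (x • m + z • m') := by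
      rw [hTv, hm'l3]
      refine vec3_ext ?_ ?_ ?_ <;> simp <;> ring
    have hTm' : Tv (fr p t) m' = 0 := by
      rw [hm', frT, hker, fr_zero]
    have hTm'' : Tv (fr p t) (fr p (fr p m')) = D ^ p • (x ^ p • l + z ^ p • l3) := by
      rw [frT, ← hl3, hTl3, fr_smul, fr_add, fr_smul, fr_smul]
    have hv : Tv (fr p (fr p t)) (fr p (fr p l3))
        = (D ^ p) ^ p • ((x ^ p) ^ p • m' + (z ^ p) ^ p • fr p (fr p m')) := by
      rw [frT2, hTl3, fr_smul, fr_smul, fr_add, fr_add, fr_smul, fr_smul, fr_smul, fr_smul,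
        ← hl, ← hm']
    have hv2 : Tv (fr p t) (Tv (fr p (fr p t)) (fr p (fr p l3)))
        = ((D ^ p) ^ p * (z ^ p) ^ p * D ^ p) • (x ^ p • l + z ^ p • l3) := by
      rw [hv, Tv_smul, Tv_add, Tv_smul, Tv_smul, hTm', hTm'', smul_zero, zero_add, smul_smul,
        smul_smul, mul_assoc]
    have hv3 : Tv t (Tv (fr p t) (Tv (fr p (fr p t)) (fr p (fr p l3))))
        = ((D ^ p) ^ p * (z ^ p) ^ p * D ^ p * z ^ p * D) • (x • m + z • m') := by
      rw [hv2, Tv_smul, Tv_add, Tv_smul, Tv_smul, hker, hTl3, smul_zero, zero_add, smul_smul,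
        smul_smul]
    rw [hT] at hv3
    have hz : z = 0 := by
      by_contra hz
      have hc' : (D ^ p) ^ p * (z ^ p) ^ p * D ^ p * z ^ p * D ≠ 0 :=
        mul_ne_zero (mul_ne_zero (mul_ne_zero (mul_ne_zero (pow_ne_zero _ (pow_ne_zero _ hD0))
          (pow_ne_zero _ (pow_ne_zero _ hz))) (pow_ne_zero _ hD0)) (pow_ne_zero _ hz)) hD0
      have hzero : x • m + z • m' = 0 := (smul_eq_zero.1 hv3.symm).resolve_left hc'
      have h1 := congrFun hzero 1
      have h2 := congrFun hzero 2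
      simp only [Pi.smul_apply, Pi.add_apply, Pi.zero_apply, smul_eq_mul] at h1 h2
      have h3 : z * (m 1 * m' 2 - m 2 * m' 1) = 0 := by
        linear_combination m 1 * h2 - m 2 * h1
      exact (mul_ne_zero hz hc) h3
    have ht2 : t = th p m x y := by
      rw [ht, hz]
      funext i
      fin_cases i
      · change x * (m 0 * m 0) + 0 * (m 0 * m' 0 + m' 0 * m 0) + y * (m' 0 * m' 0)
          = x * (m 0 * m 0) + y * (m 0 ^ (p ^ 2) * m 0 ^ (p ^ 2))
        rw [hm'a]; ring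
      · change x * (m 0 * m 1) + 0 * (m 0 * m' 1 + m' 0 * m 1) + y * (m' 0 * m' 1)
          = x * (m 0 * m 1) + y * (m 0 ^ (p ^ 2) * m 1 ^ (p ^ 2))
        rw [hm'a, hm'a]; ring
      · change x * (m 0 * m 2) + 0 * (m 0 * m' 2 + m' 0 * m 2) + y * (m' 0 * m' 2)
          = x * (m 0 * m 2) + y * (m 0 ^ (p ^ 2) * m 2 ^ (p ^ 2))
        rw [hm'a, hm'a]; ring
      · change x * (m 1 * m 1) + 0 * (m 1 * m' 1 + m' 1 * m 1) + y * (m' 1 * m' 1)
          = x * (m 1 * m 1) + y * (m 1 ^ (p ^ 2) * m 1 ^ (p ^ 2))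
        rw [hm'a]; ring
      · change x * (m 1 * m 2) + 0 * (m 1 * m' 2 + m' 1 * m 2) + y * (m' 1 * m' 2)
          = x * (m 1 * m 2) + y * (m 1 ^ (p ^ 2) * m 2 ^ (p ^ 2))
        rw [hm'a, hm'a]; ring
      · change x * (m 2 * m 2) + 0 * (m 2 * m' 2 + m' 2 * m 2) + y * (m' 2 * m' 2)
          = x * (m 2 * m 2) + y * (m 2 ^ (p ^ 2) * m 2 ^ (p ^ 2))
        rw [hm'a]; ring
    rw [ht2]
    exact hf m x y hiso hmne

/-- Cyclic permutation on matrix entries. -/
def cyc6 (t : Fin 6 → k) : Fin 6 → k := ![t 3, t 4, t 1, t 5, t 2, t 0]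

theorem Tv_cyc6 (t : Fin 6 → k) (w : Fin 3 → k) : Tv (cyc6 t) (cyc w) = cyc (Tv t w) := by
  refine vec3_ext ?_ ?_ ?_ <;> simp [Tv, cyc6, cyc] <;> ring

theorem cyc_cyc_cyc (w : Fin 3 → k) : cyc (cyc (cyc w)) = w := by
  refine vec3_ext ?_ ?_ ?_ <;> simp [cyc]

theorem cyc_zero : cyc (0 : Fin 3 → k) = 0 := by
  refine vec3_ext ?_ ?_ ?_ <;> simp [cyc]

theorem fr_cyc6 (t : Fin 6 → k) : fr p (cyc6 t) = cyc6 (fr p t) := by
  funext i
  fin_cases i <;> rfl

theorem fr_cyc (w : Fin 3 → k) : fr p (cyc w) = cyc (fr p w) := by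
  funext i
  fin_cases i <;> rfl

theorem eval_cycT (t : Fin 6 → k) (f : MvPolynomial (Fin 6) k) :
    eval t (cycT f) = eval (cyc6 t) f := by
  rw [cycT, eval_aeval_eq]
  congr 2
  funext i
  fin_cases i <;> simp [cyc6]

theorem th_cyc (m : Fin 3 → k) (x y : k) : th p (cyc m) x y = cyc6 (th p m x y) := by
  funext i
  fin_cases i <;> simp [th, cyc, cyc6] <;> ring

theorem herm_cyc {m : Fin 3 → k} (hm : Herm p m) : Herm p (cyc m) := by
  have h : m 0 ^ (p + 1) + m 1 ^ (p + 1) + m 2 ^ (p + 1) = 0 := hm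
  change m 1 ^ (p + 1) + m 2 ^ (p + 1) + m 0 ^ (p + 1) = 0
  rw [← h]
  ring

theorem cyc_ne {m : Fin 3 → k} (hm : m ≠ 0) : cyc m ≠ 0 := by
  intro h
  apply hm
  rw [← cyc_cyc_cyc m, h, cyc_zero, cyc_zero]

/-- Vanishing on the image of `θ` passes to cyclic permutations. -/
theorem vanish_cyc {f : MvPolynomial (Fin 6) k}
    (hf : ∀ (m : Fin 3 → k) (x y : k), Herm p m → m ≠ 0 → eval (th p m x y) f = 0) :
    ∀ (m : Fin 3 → k) (x y : k), Herm p m → m ≠ 0 → eval (th p m x y) (cycT f) = 0 := by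
  intro m x y h1 h2
  rw [eval_cycT, ← th_cyc]
  exact hf _ x y (herm_cyc h1) (cyc_ne h2)

theorem cyc6_cyc6_cyc6 (t : Fin 6 → k) : cyc6 (cyc6 (cyc6 t)) = t := by
  funext i
  fin_cases i <;> rfl

theorem hT_cyc {t : Fin 6 → k} (hT : ∀ v, Tv t (Tv (fr p t) (Tv (fr p (fr p t)) v)) = 0) :
    ∀ v, Tv (cyc6 t) (Tv (fr p (cyc6 t)) (Tv (fr p (fr p (cyc6 t))) v)) = 0 := by
  intro v
  have h := hT (cyc (cyc v))
  have e : v = cyc (cyc (cyc v)) := (cyc_cyc_cyc v).symm
  rw [e, fr_cyc6, fr_cyc6, Tv_cyc6, Tv_cyc6, Tv_cyc6, h, cyc_zero]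

/-- A polynomial vanishing on the image of `θ` vanishes on the `p`-rank zero locus. -/
theorem vanish_on_V (hr : p = 2 * r + 1) (f : MvPolynomial (Fin 6) k)
    (hf : ∀ (m : Fin 3 → k) (x y : k), Herm p m → m ≠ 0 → eval (th p m x y) f = 0)
    {t : Fin 6 → k} (hT : ∀ v, Tv t (Tv (fr p t) (Tv (fr p (fr p t)) v)) = 0)
    (hker : ∃ l : Fin 3 → k, l ≠ 0 ∧ Tv t l = 0) :
    eval t f = 0 := by
  have hp0 : p ≠ 0 := (Fact.out : p.Prime).ne_zero
  obtain ⟨l, hl0, hTl, hiso⟩ := exists_isotropic hT hker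
  choose m hm using fun i => IsAlgClosed.exists_pow_nat_eq (l i) (Fact.out : p.Prime).pos
  have hml : fr p m = l := funext hm
  have hmne : m ≠ 0 := by
    rintro rfl
    apply hl0
    rw [← hml, fr_zero]
  have hHerm : Herm p m := by
    have h : (m 0 ^ (p + 1) + m 1 ^ (p + 1) + m 2 ^ (p + 1)) ^ p = 0 := by
      rw [add_pow_char, add_pow_char, ← hiso, ← hml]
      simp only [dp, fr]
      ring
    exact pow_eq_zero_iff hp0 |>.1 h
  rw [← hml] at hTl
  by_cases h0 : m 0 = 0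
  · by_cases h1 : m 1 = 0
    · have h2 : m 2 ≠ 0 := by
        intro h2
        exact hmne (vec3_ext h0 h1 h2)
      -- use the square of the cyclic permutation
      have hTc := hT_cyc (hT_cyc hT)
      have hkc : Tv (cyc6 (cyc6 t)) (fr p (cyc (cyc m))) = 0 := by
        rw [fr_cyc, fr_cyc, Tv_cyc6, Tv_cyc6, hTl, cyc_zero, cyc_zero]
      have h := vanish_on_V_aux hr (cycT f) (vanish_cyc hf) hTc (m := cyc (cyc m))
        (by simpa [cyc] using h2) hkc (herm_cyc (herm_cyc hHerm))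
      rw [eval_cycT, cyc6_cyc6_cyc6] at h
      exact h
    · have hTc := hT_cyc hT
      have hkc : Tv (cyc6 t) (fr p (cyc m)) = 0 := by
        rw [fr_cyc, Tv_cyc6, hTl, cyc_zero]
      have h := vanish_on_V_aux hr (cycT (cycT f)) (vanish_cyc (vanish_cyc hf)) hTc
        (m := cyc m) (by simpa [cyc] using h1) hkc (herm_cyc hHerm)
      rw [eval_cycT, eval_cycT, cyc6_cyc6_cyc6] at h
      exact h
  · exact vanish_on_V_aux hr f hf hT h0 hTl hHerm

end

end Pool.Agent.PRank
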