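import Pool.Agent.PRank.Series

/-!
The filtration of the power series ring by order, limits, and surjectivity of substitutions.
-/

namespace Pool.Agent.PRank

open Finset

section

variable {R : Type*} [CommRing R] {n : ℕ}

theorem VanTo.add {N : ℕ} {f g : MvPowerSeries (Fin n) R} (hf : VanTo N f) (hg : VanTo N g) :
    VanTo N (f + g) := by
  intro d hd
  rw [map_add, hf d hd, hg d hd, add_zero]

theorem VanTo.neg {N : ℕ} {f : MvPowerSeries (Fin n) R} (hf : VanTo N f) : VanTo N (-f) := by
  intro d hd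
  rw [map_neg, hf d hd, neg_zero]

theorem VanTo.sub {N : ℕ} {f g : MvPowerSeries (Fin n) R} (hf : VanTo N f) (hg : VanTo N g) :
    VanTo N (f - g) := by
  rw [sub_eq_add_neg]; exact hf.add hg.neg

theorem VanTo.mono {N M : ℕ} {f : MvPowerSeries (Fin n) R} (hf : VanTo N f) (h : M ≤ N) :
    VanTo M f := fun d hd => hf d (lt_of_lt_of_le hd h)

theorem vanTo_zero (f : MvPowerSeries (Fin n) R) : VanTo 0 f := fun _ hd => absurd hd (by omega)

theorem vanTo_of_zero (N : ℕ) : VanTo N (0 : MvPowerSeries (Fin n) R) := fun d _ => by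
  rw [map_zero]

theorem VanTo.mul {N M : ℕ} {f g : MvPowerSeries (Fin n) R} (hf : VanTo N f) (hg : VanTo M g) :
    VanTo (N + M) (f * g) := by
  classical
  intro d hd
  rw [MvPowerSeries.coeff_mul]
  refine Finset.sum_eq_zero fun x hx => ?_
  rw [Finset.HasAntidiagonal.mem_antidiagonal] at hx
  have h : x.1.degree + x.2.degree = d.degree := by rw [← map_add, hx]
  by_cases h1 : x.1.degree < N
  · rw [hf _ h1, zero_mul]
  · rw [hg x.2 (by omega), mul_zero]

theorem VanTo.mul_left {N : ℕ} {f : MvPowerSeries (Fin n) R} (g : MvPowerSeries (Fin n) R)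
    (hf : VanTo N f) : VanTo N (g * f) := by
  have := (vanTo_zero g).mul hf
  rwa [zero_add] at this

theorem VanTo.mul_right {N : ℕ} {f : MvPowerSeries (Fin n) R} (g : MvPowerSeries (Fin n) R)
    (hf : VanTo N f) : VanTo N (f * g) := by
  rw [mul_comm]; exact hf.mul_left g

theorem VanTo.pow {N : ℕ} {f : MvPowerSeries (Fin n) R} (hf : VanTo N f) (m : ℕ) :
    VanTo (m * N) (f ^ m) := by
  induction m with
  | zero => rw [zero_mul]; exact vanTo_zero _
  | succ m ih =>
    rw [pow_succ, Nat.succ_mul]
    exact ih.mul hf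

theorem vanTo_sum {ι : Type*} (s : Finset ι) {N : ℕ} {f : ι → MvPowerSeries (Fin n) R}
    (hf : ∀ i ∈ s, VanTo N (f i)) : VanTo N (∑ i ∈ s, f i) := by
  intro d hd
  rw [map_sum]
  exact Finset.sum_eq_zero fun i hi => hf i hi d hd

theorem vanTo_one_iff {f : MvPowerSeries (Fin n) R} :
    VanTo 1 f ↔ MvPowerSeries.constantCoeff f = 0 := by
  constructor
  · intro h
    have := h 0 (by simp)
    rwa [MvPowerSeries.coeff_zero_eq_constantCoeff_apply] at this
  · intro h d hd
    have hd0 : d = 0 := by
      rw [← Finsupp.degree_eq_zero_iff]; omega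
    rw [hd0, MvPowerSeries.coeff_zero_eq_constantCoeff_apply, h]

theorem vanTo_X (i : Fin n) : VanTo 1 (MvPowerSeries.X i : MvPowerSeries (Fin n) R) := by
  rw [vanTo_one_iff, MvPowerSeries.constantCoeff_X]

variable (R n) in
/-- The ideal of power series of order at least `N`. -/
def vI (N : ℕ) : Ideal (MvPowerSeries (Fin n) R) where
  carrier := {f | VanTo N f}
  zero_mem' := vanTo_of_zero N
  add_mem' := fun hf hg => VanTo.add hf hg
  smul_mem' := fun g _ hf => VanTo.mul_left g hf

theorem mem_vI {N : ℕ} {f : MvPowerSeries (Fin n) R} : f ∈ vI R n N ↔ VanTo N f := Iff.rfl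

theorem vI_mul_le (N M : ℕ) : vI R n N * vI R n M ≤ vI R n (N + M) := by
  rw [Ideal.mul_le]
  intro f hf g hg
  exact VanTo.mul hf hg

theorem pow_le_vI (N : ℕ) : (vI R n 1) ^ N ≤ vI R n N := by
  induction N with
  | zero => intro f _; exact vanTo_zero f
  | succ N ih =>
    rw [pow_succ]
    exact (Ideal.mul_mono_left ih).trans (vI_mul_le N 1)

theorem vI_eq_pow (N : ℕ) : vI R n N = (vI R n 1) ^ N := by
  apply le_antisymm
  · intro f hf
    exact mem_pow_of_vanTo _ vanTo_X N f hf
  · exact pow_le_vI N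

theorem vI_anti {N M : ℕ} (h : M ≤ N) : vI R n N ≤ vI R n M := fun _ hf => VanTo.mono hf h

theorem eq_zero_of_vanTo {f : MvPowerSeries (Fin n) R} (hf : ∀ N, VanTo N f) : f = 0 := by
  ext d
  rw [map_zero]
  exact hf (d.degree + 1) d (by omega)

/-- Limits of Cauchy sequences. -/
theorem exists_lim (f : ℕ → MvPowerSeries (Fin n) R) (hf : ∀ N, VanTo N (f (N + 1) - f N)) :
    ∃ g, ∀ N, VanTo N (g - f N) := by
  have h1 : ∀ N M, N ≤ M → VanTo N (f M - f N) := by
    intro N M h
    induction M, h using Nat.le_induction with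
    | base => rw [sub_self]; exact vanTo_of_zero _
    | succ M hM ih =>
      have : f (M + 1) - f N = (f (M + 1) - f M) + (f M - f N) := by ring
      rw [this]
      exact ((hf M).mono hM).add ih
  refine ⟨fun d => MvPowerSeries.coeff d (f (d.degree + 1)), fun N d hd => ?_⟩
  rw [map_sub]
  have h2 : MvPowerSeries.coeff d (fun d : Fin n →₀ ℕ => MvPowerSeries.coeff d
      (f (d.degree + 1)) : MvPowerSeries (Fin n) R) = MvPowerSeries.coeff d (f (d.degree + 1)) :=
    rfl
  rw [h2, sub_eq_zero]
  have h3 := h1 (d.degree + 1) N hd d (by omega)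
  rw [map_sub, sub_eq_zero] at h3
  exact h3.symm

end

section Surj

variable {k : Type*} [Field k]

/-- The substitution homomorphism given by six power series without constant term. -/
noncomputable def subs (σ : Fin 6 → MvPowerSeries (Fin 6) k)
    (hσ : ∀ i, MvPowerSeries.constantCoeff (σ i) = 0) :
    MvPowerSeries (Fin 6) k →ₐ[k] MvPowerSeries (Fin 6) k :=
  MvPowerSeries.substAlgHom (MvPowerSeries.hasSubst_of_constantCoeff_zero hσ)

variable {σ : Fin 6 → MvPowerSeries (Fin 6) k}
  {hσ : ∀ i, MvPowerSeries.constantCoeff (σ i) = 0}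

theorem subs_X (i : Fin 6) : subs σ hσ (MvPowerSeries.X i) = σ i := by
  rw [subs, MvPowerSeries.substAlgHom_X]

theorem subs_coe (f : MvPolynomial (Fin 6) k) :
    subs σ hσ (f : MvPowerSeries (Fin 6) k) = MvPolynomial.aeval σ f := by
  rw [subs, MvPowerSeries.substAlgHom_coe]

theorem subs_vanTo {N : ℕ} {f : MvPowerSeries (Fin 6) k} (hf : VanTo N f) :
    VanTo N (subs σ hσ f) := by
  have h1 : f ∈ (Ideal.span (Set.range (MvPowerSeries.X : Fin 6 → MvPowerSeries (Fin 6) k))) ^ N :=
    mem_pow_of_vanTo _ (fun i => Ideal.subset_span (Set.mem_range_self i)) N f hf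
  have h2 := Ideal.mem_map_of_mem (subs σ hσ).toRingHom h1
  rw [Ideal.map_pow, Ideal.map_span] at h2
  have h3 : Ideal.span ((subs σ hσ).toRingHom ''
      (Set.range (MvPowerSeries.X : Fin 6 → MvPowerSeries (Fin 6) k))) ≤ vI k 6 1 := by
    rw [Ideal.span_le]
    rintro _ ⟨_, ⟨i, rfl⟩, rfl⟩
    change VanTo 1 (subs σ hσ (MvPowerSeries.X i))
    rw [subs_X, vanTo_one_iff, hσ]
  exact pow_le_vI N (Ideal.pow_right_mono h3 N h2)

/-- If the images of the variables generate the maximal ideal modulo its square then the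
substitution is surjective. -/
theorem subs_surjective (hgen : ∀ l : Fin 6, ∃ f : MvPowerSeries (Fin 6) k,
    VanTo 1 f ∧ VanTo 2 (MvPowerSeries.X l - subs σ hσ f)) :
    Function.Surjective (subs σ hσ) := by
  choose F hF1 hF2 using hgen
  -- one step
  have step : ∀ (N : ℕ) (g : MvPowerSeries (Fin 6) k), VanTo N g →
      ∃ f, VanTo N f ∧ VanTo (N + 1) (g - subs σ hσ f) := by
    intro N
    induction N with
    | zero =>
      intro g _
      refine ⟨MvPowerSeries.C (MvPowerSeries.constantCoeff g), vanTo_zero _, ?_⟩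
      rw [zero_add, vanTo_one_iff]
      have : subs σ hσ (MvPowerSeries.C (MvPowerSeries.constantCoeff g))
          = MvPowerSeries.C (MvPowerSeries.constantCoeff g) := by
        rw [← MvPolynomial.coe_C, subs_coe]
        simp
        rfl
      rw [this]
      simp
    | succ N ih =>
      intro g hg
      obtain ⟨h, hh, rfl⟩ := exists_div hg
      choose f hf1 hf2 using fun i => ih (h i) (hh i)
      refine ⟨∑ i, F i * f i, ?_, ?_⟩
      · refine vanTo_sum _ fun i _ => ?_
        rw [add_comm]
        exact (hF1 i).mul (hf1 i)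
      · rw [map_sum, ← Finset.sum_sub_distrib]
        refine vanTo_sum _ fun i _ => ?_
        rw [map_mul]
        have e : MvPowerSeries.X i * h i - subs σ hσ (F i) * subs σ hσ (f i)
            = (MvPowerSeries.X i - subs σ hσ (F i)) * h i
              + subs σ hσ (F i) * (h i - subs σ hσ (f i)) := by ring
        rw [e]
        refine VanTo.add ?_ ?_
        · exact ((hF2 i).mul (hh i)).mono (by omega)
        · exact ((subs_vanTo (hF1 i)).mul (hf2 i)).mono (by omega)
  choose! f hf1 hf2 using step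
  intro g
  -- partial sums
  let P : ℕ → MvPowerSeries (Fin 6) k := fun N => Nat.rec 0 (fun M FM => FM + f M (g - subs σ hσ FM)) N
  have hP0 : P 0 = 0 := rfl
  have hPs : ∀ N, P (N + 1) = P N + f N (g - subs σ hσ (P N)) := fun N => rfl
  have hP : ∀ N, VanTo N (g - subs σ hσ (P N)) := by
    intro N
    induction N with
    | zero => exact vanTo_zero _
    | succ N ih =>
      rw [hPs, map_add, ← sub_sub]
      exact hf2 N _ ih
  obtain ⟨G, hG⟩ := exists_lim P (by
    intro N
    rw [hPs, add_sub_cancel_left]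
    exact hf1 N _ (hP N))
  refine ⟨G, ?_⟩
  symm
  rw [← sub_eq_zero]
  refine eq_zero_of_vanTo fun N => ?_
  have e : g - subs σ hσ G = (g - subs σ hσ (P N)) - subs σ hσ (G - P N) := by
    rw [map_sub]; ring
  rw [e]
  exact (hP N).sub (subs_vanTo (hG N))

/-- A surjective endomorphism of a Noetherian ring is injective. -/
theorem injective_of_surjective {A : Type*} [CommRing A] [IsNoetherianRing A] (f : A →+* A)
    (hf : Function.Surjective f) : Function.Injective f := by
  have hs : ∀ n, Function.Surjective (f^[n]) := fun n => hf.iterate n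
  let K : ℕ →o Ideal A := ⟨fun n => RingHom.ker (f ^ n), by
    intro m n hmn x hx
    rw [RingHom.mem_ker] at hx ⊢
    obtain ⟨l, rfl⟩ := Nat.exists_eq_add_of_le hmn
    rw [add_comm, pow_add, RingHom.mul_def, RingHom.comp_apply, hx, map_zero]⟩
  obtain ⟨n, hn⟩ := monotone_stabilizes_iff_noetherian.2 ‹IsNoetherianRing A› K
  rw [injective_iff_map_eq_zero]
  intro x hx
  have hpow : ∀ n (a : A), (f ^ n) a = f^[n] a := by
    intro n
    induction n with
    | zero => intro a; rfl
    | succ n ih =>
      intro a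
      rw [pow_succ, RingHom.mul_def, RingHom.comp_apply, ih, Function.iterate_succ_apply]
  obtain ⟨y, rfl⟩ := hs n x
  have h1 : y ∈ K (n + 1) := by
    change y ∈ RingHom.ker (f ^ (n + 1))
    rw [RingHom.mem_ker, hpow, Function.iterate_succ_apply', hx]
  rw [← hn (n + 1) (Nat.le_succ n)] at h1
  change y ∈ RingHom.ker (f ^ n) at h1
  rw [RingHom.mem_ker, hpow] at h1
  exact h1

end Surj

end Pool.Agent.PRank
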