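import Pool.Agent.PRank.ChartMem
import Pool.Agent.PRank.Lin

/-!
No first order deformation of the central curve in the family is trivial.
-/

namespace Pool.Agent.PRank

open LaurentPolynomial Q4

section Arithm

variable {k : Type*} [Field k]

/-- The final linear algebra. -/
theorem arith_versal (h6 : (6 : k) ≠ 0) (t : Fin 6 → k)
    (a0 a1 a2 b0 b1 b3 z2 z3 : ℤ → k)
    (pb0 : ∀ n, n < 0 → b0 n = 0) (pb1 : ∀ n, n < 0 → b1 n = 0)
    (pb3 : ∀ n, n < 0 → b3 n = 0) (pz2 : ∀ n, n < 0 → z2 n = 0) (pz3 : ∀ n, n < 0 → z3 n = 0)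
    (r0 : ∀ n, a0 n = 2 * b1 (n - 1)) (r1 : ∀ n, a1 n = 2 * b0 n)
    (r2 : ∀ n, a2 n = 2 * b3 (n - 1) + if n = 0 then t 5 else 0)
    (s0 : ∀ n, 2 * (z3 (n - 4) - z3 (n - 1)) = 3 * a1 (n - 3) + b0 (n - 3) - b0 n
      + (if n = 3 then t 4 else 0) + (if n = 2 then t 2 else 0) + (if n = 1 then t 0 else 0))
    (s1 : ∀ n, 2 * (z2 (n - 3) - z2 n) = 3 * a0 (n - 2) + b1 (n - 3) - b1 n
      + (if n = 2 then t 3 else 0) + (if n = 1 then t 1 else 0))
    (l3 : ∀ n, -3 < n → b3 (n + 1) - a2 (n + 2) = 0)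
    (l0 : ∀ n, 0 < n → b0 (n + 1) - a1 (n + 1) = 0)
    (l1 : ∀ n, -1 < n → b1 (n + 1) - a0 (n + 2) = 0)
    (m2 : ∀ n, -2 < n → z2 (n + 2) - 2 * a0 (n + 3) = 0)
    (m3 : ∀ n, -3 < n → z3 (n + 2) - 2 * a1 (n + 3) = 0) : t = 0 := by
  -- t 5
  have ht5 : t 5 = 0 := by
    have e1 := l3 (-2) (by norm_num)
    have e2 := r2 0
    norm_num at e1 e2
    rw [pb3 (-1) (by norm_num)] at e1 e2
    linear_combination -e1 - e2
  -- b0 and b1 are polynomials of small degree
  have hb0 : ∀ n, 1 < n → b0 n = 0 := by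
    intro n hn
    have e1 := l0 (n - 1) (by omega)
    rw [sub_add_cancel, r1] at e1
    linear_combination -e1
  have hb1 : ∀ n, 0 < n → b1 n = 0 := by
    intro n hn
    have e1 := l1 (n - 1) (by omega)
    rw [sub_add_cancel, r0, show n - 1 + 2 - 1 = n by ring] at e1
    linear_combination -e1
  have hz3 : ∀ n, 0 < n → z3 n = 0 := by
    intro n hn
    have e1 := m3 (n - 2) (by omega)
    rw [sub_add_cancel, r1, show n - 2 + 3 = n + 1 by ring, hb0 (n + 1) (by omega)] at e1
    linear_combination e1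
  have hz30 : z3 0 = 4 * b0 1 := by
    have e1 := m3 (-2) (by norm_num)
    norm_num at e1
    rw [r1] at e1
    linear_combination e1
  have hz2 : ∀ n, 0 < n → z2 n = 0 := by
    intro n hn
    have e1 := m2 (n - 2) (by omega)
    rw [sub_add_cancel, r0, show n - 2 + 3 - 1 = n by ring, hb1 n hn] at e1
    linear_combination e1
  -- the first equation
  have q4 := s0 4
  have q0 := s0 0
  have q3 := s0 3
  have q2 := s0 2
  have q1 := s0 1
  norm_num at q4 q0 q3 q2 q1
  simp only [r1] at q4 q0 q3 q2 q1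
  have hb01 : b0 1 = 0 := by
    rw [hz3 3 (by norm_num), hb0 4 (by norm_num), hz30] at q4
    linear_combination q4
  have hb00 : b0 0 = 0 := by
    rw [pz3 (-4) (by norm_num), pz3 (-1) (by norm_num), pb0 (-3) (by norm_num)] at q0
    linear_combination q0
  have ht4 : t 4 = 0 := by
    rw [pz3 (-1) (by norm_num), hz3 2 (by norm_num), hb00, hb0 3 (by norm_num)] at q3
    linear_combination -q3
  have ht2 : t 2 = 0 := by
    rw [pz3 (-2) (by norm_num), hz3 1 (by norm_num), pb0 (-1) (by norm_num),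
      hb0 2 (by norm_num)] at q2
    linear_combination -q2
  have ht0 : t 0 = 0 := by
    rw [pz3 (-3) (by norm_num), hz30, hb01, pb0 (-2) (by norm_num)] at q1
    linear_combination -q1
  -- the second equation
  have w3 := s1 3
  have w0 := s1 0
  have w2 := s1 2
  have w1 := s1 1
  norm_num at w3 w0 w2 w1
  simp only [r0] at w3 w0 w2 w1
  norm_num at w3 w0 w2 w1
  have hb10 : b1 0 = 0 := by
    rw [hz2 3 (by norm_num), hb1 3 (by norm_num)] at w3
    rw [pz2 (-3) (by norm_num), pb1 (-3) (by norm_num)] at w0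
    have : 6 * b1 0 = 0 := by linear_combination -w3 - w0
    rcases mul_eq_zero.1 this with h | h
    · exact absurd h h6
    · exact h
  have ht3 : t 3 = 0 := by
    rw [pz2 (-1) (by norm_num), hz2 2 (by norm_num), pb1 (-1) (by norm_num),
      hb1 2 (by norm_num)] at w2
    linear_combination -w2
  have ht1 : t 1 = 0 := by
    rw [pz2 (-2) (by norm_num), hz2 1 (by norm_num), pb1 (-2) (by norm_num),
      hb1 1 (by norm_num)] at w1
    linear_combination -w1
  funext i
  fin_cases i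
  exacts [ht0, ht1, ht2, ht3, ht4, ht5]

end Arithm

section Infinitesimal

variable {k : Type*} [Field k]

/-- The overlap ring of the central curve. -/
abbrev Q0 (k : Type*) [Field k] : Type _ := QQ (0 : k) 0 (T 3 - 1 : LaurentPolynomial k)

theorem Y_mul0 (u : Q0 k) : (Y _ _ _ _ * u).c0 = T 1 * u.c1 := by simp [mul_c0]
theorem Y_mul1 (u : Q0 k) : (Y _ _ _ _ * u).c1 = u.c0 := by simp [mul_c1]
theorem Y_mul2 (u : Q0 k) : (Y _ _ _ _ * u).c2 = T 1 * u.c3 := by simp [mul_c2]
theorem Y_mul3 (u : Q0 k) : (Y _ _ _ _ * u).c3 = u.c2 := by simp [mul_c3]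
theorem W_mul0 (u : Q0 k) : (W _ _ _ _ * u).c0 = T 1 * (T 3 - 1) * u.c3 := by simp [mul_c0]
theorem W_mul1 (u : Q0 k) : (W _ _ _ _ * u).c1 = (T 3 - 1) * u.c2 := by simp [mul_c1]
theorem W_mul2 (u : Q0 k) : (W _ _ _ _ * u).c2 = u.c0 := by simp [mul_c2]
theorem W_mul3 (u : Q0 k) : (W _ _ _ _ * u).c3 = u.c1 := by simp [mul_c3]

theorem coeff_T_mul (a n : ℤ) (f : LaurentPolynomial k) :
    (T a * f).coeff n = f.coeff (n - a) := by
  rw [mul_comm, coeff_mul_T]

theorem coeff_add' (f g : LaurentPolynomial k) (n : ℤ) :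
    (f + g).coeff n = f.coeff n + g.coeff n := rfl

theorem coeff_sub' (f g : LaurentPolynomial k) (n : ℤ) :
    (f - g).coeff n = f.coeff n - g.coeff n := by
  rw [AddMonoidAlgebra.coeff_sub]; rfl

theorem coeff_CT' (r : k) (j n : ℤ) :
    (C r * T j : LaurentPolynomial k).coeff n = if n = j then r else 0 := by
  rw [coeff_C_mul_T]
  simp only [eq_comm]

/-- The infinitesimal statement. -/
theorem inf_versal (h6 : (6 : k) ≠ 0) (t : Fin 6 → k) (ξ η ζ : Q0 k)
    (pη : Pos η) (pζ : Pos ζ)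
    (r1 : Y _ _ _ _ * η + Y _ _ _ _ * η + of (C (t 5)) * W _ _ _ _ = ξ)
    (r2 : W _ _ _ _ * ζ + W _ _ _ _ * ζ = of (C 3 * T 2) * (Y _ _ _ _ * ξ) + of (T 3) * η - η
      + of (C (t 4) * T 3) + of (C (t 3) * T 2) * Y _ _ _ _ + of (C (t 2) * T 2)
      + of (C (t 1) * T 1) * Y _ _ _ _ + of (C (t 0) * T 1))
    (l2 : Low (of (T (-1)) * η - of (T (-2)) * (Y _ _ _ _ * ξ)))
    (l3 : Low (of (T (-2)) * ζ - of (C 2 * T (-3)) * (W _ _ _ _ * ξ))) : t = 0 := by
  have c0 : (T 1 : LaurentPolynomial k) * η.c1 + T 1 * η.c1 = ξ.c0 := by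
    have := congrArg Q4.c0 r1
    simpa only [add_c0, Y_mul0, of_mul_c0, W_c0, mul_zero, add_zero] using this
  have c1 : η.c0 + η.c0 = ξ.c1 := by
    have := congrArg Q4.c1 r1
    simpa only [add_c1, Y_mul1, of_mul_c1, W_c1, mul_zero, add_zero] using this
  have c2 : (T 1 : LaurentPolynomial k) * η.c3 + T 1 * η.c3 + C (t 5) * T 0 = ξ.c2 := by
    have := congrArg Q4.c2 r1
    simpa only [add_c2, Y_mul2, of_mul_c2, W_c2, T_zero] using this
  have d0 : (T 1 : LaurentPolynomial k) * ((T 3 - 1) * ζ.c3) + T 1 * ((T 3 - 1) * ζ.c3)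
      = C 3 * (T 3 * ξ.c1) + T 3 * η.c0 - η.c0 + C (t 4) * T 3 + C (t 2) * T 2
        + C (t 0) * T 1 := by
    have := congrArg Q4.c0 r2
    simp only [add_c0, sub_c0, W_mul0, Y_mul0, of_mul_c0, of_c0, Y_c0, mul_zero,
      add_zero] at this
    have e : (T 3 : LaurentPolynomial k) = T 2 * T 1 := by rw [← T_add]; norm_num
    linear_combination this - C 3 * ξ.c1 * e
  have d1 : (T 3 - 1 : LaurentPolynomial k) * ζ.c2 + (T 3 - 1) * ζ.c2
      = C 3 * (T 2 * ξ.c0) + T 3 * η.c1 - η.c1 + C (t 3) * T 2 + C (t 1) * T 1 := by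
    have := congrArg Q4.c1 r2
    simp only [add_c1, sub_c1, W_mul1, Y_mul1, of_mul_c1, of_c1, Y_c1, mul_one,
      add_zero] at this
    linear_combination this
  obtain ⟨m0, m1, m2, m3⟩ := l2
  obtain ⟨n0, n1, n2, n3⟩ := l3
  rw [sub_c0, of_mul_c0, of_mul_c0, Y_mul0] at m0
  rw [sub_c1, of_mul_c1, of_mul_c1, Y_mul1] at m1
  rw [sub_c3, of_mul_c3, of_mul_c3, Y_mul3] at m3
  rw [sub_c2, of_mul_c2, of_mul_c2, W_mul2] at n2
  rw [sub_c3, of_mul_c3, of_mul_c3, W_mul3] at n3
  refine arith_versal h6 t (fun n => ξ.c0.coeff n) (fun n => ξ.c1.coeff n)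
    (fun n => ξ.c2.coeff n) (fun n => η.c0.coeff n) (fun n => η.c1.coeff n)
    (fun n => η.c3.coeff n) (fun n => ζ.c2.coeff n) (fun n => ζ.c3.coeff n)
    pη.1 pη.2.1 pη.2.2.2 pζ.2.2.1 pζ.2.2.2 ?_ ?_ ?_ ?_ ?_ ?_ ?_ ?_ ?_ ?_
  · intro n
    have := congrArg (fun f => AddMonoidAlgebra.coeff f n) c0
    simp only [coeff_add', coeff_T_mul] at this
    linear_combination -this
  · intro n
    have := congrArg (fun f => AddMonoidAlgebra.coeff f n) c1
    simp only [coeff_add'] at this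
    linear_combination -this
  · intro n
    have := congrArg (fun f => AddMonoidAlgebra.coeff f n) c2
    simp only [coeff_add', coeff_T_mul, coeff_CT'] at this
    rw [← this]
    ring
  · intro n
    have := congrArg (fun f => AddMonoidAlgebra.coeff f n) d0
    simp only [sub_mul, one_mul, coeff_add', coeff_sub', coeff_T_mul, coeff_CT'] at this
    simp only [coeff_C_mul, coeff_T_mul] at this
    rw [show n - 1 - 3 = n - 4 by ring] at this
    linear_combination this
  · intro n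
    have := congrArg (fun f => AddMonoidAlgebra.coeff f n) d1
    simp only [sub_mul, one_mul, coeff_add', coeff_sub', coeff_T_mul, coeff_CT'] at this
    simp only [coeff_C_mul, coeff_T_mul] at this
    linear_combination this
  · intro n hn
    have := m3 n hn
    rw [coeff_sub', coeff_T_mul, coeff_T_mul] at this
    rw [show n - -1 = n + 1 by ring, show n - -2 = n + 2 by ring] at this
    exact this
  · intro n hn
    have := m0 n hn
    rw [coeff_sub', coeff_T_mul, coeff_T_mul, coeff_T_mul] at this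
    rw [show n - -1 = n + 1 by ring, show n - -2 - 1 = n + 1 by ring] at this
    exact this
  · intro n hn
    have := m1 n hn
    rw [coeff_sub', coeff_T_mul, coeff_T_mul] at this
    rw [show n - -1 = n + 1 by ring, show n - -2 = n + 2 by ring] at this
    exact this
  · intro n hn
    have := n2 n hn
    rw [coeff_sub', coeff_T_mul, mul_assoc, coeff_C_mul, coeff_T_mul] at this
    rw [show n - -2 = n + 2 by ring, show n - -3 = n + 3 by ring] at this
    exact this
  · intro n hn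
    have := n3 n hn
    rw [coeff_sub', coeff_T_mul, mul_assoc, coeff_C_mul, coeff_T_mul] at this
    rw [show n - -2 = n + 2 by ring, show n - -3 = n + 3 by ring] at this
    exact this

end Infinitesimal

end Pool.Agent.PRank
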