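import Pool.Agent.PRank.Versal
import Pool.Agent.PRank.HZero2

/-!
The family is versal at the origin.
-/

namespace Pool.Agent.PRank

open LaurentPolynomial Q4
open scoped DualNumber

section

variable {k : Type*} [Field k]

/-- Reduction modulo `ε`. -/
noncomputable def red : QF (0 : Fin 6 → k[ε]) →+* Q0 k :=
  qmap (TrivSqZeroExt.fstHom k k k : k[ε] →+* k) (map_zero _)
    (by rw [famA_zero, map_zero])
    (by rw [famB_zero, map_sub, map_one, lmap_T])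

theorem red_c0 (u : QF (0 : Fin 6 → k[ε])) (n : ℤ) :
    (red u).c0.coeff n = (u.c0.coeff n).fst := by simp [red, qmap, coeff_lmap]
theorem red_c1 (u : QF (0 : Fin 6 → k[ε])) (n : ℤ) :
    (red u).c1.coeff n = (u.c1.coeff n).fst := by simp [red, qmap, coeff_lmap]
theorem red_c2 (u : QF (0 : Fin 6 → k[ε])) (n : ℤ) :
    (red u).c2.coeff n = (u.c2.coeff n).fst := by simp [red, qmap, coeff_lmap]
theorem red_c3 (u : QF (0 : Fin 6 → k[ε])) (n : ℤ) :
    (red u).c3.coeff n = (u.c3.coeff n).fst := by simp [red, qmap, coeff_lmap]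

theorem red_of (x : LaurentPolynomial k[ε]) :
    red (of x) = of (lmap (TrivSqZeroExt.fstHom k k k : k[ε] →+* k) x) := by
  ext1 <;> simp [red, qmap]

theorem red_Y : red (Y _ _ _ _ : QF (0 : Fin 6 → k[ε])) = Y _ _ _ _ := by
  ext1 <;> simp [red, qmap]

theorem red_W : red (W _ _ _ _ : QF (0 : Fin 6 → k[ε])) = W _ _ _ _ := by
  ext1 <;> simp [red, qmap]

theorem eps_mul_eq_zero {a : k[ε]} (h : ε * a = 0) : a.fst = 0 := by
  have := congrArg TrivSqZeroExt.snd h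
  simpa using this

theorem coeff_of_eps_mul (f : LaurentPolynomial k[ε]) (n : ℤ) (h : (C ε * f).coeff n = 0) :
    (f.coeff n).fst = 0 := by
  rw [coeff_C_mul] at h
  exact eps_mul_eq_zero h

theorem red_eq_zero {u : QF (0 : Fin 6 → k[ε])} (h : of (C ε) * u = 0) : red u = 0 := by
  have h0 := congrArg Q4.c0 h
  have h1 := congrArg Q4.c1 h
  have h2 := congrArg Q4.c2 h
  have h3 := congrArg Q4.c3 h
  rw [of_mul_c0, zero_c0] at h0
  rw [of_mul_c1, zero_c1] at h1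
  rw [of_mul_c2, zero_c2] at h2
  rw [of_mul_c3, zero_c3] at h3
  ext n
  · rw [red_c0]; exact coeff_of_eps_mul _ _ (by rw [h0]; rfl)
  · rw [red_c1]; exact coeff_of_eps_mul _ _ (by rw [h1]; rfl)
  · rw [red_c2]; exact coeff_of_eps_mul _ _ (by rw [h2]; rfl)
  · rw [red_c3]; exact coeff_of_eps_mul _ _ (by rw [h3]; rfl)

theorem pos_red {u : QF (0 : Fin 6 → k[ε])} (h : Pos (of (C ε) * u)) : Pos (red u) := by
  obtain ⟨h0, h1, h2, h3⟩ := h
  rw [of_mul_c0] at h0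
  rw [of_mul_c1] at h1
  rw [of_mul_c2] at h2
  rw [of_mul_c3] at h3
  refine ⟨fun n hn => ?_, fun n hn => ?_, fun n hn => ?_, fun n hn => ?_⟩
  · rw [red_c0]; exact coeff_of_eps_mul _ _ (h0 n hn)
  · rw [red_c1]; exact coeff_of_eps_mul _ _ (h1 n hn)
  · rw [red_c2]; exact coeff_of_eps_mul _ _ (h2 n hn)
  · rw [red_c3]; exact coeff_of_eps_mul _ _ (h3 n hn)

theorem low_red {u : QF (0 : Fin 6 → k[ε])} (h : Low (of (C ε) * u)) : Low (red u) := by
  obtain ⟨h0, h1, h2, h3⟩ := h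
  rw [of_mul_c0] at h0
  rw [of_mul_c1] at h1
  rw [of_mul_c2] at h2
  rw [of_mul_c3] at h3
  refine ⟨fun n hn => ?_, fun n hn => ?_, fun n hn => ?_, fun n hn => ?_⟩
  · rw [red_c0]; exact coeff_of_eps_mul _ _ (h0 n hn)
  · rw [red_c1]; exact coeff_of_eps_mul _ _ (h1 n hn)
  · rw [red_c2]; exact coeff_of_eps_mul _ _ (h2 n hn)
  · rw [red_c3]; exact coeff_of_eps_mul _ _ (h3 n hn)

theorem Pos.sub {s : k[ε]} {A B : LaurentPolynomial k[ε]} {u v : QQ s A B}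
    (hu : Pos u) (hv : Pos v) : Pos (u - v) :=
  ⟨by rw [sub_c0]; exact hu.1.sub hv.1, by rw [sub_c1]; exact hu.2.1.sub hv.2.1,
    by rw [sub_c2]; exact hu.2.2.1.sub hv.2.2.1, by rw [sub_c3]; exact hu.2.2.2.sub hv.2.2.2⟩

theorem Low.sub {s : k[ε]} {A B : LaurentPolynomial k[ε]} {u v : QQ s A B}
    (hu : Low u) (hv : Low v) : Low (u - v) :=
  ⟨by rw [sub_c0]; exact hu.1.sub hv.1, by rw [sub_c1]; exact hu.2.1.sub hv.2.1,
    by rw [sub_c2]; exact hu.2.2.1.sub hv.2.2.1, by rw [sub_c3]; exact hu.2.2.2.sub hv.2.2.2⟩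

theorem zero_Y_sq : (Y _ _ _ _ : QF (0 : Fin 6 → k[ε])) ^ 2 = of (T 1) := by
  rw [Y_sq]
  have e : (of (C ((0 : Fin 6 → k[ε]) 5)) : QF (0 : Fin 6 → k[ε])) = 0 :=
    (congrArg of (map_zero C)).trans (map_zero _)
  rw [e, zero_mul, sub_zero]

theorem zero_W_sq : (W _ _ _ _ : QF (0 : Fin 6 → k[ε])) ^ 2
    = (of (T 1) ^ 3 - 1) * Y _ _ _ _ := by
  rw [W_sq]
  have h3 : (T 3 : LaurentPolynomial k[ε]) = T 1 ^ 3 := by rw [T_pow]; norm_num
  have eA : (of (famA (0 : Fin 6 → k[ε])) : QF (0 : Fin 6 → k[ε])) = 0 := by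
    exact (congrArg of famA_zero).trans (map_zero _)
  have eB : (of (famB (0 : Fin 6 → k[ε])) : QF (0 : Fin 6 → k[ε])) = of (T 1) ^ 3 - 1 := by
    refine (congrArg of (famB_zero.trans (congrArg (fun z => z - 1) h3))).trans ?_
    simp only [map_sub, map_pow, map_one]
  rw [eA, eB, zero_add]

theorem versal_aux (h6 : (6 : k) ≠ 0) (t : Fin 6 → k) (c : Fin 6 → k[ε])
    (hc : ∀ i, c i = TrivSqZeroExt.inl (t i) * ε)
    (e : Overlap c ≃ₐ[k[ε]] Overlap (0 : Fin 6 → k[ε]))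
    (he1 : (chart1 c).map (e : Overlap _ →ₐ[k[ε]] Overlap _) = chart1 0)
    (he2 : (chart2 c).map (e : Overlap _ →ₐ[k[ε]] Overlap _) = chart2 0)
    (heg : ∀ i, ∃ g : Overlap (0 : Fin 6 → k[ε]), e (fn c i) = fn 0 i + (ε : k[ε]) • g) :
    t = 0 := by
  obtain ⟨g0, hg0⟩ := heg 0
  obtain ⟨g1, hg1⟩ := heg 1
  obtain ⟨g2, hg2⟩ := heg 2
  obtain ⟨g3, hg3⟩ := heg 3
  let F : Overlap c →+* QF (0 : Fin 6 → k[ε]) :=
    (psi (0 : Fin 6 → k[ε])).comp (e : Overlap c →+* Overlap 0)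
  have hFe : ∀ a, F a = psi 0 (e a) := fun a => rfl
  obtain ⟨E, hE⟩ : ∃ E : QF (0 : Fin 6 → k[ε]), E = of (C ε) := ⟨_, rfl⟩
  have hEE : E * E = 0 := by
    rw [hE, ← map_mul, ← map_mul, DualNumber.eps_mul_eps, map_zero, map_zero]
  have hsm : ∀ g : Overlap (0 : Fin 6 → k[ε]), psi 0 ((ε : k[ε]) • g) = E * psi 0 g := by
    intro g
    have h0 : (ε : k[ε]) • g = algebraMap k[ε] (Overlap (0 : Fin 6 → k[ε])) ε * g :=
      Algebra.smul_def (R := k[ε]) (A := Overlap (0 : Fin 6 → k[ε])) ε g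
    rw [h0, map_mul, psi_algebraMap, hE]
  have halg : ∀ r : k[ε], F (algebraMap k[ε] (Overlap c) r) = of (C r) := by
    intro r
    rw [hFe, AlgEquiv.commutes, psi_algebraMap]
  have hci : ∀ i, (of (C (c i)) : QF (0 : Fin 6 → k[ε]))
      = E * of (C (TrivSqZeroExt.inl (t i))) := by
    intro i
    rw [hE, ← map_mul, ← map_mul, hc, mul_comm]
  obtain ⟨x, hx⟩ : ∃ x : QF (0 : Fin 6 → k[ε]), x = of (T 1) := ⟨_, rfl⟩
  obtain ⟨x', hx'⟩ : ∃ x' : QF (0 : Fin 6 → k[ε]), x' = of (T (-1)) := ⟨_, rfl⟩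
  obtain ⟨y, hy⟩ : ∃ y : QF (0 : Fin 6 → k[ε]), y = Y _ _ _ _ := ⟨_, rfl⟩
  obtain ⟨w, hw⟩ : ∃ w : QF (0 : Fin 6 → k[ε]), w = W _ _ _ _ := ⟨_, rfl⟩
  obtain ⟨a0, ha0⟩ : ∃ a, a = psi 0 g0 := ⟨_, rfl⟩
  obtain ⟨a1, ha1⟩ : ∃ a, a = psi 0 g1 := ⟨_, rfl⟩
  obtain ⟨a2, ha2⟩ : ∃ a, a = psi 0 g2 := ⟨_, rfl⟩
  obtain ⟨a3, ha3⟩ : ∃ a, a = psi 0 g3 := ⟨_, rfl⟩
  have f0 : F (fn c 0) = x + E * a0 := by rw [hFe, hg0, map_add, hsm, psi_fn0, hx, ha0]
  have f1 : F (fn c 1) = x' + E * a1 := by rw [hFe, hg1, map_add, hsm, psi_fn1, hx', ha1]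
  have f2 : F (fn c 2) = y + E * a2 := by rw [hFe, hg2, map_add, hsm, psi_fn2, hy, ha2]
  have f3 : F (fn c 3) = w + E * a3 := by rw [hFe, hg3, map_add, hsm, psi_fn3, hw, ha3]
  have q0 : x * x' = 1 := by
    rw [hx, hx', ← map_mul, ← T_add]; simp
  have q1 : y ^ 2 = x := by rw [hy, hx]; exact zero_Y_sq
  have q2 : w ^ 2 = (x ^ 3 - 1) * y := by rw [hw, hx, hy]; exact zero_W_sq
  -- the relations
  have s0 : E * (x * a1 + x' * a0) = 0 := by
    have := congrArg F (rel0 c)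
    rw [map_mul, map_one, f0, f1] at this
    linear_combination this - q0 - a0 * a1 * hEE
  have s1 : E * (y * a2 + y * a2 + of (C (TrivSqZeroExt.inl (t 5))) * w - a0) = 0 := by
    have := congrArg F (rel1 c)
    rw [map_pow, map_sub, map_mul, halg, hci, f0, f2, f3] at this
    linear_combination this - q1 - (a2 ^ 2 + of (C (TrivSqZeroExt.inl (t 5))) * a3) * hEE
  have s2 : E * (w * a3 + w * a3 - (3 * x ^ 2 * (y * a0) + x ^ 3 * a2 - a2
      + of (C (TrivSqZeroExt.inl (t 4))) * x ^ 3 + of (C (TrivSqZeroExt.inl (t 3))) * x ^ 2 * y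
      + of (C (TrivSqZeroExt.inl (t 2))) * x ^ 2 + of (C (TrivSqZeroExt.inl (t 1))) * x * y
      + of (C (TrivSqZeroExt.inl (t 0))) * x)) = 0 := by
    have := congrArg F (rel2 c)
    simp only [map_pow, map_sub, map_add, map_mul, halg, hci, f0, f2, f3] at this
    obtain ⟨b4, h4⟩ : ∃ b : QF (0 : Fin 6 → k[ε]), b = of (C (TrivSqZeroExt.inl (t 4))) :=
      ⟨_, rfl⟩
    obtain ⟨b3, h3⟩ : ∃ b : QF (0 : Fin 6 → k[ε]), b = of (C (TrivSqZeroExt.inl (t 3))) :=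
      ⟨_, rfl⟩
    obtain ⟨b2, h2⟩ : ∃ b : QF (0 : Fin 6 → k[ε]), b = of (C (TrivSqZeroExt.inl (t 2))) :=
      ⟨_, rfl⟩
    obtain ⟨b1, h1⟩ : ∃ b : QF (0 : Fin 6 → k[ε]), b = of (C (TrivSqZeroExt.inl (t 1))) :=
      ⟨_, rfl⟩
    obtain ⟨b0, h0⟩ : ∃ b : QF (0 : Fin 6 → k[ε]), b = of (C (TrivSqZeroExt.inl (t 0))) :=
      ⟨_, rfl⟩
    rw [← h0, ← h1, ← h2, ← h3, ← h4] at this ⊢
    -- powers
    have p3 : (x + E * a0) ^ 3 = x ^ 3 + 3 * E * x ^ 2 * a0 := by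
      linear_combination (3 * x * a0 ^ 2 + E * a0 ^ 3) * hEE
    have p2 : (x + E * a0) ^ 2 = x ^ 2 + 2 * E * x * a0 := by
      linear_combination a0 ^ 2 * hEE
    have pw : (w + E * a3) ^ 2 = (x ^ 3 - 1) * y + 2 * E * w * a3 := by
      linear_combination a3 ^ 2 * hEE + q2
    rw [p3, p2, pw] at this
    linear_combination this + (3 * x ^ 2 * a0 * a2 + b4 * 3 * x ^ 2 * a0
      + b3 * (x ^ 2 * a2 + 2 * x * a0 * y + 2 * x * E * a0 * a2) + b2 * 2 * x * a0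
      + b1 * (a0 * y + x * a2 + E * a0 * a2) + b0 * a0) * hEE
  -- the charts
  have m2 : Pos (E * a2) := by
    have h1 : e (fn c 2) ∈ chart1 0 := by
      rw [← he1]; exact Subalgebra.mem_map.2 ⟨_, fn_mem_chart1_2 c, rfl⟩
    have h2 := pos_of_mem_chart1 0 h1
    rw [← hFe, f2, hy] at h2
    have h3 := h2.sub (pos_Y 0)
    rwa [add_sub_cancel_left] at h3
  have m3 : Pos (E * a3) := by
    have h1 : e (fn c 3) ∈ chart1 0 := by
      rw [← he1]; exact Subalgebra.mem_map.2 ⟨_, fn_mem_chart1_3 c, rfl⟩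
    have h2 := pos_of_mem_chart1 0 h1
    rw [← hFe, f3, hw] at h2
    have h3 := h2.sub (pos_W 0)
    rwa [add_sub_cancel_left] at h3
  have n2 : Low (E * (x' * a2 + a1 * y)) := by
    have h1 : e (fn c 1 * fn c 2) ∈ chart2 0 := by
      rw [← he2]; exact Subalgebra.mem_map.2 ⟨_, fn_mem_chart2_2 c, rfl⟩
    have h2 := low_of_mem_chart2 0 h1
    rw [← hFe, map_mul, f1, f2] at h2
    have h3 := low_of_mem_chart2 0 (fn_mem_chart2_2 (0 : Fin 6 → k[ε]))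
    rw [map_mul, psi_fn1, psi_fn2, ← hx', ← hy] at h3
    have h4 := h2.sub h3
    have h5 : (x' + E * a1) * (y + E * a2) - x' * y = E * (x' * a2 + a1 * y) := by
      linear_combination a1 * a2 * hEE
    rwa [h5] at h4
  have n3 : Low (E * (x' ^ 2 * a3 + 2 * x' * a1 * w)) := by
    have h1 : e (fn c 1 ^ 2 * fn c 3) ∈ chart2 0 := by
      rw [← he2]; exact Subalgebra.mem_map.2 ⟨_, fn_mem_chart2_3 c, rfl⟩
    have h2 := low_of_mem_chart2 0 h1
    rw [← hFe, map_mul, map_pow, f1, f3] at h2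
    have h3 := low_of_mem_chart2 0 (fn_mem_chart2_3 (0 : Fin 6 → k[ε]))
    rw [map_mul, map_pow, psi_fn1, psi_fn3, ← hx', ← hw] at h3
    have h4 := h2.sub h3
    have h5 : (x' + E * a1) ^ 2 * (w + E * a3) - x' ^ 2 * w
        = E * (x' ^ 2 * a3 + 2 * x' * a1 * w) := by
      linear_combination (2 * x' * a1 * a3 + a1 ^ 2 * w + a1 ^ 2 * E * a3) * hEE
    rwa [h5] at h4
  rw [hE] at s0 s1 s2 m2 m3 n2 n3
  have r0 := red_eq_zero s0
  have r1 := red_eq_zero s1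
  have r2 := red_eq_zero s2
  have l2 := low_red n2
  have l3 := low_red n3
  have hxr : red x = of (T 1) := by rw [hx, red_of, lmap_T]
  have hxr' : red x' = of (T (-1)) := by rw [hx', red_of, lmap_T]
  have hyr : red y = Y _ _ _ _ := by rw [hy, red_Y]
  have hwr : red w = W _ _ _ _ := by rw [hw, red_W]
  have hcr : ∀ r : k, red (of (C (TrivSqZeroExt.inl r)) : QF (0 : Fin 6 → k[ε])) = of (C r) := by
    intro r
    rw [red_of, lmap_C]
    rfl
  have q0' : (of (T 1) : Q0 k) * of (T (-1)) = 1 := by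
    rw [← map_mul, ← T_add]; simp
  have tp2 : (of (T 2) : Q0 k) = of (T 1) ^ 2 := by rw [← map_pow, T_pow]; norm_num
  have tp3 : (of (T 3) : Q0 k) = of (T 1) ^ 3 := by rw [← map_pow, T_pow]; norm_num
  have tm2 : (of (T (-2)) : Q0 k) = of (T (-1)) ^ 2 := by rw [← map_pow, T_pow]; norm_num
  have tm3 : (of (T (-3)) : Q0 k) = of (T (-1)) ^ 3 := by rw [← map_pow, T_pow]; norm_num
  have c3 : (of (C 3) : Q0 k) = 3 := by
    have : (C 3 : LaurentPolynomial k) = 3 := map_ofNat _ 3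
    rw [this]; exact map_ofNat _ 3
  have c2 : (of (C 2) : Q0 k) = 2 := by
    have : (C 2 : LaurentPolynomial k) = 2 := map_ofNat _ 2
    rw [this]; exact map_ofNat _ 2
  simp only [map_add, map_sub, map_mul, map_pow, map_ofNat, hxr, hxr', hyr, hwr, hcr] at r0 r1 r2 l2 l3
  have r0' : red a1 = -(of (T (-1)) ^ 2 * red a0) := by
    linear_combination of (T (-1)) * r0 - red a1 * q0'
  refine inf_versal h6 t (red a0) (red a2) (red a3) (pos_red m2) (pos_red m3) ?_ ?_ ?_ ?_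
  · linear_combination r1
  · simp only [map_mul]
    rw [tp2, tp3, c3]
    linear_combination r2
  · rw [tm2]
    convert l2 using 1
    rw [r0']
    ring
  · rw [map_mul, tm2, tm3, c2]
    convert l3 using 1
    rw [r0']
    ring

theorem versal (h6 : (6 : k) ≠ 0) (t : Fin 6 → k) (h : TrivialDeformation t) : t = 0 := by
  obtain ⟨e, he1, he2, heg⟩ := h
  exact versal_aux h6 t _ (fun i => by ext <;> simp) e he1 he2 heg

end

end Pool.Agent.PRank
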